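import Pool.Agent.MP_1c0fc2_co.GR.Defs

open Function

namespace Pool.Agent.MP_1c0fc2_co.GR

variable {K I : Type} {cl : K → I}

section xamale
variable {S X G Q : Type}

/-- the pushout of sets -/
abbrev xamaleP (Q G : Type) (σ : S → X) : Type := G ⊕ Q × {x : X // ¬ ∃ u, σ u = x}

open Classical in
/-- the inclusion of a copy -/
noncomputable def xamaleI (σ : S → X) (q : Q → S → G) (a : Q) (x : X) : xamaleP Q G σ :=
  if h : ∃ u, σ u = x then .inl (q a h.choose) else .inr (a, ⟨x, h⟩)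

theorem xamale_pos {σ : S → X} (hσ : Injective σ) (q : Q → S → G) (a : Q) (u : S) :
    xamaleI σ q a (σ u) = .inl (q a u) := by
  have h : ∃ u', σ u' = σ u := ⟨u, rfl⟩
  rw [xamaleI, dif_pos h, hσ h.choose_spec]

theorem xamale_neg {σ : S → X} (q : Q → S → G) (a : Q) {x : X} (h : ¬ ∃ u, σ u = x) :
    xamaleI σ q a x = .inr (a, ⟨x, h⟩) := dif_neg h

theorem xamale_inj {σ : S → X} (hσ : Injective σ) {q : Q → S → G} {a : Q} (hq : Injective (q a)) :
    Injective (xamaleI σ q a) := by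
  intro x y h
  by_cases hx : ∃ u, σ u = x <;> by_cases hy : ∃ u, σ u = y
  · obtain ⟨u, rfl⟩ := hx
    obtain ⟨w, rfl⟩ := hy
    rw [xamale_pos hσ, xamale_pos hσ] at h
    rw [hq (Sum.inl.inj h)]
  · obtain ⟨u, rfl⟩ := hx
    rw [xamale_pos hσ, xamale_neg q a hy] at h
    cases h
  · obtain ⟨w, rfl⟩ := hy
    rw [xamale_pos hσ, xamale_neg q a hx] at h
    cases h
  · rw [xamale_neg q a hx, xamale_neg q a hy] at h
    exact congrArg (fun p => p.2.1) (Sum.inr.inj h)

theorem xamale_cover (σ : S → X) (q : Q → S → G) (z : xamaleP Q G σ) :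
    (∃ w, Sum.inl w = z) ∨ ∃ a x, xamaleI σ q a x = z := by
  rcases z with w | ⟨a, x, h⟩
  · exact Or.inl ⟨w, rfl⟩
  · exact Or.inr ⟨a, x, xamale_neg q a h⟩

theorem xamale_shared {σ : S → X} {q : Q → S → G} {a : Q} {x : X} {w : G}
    (h : xamaleI σ q a x = .inl w) : ∃ u, σ u = x := by
  by_contra hx
  rw [xamale_neg q a hx] at h
  cases h

theorem xamale_sep {σ : S → X} (hσ : Injective σ) {q : Q → S → G} {a b : Q} {x y : X}
    (h : xamaleI σ q a x = xamaleI σ q b y) : a = b ∨ ∃ u, σ u = x := by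
  by_cases hy : ∃ u, σ u = y
  · obtain ⟨w, rfl⟩ := hy
    rw [xamale_pos hσ] at h
    exact Or.inr (xamale_shared h)
  · by_cases hx : ∃ u, σ u = x
    · exact Or.inr hx
    · rw [xamale_neg q a hx, xamale_neg q b hy] at h
      exact Or.inl (congrArg Prod.fst (Sum.inr.inj h))

theorem xamale_elim {T : Type} {σ : S → X} (hσ : Injective σ) {q : Q → S → G} (a : Q) (f : G → T)
    (g : X → T) (h : ∀ u, f (q a u) = g (σ u)) (x : X) :
    Sum.elim f (fun p => g p.2.1) (xamaleI σ q a x) = g x := by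
  by_cases hx : ∃ u, σ u = x
  · obtain ⟨u, rfl⟩ := hx
    rw [xamale_pos hσ]
    exact h u
  · rw [xamale_neg q a hx]
    rfl

end xamale

theorem xamale_con [Finite K] {X H : HG cl} (ψ : Hom X H) (e : H.E) (u : (Con ψ e).V) :
    ψ.v ((conEmb ψ e).v u) = H.inc e u.1.1 := by
  obtain ⟨⟨k, v⟩, f, hf, h⟩ := u
  have := ψ.inc_e f k
  rw [hf] at this
  exact (congrArg ψ.v h).symm.trans this.symm

/-- the amalgam -/
@[reducible] noncomputable def xamaleZ [Finite K] {X H : HG cl} (ψ : Hom X H) (e : H.E)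
    {G : HG (id : K → K)} {Q : Type} [Finite Q] (q : Q → Emb (Con ψ e) G) : HG cl where
  V := xamaleP Q G.V (conEmb ψ e).v
  E := xamaleP Q G.E (conEmb ψ e).e
  vc := Sum.elim (fun w => cl (G.vc w)) fun p => X.vc p.2.1
  inc := Sum.elim (fun y k => .inl (G.inc y k))
    fun p k => xamaleI (conEmb ψ e).v (fun a => (q a).v) p.1 (X.inc p.2.1 k)
  inc_inj := by
    rintro (y | p)
    · exact Sum.inl_injective.comp (G.inc_inj y)
    · exact (xamale_inj (q := fun a => (q a).v) (a := p.1) (conEmb ψ e).v_inj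
        (q p.1).v_inj).comp (X.inc_inj p.2.1)
  vc_inc := by
    rintro (y | p) k
    · exact congrArg cl (G.vc_inc y k)
    · exact (xamale_elim (q := fun a => (q a).v) (conEmb ψ e).v_inj p.1 (fun w => cl (G.vc w)) X.vc
        (fun u => (congrArg cl ((q p.1).vc_v u)).trans ((conEmb ψ e).vc_v u).symm) _).trans
        (X.vc_inc _ k)

theorem xamale_on {F H : HG cl} (φ : Hom F H) {v : F.V} {f : F.E} (h : F.On v f) :
    H.On (φ.v v) (φ.e f) := by
  obtain ⟨k, rfl⟩ := h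
  exact ⟨k, φ.inc_e f k⟩

theorem xamale_pull {F H : HG cl} (φ : Emb F H) (hF : F.Lin) {f f' : F.E} {u v : H.V}
    (huv : u ≠ v) (h1 : H.On u (φ.e f)) (h2 : H.On v (φ.e f)) (h3 : H.On u (φ.e f'))
    (h4 : H.On v (φ.e f')) : f = f' := by
  obtain ⟨k1, rfl⟩ := h1
  obtain ⟨k2, rfl⟩ := h2
  obtain ⟨k3, h3⟩ := h3
  obtain ⟨k4, h4⟩ := h4
  rw [φ.inc_e, φ.inc_e] at huv h3 h4
  exact hF f f' _ _ (fun h => huv (congrArg φ.v h)) ⟨k1, rfl⟩ ⟨k2, rfl⟩ ⟨k3, φ.v_inj h3⟩
    ⟨k4, φ.v_inj h4⟩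

theorem amal_exists [Finite K] {X H : HG cl} (ψ : Hom X H) (e : H.E) {G : HG (id : K → K)}
    {Q : Type} [Finite Q] (q : Q → Emb (Con ψ e) G) : Nonempty (Amal ψ e q) := by
  have hv : ∀ a x, Sum.elim (fun w => H.inc e (G.vc w)) (fun p => ψ.v p.2.1)
      (xamaleI (conEmb ψ e).v (fun a => (q a).v) a x) = ψ.v x := fun a =>
    xamale_elim (conEmb ψ e).v_inj a _ ψ.v fun u =>
      (congrArg (H.inc e) ((q a).vc_v u)).trans (xamale_con ψ e u).symm
  exact ⟨{
    Z := xamaleZ ψ e q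
    ψ' :=
      { v := Sum.elim (fun w => H.inc e (G.vc w)) fun p => ψ.v p.2.1
        e := Sum.elim (fun _ => e) fun p => ψ.e p.2.1
        vc_v := by
          rintro (w | p)
          · exact H.vc_inc e _
          · exact ψ.vc_v _
        inc_e := by
          rintro (y | p) k
          · exact congrArg (H.inc e) (G.vc_inc y k).symm
          · exact (ψ.inc_e _ k).trans (hv _ _).symm }
    ι := fun a =>
      { v := xamaleI (conEmb ψ e).v (fun a => (q a).v) a
        e := xamaleI (conEmb ψ e).e (fun a => (q a).e) a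
        vc_v := xamale_elim (conEmb ψ e).v_inj a (fun w => cl (G.vc w)) X.vc
          fun u => (congrArg cl ((q a).vc_v u)).trans ((conEmb ψ e).vc_v u).symm
        inc_e := fun f k => by
          by_cases hf : ∃ u, (conEmb ψ e).e u = f
          · obtain ⟨u, rfl⟩ := hf
            rw [xamale_pos (conEmb ψ e).e_inj, (conEmb ψ e).inc_e, xamale_pos (conEmb ψ e).v_inj]
            exact congrArg Sum.inl ((q a).inc_e u k)
          · rw [xamale_neg _ a hf]
            rfl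
        v_inj := xamale_inj (conEmb ψ e).v_inj (q a).v_inj
        e_inj := xamale_inj (conEmb ψ e).e_inj (q a).e_inj }
    j :=
      { v := Sum.inl
        e := Sum.inl
        vc_v := fun _ => rfl
        inc_e := fun _ _ => rfl
        v_inj := Sum.inl_injective
        e_inj := Sum.inl_injective }
    ι_v := hv
    ι_e := fun a => xamale_elim (q := fun a => (q a).e) (conEmb ψ e).e_inj a (fun _ => e) ψ.e
      fun u => u.2.symm
    j_v := fun _ => rfl
    j_e := fun _ => rfl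
    comm_v := xamale_pos (conEmb ψ e).v_inj fun a => (q a).v
    comm_e := xamale_pos (conEmb ψ e).e_inj fun a => (q a).e
    cover_v := xamale_cover (conEmb ψ e).v fun a => (q a).v
    cover_e := xamale_cover (conEmb ψ e).e fun a => (q a).e
    shared_v := fun a x w => xamale_shared (σ := (conEmb ψ e).v) (q := fun a => (q a).v) (a := a)
      (x := x) (w := w)
    sep_v := fun a b x y => xamale_sep (q := fun a => (q a).v) (a := a) (b := b) (x := x) (y := y)
      (conEmb ψ e).v_inj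
    sep_e := fun a b f f' h => (xamale_sep (q := fun a => (q a).e) (a := a) (b := b) (x := f)
      (y := f') (conEmb ψ e).e_inj h).imp_right fun ⟨u, hu⟩ => hu ▸ u.2 }⟩

theorem Amal.over_e [Finite K] {X H : HG cl} {ψ : Hom X H} {e : H.E} {G : HG (id : K → K)}
    {Q : Type} {q : Q → Emb (Con ψ e) G} (A : Amal ψ e q) {z : A.Z.E} (hz : A.ψ'.e z = e) :
    ∃ y, A.j.e y = z := by
  rcases A.cover_e z with h | ⟨a, f, rfl⟩
  · exact h
  · rw [A.ι_e] at hz
    exact ⟨_, (A.comm_e a ⟨f, hz⟩).symm⟩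

theorem Amal.lin [Finite K] {X H : HG cl} {ψ : Hom X H} {e : H.E} {G : HG (id : K → K)}
    {Q : Type} {q : Q → Emb (Con ψ e) G} (A : Amal ψ e q) (hH : H.Lin) (hX : X.Lin)
    (hG : G.Lin) : A.Z.Lin := by
  intro z z' u v huv h1 h2 h3 h4
  have hne : A.ψ'.v u ≠ A.ψ'.v v := by
    obtain ⟨k, rfl⟩ := h1
    obtain ⟨k', rfl⟩ := h2
    rw [← A.ψ'.inc_e, ← A.ψ'.inc_e]
    exact fun h => huv (congrArg _ (H.inc_inj _ h))
  have hz := hH _ _ _ _ hne (xamale_on A.ψ' h1) (xamale_on A.ψ' h2) (xamale_on A.ψ' h3)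
    (xamale_on A.ψ' h4)
  by_cases he : A.ψ'.e z = e
  · obtain ⟨y, rfl⟩ := A.over_e he
    obtain ⟨y', rfl⟩ := A.over_e (hz ▸ he)
    rw [xamale_pull A.j hG huv h1 h2 h3 h4]
  · obtain ⟨a, f, rfl⟩ := (A.cover_e z).resolve_left fun ⟨y, h⟩ => he (h ▸ A.j_e y)
    obtain ⟨b, f', rfl⟩ := (A.cover_e z').resolve_left fun ⟨y, h⟩ => he (hz ▸ h ▸ A.j_e y)
    by_cases hab : a = b
    · subst hab
      rw [xamale_pull (A.ι a) hX huv h1 h2 h3 h4]
    · have key : ∀ w, A.Z.On w ((A.ι a).e f) → A.Z.On w ((A.ι b).e f') → H.On (A.ψ'.v w) e := by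
        rintro w ⟨k, rfl⟩ ⟨k', h⟩
        rw [(A.ι a).inc_e, (A.ι b).inc_e] at h
        obtain ⟨x, hx⟩ := (A.sep_v a b _ _ h.symm).resolve_left hab
        rw [(A.ι a).inc_e, ← hx, A.comm_v, A.j_v]
        exact ⟨_, rfl⟩
      exact absurd (hH _ _ _ _ hne (xamale_on A.ψ' h1) (xamale_on A.ψ' h2) (key u h1 h3)
        (key v h2 h4)) he

end Pool.Agent.MP_1c0fc2_co.GR
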