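import Pool.Agent.MP_1c0fc2_co.GR.TL

open Function

namespace Pool.Agent.MP_1c0fc2_co.GR

variable {A B : Geo} {P : Type} {φ : P → GHom A B} {g : ℕ}

theorem xatom_mem {α : Type} (b : α) : ∀ (l : List α) (x : α), x ∈ l →
    ∃ y, (x, y) ∈ path (l ++ [b])
  | [], _, h => by simp at h
  | [a], x, h => by
    have : x = a := by simpa using h
    subst this
    exact ⟨b, by simp [path]⟩
  | a :: c :: t, x, h => by
    rcases List.mem_cons.1 h with rfl | h
    · exact ⟨c, by simp [path]⟩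
    · obtain ⟨y, hy⟩ := xatom_mem b (c :: t) x h
      exact ⟨y, by
        simp only [List.cons_append, path] at hy ⊢
        exact List.mem_cons_of_mem _ hy⟩

theorem xatom_chain (C : Finset B.V)
    (hconn : ∀ a ∈ C, ∀ b ∈ C, Relation.ReflTransGen
      (fun u v => u ∈ C ∧ v ∈ C ∧ Adj φ (.inl u) (.inl v)) a b)
    {y : B.N} {a b : B.V} (ha : a ∈ C) (hb : b ∈ C) (hyb : Adj φ y (.inl b)) :
    ∃ c : List B.V, (a :: c).Nodup ∧ (∀ u ∈ a :: c, u ∈ C) ∧
      ∀ p ∈ path (((a :: c).map Sum.inl : List B.N) ++ [y]), Adj φ p.1 p.2 := by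
  rcases exists_nodup_chain _ (hconn a ha b hb) with rfl | ⟨c, hn, hc⟩
  · refine ⟨[], by simp, by simpa using ha, ?_⟩
    intro p hp
    have : p = (Sum.inl a, y) := by simpa [path] using hp
    subst this
    exact hyb.symm
  · refine ⟨c ++ [b], hn, ?_, ?_⟩
    · intro u hu
      have hu' : u ∈ (a :: c) ++ [b] := by simpa using hu
      rcases List.mem_append.1 hu' with h1 | h1
      · obtain ⟨v, hv⟩ := xatom_mem b (a :: c) u h1
        exact (hc (u, v) (by simpa using hv)).1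
      · have : u = b := by simpa using h1
        subst this
        exact hb
    · intro p hp
      have e1 : (((a :: (c ++ [b])).map Sum.inl : List B.N) ++ [y]) =
          ((a :: c).map Sum.inl : List B.N) ++ Sum.inl b :: [y] := by simp
      have e2 : ((a :: c).map Sum.inl : List B.N) ++ [Sum.inl b] =
          (a :: (c ++ [b])).map Sum.inl := by simp
      rw [e1, path_append, e2, path_map] at hp
      rcases List.mem_append.1 hp with h1 | h1
      · obtain ⟨q, hq, rfl⟩ := List.mem_map.1 h1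
        exact (hc q hq).2.2
      · have : p = (Sum.inl b, y) := by simpa [path] using h1
        subst this
        exact hyb.symm

theorem xatom_str {h : GHom A B} (hs : h.Str) {x y : B.V} {d : B.C} (hxy : x ≠ y)
    (hx : h.Bag (.inl x)) (hy : h.Bag (.inl y)) (hxd : B.M x d) (hyd : B.M y d) :
    h.Bag (.inr d) := by
  obtain ⟨x', rfl⟩ := (h.bag_inl x).1 hx
  obtain ⟨y', rfl⟩ := (h.bag_inl y).1 hy
  exact (h.bag_inr d).2 (hs x' y' d (fun e => hxy (congrArg h.v e)) hxd hyd)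

theorem atom_two (h : AC φ (2 * g + 4) (2 * g + 4)) (C : Finset B.V) (hC : C.card ≤ g)
    (hconn : ∀ a ∈ C, ∀ b ∈ C, Relation.ReflTransGen
      (fun u v => u ∈ C ∧ v ∈ C ∧ Adj φ (.inl u) (.inl v)) a b)
    {x y : B.N} (hxy : x ≠ y) (hadj : Adj φ x y) (hx : ∀ a ∈ C, x ≠ .inl a)
    (hy : ∀ a ∈ C, y ≠ .inl a) (ha : ∃ a ∈ C, Adj φ x (.inl a))
    (hb : ∃ b ∈ C, Adj φ y (.inl b)) : ∃ a ∈ C, InBag φ [x, y, .inl a] := by
  classical
  obtain ⟨a, haC, hxa⟩ := ha
  obtain ⟨b, hbC, hyb⟩ := hb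
  obtain ⟨c, hn, hm, hp⟩ := xatom_chain C hconn haC hbC hyb
  have hlen : (a :: c).length ≤ g := by
    rw [← List.toFinset_card_of_nodup hn]
    exact le_trans (Finset.card_le_card (fun u hu => hm u (List.mem_toFinset.1 hu))) hC
  have hlen' : (y :: x :: ((a :: c).map Sum.inl : List B.N)).length ≤ g + 2 := by
    simp only [List.length_cons, List.length_map] at hlen ⊢
    omega
  have hcyc : Cyc (Adj φ) (2 * g + 4) (2 * g + 4) (y :: x :: ((a :: c).map Sum.inl)) := by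
    refine ⟨?_, ?_, ?_, ?_, ?_⟩
    · refine List.nodup_cons.2 ⟨?_, List.nodup_cons.2 ⟨?_, hn.map Sum.inl_injective⟩⟩
      · intro hy'
        rcases List.mem_cons.1 hy' with e | hy'
        · exact hxy e.symm
        · obtain ⟨u, hu, e⟩ := List.mem_map.1 hy'
          exact hy u (hm u hu) e.symm
      · intro hx'
        obtain ⟨u, hu, e⟩ := List.mem_map.1 hx'
        exact hx u (hm u hu) e.symm
    · simp
    · omega
    · have := wsum_le (y :: x :: ((a :: c).map Sum.inl : List B.N))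
      omega
    · intro p hp'
      rw [steps_two] at hp'
      rcases List.mem_cons.1 hp' with rfl | hp'
      · exact hadj.symm
      · have e : path (x :: (((a :: c).map Sum.inl : List B.N) ++ [y])) =
            (x, Sum.inl a) :: path (((a :: c).map Sum.inl : List B.N) ++ [y]) := by
          simp [path]
        rw [e] at hp'
        rcases List.mem_cons.1 hp' with rfl | hp'
        · exact hxa
        · exact hp p hp'
  obtain ⟨z, hz, hzy, hzx, hin⟩ := tri_of_step h hcyc (x := y) (y := x)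
    (by rw [steps_two]; exact List.mem_cons_self)
  rcases List.mem_cons.1 hz with e | hz
  · exact absurd e hzy
  rcases List.mem_cons.1 hz with e | hz
  · exact absurd e hzx
  obtain ⟨u, hu, rfl⟩ := List.mem_map.1 hz
  refine ⟨u, hm u hu, hin.sub ?_⟩
  intro t ht
  simp only [List.mem_cons, List.not_mem_nil, or_false] at ht ⊢
  tauto

theorem atom_edge (hB : Basic φ) (h : AC φ (2 * g + 4) (2 * g + 4))
    (h2 : ∀ d u v x, B.M u d → B.M v d → B.M x d → u = v ∨ u = x ∨ v = x)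
    (C : Finset B.V) (hC : C.card ≤ g)
    (hconn : ∀ a ∈ C, ∀ b ∈ C, Relation.ReflTransGen
      (fun u v => u ∈ C ∧ v ∈ C ∧ Adj φ (.inl u) (.inl v)) a b)
    (p : P) (hp : ∀ a ∈ C, ¬ (φ p).Bag (.inl a)) {x y : B.V} (hxy : x ≠ y)
    (hx : (φ p).Bag (.inl x)) (hy : (φ p).Bag (.inl y)) (ha : ∃ a ∈ C, Adj φ (.inl x) (.inl a))
    (hb : ∃ b ∈ C, Adj φ (.inl y) (.inl b)) :
    ∃ d, B.M x d ∧ B.M y d ∧ (φ p).Bag (.inr d) ∧ ∃ a ∈ C, ∃ p', (φ p').Bag (.inl x) ∧
      (φ p').Bag (.inl y) ∧ (φ p').Bag (.inl a) ∧ (φ p').Bag (.inr d) := by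
  have hxa : ∀ a ∈ C, x ≠ a := fun a haC e => hp a haC (e ▸ hx)
  have hya : ∀ a ∈ C, y ≠ a := fun a haC e => hp a haC (e ▸ hy)
  have hne : (Sum.inl x : B.N) ≠ Sum.inl y := fun e => hxy (Sum.inl_injective e)
  obtain ⟨a, haC, hin⟩ := atom_two h C hC hconn hne (Or.inl ⟨p, hx, hy⟩)
    (fun a haC e => hxa a haC (Sum.inl_injective e))
    (fun a haC e => hya a haC (Sum.inl_injective e)) ha hb
  rcases hin with ⟨p', hp'⟩ | ⟨d, hd⟩
  · have h1 := hp' (.inl x) (by simp)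
    have h2' := hp' (.inl y) (by simp)
    have h3 := hp' (.inl a) (by simp)
    have hpp : p ≠ p' := fun e => hp a haC (e ▸ h3)
    obtain ⟨d, hxd, hyd⟩ := hB.b2 p p' _ _ hpp hne hx hy h1 h2'
    exact ⟨d, hxd, hyd, xatom_str (hB.str p) hxy hx hy hxd hyd, a, haC, p', h1, h2', h3,
      xatom_str (hB.str p') hxy h1 h2' hxd hyd⟩
  · have h1 : B.M x d := hd (.inl x) (by simp)
    have h2' : B.M y d := hd (.inl y) (by simp)
    have h3 : B.M a d := hd (.inl a) (by simp)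
    rcases h2 d x y a h1 h2' h3 with e | e | e
    · exact absurd e hxy
    · exact absurd e (hxa a haC)
    · exact absurd e (hya a haC)

theorem atom_three (hB : Basic φ) (h : AC φ (2 * g + 4) (2 * g + 4))
    (h2 : ∀ d u v x, B.M u d → B.M v d → B.M x d → u = v ∨ u = x ∨ v = x)
    (C : Finset B.V) (hC : C.card ≤ g)
    (hconn : ∀ a ∈ C, ∀ b ∈ C, Relation.ReflTransGen
      (fun u v => u ∈ C ∧ v ∈ C ∧ Adj φ (.inl u) (.inl v)) a b)
    (p : P) (hp : ∀ a ∈ C, ¬ (φ p).Bag (.inl a)) {x y z : B.V}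
    (hx : (φ p).Bag (.inl x)) (hy : (φ p).Bag (.inl y)) (hz : (φ p).Bag (.inl z))
    (ha : ∃ a ∈ C, Adj φ (.inl x) (.inl a)) (hb : ∃ b ∈ C, Adj φ (.inl y) (.inl b))
    (hc : ∃ c ∈ C, Adj φ (.inl z) (.inl c)) : x = y ∨ x = z ∨ y = z := by
  by_contra hne
  have hxy : x ≠ y := fun e => hne (Or.inl e)
  have hxz : x ≠ z := fun e => hne (Or.inr (Or.inl e))
  obtain ⟨d1, hx1, hy1, hp1, a1, ha1, p1, -, -, h11, h12⟩ :=
    atom_edge hB h h2 C hC hconn p hp hxy hx hy ha hb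
  obtain ⟨d2, hx2, hz2, hp2, a2, ha2, p2, -, -, h21, h22⟩ :=
    atom_edge hB h h2 C hC hconn p hp hxz hx hz ha hc
  have hd : d1 ≠ d2 := by
    intro e
    subst e
    exact hne (h2 d1 x y z hx1 hy1 hz2)
  have hd' : (Sum.inr d1 : B.N) ≠ Sum.inr d2 := fun e => hd (Sum.inr_injective e)
  obtain ⟨a, haC, hin⟩ := atom_two h C hC hconn hd' (Or.inl ⟨p, hp1, hp2⟩)
    (fun _ _ => Sum.inr_ne_inl) (fun _ _ => Sum.inr_ne_inl)
    ⟨a1, ha1, Or.inl ⟨p1, h12, h11⟩⟩ ⟨a2, ha2, Or.inl ⟨p2, h22, h21⟩⟩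
  rcases hin with ⟨p', hp'⟩ | ⟨d, hdd⟩
  · have h1 := hp' (.inr d1) (by simp)
    have h2' := hp' (.inr d2) (by simp)
    have h3 := hp' (.inl a) (by simp)
    have hpp : p ≠ p' := fun e => hp a haC (e ▸ h3)
    exact Geo.not_wp_inr hd (hB.b2 p p' _ _ hpp hd' hp1 hp2 h1 h2')
  · have h1 : d1 = d := hdd (.inr d1) (by simp)
    have h2' : d2 = d := hdd (.inr d2) (by simp)
    exact hd (h1.trans h2'.symm)

end Pool.Agent.MP_1c0fc2_co.GR
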