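import Pool.Agent.MP_1c0fc2_co.GR.CloseB

open Function

namespace Pool.Agent.MP_1c0fc2_co.GR

variable {F S X G Z : Geo} {P Q : Type} {σ : GHom S X} {q : Q → GHom S G} {ι : Q → GHom X Z}
  {j : GHom G Z} {φ : P → GHom F X} {w n : ℕ}

theorem xclose0_bag {a : Q} {r : P} {x : Z.N} (hx : (prodSys ι φ (a, r)).Bag x) :
    ∃ y, (φ r).Bag y ∧ (ι a).n y = x :=
  (GHom.bag_comp (ι a) (φ r) x).1 hx

theorem GAmal.b2_zero (h : GAmal σ q ι j) (h0 : Lev0 σ φ) (h2 : B2 φ) : B2 (prodSys ι φ) := by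
  rintro ⟨a, r⟩ ⟨b, r'⟩ x y hp hxy hx hy hx' hy'
  obtain ⟨x0, hx0, rfl⟩ := xclose0_bag hx
  obtain ⟨y0, hy0, rfl⟩ := xclose0_bag hy
  obtain ⟨x1, hx1, ex⟩ := xclose0_bag hx'
  obtain ⟨y1, hy1, ey⟩ := xclose0_bag hy'
  have hne : x0 ≠ y0 := fun e => hxy (by rw [e])
  by_cases hab : a = b
  · subst hab
    obtain rfl := (ι a).n_inj ex
    obtain rfl := (ι a).n_inj ey
    exact (ι a).wp (h2 r r' x1 y1 (fun e => hp (by rw [e])) hne hx0 hy0 hx1 hy1)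
  · obtain ⟨x', hx', -⟩ := h.two hab ⟨x0, rfl⟩ ⟨x1, ex⟩
    obtain ⟨y', hy', -⟩ := h.two hab ⟨y0, rfl⟩ ⟨y1, ey⟩
    exact (ι a).wp (h0.meet r x0 y0 hne hx0 hy0 (h.shared a x0 x' hx'.symm)
      (h.shared a y0 y' hy'.symm))

theorem xclose0_cv (h : GAmal σ q ι j) (a : Q) (u : S.V) :
    (ι a).v (σ.v u) = j.v ((q a).v u) :=
  Sum.inl.inj (h.comm a (.inl u))

theorem xclose0_cc (h : GAmal σ q ι j) (a : Q) (d : S.C) :
    (ι a).c (σ.c d) = j.c ((q a).c d) :=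
  Sum.inr.inj (h.comm a (.inr d))

theorem xclose0_sh (h : GAmal σ q ι j) (a : Q) {x : X.N} (hx : σ.Bag x) :
    j.Bag ((ι a).n x) := by
  obtain ⟨u, rfl⟩ := hx
  exact ⟨_, (h.comm a u).symm⟩

theorem xclose0_full (h : GAmal σ q ι j) (h0 : Lev0 σ φ) {v : Z.V} {c : G.C}
    (hm : Z.M v (j.c c)) : ∃ v', j.v v' = v ∧ G.M v' c := by
  rcases h.inc v _ hm with ⟨v', c', e1, e2, hm'⟩ | ⟨a, v', c', e1, e2, hm'⟩
  · obtain rfl := j.c_inj e2
    exact ⟨v', e1, hm'⟩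
  · obtain ⟨d, rfl⟩ := (σ.bag_inr c').1 (h.shared a (.inr c') (.inr c) (congrArg Sum.inr e2))
    obtain ⟨u, rfl⟩ := h0.full v' d hm'
    rw [xclose0_cc h] at e2
    obtain rfl := j.c_inj e2
    exact ⟨(q a).v u, (xclose0_cv h a u).symm.trans e1, (q a).map _ _ (h0.ind u d hm')⟩

theorem xclose0_wb (h : GAmal σ q ι j) (h0 : Lev0 σ φ) {x : Z.N} {c : G.C}
    (hm : Z.WB (j.c c) x) : ∃ x', j.n x' = x ∧ G.WB c x' := by
  rcases x with v | d
  · obtain ⟨v', e, hm'⟩ := xclose0_full h h0 (show Z.M v (j.c c) from hm)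
    exact ⟨.inl v', congrArg Sum.inl e, hm'⟩
  · exact ⟨.inr c, congrArg Sum.inr (show d = j.c c from hm).symm, rfl⟩

theorem xclose0_un (h : GAmal σ q ι j) {a : Q} {c : X.C} (hc : ¬ j.Bag (.inr ((ι a).c c)))
    {x : Z.N} (hm : Z.WB ((ι a).c c) x) : ∃ x', (ι a).n x' = x ∧ X.WB c x' := by
  rcases x with v | d
  · rcases h.inc v _ (show Z.M v ((ι a).c c) from hm) with
      ⟨v', c', e1, e2, hm'⟩ | ⟨b, v', c', e1, e2, hm'⟩
    · exact absurd ⟨.inr c', congrArg Sum.inr e2⟩ hc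
    · rcases h.sep a b (.inr c) (.inr c') (congrArg Sum.inr e2.symm) with rfl | hs
      · obtain rfl := (ι a).c_inj e2
        exact ⟨.inl v', congrArg Sum.inl e1, hm'⟩
      · exact absurd (xclose0_sh h a hs) hc
  · exact ⟨.inr c, congrArg Sum.inr (show d = (ι a).c c from hm).symm, rfl⟩

theorem xclose0_cases (h : GAmal σ q ι j) (d : Z.C) :
    (∃ c, j.c c = d) ∨ ∃ a c, (ι a).c c = d ∧ ¬ j.Bag (.inr d) := by
  by_cases hd : j.Bag (.inr d)
  · exact .inl ((j.bag_inr d).1 hd)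
  · rcases h.cover (.inr d) with h' | ⟨a, h'⟩
    · exact absurd h' hd
    · obtain ⟨c, e⟩ := ((ι a).bag_inr d).1 h'
      exact .inr ⟨a, c, e, hd⟩

theorem xclose0_str (h : GAmal σ q ι j) (h0 : Lev0 σ φ) (hq : Basic q) (a : Q) :
    (ι a).Str := by
  intro x y d hxy hx hy
  rcases xclose0_cases h d with ⟨c, rfl⟩ | ⟨b, c, rfl, hd⟩
  · obtain ⟨x', ex, hx'⟩ := xclose0_full h h0 hx
    obtain ⟨y', ey, hy'⟩ := xclose0_full h h0 hy
    obtain ⟨u, rfl⟩ := ((q a).bag_inl x').1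
      ((h.bag_iff a (.inl x')).1 ⟨.inl x, congrArg Sum.inl ex.symm⟩)
    obtain ⟨u', rfl⟩ := ((q a).bag_inl y').1
      ((h.bag_iff a (.inl y')).1 ⟨.inl y, congrArg Sum.inl ey.symm⟩)
    have hne : u ≠ u' := by
      rintro rfl
      exact hxy ((ι a).v_inj (ex.symm.trans ey))
    obtain ⟨c0, rfl⟩ := hq.str a u u' c hne hx' hy'
    exact ⟨σ.c c0, xclose0_cc h a c0⟩
  · by_cases hab : b = a
    · subst hab
      exact ⟨c, rfl⟩
    · exfalso
      obtain ⟨x', ex, hx'⟩ := xclose0_un h hd (x := .inl ((ι a).v x)) hx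
      obtain ⟨y', ey, hy'⟩ := xclose0_un h hd (x := .inl ((ι a).v y)) hy
      have sx := (h.sep b a x' (.inl x) ex).resolve_left hab
      have sy := (h.sep b a y' (.inl y) ey).resolve_left hab
      rcases x' with x' | x'
      swap
      · exact Sum.inr_ne_inl ex
      rcases y' with y' | y'
      swap
      · exact Sum.inr_ne_inl ey
      obtain ⟨u, rfl⟩ := (σ.bag_inl x').1 sx
      obtain ⟨u', rfl⟩ := (σ.bag_inl y').1 sy
      have hne : u ≠ u' := by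
        rintro rfl
        exact hxy ((ι a).v_inj (Sum.inl.inj (ex.symm.trans ey)))
      obtain ⟨c0, rfl⟩ := h0.str u u' c hne hx' hy'
      exact hd (xclose0_sh h b (x := .inr (σ.c c0)) ⟨.inr c0, rfl⟩)

theorem xclose0_loc (h : GAmal σ q ι j) (h0 : Lev0 σ φ) {x y : Z.N}
    (hxy : Adj (prodSys ι φ) x y) : Loc ι j x y := by
  rcases hxy with ⟨⟨a, r⟩, hx, hy⟩ | ⟨d, hx, hy⟩
  · obtain ⟨x0, -, ex⟩ := xclose0_bag hx
    obtain ⟨y0, -, ey⟩ := xclose0_bag hy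
    exact .inl ⟨a, ⟨x0, ex⟩, ⟨y0, ey⟩⟩
  · rcases xclose0_cases h d with ⟨c, rfl⟩ | ⟨b, c, rfl, hd⟩
    · obtain ⟨x', ex, hx'⟩ := xclose0_wb h h0 hx
      obtain ⟨y', ey, hy'⟩ := xclose0_wb h h0 hy
      exact .inr ⟨x', y', ex, ey, c, hx', hy'⟩
    · obtain ⟨x', ex, -⟩ := xclose0_un h hd hx
      obtain ⟨y', ey, -⟩ := xclose0_un h hd hy
      exact .inl ⟨b, ⟨x', ex⟩, ⟨y', ey⟩⟩

theorem xclose0_tr (h : GAmal σ q ι j) (h0 : Lev0 σ φ) {a : Q} {x0 y0 : X.N} {x y : G.N}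
    (hxy : x ≠ y) (ex : (ι a).n x0 = j.n x) (ey : (ι a).n y0 = j.n y)
    (hw : σ.Bag x0 → σ.Bag y0 → X.WP x0 y0) : G.WP x y := by
  have sx := h.shared a x0 x ex
  have sy := h.shared a y0 y ey
  have hw' := hw sx sy
  obtain ⟨x1, rfl⟩ := sx
  obtain ⟨y1, rfl⟩ := sy
  rw [h.comm] at ex ey
  obtain rfl := j.n_inj ex
  obtain rfl := j.n_inj ey
  exact (q a).wp (GHom.wp_pull h0.ind h0.str (fun e => hxy (by rw [e])) hw')

theorem xclose0_gw (h : GAmal σ q ι j) (h0 : Lev0 σ φ) {x y : G.N} (hne : x ≠ y)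
    (hxy : Adj (prodSys ι φ) (j.n x) (j.n y)) : G.WP x y := by
  rcases hxy with ⟨⟨a, r⟩, hx, hy⟩ | ⟨d, hx, hy⟩
  · obtain ⟨x0, bx, ex⟩ := xclose0_bag hx
    obtain ⟨y0, bY, ey⟩ := xclose0_bag hy
    refine xclose0_tr h h0 hne ex ey (h0.meet r x0 y0 ?_ bx bY)
    rintro rfl
    exact hne (j.n_inj (ex.symm.trans ey))
  · rcases xclose0_cases h d with ⟨c, rfl⟩ | ⟨b, c, rfl, hd⟩
    · obtain ⟨x', ex, hx'⟩ := xclose0_wb h h0 hx
      obtain ⟨y', ey, hy'⟩ := xclose0_wb h h0 hy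
      obtain rfl := j.n_inj ex
      obtain rfl := j.n_inj ey
      exact ⟨c, hx', hy'⟩
    · obtain ⟨x', ex, hx'⟩ := xclose0_un h hd hx
      obtain ⟨y', ey, hy'⟩ := xclose0_un h hd hy
      exact xclose0_tr h h0 hne ex ey fun _ _ => ⟨c, hx', hy'⟩

theorem xclose0_lift {α β : Type} (f : α → β) (l : List β) (hl : ∀ x ∈ l, ∃ y, f y = x) :
    ∃ l0 : List α, l0.map f = l := by
  induction l with
  | nil => exact ⟨[], rfl⟩
  | cons x t ih =>
    obtain ⟨y, rfl⟩ := hl x List.mem_cons_self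
    obtain ⟨l0, rfl⟩ := ih fun z hz => hl z (List.mem_cons_of_mem _ hz)
    exact ⟨y :: l0, rfl⟩

theorem GAmal.ac_zero (h : GAmal σ q ι j) (h0 : Lev0 σ φ) (hq : Basic q) (hac : AC q w n)
    (hφ : AC φ w (n + 1)) (hg : 2 * (n + 1) ≤ w → G.Gir (n + 1)) :
    AC (prodSys ι φ) w (n + 1) := by
  intro l hl
  have hl' : Cyc (Loc ι j) w (n + 1) l := hl.imp fun x _ y _ _ hxy => xclose0_loc h h0 hxy
  have hout := h.out hq.b2 (h.k1 hq) (xclose0_str h h0 hq) hφ hl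
  by_cases hz : ∃ z ∈ l, ¬ j.Bag z
  · exact hout (h.loc_step hq.b2 hl' hz fun l' _ hc => h.loc_all hq.b2 hac hc)
  by_cases hlen : l.length ≤ n
  · exact hout (h.loc_all hq.b2 hac ⟨hl'.nodup, hl'.three, hlen, hl'.wle, hl'.step⟩)
  obtain ⟨l0, rfl⟩ := xclose0_lift j.n l fun x hx => by
    by_contra hc
    exact hz ⟨x, hx, hc⟩
  have h1 : Cyc G.WP w (n + 1) l0 :=
    Cyc.of_map (f := j.v) (g := j.c) hl fun x _ y _ hne hxy => xclose0_gw h h0 hne hxy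
  have hin : ∀ d : G.C, (∀ x ∈ l0, G.WB d x) → InBag (prodSys ι φ) (l0.map j.n) := by
    intro d hd
    refine .inr ⟨j.c d, fun x hx => ?_⟩
    obtain ⟨y, hy, rfl⟩ := List.mem_map.1 hx
    exact j.wb (hd y hy)
  by_cases hc : ∃ c, Sum.inr c ∈ l0
  · obtain ⟨c, hc⟩ := hc
    obtain ⟨x, y, t, hr⟩ := mid_rot h1.three hc
    have h2 := (h1.rot hr).step
    rw [steps_three] at h2
    obtain ⟨d, hx, hd⟩ := h2 (x, .inr c) (by simp)
    obtain ⟨d', hd', hy⟩ := h2 (.inr c, y) (by simp)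
    obtain rfl : c = d := hd
    obtain rfl : c = d' := hd'
    by_cases ht : t = []
    · subst ht
      refine .inr (hin c fun z hz => ?_)
      have := hr.mem_iff.1 hz
      simp only [List.mem_cons, List.not_mem_nil, or_false] at this
      rcases this with rfl | rfl | rfl
      · exact hx
      · exact rfl
      · exact hy
    · exact .inl ⟨j.n x, j.n y, ((nonCons_ends ht x _ y).rot hr.symm).map j.n,
        .inr (j.wp ⟨c, hx, hy⟩)⟩
  · obtain ⟨l1, rfl⟩ := xclose0_lift (Sum.inl : G.V → G.N) l0 fun x hx => by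
      rcases x with v | c
      · exact ⟨v, rfl⟩
      · exact absurd ⟨c, hx⟩ hc
    have e1 := h1.len
    have e2 := h1.wle
    have e3 := h1.three
    rw [wsum_inl] at e2
    simp only [List.length_map] at e1 e3 hlen
    have hn : l1.Nodup := h1.nodup.of_map _
    obtain ⟨l', rfl, hs⟩ := exists_label hn G.M fun p hp => h1.step (.inl p.1, .inl p.2) (by
      rw [steps_map]
      exact List.mem_map.2 ⟨p, hp, rfl⟩)
    simp only [List.length_map] at e1 e2 e3 hlen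
    have hall := hg (by omega) l' ⟨hn, hs⟩ (by omega) e1
    obtain ⟨a0, ha0⟩ := List.exists_mem_of_length_pos (show 0 < l'.length by omega)
    refine .inr (hin a0.2 fun x hx => ?_)
    obtain ⟨v, hv, rfl⟩ := List.mem_map.1 hx
    obtain ⟨a, ha, rfl⟩ := List.mem_map.1 hv
    obtain ⟨b, hb⟩ := exists_step_fst ha
    rw [hall a0 ha0 a ha]
    exact (hs _ hb).1

end Pool.Agent.MP_1c0fc2_co.GR
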