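import Pool.Agent.MP_1c0fc2_co.GR.GeoA

open Function

namespace Pool.Agent.MP_1c0fc2_co.GR

variable {F S X G Z : Geo} {P Q : Type} {σ : GHom S X} {q : Q → GHom S G} {ι : Q → GHom X Z}
  {j : GHom G Z} {φ : P → GHom F X}

theorem GAmal.bag_iff (h : GAmal σ q ι j) (a : Q) (y : G.N) :
    (ι a).Bag (j.n y) ↔ (q a).Bag y := by
  constructor
  · rintro ⟨x, hx⟩
    obtain ⟨s, rfl⟩ := h.shared a x y hx
    exact ⟨s, j.n_inj ((h.comm a s).symm.trans hx)⟩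
  · rintro ⟨s, rfl⟩
    exact ⟨σ.n s, h.comm a s⟩

theorem GAmal.two (h : GAmal σ q ι j) {a b : Q} (hab : a ≠ b) {z : Z.N} (ha : (ι a).Bag z)
    (hb : (ι b).Bag z) : ∃ y, j.n y = z ∧ (q a).Bag y ∧ (q b).Bag y := by
  obtain ⟨x, rfl⟩ := ha
  obtain ⟨y, hy⟩ := hb
  obtain ⟨s, rfl⟩ := (h.sep a b x y hy.symm).resolve_left hab
  exact ⟨(q a).n s, (h.comm a s).symm, ⟨s, rfl⟩, (h.bag_iff b _).1 ⟨y, hy.trans (h.comm a s)⟩⟩

theorem GAmal.gw (h : GAmal σ q ι j) (h2 : B2 q) {a b : Q} (hab : a ≠ b) {x y : Z.N}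
    (hxy : x ≠ y) (hxa : (ι a).Bag x) (hya : (ι a).Bag y) (hxb : (ι b).Bag x)
    (hyb : (ι b).Bag y) : GW j x y := by
  obtain ⟨x', rfl, hx1, hx2⟩ := h.two hab hxa hxb
  obtain ⟨y', rfl, hy1, hy2⟩ := h.two hab hya hyb
  exact ⟨x', y', rfl, rfl, h2 a b x' y' hab (fun e => hxy (congrArg _ e)) hx1 hy1 hx2 hy2⟩

theorem xclosea_v (h : GAmal σ q ι j) (a : Q) (v : G.V) :
    (ι a).Bag (.inl (j.v v)) ↔ (q a).Bag (.inl v) := h.bag_iff a (.inl v)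

theorem xclosea_c (h : GAmal σ q ι j) (a : Q) (c : G.C) :
    (ι a).Bag (.inr (j.c c)) ↔ (q a).Bag (.inr c) := h.bag_iff a (.inr c)

theorem xclosea_inc (h : GAmal σ q ι j) {v : Z.V} {c : Z.C} (hm : Z.M v c) :
    (∃ v' c', j.v v' = v ∧ j.c c' = c ∧ G.M v' c') ∨
      ∃ a, (ι a).Bag (.inl v) ∧ (ι a).Bag (.inr c) := by
  rcases h.inc v c hm with h1 | ⟨a, v', c', rfl, rfl, -⟩
  · exact Or.inl h1
  · exact Or.inr ⟨a, ⟨.inl v', rfl⟩, ⟨.inr c', rfl⟩⟩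

theorem xclosea_eq (h : GAmal σ q ι j) {a b : Q} {z : Z.N} (hz : ¬ j.Bag z) (ha : (ι a).Bag z)
    (hb : (ι b).Bag z) : a = b := by
  by_contra hab
  obtain ⟨y, hy, -⟩ := h.two hab ha hb
  exact hz ⟨y, hy⟩

/-- two vertices on an unshared centre lie in its copy -/
theorem xclosea_uc (h : GAmal σ q ι j) {u v : Z.V} {c : Z.C} (hc : ¬ j.Bag (.inr c))
    (hu : Z.M u c) (hv : Z.M v c) :
    ∃ a, (ι a).Bag (.inl u) ∧ (ι a).Bag (.inl v) ∧ (ι a).Bag (.inr c) := by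
  rcases xclosea_inc h hu with ⟨-, c', -, rfl, -⟩ | ⟨a, h1, h2⟩
  · exact absurd ⟨.inr c', rfl⟩ hc
  rcases xclosea_inc h hv with ⟨-, c', -, rfl, -⟩ | ⟨b, h3, h4⟩
  · exact absurd ⟨.inr c', rfl⟩ hc
  obtain rfl := xclosea_eq h hc h2 h4
  exact ⟨a, h1, h3, h2⟩

/-- two centres on an unshared vertex lie in its copy -/
theorem xclosea_uv (h : GAmal σ q ι j) {u : Z.V} {c d : Z.C} (hu : ¬ j.Bag (.inl u))
    (hc : Z.M u c) (hd : Z.M u d) :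
    ∃ a, (ι a).Bag (.inl u) ∧ (ι a).Bag (.inr c) ∧ (ι a).Bag (.inr d) := by
  rcases xclosea_inc h hc with ⟨v', -, rfl, -, -⟩ | ⟨a, h1, h2⟩
  · exact absurd ⟨.inl v', rfl⟩ hu
  rcases xclosea_inc h hd with ⟨v', -, rfl, -, -⟩ | ⟨b, h3, h4⟩
  · exact absurd ⟨.inl v', rfl⟩ hu
  obtain rfl := xclosea_eq h hu h1 h3
  exact ⟨a, h1, h2, h4⟩

theorem GAmal.adj (h : GAmal σ q ι j) {v : G.V} {c : G.C} (hm : Z.M (j.v v) (j.c c)) :
    Adj q (.inl v) (.inr c) := by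
  rcases xclosea_inc h hm with ⟨v', c', h1, h2, h3⟩ | ⟨a, h1, h2⟩
  · obtain rfl := j.v_inj h1
    obtain rfl := j.c_inj h2
    exact Or.inr (Geo.wp_inl_inr.2 h3)
  · exact Or.inl ⟨a, (xclosea_v h a v).1 h1, (xclosea_c h a c).1 h2⟩

theorem xclosea_g (h : GAmal σ q ι j) (hq : Basic q) (a : Q) {x : X.V} {y : X.C} {v : G.V}
    {c : G.C} (h1 : j.v v = (ι a).v x) (h2 : j.c c = (ι a).c y) (hm : G.M v c) : X.M x y := by
  obtain ⟨s, rfl⟩ := ((q a).bag_inl v).1 ((xclosea_v h a v).1 ⟨.inl x, congrArg Sum.inl h1.symm⟩)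
  obtain ⟨t, rfl⟩ := ((q a).bag_inr c).1 ((xclosea_c h a c).1 ⟨.inr y, congrArg Sum.inr h2.symm⟩)
  obtain rfl : σ.v s = x := (ι a).v_inj ((Sum.inl.inj (h.comm a (.inl s))).trans h1)
  obtain rfl : σ.c t = y := (ι a).c_inj ((Sum.inr.inj (h.comm a (.inr t))).trans h2)
  exact σ.map _ _ (hq.ind a _ _ hm)

theorem GAmal.k1 (h : GAmal σ q ι j) (hq : Basic q) (a : Q) : (ι a).Ind := by
  intro x y hm
  rcases h.inc _ _ hm with ⟨v', c', h1, h2, h3⟩ | ⟨b, v', c', h1, h2, h3⟩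
  · exact xclosea_g h hq a h1 h2 h3
  by_cases hab : a = b
  · subst hab
    obtain rfl := (ι a).v_inj h1
    obtain rfl := (ι a).c_inj h2
    exact h3
  obtain ⟨x', y', e1, e2, hw⟩ := h.gw hq.b2 hab (x := .inl ((ι a).v x)) (y := .inr ((ι a).c y))
    Sum.inl_ne_inr ⟨.inl x, rfl⟩ ⟨.inr y, rfl⟩ ⟨.inl v', congrArg Sum.inl h1⟩
    ⟨.inr c', congrArg Sum.inr h2⟩
  rcases x' with x' | x'
  · rcases y' with y' | y'
    · exact absurd e2 Sum.inl_ne_inr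
    · exact xclosea_g h hq a (Sum.inl.inj e1) (Sum.inr.inj e2) (Geo.wp_inl_inr.1 hw)
  · exact absurd e1 Sum.inr_ne_inl

/-- linearity inside one copy -/
theorem xclosea_lin (h : GAmal σ q ι j) (hq : Basic q) (hX : X.B3) (a : Q) {u v : Z.V}
    {c d : Z.C} (huv : u ≠ v) (hu : (ι a).Bag (.inl u)) (hv : (ι a).Bag (.inl v))
    (hc : (ι a).Bag (.inr c)) (hd : (ι a).Bag (.inr d)) (h1 : Z.M u c) (h2 : Z.M v c)
    (h3 : Z.M u d) (h4 : Z.M v d) : c = d := by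
  obtain ⟨u, rfl⟩ := ((ι a).bag_inl u).1 hu
  obtain ⟨v, rfl⟩ := ((ι a).bag_inl v).1 hv
  obtain ⟨c, rfl⟩ := ((ι a).bag_inr c).1 hc
  obtain ⟨d, rfl⟩ := ((ι a).bag_inr d).1 hd
  have k := h.k1 hq a
  exact congrArg _ (hX u v c d (fun e => huv (congrArg _ e)) (k _ _ h1) (k _ _ h2) (k _ _ h3)
    (k _ _ h4))

theorem xclosea_str (hq : Basic q) (a : Q) {u v : G.V} {e : G.C} (huv : u ≠ v)
    (hu : (q a).Bag (.inl u)) (hv : (q a).Bag (.inl v)) (h1 : G.M u e) (h2 : G.M v e) :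
    (q a).Bag (.inr e) := by
  obtain ⟨u, rfl⟩ := ((q a).bag_inl u).1 hu
  obtain ⟨v, rfl⟩ := ((q a).bag_inl v).1 hv
  exact ((q a).bag_inr e).2 (hq.str a u v e (fun e => huv (congrArg _ e)) h1 h2)

theorem xclosea_other (h : GAmal σ q ι j) (hq : Basic q) (hX : X.B3) (a b : Q) {u v : G.V}
    {d : Z.C} (huv : u ≠ v) (hu : (q a).Bag (.inl u)) (hv : (q a).Bag (.inl v))
    (hu' : (q b).Bag (.inl u)) (hv' : (q b).Bag (.inl v)) (hd : (ι b).Bag (.inr d))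
    (h1 : Z.M (j.v u) d) (h2 : Z.M (j.v v) d) : (ι a).Bag (.inr d) := by
  by_cases hab : a = b
  · rwa [hab]
  obtain ⟨e, e1, e2⟩ := hq.b2 a b _ _ hab (fun e => huv (Sum.inl.inj e)) hu hv hu' hv'
  obtain rfl : d = j.c e := xclosea_lin h hq hX b (fun e => huv (j.v_inj e))
    ((xclosea_v h b u).2 hu') ((xclosea_v h b v).2 hv') hd
    ((xclosea_c h b e).2 (xclosea_str hq b huv hu' hv' e1 e2)) h1 h2 (j.map _ _ e1) (j.map _ _ e2)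
  exact (xclosea_c h a e).2 (xclosea_str hq a huv hu hv e1 e2)

theorem xclosea_tri (h : GAmal σ q ι j) (hac : AC q 4 4) {u v : G.V} {c : G.C} (huv : u ≠ v)
    (ha : Adj q (.inl u) (.inl v)) (h1 : Z.M (j.v u) (j.c c)) (h2 : Z.M (j.v v) (j.c c)) :
    (∃ b, (q b).Bag (.inl u) ∧ (q b).Bag (.inl v) ∧ (q b).Bag (.inr c)) ∨
      (G.M u c ∧ G.M v c) := by
  rcases hac.tri (by omega) (fun e => huv (Sum.inl.inj e)) Sum.inl_ne_inr Sum.inl_ne_inr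
    (le_refl 4) ha (h.adj h2) (h.adj h1).symm with ⟨b, hb⟩ | ⟨e, he⟩
  · exact Or.inl ⟨b, hb _ (by simp), hb _ (by simp), hb _ (by simp)⟩
  · obtain rfl : c = e := he (.inr c) (by simp)
    exact Or.inr ⟨he (.inl u) (by simp), he (.inl v) (by simp)⟩

theorem xclosea_k3 (h : GAmal σ q ι j) (hq : Basic q) (hac : AC q 4 4) (hX : X.B3) (a : Q)
    {u v : Z.V} {d : Z.C} (huv : u ≠ v) (hu : (ι a).Bag (.inl u)) (hv : (ι a).Bag (.inl v))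
    (h1 : Z.M u d) (h2 : Z.M v d) : (ι a).Bag (.inr d) := by
  by_contra hd
  have sh : ∀ w, (ι a).Bag (.inl w) → Z.M w d → ∃ w', j.v w' = w := by
    intro w hw hm
    rcases xclosea_inc h hm with ⟨v', -, e, -, -⟩ | ⟨b, e1, e2⟩
    · exact ⟨v', e⟩
    · obtain ⟨y, hy, -⟩ := h.two (a := a) (b := b) (fun e => hd (e ▸ e2)) hw e1
      exact (j.bag_inl w).1 ⟨y, hy⟩
  obtain ⟨u, rfl⟩ := sh u hu h1
  obtain ⟨v, rfl⟩ := sh v hv h2
  have huv' : u ≠ v := fun e => huv (congrArg _ e)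
  rw [xclosea_v h] at hu hv
  by_cases hj : j.Bag (.inr d)
  · obtain ⟨c, rfl⟩ := (j.bag_inr d).1 hj
    rcases xclosea_tri h hac huv' (Or.inl ⟨a, hu, hv⟩) h1 h2 with ⟨b, e1, e2, e3⟩ | ⟨e1, e2⟩
    · exact hd (xclosea_other h hq hX a b huv' hu hv e1 e2 ((xclosea_c h b c).2 e3) h1 h2)
    · exact hd ((xclosea_c h a c).2 (xclosea_str hq a huv' hu hv e1 e2))
  · obtain ⟨b, e1, e2, e3⟩ := xclosea_uc h hj h1 h2
    exact hd (xclosea_other h hq hX a b huv' hu hv ((xclosea_v h b u).1 e1)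
      ((xclosea_v h b v).1 e2) e3 h1 h2)

theorem GAmal.k3 (h : GAmal σ q ι j) (hq : Basic q) (hac : AC q 4 4) (hX : X.B3) (a : Q) :
    (ι a).Str := by
  intro x y d hxy h1 h2
  exact ((ι a).bag_inr d).1 (xclosea_k3 h hq hac hX a (fun e => hxy ((ι a).v_inj e))
    ⟨.inl x, rfl⟩ ⟨.inl y, rfl⟩ h1 h2)

theorem xclosea_cc (hq : Basic q) {a b : Q} {c d : G.C} (hcd : c ≠ d)
    (h1 : (q a).Bag (.inr c)) (h2 : (q a).Bag (.inr d)) (h3 : (q b).Bag (.inr c))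
    (h4 : (q b).Bag (.inr d)) : a = b := by
  by_contra hab
  exact Geo.not_wp_inr hcd (hq.b2 a b _ _ hab (fun e => hcd (Sum.inr.inj e)) h1 h2 h3 h4)

theorem xclosea_on (h : GAmal σ q ι j) (hq : Basic q) (hac : AC q 4 4) {a : Q} {c d : G.C}
    (hcd : c ≠ d) (hc : (q a).Bag (.inr c)) (hd : (q a).Bag (.inr d)) {w : Z.V}
    (h1 : Z.M w (j.c c)) (h2 : Z.M w (j.c d)) : (ι a).Bag (.inl w) := by
  by_cases hj : j.Bag (.inl w)
  · obtain ⟨w, rfl⟩ := (j.bag_inl w).1 hj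
    rcases hac.tri (by omega) (fun e => hcd (Sum.inr.inj e)) Sum.inr_ne_inl Sum.inr_ne_inl
      (le_refl 4) (Or.inl ⟨a, hc, hd⟩) (h.adj h2).symm (h.adj h1) with ⟨b, hb⟩ | ⟨e, he⟩
    · obtain rfl := xclosea_cc hq hcd hc hd (hb _ (by simp)) (hb _ (by simp))
      exact (xclosea_v h a w).2 (hb _ (by simp))
    · have e1 : c = e := he (.inr c) (by simp)
      have e2 : d = e := he (.inr d) (by simp)
      exact absurd (e1.trans e2.symm) hcd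
  · obtain ⟨b, e1, e2, e3⟩ := xclosea_uv h hj h1 h2
    obtain rfl := xclosea_cc hq hcd hc hd ((xclosea_c h b c).1 e2) ((xclosea_c h b d).1 e3)
    exact e1

theorem GAmal.b3 (h : GAmal σ q ι j) (hq : Basic q) (hac : AC q 4 4) (hX : X.B3) : Z.B3 := by
  intro u v c d huv h1 h2 h3 h4
  have D : ∀ a, (ι a).Bag (.inl u) → (ι a).Bag (.inl v) → c = d := fun a hu hv =>
    xclosea_lin h hq hX a huv hu hv (xclosea_k3 h hq hac hX a huv hu hv h1 h2)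
      (xclosea_k3 h hq hac hX a huv hu hv h3 h4) h1 h2 h3 h4
  by_cases hc : j.Bag (.inr c)
  swap
  · obtain ⟨a, e1, e2, -⟩ := xclosea_uc h hc h1 h2
    exact D a e1 e2
  by_cases hd : j.Bag (.inr d)
  swap
  · obtain ⟨a, e1, e2, -⟩ := xclosea_uc h hd h3 h4
    exact D a e1 e2
  obtain ⟨c, rfl⟩ := (j.bag_inr c).1 hc
  obtain ⟨d, rfl⟩ := (j.bag_inr d).1 hd
  by_contra hcd
  have hcd' : c ≠ d := fun e => hcd (congrArg _ e)
  have E : ∀ a, (q a).Bag (.inr c) → (q a).Bag (.inr d) → False := fun a e1 e2 =>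
    hcd (D a (xclosea_on h hq hac hcd' e1 e2 h1 h3) (xclosea_on h hq hac hcd' e1 e2 h2 h4))
  have sh : ∀ w, Z.M w (j.c c) → Z.M w (j.c d) → ∃ w', j.v w' = w := by
    intro w e1 e2
    by_contra hw
    obtain ⟨a, -, e3, e4⟩ := xclosea_uv h (fun e => hw ((j.bag_inl w).1 e)) e1 e2
    exact E a ((xclosea_c h a c).1 e3) ((xclosea_c h a d).1 e4)
  obtain ⟨u, rfl⟩ := sh u h1 h3
  obtain ⟨v, rfl⟩ := sh v h2 h4
  have huv' : u ≠ v := fun e => huv (congrArg _ e)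
  have D' : ∀ a, (q a).Bag (.inl u) → (q a).Bag (.inl v) → False := fun a e1 e2 =>
    hcd (D a ((xclosea_v h a u).2 e1) ((xclosea_v h a v).2 e2))
  rcases hac.quad (x := .inl u) (y := .inr c) (z := .inl v) (t := .inr d) (le_refl 4)
    (by simp [huv', hcd']) (le_refl 4) (h.adj h1) (h.adj h2).symm (h.adj h4)
    (h.adj h3).symm with k | ⟨a, e1, e2⟩ | k
  · rcases xclosea_tri h hac huv' k h1 h2 with ⟨a, e1, e2, -⟩ | ⟨e1, e2⟩
    · exact D' a e1 e2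
    rcases xclosea_tri h hac huv' k h3 h4 with ⟨a, e3, e4, -⟩ | ⟨e3, e4⟩
    · exact D' a e3 e4
    exact hcd' (hq.b3 u v c d huv' e1 e2 e3 e4)
  · exact E a e1 e2
  · exact Geo.not_wp_inr hcd' k

theorem GAmal.basic (h : GAmal σ q ι j) (hq : Basic q) (hac : AC q 4 4) (hφ : Basic φ) :
    Basic (prodSys ι φ) := by
  refine ⟨fun a => GHom.Ind.comp (h.k1 hq a.1) (hφ.ind a.2),
    fun a => GHom.Str.comp (h.k3 hq hac hφ.b3 a.1) (h.k1 hq a.1) (hφ.str a.2), ?_,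
    h.b3 hq hac hφ.b3⟩
  rintro ⟨a, p⟩ ⟨b, r⟩ x y hne hxy h1 h2 h3 h4
  obtain ⟨x1, e1, rfl⟩ := (GHom.bag_comp _ _ _).1 h1
  obtain ⟨y1, e2, rfl⟩ := (GHom.bag_comp _ _ _).1 h2
  obtain ⟨x2, e3, f3⟩ := (GHom.bag_comp _ _ _).1 h3
  obtain ⟨y2, e4, f4⟩ := (GHom.bag_comp _ _ _).1 h4
  by_cases hab : a = b
  · subst hab
    obtain rfl := (ι a).n_inj f3
    obtain rfl := (ι a).n_inj f4
    exact (ι a).wp (hφ.b2 p r _ _ (fun e => hne (congrArg _ e)) (fun e => hxy (congrArg _ e))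
      e1 e2 e3 e4)
  · obtain ⟨x', y', g1, g2, hw⟩ := h.gw hq.b2 hab hxy ⟨x1, rfl⟩ ⟨y1, rfl⟩ ⟨x2, f3⟩ ⟨y2, f4⟩
    rw [← g1, ← g2]
    exact j.wp hw

end Pool.Agent.MP_1c0fc2_co.GR
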