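import Pool.Agent.MP_1c0fc2_co.GR.CycA

open Function

namespace Pool.Agent.MP_1c0fc2_co.GR

variable {A B : Geo} {g : ℕ}

theorem Geo.WCyc.self {l : List (A.V × A.C)} (h : A.WCyc l) {a : A.V × A.C} (ha : a ∈ l) :
    A.M a.1 a.2 := by
  obtain ⟨y, hy⟩ := exists_step_fst ha
  exact (h.2 _ hy).1

theorem Geo.WCyc.rot {l l' : List (A.V × A.C)} (h : A.WCyc l) (hr : l ~r l') : A.WCyc l' := by
  exact ⟨(hr.perm.map _).nodup_iff.1 h.1, fun p hp => h.2 p ((steps_perm hr).mem_iff.2 hp)⟩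

theorem Geo.WCyc.step_ne {l : List (A.V × A.C)} (h : A.WCyc l) (h2 : 2 ≤ l.length)
    {p : (A.V × A.C) × (A.V × A.C)} (hp : p ∈ steps l) : p.1.1 ≠ p.2.1 := by
  refine GR.step_ne h.1 (by simpa using h2) ?_
  rw [steps_map]
  exact List.mem_map.2 ⟨p, hp, rfl⟩

theorem xgir_del (h : A.Gir g) {l : List (A.V × A.C)} (hl : A.WCyc l) (h2 : 2 ≤ l.length)
    (hg : l.length ≤ g + 1) (hp : ∃ p ∈ steps l, p.1.2 = p.2.2) :
    ∀ a ∈ l, ∀ b ∈ l, a.2 = b.2 := by
  obtain ⟨⟨x, z⟩, hp, e⟩ := hp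
  obtain ⟨t, hr⟩ := step_rot h2 hp
  have h3 := hl.rot hr
  have key : ∀ a ∈ x :: t, a.2 = x.2 := by
    rcases t with _ | ⟨y, t⟩
    · simp
    · have h4 : A.WCyc (x :: y :: t) := by
        refine ⟨h3.1.sublist (((List.sublist_cons_self z _).cons_cons x).map _), fun p hp => ?_⟩
        have h5 := h3.2
        rw [steps_three] at h5
        rw [steps_two] at hp
        rcases List.mem_cons.1 hp with rfl | hp
        · exact ⟨(h5 (x, z) (by simp)).1, by
            have := (h5 (z, y) (by simp)).2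
            rwa [← show x.2 = z.2 from e] at this⟩
        · exact h5 p (by simp [hp])
      have h5 := hr.perm.length_eq
      simp only [List.length_cons] at h5
      exact fun a ha => h _ h4 (by simp) (by simp only [List.length_cons]; omega) a ha x (by simp)
  have key' : ∀ a ∈ l, a.2 = x.2 := by
    intro a ha
    rcases List.mem_cons.1 (hr.perm.mem_iff.1 ha) with rfl | ha
    · rfl
    · rcases List.mem_cons.1 ha with rfl | ha
      · exact e.symm
      · exact key a (List.mem_cons_of_mem _ ha)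
  exact fun a ha b hb => (key' a ha).trans (key' b hb).symm

theorem gir_of_strict (h : ∀ l, A.WCyc l → 2 ≤ l.length → l.length ≤ g →
    (∀ p ∈ steps l, p.1.2 ≠ p.2.2) → False) : A.Gir g := by
  induction g with
  | zero => intro l _ h2 h3; omega
  | succ g ih =>
    intro l hl h2 h3
    by_cases hp : ∃ p ∈ steps l, p.1.2 = p.2.2
    · exact xgir_del (ih fun l h1 h2 h3 => h l h1 h2 (by omega)) hl h2 h3 hp
    · exact (h l hl h2 h3 fun p h4 e => hp ⟨p, h4, e⟩).elim

theorem Geo.Gir.del (h : A.Gir g) {l : List (A.V × A.C)} (hl : A.WCyc l) (h2 : 2 ≤ l.length)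
    (hg : l.length ≤ g + 1) (hp : ∃ p ∈ steps l, p.1.2 = p.2.2) :
    ∀ a ∈ l, ∀ b ∈ l, a.2 = b.2 := by
  exact xgir_del h hl h2 hg hp

theorem Geo.Gir.mono {g' : ℕ} (h : A.Gir g) (hg : g' ≤ g) : A.Gir g' := by
  exact fun l h1 h2 h3 => h l h1 h2 (h3.trans hg)

theorem gir_two : A.Gir 2 ↔ A.B3 := by
  constructor
  · intro h u v c d huv h1 h2 h3 h4
    refine h [(u, c), (v, d)] ⟨by simpa using huv, ?_⟩ (by simp) (by simp) (u, c) (by simp) (v, d)
      (by simp)
    simp [steps, path, h1, h2, h3, h4]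
  · intro h
    refine gir_of_strict fun l hl h2 h3 h4 => ?_
    obtain ⟨a, b, rfl⟩ := List.length_eq_two.1 (le_antisymm h3 h2)
    have h5 : (a, b) ∈ steps [a, b] := by simp [steps, path]
    have h6 : (b, a) ∈ steps [a, b] := by simp [steps, path]
    exact h4 _ h5 (h _ _ _ _ (hl.step_ne h2 h5) (hl.2 _ h5).1 (hl.2 _ h5).2 (hl.2 _ h6).2
      (hl.2 _ h6).1)

theorem gir_of_le_one (hg : g ≤ 1) : A.Gir g := by
  intro l _ h2 h3
  omega

theorem gir_of_subsingleton (h : ∀ c d : A.C, c = d) : A.Gir g := by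
  exact fun _ _ _ _ a _ b _ => h a.2 b.2

theorem Geo.Gir.pull (h : B.Gir g) (f : GHom A B) : A.Gir g := by
  intro l hl h2 h3 a ha b hb
  refine f.c_inj (h (l.map (Prod.map f.v f.c)) ⟨?_, ?_⟩ (by simpa using h2) (by simpa using h3)
    _ (List.mem_map_of_mem ha) _ (List.mem_map_of_mem hb))
  · have := hl.1.map f.v_inj
    simpa [Function.comp_def] using this
  · rw [steps_map]
    intro p hp
    obtain ⟨q, hq, rfl⟩ := List.mem_map.1 hp
    exact ⟨f.map _ _ (hl.2 q hq).1, f.map _ _ (hl.2 q hq).2⟩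

theorem Geo.Gir.of_two (h : A.Gir g) (f : GHom A B) (hi : f.Ind)
    (hv : ∀ v c c', c ≠ c' → B.M v c → B.M v c' → ∃ u, f.v u = v)
    (hc : ∀ v c, B.M v c → ∃ c', f.c c' = c) : B.Gir g := by
  refine gir_of_strict fun l hl h2 h3 h4 => ?_
  have h5 : ∀ b ∈ l, ∃ a, Prod.map f.v f.c a = b := by
    intro b hb
    obtain ⟨a, ha⟩ := exists_step_snd hb
    obtain ⟨u, hu⟩ := hv _ _ _ (h4 _ ha) (hl.2 _ ha).2 (hl.self hb)
    obtain ⟨c, hc⟩ := hc _ _ (hl.self hb)
    exact ⟨(u, c), Prod.ext hu hc⟩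
  obtain ⟨l', rfl⟩ : ∃ l' : List (A.V × A.C), l'.map (Prod.map f.v f.c) = l :=
    ⟨l.attach.map fun b => (h5 b.1 b.2).choose, by
      rw [List.map_map]
      exact (List.map_congr_left fun b _ => (h5 b.1 b.2).choose_spec).trans (List.attach_map_val ..
        |>.trans l.map_id)⟩
  rw [List.length_map] at h2 h3
  have h6 : A.WCyc l' := by
    refine ⟨List.Nodup.of_map f.v (by simpa [Function.comp_def] using hl.1), fun p hp => ?_⟩
    have := hl.2 (Prod.map (Prod.map f.v f.c) (Prod.map f.v f.c) p)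
      (by rw [steps_map]; exact List.mem_map_of_mem hp)
    exact ⟨hi _ _ this.1, hi _ _ this.2⟩
  obtain ⟨a, ha⟩ := List.exists_mem_of_length_pos (l := l') (by omega)
  obtain ⟨b, hb⟩ := exists_step_fst ha
  refine h4 (Prod.map (Prod.map f.v f.c) (Prod.map f.v f.c) (a, b))
    (by rw [steps_map]; exact List.mem_map_of_mem hb) ?_
  exact congrArg f.c (h l' h6 h2 h3 a ha b (mem_of_mem_steps hb).2)

/-- local girth and girth one level higher give girth -/
theorem gir_run {V C C' : Type} (M : V → C → Prop) (M' : V → C' → Prop) (π : C → C')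
    (hπ : ∀ v c, M v c → M' v (π c)) (h' : (Geo.mk V C' M').Gir g)
    (hl : ∀ z, ((Geo.mk V C M).res (fun c => π c = z)).Gir g) : (Geo.mk V C M).Gir g := by
  intro l h1 h2 h3 a ha
  have h4 := h' (l.map (Prod.map id π)) ⟨by simpa [Function.comp_def] using h1.1, by
    rw [steps_map]
    intro p hp
    obtain ⟨q, hq, rfl⟩ := List.mem_map.1 hp
    exact ⟨hπ _ _ (h1.2 q hq).1, hπ _ _ (h1.2 q hq).2⟩⟩ (by simpa using h2) (by simpa using h3)
  refine hl (π a.2) l ⟨h1.1, fun p hp => ?_⟩ h2 h3 a ha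
  have h5 : π p.1.2 = π a.2 :=
    h4 _ (List.mem_map_of_mem (mem_of_mem_steps hp).1) _ (List.mem_map_of_mem ha)
  exact ⟨⟨(h1.2 p hp).1, h5⟩, (h1.2 p hp).2, h5⟩

end Pool.Agent.MP_1c0fc2_co.GR
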