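import Pool.Agent.MP_1c0fc2_co.GR.GeoA
import Pool.Agent.MP_1c0fc2_co.GR.Gir

open Function

namespace Pool.Agent.MP_1c0fc2_co.GR

variable {A B : Geo} {P : Type} {φ : P → GHom A B} {w n g : ℕ}

theorem xtl_rot {α : Type} (x y : α) (a b : List α) :
    (x :: (a ++ y :: b)) ~r (y :: (b ++ x :: a)) :=
  List.isRotated_append (l := x :: a) (l' := y :: b)

theorem xtl_mem {α : Type} {l a b : List α} {x y z : α} (hr : l ~r (x :: (a ++ y :: b))) :
    z ∈ l ↔ z ∈ x :: (a ++ [y]) ∨ z ∈ y :: (b ++ [x]) := by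
  rw [hr.mem_iff]
  simp only [List.mem_cons, List.mem_append, List.not_mem_nil, or_false]
  tauto

theorem xtl_len {α : Type} {l a b : List α} {x y : α} (hr : l ~r (x :: (a ++ y :: b)))
    (ha : a ≠ []) (hb : b ≠ []) :
    (x :: (a ++ [y])).length < l.length ∧ (y :: (b ++ [x])).length < l.length := by
  have h1 := List.length_pos_iff.2 ha
  have h2 := List.length_pos_iff.2 hb
  have h3 := hr.perm.length_eq
  simp only [List.length_cons, List.length_append, List.length_nil] at h3 ⊢
  omega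

theorem xtl_split {l a b : List B.N} {x y : B.N} (hl : Cyc (Adj φ) w n l)
    (hr : l ~r (x :: (a ++ y :: b))) (ha : a ≠ []) (hb : b ≠ []) (hxy : Adj φ x y) :
    Cyc (Adj φ) w n (x :: (a ++ [y])) ∧ Cyc (Adj φ) w n (y :: (b ++ [x])) :=
  ⟨(hl.rot hr).arc ha hb hxy.symm, (hl.rot (hr.trans (xtl_rot x y a b))).arc hb ha hxy⟩

/-- triangulation lemma -/
theorem tl (h2 : B2 φ) (h : AC φ w n) {l : List B.N} (hl : Cyc (Adj φ) w n l) : TLo φ l := by
  induction hk : l.length using Nat.strong_induction_on generalizing l with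
  | _ k ih =>
    subst hk
    rcases h l hl with ⟨x, y, hnc, hxy⟩ | hb
    · obtain ⟨a, b, ha, hb, hr⟩ := id hnc
      obtain ⟨c1, c2⟩ := xtl_split hl hr ha hb hxy
      obtain ⟨n1, n2⟩ := xtl_len hr ha hb
      rcases ih _ n1 c1 rfl with ⟨u, v, huv, hw⟩ | hb1
      · exact Or.inl ⟨u, v, (huv.arc b).rot hr.symm, hw⟩
      rcases ih _ n2 c2 rfl with ⟨u, v, huv, hw⟩ | hb2
      · exact Or.inl ⟨u, v, (huv.arc a).rot (hr.trans (xtl_rot x y a b)).symm, hw⟩
      rcases hb1 with ⟨p, hp⟩ | ⟨d, hd⟩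
      · rcases hb2 with ⟨q, hq⟩ | ⟨d, hd⟩
        · by_cases hpq : p = q
          · subst hpq
            exact Or.inr (Or.inl ⟨p, fun z hz => ((xtl_mem hr).1 hz).elim (hp z) (hq z)⟩)
          · exact Or.inl ⟨x, y, hnc, h2 p q x y hpq (hnc.ne hl.nodup) (hp x (by simp))
              (hp y (by simp)) (hq x (by simp)) (hq y (by simp))⟩
        · exact Or.inl ⟨x, y, hnc, d, hd x (by simp), hd y (by simp)⟩
      · exact Or.inl ⟨x, y, hnc, d, hd x (by simp), hd y (by simp)⟩
    · exact Or.inr hb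

/-- every step of a short cycle lies in a triangle inside a bag -/
theorem tri_of_step (h : AC φ w n) {l : List B.N} (hl : Cyc (Adj φ) w n l) {x y : B.N}
    (hxy : (x, y) ∈ steps l) : ∃ z ∈ l, z ≠ x ∧ z ≠ y ∧ InBag φ [x, y, z] := by
  induction hk : l.length using Nat.strong_induction_on generalizing l with
  | _ k ih =>
    subst hk
    rcases h l hl with ⟨u, v, ⟨a, b, ha, hb, hr⟩, huv⟩ | hb
    · obtain ⟨c1, c2⟩ := xtl_split hl hr ha hb huv
      obtain ⟨n1, n2⟩ := xtl_len hr ha hb
      have hs := (steps_perm hr).mem_iff.1 hxy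
      rw [steps_split, List.mem_append] at hs
      rcases hs with hs | hs
      · obtain ⟨z, hz, h3⟩ := ih _ n1 c1 (by rw [steps_close]; exact List.mem_append_left _ hs) rfl
        exact ⟨z, (xtl_mem hr).2 (Or.inl hz), h3⟩
      · obtain ⟨z, hz, h3⟩ := ih _ n2 c2 (by rw [steps_close]; exact List.mem_append_left _ hs) rfl
        exact ⟨z, (xtl_mem hr).2 (Or.inr hz), h3⟩
    · have h3 := hl.three
      obtain ⟨t, hr⟩ := step_rot (by omega) hxy
      have hlen := hr.perm.length_eq
      obtain _ | ⟨z, t⟩ := t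
      · simp only [List.length_cons, List.length_nil] at hlen
        omega
      have hnd := hr.nodup_iff.1 hl.nodup
      simp only [List.nodup_cons, List.mem_cons, not_or] at hnd
      refine ⟨z, hr.mem_iff.2 (by simp), fun e => hnd.1.2.1 e.symm, fun e => hnd.2.1.1 e.symm,
        hb.sub fun s hs => hr.mem_iff.2 ?_⟩
      simp only [List.mem_cons, List.not_mem_nil, or_false] at hs ⊢
      tauto

theorem xtl_path {α β : Type} (Q : α × β → α → Prop) (y y' : α × β) (hy : y.1 = y'.1)
    (a : List (α × β)) : ∀ x, (∀ p ∈ path (x :: (a ++ [y])), Q p.1 p.2.1) →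
      ∀ p ∈ path (x :: (a ++ [y'])), Q p.1 p.2.1 := by
  induction a with
  | nil =>
    intro x h p hp
    simp only [List.nil_append, path, List.mem_singleton] at h hp
    subst hp
    exact hy ▸ h (x, y) rfl
  | cons z a ih =>
    intro x h p hp
    simp only [List.cons_append, path, List.mem_cons] at h hp
    rcases hp with rfl | hp
    · exact h (x, z) (Or.inl rfl)
    · exact ih z (fun q hq => h q (Or.inr hq)) p hp

theorem xtl_arc {x y : B.V × B.C} {a b : List (B.V × B.C)} {d : B.C}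
    (h : B.WCyc (x :: (a ++ y :: b))) (hx : B.M x.1 d) (hy : B.M y.1 d) :
    B.WCyc (x :: (a ++ [(y.1, d)])) := by
  refine ⟨h.1.sublist ?_, fun p hp => ?_⟩
  · simp
  · rw [steps_close, List.mem_append, List.mem_singleton] at hp
    rcases hp with hp | rfl
    · refine xtl_path (fun s t => B.M s.1 s.2 ∧ B.M t s.2) y (y.1, d) rfl a x
        (fun q hq => h.2 q ?_) p hp
      rw [steps_split]
      exact List.mem_append_left _ hq
    · exact ⟨hy, hx⟩

theorem xtl_cyc {γ : Type} {l : List (B.V × γ)} (hn : (l.map Prod.fst).Nodup)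
    (h3 : 3 ≤ l.length) (ln : l.length ≤ n) (lw : 2 * l.length ≤ w)
    (hs : ∀ p ∈ steps l, Adj φ (.inl p.1.1) (.inl p.2.1)) :
    Cyc (Adj φ) w n (l.map fun a => (Sum.inl a.1 : B.N)) := by
  have e : (l.map fun a => (Sum.inl a.1 : B.N)) = (l.map Prod.fst).map Sum.inl := by
    rw [List.map_map]; rfl
  refine ⟨?_, by simpa using h3, by simpa using ln, ?_, fun p hp => ?_⟩
  · rw [e]; exact hn.map Sum.inl_injective
  · rw [e, wsum_inl, List.length_map]; exact lw
  · rw [steps_map, List.mem_map] at hp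
    obtain ⟨q, hq, rfl⟩ := hp
    exact hs q hq

/-- the host inherits the girth -/
theorem host_gir (hb : Basic φ) (h : AC φ w n) (hw : 2 * g ≤ w) (hn : g ≤ n) (hA : A.Gir g) :
    B.Gir g := by
  intro l hl l2 lg
  induction hk : l.length using Nat.strong_induction_on generalizing l with
  | _ k ih =>
    subst hk
    by_cases h3 : l.length ≤ 2
    · exact gir_two.2 hb.b3 l hl l2 h3
    have hc : Cyc (Adj φ) w n (l.map fun a => (Sum.inl a.1 : B.N)) :=
      xtl_cyc hl.1 (by omega) (by omega) (by omega)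
        fun p hp => Or.inr ⟨p.1.2, (hl.2 p hp).1, (hl.2 p hp).2⟩
    have fin : ∀ d, (∀ a ∈ l, a.2 = d) → ∀ a ∈ l, ∀ b ∈ l, a.2 = b.2 :=
      fun d hd a ha b hb => (hd a ha).trans (hd b hb).symm
    rcases tl hb.b2 h hc with ⟨X, Y, hnc, d, hX, hY⟩ | ⟨p, hp⟩ | ⟨d, hd⟩
    · obtain ⟨x, y, rfl, rfl, a, b, ha, hb', hr⟩ := hnc.of_map
      have w1 := xtl_arc (hl.rot hr) hX hY
      have w2 := xtl_arc (hl.rot (hr.trans (xtl_rot x y a b))) hY hX
      obtain ⟨n1, n2⟩ := xtl_len hr ha hb'
      simp only [List.length_cons, List.length_append, List.length_nil] at n1 n2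
      have e1 := ih (x :: (a ++ [(y.1, d)])).length
        (by simp only [List.length_cons, List.length_append, List.length_nil]; omega) _ w1
        (by simp) (by simp only [List.length_cons, List.length_append, List.length_nil]; omega) rfl
      have e2 := ih (y :: (b ++ [(x.1, d)])).length
        (by simp only [List.length_cons, List.length_append, List.length_nil]; omega) _ w2
        (by simp) (by simp only [List.length_cons, List.length_append, List.length_nil]; omega) rfl
      refine fin d fun z hz => ?_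
      rw [hr.mem_iff] at hz
      simp only [List.mem_cons, List.mem_append] at hz
      rcases hz with hz | hz | hz | hz
      · exact e1 z (by simp [hz]) (y.1, d) (by simp)
      · exact e1 z (by simp [hz]) (y.1, d) (by simp)
      · exact e2 z (by simp [hz]) (x.1, d) (by simp)
      · exact e2 z (by simp [hz]) (x.1, d) (by simp)
    · have hv : ∀ a ∈ l, ∃ u, (φ p).v u = a.1 := fun a ha =>
        ((φ p).bag_inl _).1 (hp _ (List.mem_map_of_mem ha))
      have hr : l ∈ Set.range (List.map (Prod.map (φ p).v (φ p).c)) := by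
        rw [Set.range_list_map]
        intro a ha
        obtain ⟨b, hab⟩ := exists_step_fst ha
        obtain ⟨u, hu⟩ := hv a ha
        obtain ⟨u', hu'⟩ := hv b (mem_of_mem_steps hab).2
        have hne : a.1 ≠ b.1 := hl.step_ne l2 hab
        obtain ⟨c, hc⟩ := hb.str p u u' a.2 (fun e => hne (by rw [← hu, ← hu', e]))
          (hu ▸ (hl.2 _ hab).1) (hu' ▸ (hl.2 _ hab).2)
        exact ⟨(u, c), Prod.ext hu hc⟩
      obtain ⟨l', rfl⟩ := hr
      have hl' : A.WCyc l' := by
        refine ⟨List.Nodup.of_map (φ p).v ?_, fun q hq => ?_⟩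
        · have := hl.1
          rw [List.map_map] at this ⊢
          exact this
        · have := hl.2 (Prod.map (Prod.map (φ p).v (φ p).c) (Prod.map (φ p).v (φ p).c) q)
            (by rw [steps_map]; exact List.mem_map_of_mem hq)
          exact ⟨hb.ind p _ _ this.1, hb.ind p _ _ this.2⟩
      rw [List.length_map] at l2 lg
      intro a ha b hb'
      obtain ⟨a', ha', rfl⟩ := List.mem_map.1 ha
      obtain ⟨b', hb'', rfl⟩ := List.mem_map.1 hb'
      exact congrArg (φ p).c (hA l' hl' l2 lg a' ha' b' hb'')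
    · refine fin d fun a ha => ?_
      obtain ⟨b, hab⟩ := exists_step_fst ha
      exact hb.b3 a.1 b.1 a.2 d (hl.step_ne l2 hab) (hl.2 _ hab).1 (hl.2 _ hab).2
        (hd _ (List.mem_map_of_mem ha)) (hd _ (List.mem_map_of_mem (mem_of_mem_steps hab).2))

/-- a short cycle of copies through pairwise non-collinear vertices is trivial -/
theorem qc (h2 : B2 φ) (h : AC φ w n) (l : List (B.V × P)) (hn : (l.map Prod.fst).Nodup)
    (hs : ∀ p ∈ steps l, (φ p.1.2).Bag (.inl p.1.1) ∧ (φ p.1.2).Bag (.inl p.2.1))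
    (hw : ∀ a ∈ l, ∀ b ∈ l, a.1 ≠ b.1 → ¬ B.WP (.inl a.1) (.inl b.1))
    (l2 : 2 ≤ l.length) (ln : l.length ≤ n) (lw : 2 * l.length ≤ w) :
    ∀ a ∈ l, ∀ b ∈ l, a.2 = b.2 := by
  have hne : ∀ a b, (a, b) ∈ steps l → a.1 ≠ b.1 := fun a b hab =>
    step_ne hn (by simpa using l2) (by
      rw [steps_map]; exact List.mem_map_of_mem (f := Prod.map Prod.fst Prod.fst) hab)
  have key : ∀ p0, (∀ a ∈ l, (φ p0).Bag (.inl a.1)) → ∀ a ∈ l, ∀ b ∈ l, a.2 = b.2 := by
    intro p0 hp
    have : ∀ a ∈ l, a.2 = p0 := by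
      intro a ha
      by_contra hap
      obtain ⟨b, hab⟩ := exists_step_fst ha
      have hb := (mem_of_mem_steps hab).2
      exact hw a ha b hb (hne a b hab) (h2 a.2 p0 _ _ hap
        (fun e => hne a b hab (Sum.inl_injective e)) (hs _ hab).1 (hs _ hab).2 (hp a ha) (hp b hb))
    exact fun a ha b hb => (this a ha).trans (this b hb).symm
  by_cases h3 : l.length ≤ 2
  · obtain ⟨a, b, rfl⟩ := List.length_eq_two.1 (le_antisymm h3 l2)
    have := hs (a, b) (by simp [steps, path])
    refine key a.2 fun c hc => ?_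
    simp only [List.mem_cons, List.not_mem_nil, or_false] at hc
    rcases hc with rfl | rfl
    · exact this.1
    · exact this.2
  have hc : Cyc (Adj φ) w n (l.map fun a => (Sum.inl a.1 : B.N)) :=
    xtl_cyc hn (by omega) ln lw fun p hp => Or.inl ⟨p.1.2, hs p hp⟩
  rcases tl h2 h hc with ⟨X, Y, hnc, hXY⟩ | ⟨p, hp⟩ | ⟨d, hd⟩
  · have hXY' := hnc.ne hc.nodup
    obtain ⟨x, y, rfl, rfl, hxy⟩ := hnc.of_map
    exact absurd hXY (hw x hxy.mem.1 y hxy.mem.2 fun e => hXY' (by rw [e]))
  · exact key p fun a ha => hp _ (List.mem_map_of_mem ha)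
  · intro a ha
    obtain ⟨b, hab⟩ := exists_step_fst ha
    have hb := (mem_of_mem_steps hab).2
    exact absurd ⟨d, hd _ (List.mem_map_of_mem ha), hd _ (List.mem_map_of_mem hb)⟩
      (hw a ha b hb (hne a b hab))

end Pool.Agent.MP_1c0fc2_co.GR
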