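import Pool.Agent.MP_1c0fc2_co.GR.CloseA
import Pool.Agent.MP_1c0fc2_co.GR.TL

open Function

namespace Pool.Agent.MP_1c0fc2_co.GR

variable {F S X G Z : Geo} {P Q : Type} {σ : GHom S X} {q : Q → GHom S G} {ι : Q → GHom X Z}
  {j : GHom G Z} {φ : P → GHom F X} {w n : ℕ}

theorem xcloseb_rot {l l' : List Z.N} (h : OutL ι j l') (hr : l ~r l') : OutL ι j l := by
  rcases h with ⟨a, ha⟩ | ⟨x, y, hn, hg⟩ | ⟨d, hd⟩
  · exact Or.inl ⟨a, fun x hx => ha x (hr.mem_iff.1 hx)⟩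
  · exact Or.inr (Or.inl ⟨x, y, hn.rot hr.symm, hg⟩)
  · exact Or.inr (Or.inr ⟨d, fun x hx => hd x (hr.mem_iff.1 hx)⟩)

theorem xcloseb_lift {A B : Geo} (f : GHom A B) {l : List B.N} (h : ∀ x ∈ l, f.Bag x) :
    ∃ l0 : List A.N, l0.map f.n = l := by
  induction l with
  | nil => exact ⟨[], rfl⟩
  | cons x t ih =>
    obtain ⟨y, hy⟩ := h x List.mem_cons_self
    obtain ⟨t0, ht0⟩ := ih (fun u hu => h u (List.mem_cons_of_mem _ hu))
    exact ⟨y :: t0, by rw [List.map_cons, hy, ht0]⟩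

theorem xcloseb_adj (a : Q) {x y : X.N} (h : Adj φ x y) :
    Adj (prodSys ι φ) ((ι a).n x) ((ι a).n y) := by
  rcases h with ⟨p, hx, hy⟩ | h
  · exact Or.inl ⟨(a, p), (GHom.bag_comp _ _ _).2 ⟨x, hx, rfl⟩,
      (GHom.bag_comp _ _ _).2 ⟨y, hy, rfl⟩⟩
  · exact Or.inr ((ι a).wp h)

theorem xcloseb_gw_wp {x y : Z.N} (h : GW j x y) : Z.WP x y := by
  obtain ⟨x', y', rfl, rfl, hw⟩ := h
  exact j.wp hw

theorem GAmal.loc_step (h : GAmal σ q ι j) (h2 : B2 q) {l : List Z.N}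
    (hl : Cyc (Loc ι j) w (n + 1) l) (hz : ∃ z ∈ l, ¬ j.Bag z)
    (ih : ∀ l', l'.length < l.length → Cyc (Loc ι j) w n l' → OutL ι j l') : OutL ι j l := by
  obtain ⟨z, hzl, hzj⟩ := hz
  obtain ⟨a, hza⟩ := (h.cover z).resolve_left hzj
  have huniq : ∀ b, (ι b).Bag z → b = a := by
    intro b hb
    by_contra hba
    obtain ⟨y, hy, -, -⟩ := h.two hba hb hza
    exact hzj ⟨y, hy⟩
  obtain ⟨x, y, t, hr⟩ := mid_rot hl.three hzl
  have hl' := hl.rot hr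
  refine xcloseb_rot ?_ hr
  have hxz : Loc ι j x z := hl'.step (x, z) (by rw [steps_three]; exact List.mem_cons_self)
  have hzy : Loc ι j z y := hl'.step (z, y) (by
    rw [steps_three]; exact List.mem_cons_of_mem _ List.mem_cons_self)
  have hxa : (ι a).Bag x := by
    rcases hxz with ⟨b, hb, hb'⟩ | ⟨x', z', -, hz', -⟩
    · rw [← huniq b hb']; exact hb
    · exact absurd ⟨z', hz'⟩ hzj
  have hya : (ι a).Bag y := by
    rcases hzy with ⟨b, hb', hb⟩ | ⟨z', y', hz', -, -⟩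
    · rw [← huniq b hb']; exact hb
    · exact absurd ⟨z', hz'⟩ hzj
  by_cases ht : t = []
  · subst ht
    refine Or.inl ⟨a, fun u hu => ?_⟩
    simp only [List.mem_cons, List.not_mem_nil, or_false] at hu
    rcases hu with rfl | rfl | rfl
    · exact hxa
    · exact hza
    · exact hya
  have hxy : x ≠ y := by
    have hn := hl'.nodup
    intro e
    rw [List.nodup_cons] at hn
    exact hn.1 (by rw [e]; exact List.mem_cons_of_mem _ List.mem_cons_self)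
  have hdel : Cyc (Loc ι j) w n (x :: y :: t) := hl'.del ht (Or.inl ⟨a, hxa, hya⟩)
  have hlen : (x :: y :: t).length < l.length := by
    rw [hr.perm.length_eq]; simp
  have hmx : x ∈ x :: y :: t := List.mem_cons_self
  have hmy : y ∈ x :: y :: t := List.mem_cons_of_mem _ List.mem_cons_self
  rcases ih _ hlen hdel with ⟨b, hb⟩ | ⟨u, v, huv, hg⟩ | ⟨d, hd⟩
  · by_cases hab : a = b
    · subst hab
      refine Or.inl ⟨a, fun u hu => ?_⟩
      rcases List.mem_cons.1 hu with rfl | hu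
      · exact hxa
      rcases List.mem_cons.1 hu with rfl | hu
      · exact hza
      · exact hb u (List.mem_cons_of_mem _ hu)
    · exact Or.inr (Or.inl ⟨x, y, nonCons_ends ht x z y,
        h.gw h2 hab hxy hxa hya (hb x hmx) (hb y hmy)⟩)
  · exact Or.inr (Or.inl ⟨u, v, huv.ins z, hg⟩)
  · obtain ⟨x', hx', hx''⟩ := hd x hmx
    obtain ⟨y', hy', hy''⟩ := hd y hmy
    exact Or.inr (Or.inl ⟨x, y, nonCons_ends ht x z y, x', y', hx', hy', d, hx'', hy''⟩)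

theorem GAmal.loc_all (h : GAmal σ q ι j) (h2 : B2 q) (hac : AC q w n) {l : List Z.N}
    (hl : Cyc (Loc ι j) w n l) : OutL ι j l := by
  induction hk : l.length using Nat.strong_induction_on generalizing l with
  | _ k ih =>
  by_cases hz : ∃ z ∈ l, ¬ j.Bag z
  · exact h.loc_step h2 (hl.mono le_rfl (Nat.le_succ n)) hz
      (fun l' hlt hc => ih l'.length (hk ▸ hlt) hc rfl)
  · have hall : ∀ z ∈ l, j.Bag z := by
      intro z hzl
      by_contra hzj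
      exact hz ⟨z, hzl, hzj⟩
    obtain ⟨l0, rfl⟩ := xcloseb_lift j hall
    have hc : Cyc (Adj q) w n l0 := by
      refine Cyc.of_map (S := Loc ι j) (f := j.v) (g := j.c) hl ?_
      intro x _ y _ _ hxy
      rcases hxy with ⟨a, hx, hy⟩ | ⟨x', y', hx, hy, hw⟩
      · exact Or.inl ⟨a, (h.bag_iff a x).1 hx, (h.bag_iff a y).1 hy⟩
      · have e1 : x' = x := j.n_inj hx
        have e2 : y' = y := j.n_inj hy
        subst e1; subst e2
        exact Or.inr hw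
    rcases tl h2 hac hc with ⟨x, y, hn, hw⟩ | ⟨p, hp⟩ | ⟨d, hd⟩
    · exact Or.inr (Or.inl ⟨j.n x, j.n y, hn.map j.n, x, y, rfl, rfl, hw⟩)
    · refine Or.inl ⟨p, fun u hu => ?_⟩
      obtain ⟨u0, hu0, rfl⟩ := List.mem_map.1 hu
      exact (h.bag_iff p u0).2 (hp u0 hu0)
    · refine Or.inr (Or.inr ⟨d, fun u hu => ?_⟩)
      obtain ⟨u0, hu0, rfl⟩ := List.mem_map.1 hu
      exact ⟨u0, rfl, hd u0 hu0⟩

theorem GAmal.k4 (h : GAmal σ q ι j) (h2 : B2 q) (hi : ∀ a, (ι a).Ind) (hs : ∀ a, (ι a).Str)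
    (a : Q) {x y : X.N} (hxy : x ≠ y) (hadj : Adj (prodSys ι φ) ((ι a).n x) ((ι a).n y)) :
    Adj φ x y := by
  rcases hadj with ⟨⟨b, p⟩, hx, hy⟩ | hw
  · obtain ⟨x', hx', ex⟩ := (GHom.bag_comp (ι b) (φ p) _).1 hx
    obtain ⟨y', hy', ey⟩ := (GHom.bag_comp (ι b) (φ p) _).1 hy
    by_cases hab : a = b
    · subst hab
      have e1 : x' = x := (ι a).n_inj ex
      have e2 : y' = y := (ι a).n_inj ey
      subst e1; subst e2
      exact Or.inl ⟨p, hx', hy'⟩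
    · have hg : GW j ((ι a).n x) ((ι a).n y) :=
        h.gw h2 hab (fun e => hxy ((ι a).n_inj e)) ⟨x, rfl⟩ ⟨y, rfl⟩ ⟨x', ex⟩ ⟨y', ey⟩
      exact Or.inr (GHom.wp_pull (hi a) (hs a) hxy (xcloseb_gw_wp hg))
  · exact Or.inr (GHom.wp_pull (hi a) (hs a) hxy hw)

theorem GAmal.sub (h : GAmal σ q ι j) (h2 : B2 q) (hi : ∀ a, (ι a).Ind) (hs : ∀ a, (ι a).Str)
    (hφ : AC φ w n) {l : List Z.N} (hl : Cyc (Adj (prodSys ι φ)) w n l) {a : Q}
    (ha : ∀ x ∈ l, (ι a).Bag x) :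
    (∃ x y, NonCons l x y ∧ Adj (prodSys ι φ) x y) ∨ InBag (prodSys ι φ) l := by
  obtain ⟨l0, rfl⟩ := xcloseb_lift (ι a) ha
  have hc : Cyc (Adj φ) w n l0 := by
    refine Cyc.of_map (S := Adj (prodSys ι φ)) (f := (ι a).v) (g := (ι a).c) hl ?_
    intro x _ y _ hxy hadj
    exact h.k4 h2 hi hs a hxy hadj
  rcases hφ l0 hc with ⟨x, y, hn, hadj⟩ | ⟨p, hp⟩ | ⟨d, hd⟩
  · exact Or.inl ⟨(ι a).n x, (ι a).n y, hn.map (ι a).n, xcloseb_adj a hadj⟩
  · refine Or.inr (Or.inl ⟨(a, p), fun u hu => ?_⟩)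
    obtain ⟨u0, hu0, rfl⟩ := List.mem_map.1 hu
    exact (GHom.bag_comp (ι a) (φ p) _).2 ⟨u0, hp u0 hu0, rfl⟩
  · refine Or.inr (Or.inr ⟨(ι a).c d, fun u hu => ?_⟩)
    obtain ⟨u0, hu0, rfl⟩ := List.mem_map.1 hu
    exact (ι a).wb (hd u0 hu0)

theorem GAmal.out (h : GAmal σ q ι j) (h2 : B2 q) (hi : ∀ a, (ι a).Ind) (hs : ∀ a, (ι a).Str)
    (hφ : AC φ w n) {l : List Z.N} (hl : Cyc (Adj (prodSys ι φ)) w n l) (ho : OutL ι j l) :
    (∃ x y, NonCons l x y ∧ Adj (prodSys ι φ) x y) ∨ InBag (prodSys ι φ) l := by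
  rcases ho with ⟨a, ha⟩ | ⟨x, y, hn, hg⟩ | ⟨d, hd⟩
  · exact h.sub h2 hi hs hφ hl ha
  · exact Or.inl ⟨x, y, hn, Or.inr (xcloseb_gw_wp hg)⟩
  · refine Or.inr (Or.inr ⟨j.c d, fun u hu => ?_⟩)
    obtain ⟨u', rfl, hu'⟩ := hd u hu
    exact j.wb hu'

end Pool.Agent.MP_1c0fc2_co.GR
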