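import Pool.Agent.MP_1c0fc2_co.GR.CloseB

open Function

namespace Pool.Agent.MP_1c0fc2_co.GR

variable {F S X G Z : Geo} {P Q : Type} {σ : GHom S X} {q : Q → GHom S G} {ι : Q → GHom X Z}
  {j : GHom G Z} {φ : P → GHom F X} {w n : ℕ}

/-- outcome for arbitrary cycles of an amalgam -/
def xclosecO (ι : Q → GHom X Z) (j : GHom G Z) (l : List Z.N) : Prop :=
  (∃ a, ∀ x ∈ l, (ι a).Bag x) ∨ (∃ x y, NonCons l x y ∧ GW j x y) ∨
    (∃ d u v y, u ≠ v ∧ v ≠ y ∧ u ≠ y ∧ Sum.inl u ∈ l ∧ Sum.inl v ∈ l ∧ Sum.inl y ∈ l ∧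
      Z.M u d ∧ Z.M v d ∧ Z.M y d) ∨
    (∃ d y, NonCons l (.inr d) (.inl y) ∧ Z.M y d) ∨ (l.length = 3 ∧ ∃ d, ∀ x ∈ l, Z.WB d x)

theorem xclosec_rot {l l' : List Z.N} (h : xclosecO ι j l) (hr : l ~r l') : xclosecO ι j l' := by
  have hm : ∀ x, x ∈ l ↔ x ∈ l' := fun x => hr.mem_iff
  rcases h with ⟨a, h⟩ | ⟨x, y, h, h'⟩ | ⟨d, u, v, y, h1, h2, h3, h4, h5, h6, h7⟩ |
    ⟨d, y, h, h'⟩ | ⟨h, d, h'⟩
  · exact Or.inl ⟨a, fun x hx => h x ((hm x).2 hx)⟩
  · exact Or.inr (Or.inl ⟨x, y, h.rot hr, h'⟩)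
  · exact Or.inr (Or.inr (Or.inl ⟨d, u, v, y, h1, h2, h3, (hm _).1 h4, (hm _).1 h5,
      (hm _).1 h6, h7⟩))
  · exact Or.inr (Or.inr (Or.inr (Or.inl ⟨d, y, h.rot hr, h'⟩)))
  · exact Or.inr (Or.inr (Or.inr (Or.inr ⟨hr.perm.length_eq ▸ h, d,
      fun x hx => h' x ((hm x).2 hx)⟩)))

theorem xclosec_gw_symm {x y : Z.N} (h : GW j x y) : GW j y x := by
  obtain ⟨x', y', h1, h2, h3⟩ := h
  exact ⟨y', x', h2, h1, h3.symm⟩

theorem xclosec_loc_symm {x y : Z.N} (h : Loc ι j x y) : Loc ι j y x := by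
  rcases h with ⟨a, h1, h2⟩ | h
  · exact Or.inl ⟨a, h2, h1⟩
  · exact Or.inr (xclosec_gw_symm h)

theorem xclosec_gw_wp {x y : Z.N} (h : GW j x y) : Z.WP x y := by
  obtain ⟨x', y', rfl, rfl, h3⟩ := h
  exact j.wp h3

theorem xclosec_loc_inc (h : GAmal σ q ι j) {v : Z.V} {c : Z.C} (hm : Z.M v c) :
    Loc ι j (.inl v) (.inr c) := by
  rcases h.inc v c hm with ⟨v', c', rfl, rfl, h'⟩ | ⟨a, v', c', rfl, rfl, _⟩
  · exact Or.inr ⟨.inl v', .inr c', rfl, rfl, Geo.wp_inl_inr.2 h'⟩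
  · exact Or.inl ⟨a, ⟨.inl v', rfl⟩, ⟨.inr c', rfl⟩⟩

theorem xclosec_nonloc (h : GAmal σ q ι j) {x y : Z.N} (hxy : x ≠ y)
    (ha : Adj (prodSys ι φ) x y) (hl : ¬ Loc ι j x y) :
    ∃ u v c, x = .inl u ∧ y = .inl v ∧ Z.M u c ∧ Z.M v c := by
  rcases ha with ⟨p, h1, h2⟩ | ⟨c, h1, h2⟩
  · obtain ⟨x', _, hx⟩ := (GHom.bag_comp _ _ _).1 h1
    obtain ⟨y', _, hy⟩ := (GHom.bag_comp _ _ _).1 h2
    exact absurd (Or.inl ⟨p.1, ⟨x', hx⟩, ⟨y', hy⟩⟩) hl
  · rcases x with u | c1 <;> rcases y with v | c2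
    · exact ⟨u, v, c, rfl, rfl, h1, h2⟩
    · obtain rfl : c2 = c := h2
      exact absurd (xclosec_loc_inc h h1) hl
    · obtain rfl : c1 = c := h1
      exact absurd (xclosec_loc_symm (xclosec_loc_inc h h2)) hl
    · obtain rfl : c1 = c := h1
      obtain rfl : c2 = c1 := h2
      exact absurd rfl hxy

theorem xclosec_back {u v : Z.V} {c : Z.C} {t : List Z.N} (hu : Z.M u c) (hv : Z.M v c)
    (hl : ¬ Loc ι j (.inl u) (.inl v)) (hn : (Sum.inl u :: .inr c :: .inl v :: t).Nodup)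
    (ht : t ≠ []) (h : xclosecO ι j (.inl u :: .inr c :: .inl v :: t)) :
    xclosecO ι j (.inl u :: .inl v :: t) := by
  have hm : ∀ y : Z.V, Sum.inl y ∈ (Sum.inl u :: .inr c :: .inl v :: t : List Z.N) →
      Sum.inl y ∈ (Sum.inl u :: .inl v :: t : List Z.N) := by
    intro y hy
    simpa using hy
  have huv : u ≠ v := by
    rintro rfl
    simp at hn
  have key : ∀ y, NonCons (Sum.inl u :: .inr c :: .inl v :: t : List Z.N) (.inr c) (.inl y) →
      Z.M y c → xclosecO ι j (.inl u :: .inl v :: t) := by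
    intro y hy hyc
    refine Or.inr (Or.inr (Or.inl ⟨c, u, v, y, huv, ?_, ?_, by simp, by simp, hm y hy.mem.2,
      hu, hv, hyc⟩))
    · rintro rfl
      exact hy.not_step hn (by rw [steps_three]; simp)
    · rintro rfl
      exact hy.symm.not_step hn (by rw [steps_three]; simp)
  have key' : ∀ y, NonCons (Sum.inl u :: .inr c :: .inl v :: t : List Z.N) (.inr c) y →
      GW j (.inr c) y → xclosecO ι j (.inl u :: .inl v :: t) := by
    intro y hy hg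
    obtain ⟨d, h1, h2⟩ := xclosec_gw_wp hg
    obtain rfl : c = d := h1
    rcases y with y | c'
    · exact key y hy h2
    · obtain rfl : c' = c := h2
      exact absurd rfl (hy.ne hn)
  rcases h with ⟨a, h⟩ | ⟨x, y, h, h'⟩ | ⟨d, u', v', y, h1, h2, h3, h4, h5, h6, h7⟩ |
    ⟨d, y, h, h'⟩ | ⟨h, _⟩
  · refine Or.inl ⟨a, fun x hx => h x ?_⟩
    rcases List.mem_cons.1 hx with rfl | hx
    · simp
    · exact List.mem_cons_of_mem _ (List.mem_cons_of_mem _ hx)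
  · by_cases hx : x = .inr c
    · subst hx
      exact key' y h h'
    by_cases hy : y = .inr c
    · subst hy
      exact key' x h.symm (xclosec_gw_symm h')
    rcases h.del hn hx hy with h2 | ⟨rfl, rfl⟩ | ⟨rfl, rfl⟩
    · exact Or.inr (Or.inl ⟨x, y, h2, h'⟩)
    · exact absurd (Or.inr h') hl
    · exact absurd (Or.inr (xclosec_gw_symm h')) hl
  · exact Or.inr (Or.inr (Or.inl ⟨d, u', v', y, h1, h2, h3, hm _ h4, hm _ h5, hm _ h6, h7⟩))
  · by_cases hd : d = c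
    · subst hd
      exact key y h h'
    rcases h.del hn (fun e => hd (Sum.inr.inj e)) (by simp) with h2 | ⟨h2, _⟩ | ⟨h2, _⟩
    · exact Or.inr (Or.inr (Or.inr (Or.inl ⟨d, y, h2, h'⟩)))
    · cases h2
    · cases h2
  · exfalso
    apply ht
    simpa using h

open Classical in
theorem xclosec_main (h : GAmal σ q ι j) (h2 : B2 q) (hac : AC q w w) (k : ℕ) :
    ∀ l : List Z.N, (steps l).countP (fun p => ¬ Loc ι j p.1 p.2) = k →
      Cyc (Adj (prodSys ι φ)) w w l → xclosecO ι j l := by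
  induction k using Nat.strong_induction_on with
  | _ k ih =>
  intro l hk hl
  by_cases hall : ∀ p ∈ steps l, Loc ι j p.1 p.2
  · rcases h.loc_all h2 hac ⟨hl.nodup, hl.three, hl.len, hl.wle, hall⟩ with h1 | h1 | ⟨d, h1⟩
    · exact Or.inl h1
    · exact Or.inr (Or.inl h1)
    · by_cases h3 : l.length = 3
      · refine Or.inr (Or.inr (Or.inr (Or.inr ⟨h3, j.c d, fun x hx => ?_⟩)))
        obtain ⟨x', rfl, hx'⟩ := h1 x hx
        exact j.wb hx'
      · obtain ⟨x, y, hxy⟩ := exists_nonCons (l := l) (by have := hl.three; omega)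
        obtain ⟨x', hx, hx'⟩ := h1 x hxy.mem.1
        obtain ⟨y', hy, hy'⟩ := h1 y hxy.mem.2
        exact Or.inr (Or.inl ⟨x, y, hxy, x', y', hx, hy, d, hx', hy'⟩)
  push Not at hall
  obtain ⟨⟨x, y⟩, hp, hnl⟩ := hall
  have h2l : 2 ≤ l.length := by have := hl.three; omega
  obtain ⟨u, v, c, rfl, rfl, hu, hv⟩ :=
    xclosec_nonloc h (step_ne hl.nodup h2l hp) (hl.step _ hp) hnl
  obtain ⟨t, hr⟩ := step_rot h2l hp
  refine xclosec_rot ?_ hr.symm
  rw [(steps_perm hr).countP_eq] at hk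
  have hl' := hl.rot hr
  have huv : (Sum.inl u : Z.N) ≠ .inl v := step_ne hl.nodup h2l hp
  by_cases hc : (Sum.inr c : Z.N) ∈ (Sum.inl u :: .inl v :: t : List Z.N)
  · by_cases h3 : (Sum.inl u :: .inl v :: t : List Z.N).length = 3
    · refine Or.inr (Or.inr (Or.inr (Or.inr ⟨h3, c, fun x hx => ?_⟩)))
      rcases mem_three h3 (x := .inl u) (y := .inl v) (by simp) (by simp) hc huv (by simp)
        (by simp) x hx with rfl | rfl | rfl
      · exact hu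
      · exact hv
      · rfl
    · rcases nonCons_of_step hl'.nodup (by have := hl'.three; omega) (u := .inl u) (v := .inl v)
        (by rw [steps_two]; simp) hc (by simp) (by simp) with h1 | h1
      · exact Or.inr (Or.inr (Or.inr (Or.inl ⟨c, u, h1, hu⟩)))
      · exact Or.inr (Or.inr (Or.inr (Or.inl ⟨c, v, h1, hv⟩)))
  have hn : (Sum.inl u :: .inr c :: .inl v :: t : List Z.N).Nodup :=
    (List.Perm.swap _ _ _).nodup_iff.1 (List.nodup_cons.2 ⟨hc, hl'.nodup⟩)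
  have hw : wsum (Sum.inl u :: .inr c :: .inl v :: t : List Z.N) ≤ w := by
    rw [wsum_ins]; exact hl'.wle
  have ht : t ≠ [] := by
    rintro rfl
    have := hl'.three
    simp at this
  have l1 : Loc ι j (.inl u) (.inr c) := xclosec_loc_inc h hu
  have l2 : Loc ι j (.inr c) (.inl v) := xclosec_loc_symm (xclosec_loc_inc h hv)
  refine xclosec_back hu hv hnl hn ht (ih _ ?_ _ rfl
    ⟨hn, by simp, (length_le_wsum _).trans hw, hw, fun p hp => ?_⟩)
  · rw [← hk, steps_three, steps_two, List.countP_cons, List.countP_cons, List.countP_cons]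
    simp only [l1, l2, hnl, not_true_eq_false, not_false_eq_true, decide_false, decide_true]
    simp
  · rw [steps_three] at hp
    rcases List.mem_cons.1 hp with rfl | hp
    · exact Or.inr ⟨c, hu, rfl⟩
    rcases List.mem_cons.1 hp with rfl | hp
    · exact Or.inr ⟨c, rfl, hv⟩
    · exact hl'.step p (by rw [steps_two]; exact List.mem_cons_of_mem _ hp)

theorem GAmal.ac (h : GAmal σ q ι j) (hq : Basic q) (hac : AC q w w) (hw : 4 ≤ w)
    (hφ : Basic φ) (hφa : AC φ w w) : AC (prodSys ι φ) w w := by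
  intro l hl
  rcases xclosec_main h hq.b2 hac _ l rfl hl with ⟨a, ha⟩ | ⟨x, y, h1, h2⟩ |
    ⟨d, u, v, y, h1, h2, h3, h4, h5, h6, h7, h8, h9⟩ | ⟨d, y, h1, h2⟩ | ⟨_, h1⟩
  · exact h.sub hq.b2 (h.k1 hq) (h.k3 hq (hac.mono hw hw) hφ.b3) hφa hl ha
  · exact Or.inl ⟨x, y, h1, Or.inr (xclosec_gw_wp h2)⟩
  · have e1 : (Sum.inl u : Z.N) ≠ .inl v := fun e => h1 (Sum.inl.inj e)
    have e2 : (Sum.inl v : Z.N) ≠ .inl y := fun e => h2 (Sum.inl.inj e)
    have e3 : (Sum.inl u : Z.N) ≠ .inl y := fun e => h3 (Sum.inl.inj e)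
    by_cases hl3 : l.length = 3
    · refine Or.inr (Or.inr ⟨d, fun x hx => ?_⟩)
      rcases mem_three hl3 h4 h5 h6 e1 e2 e3 x hx with rfl | rfl | rfl
      · exact h7
      · exact h8
      · exact h9
    · rcases nonCons_three hl.nodup (by have := hl.three; omega) h4 h5 h6 e1 e2 e3 with
        hn | hn | hn
      · exact Or.inl ⟨_, _, hn, Or.inr ⟨d, h7, h8⟩⟩
      · exact Or.inl ⟨_, _, hn, Or.inr ⟨d, h8, h9⟩⟩
      · exact Or.inl ⟨_, _, hn, Or.inr ⟨d, h7, h9⟩⟩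
  · exact Or.inl ⟨_, _, h1, Or.inr ⟨d, rfl, h2⟩⟩
  · exact Or.inr (Or.inr h1)

theorem xclosec_amal {q : Q → GHom X G} (j : GHom G Z) (hj : ∀ z, j.Bag z) (hi : j.Ind) :
    GAmal (GHom.id X) q (fun a => j.comp (q a)) j := by
  have hid : ∀ x : X.N, (GHom.id X).n x = x := fun x => by cases x <;> rfl
  refine ⟨fun a x => by rw [hid, GHom.n_comp], fun z => Or.inl (hj z),
    fun _ x _ _ => ⟨x, hid x⟩, fun _ _ x _ _ => Or.inr ⟨x, hid x⟩, fun v c hm => Or.inl ?_⟩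
  obtain ⟨v', rfl⟩ := (j.bag_inl v).1 (hj _)
  obtain ⟨c', rfl⟩ := (j.bag_inr c).1 (hj _)
  exact ⟨v', c', rfl, rfl, hi _ _ hm⟩

/-- composition of good systems -/
theorem comp_good {q : Q → GHom X G} (j : GHom G Z) (hj : ∀ z, j.Bag z) (hi : j.Ind)
    (hq : Basic q) (hac : AC q w w) (hw : 4 ≤ w) (hφ : Basic φ) (hφa : AC φ w w) :
    Basic (prodSys (fun a => j.comp (q a)) φ) ∧ AC (prodSys (fun a => j.comp (q a)) φ) w w :=
  ⟨(xclosec_amal j hj hi).basic hq (hac.mono hw hw) hφ,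
    (xclosec_amal j hj hi).ac hq hac hw hφ hφa⟩

end Pool.Agent.MP_1c0fc2_co.GR
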