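import Pool.Agent.MP_1c0fc2_co.GR.Defs

open Function

namespace Pool.Agent.MP_1c0fc2_co.GR

variable {α β γ : Type}

theorem xcyca_fst (l : List α) (x : α) : (path (l ++ [x])).map Prod.fst = l := by
  induction l with
  | nil => rfl
  | cons a t ih =>
    cases t with
    | nil => rfl
    | cons b t => exact congrArg (List.cons a) ih

theorem xcyca_snd (l : List α) (x : α) : (path (x :: l)).map Prod.snd = l := by
  induction l generalizing x with
  | nil => rfl
  | cons a t ih => exact congrArg (List.cons a) (ih a)

theorem xcyca_mem {l : List α} {x y : α} (h : (x, y) ∈ path l) :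
    ∃ a b, l = a ++ x :: y :: b := by
  induction l with
  | nil => simp [path] at h
  | cons c t ih =>
    cases t with
    | nil => simp [path] at h
    | cons d t =>
      rcases List.mem_cons.1 h with e | h
      · obtain ⟨rfl, rfl⟩ := Prod.mk.inj e
        exact ⟨[], t, rfl⟩
      · obtain ⟨a, b, e⟩ := ih h
        exact ⟨c :: a, b, by rw [e]; rfl⟩

theorem path_append (a : List α) (y : α) (b : List α) :
    path (a ++ y :: b) = path (a ++ [y]) ++ path (y :: b) := by
  induction a with
  | nil => rfl
  | cons x t ih =>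
    cases t with
    | nil => rfl
    | cons x' t => exact congrArg (List.cons (x, x')) ih

theorem steps_split (x y : α) (a b : List α) :
    steps (x :: (a ++ y :: b)) = path (x :: (a ++ [y])) ++ path (y :: (b ++ [x])) := by
  have h := path_append (x :: a) y (b ++ [x])
  simpa [steps] using h

theorem steps_close (x y : α) (a : List α) :
    steps (x :: (a ++ [y])) = path (x :: (a ++ [y])) ++ [(y, x)] := by
  have h := steps_split x y a []
  exact h

theorem steps_two (x y : α) (t : List α) :
    steps (x :: y :: t) = (x, y) :: path (y :: (t ++ [x])) := by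
  rfl

theorem steps_three (x z y : α) (t : List α) :
    steps (x :: z :: y :: t) = (x, z) :: (z, y) :: path (y :: (t ++ [x])) := by
  rfl

theorem steps_perm {l l' : List α} (h : l ~r l') : (steps l).Perm (steps l') := by
  obtain ⟨n, rfl⟩ := h
  induction n generalizing l with
  | zero => simp
  | succ n ih =>
    cases l with
    | nil => simp
    | cons a t =>
      rw [List.rotate_cons_succ]
      refine List.Perm.trans ?_ ih
      cases t with
      | nil => exact List.Perm.refl _
      | cons b t =>
        rw [steps_two, List.cons_append, steps_close]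
        exact (List.perm_append_singleton _ _).symm

theorem path_map (f : α → β) (l : List α) :
    path (l.map f) = (path l).map (Prod.map f f) := by
  induction l with
  | nil => rfl
  | cons x t ih =>
    cases t with
    | nil => rfl
    | cons x' t => exact congrArg (List.cons (f x, f x')) ih

theorem steps_map (f : α → β) (l : List α) :
    steps (l.map f) = (steps l).map (Prod.map f f) := by
  cases l with
  | nil => rfl
  | cons x t =>
    rw [steps, ← path_map]
    simp [steps]

theorem steps_map_fst (l : List α) : (steps l).map Prod.fst = l := by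
  cases l with
  | nil => rfl
  | cons x t => exact xcyca_fst (x :: t) x

theorem steps_map_snd (l : List α) : ((steps l).map Prod.snd).Perm l := by
  cases l with
  | nil => exact List.Perm.refl _
  | cons x t =>
    rw [steps, xcyca_snd]
    exact List.perm_append_singleton _ _

theorem length_steps (l : List α) : (steps l).length = l.length := by
  conv_rhs => rw [← steps_map_fst l]
  rw [List.length_map]

theorem isChain_iff_path (R : α → α → Prop) (l : List α) :
    l.IsChain R ↔ ∀ p ∈ path l, R p.1 p.2 := by
  induction l with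
  | nil => simp [path]
  | cons x t ih =>
    cases t with
    | nil => simp [path]
    | cons x' t => rw [List.isChain_cons_cons, ih, path, List.forall_mem_cons]

theorem mem_of_mem_path {l : List α} {p : α × α} (h : p ∈ path l) : p.1 ∈ l ∧ p.2 ∈ l := by
  obtain ⟨a, b, rfl⟩ := xcyca_mem (x := p.1) (y := p.2) h
  simp

theorem mem_of_mem_steps {l : List α} {p : α × α} (h : p ∈ steps l) : p.1 ∈ l ∧ p.2 ∈ l := by
  refine ⟨?_, (steps_map_snd l).mem_iff.1 (List.mem_map_of_mem h)⟩
  rw [← steps_map_fst l]
  exact List.mem_map_of_mem h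

theorem exists_step_fst {l : List α} {x : α} (h : x ∈ l) : ∃ y, (x, y) ∈ steps l := by
  rw [← steps_map_fst l] at h
  obtain ⟨p, hp, rfl⟩ := List.mem_map.1 h
  exact ⟨p.2, hp⟩

theorem exists_step_snd {l : List α} {y : α} (h : y ∈ l) : ∃ x, (x, y) ∈ steps l := by
  obtain ⟨p, hp, rfl⟩ := List.mem_map.1 ((steps_map_snd l).mem_iff.2 h)
  exact ⟨p.1, hp⟩

theorem step_rot {l : List α} (h2 : 2 ≤ l.length) {x y : α} (h : (x, y) ∈ steps l) :
    ∃ t, l ~r (x :: y :: t) := by
  cases l with
  | nil => simp at h2
  | cons c t =>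
    obtain ⟨a, b, e⟩ := xcyca_mem (l := c :: (t ++ [c])) h
    rcases b.eq_nil_or_concat' with rfl | ⟨b, d, rfl⟩
    · have e' : (c :: t) ++ [c] = (a ++ [x]) ++ [y] := by simpa using e
      obtain ⟨e1, e2⟩ := List.append_inj' e' rfl
      obtain rfl : c = y := by simpa using e2
      cases a with
      | nil =>
        rw [e1] at h2
        simp at h2
      | cons d a =>
        obtain rfl : c = d := by simpa using congrArg List.head? e1
        rw [e1]
        exact ⟨a, List.isRotated_concat _ _⟩
    · have e' : (c :: t) ++ [c] = (a ++ x :: y :: b) ++ [d] := by simpa using e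
      rw [(List.append_inj' e' rfl).1]
      exact ⟨b ++ a, List.isRotated_append⟩

theorem step_ne {l : List α} (hn : l.Nodup) (h2 : 2 ≤ l.length) {x y : α}
    (h : (x, y) ∈ steps l) : x ≠ y := by
  obtain ⟨t, ht⟩ := step_rot h2 h
  have h3 := ht.nodup_iff.1 hn
  rintro rfl
  simp at h3

theorem step_unique {l : List α} (hn : l.Nodup) {x y y' : α} (h : (x, y) ∈ steps l)
    (h' : (x, y') ∈ steps l) : y = y' := by
  rw [← steps_map_fst l] at hn
  exact (Prod.mk.inj (List.inj_on_of_nodup_map hn h h' rfl)).2

theorem mid_rot {l : List α} (h3 : 3 ≤ l.length) {z : α} (hz : z ∈ l) :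
    ∃ x y t, l ~r (x :: z :: y :: t) := by
  obtain ⟨x, hx⟩ := exists_step_snd hz
  obtain ⟨t, ht⟩ := step_rot (by omega) hx
  cases t with
  | nil =>
    rw [ht.perm.length_eq] at h3
    simp at h3
  | cons y t => exact ⟨x, y, t, ht⟩

theorem const_of_steps {l : List α} (f : α → β) (h : ∀ p ∈ steps l, f p.1 = f p.2) :
    ∀ a ∈ l, ∀ b ∈ l, f a = f b := by
  have key : ∀ (t : List α) (c : α), (∀ p ∈ path (c :: t), f p.1 = f p.2) →
      ∀ a ∈ c :: t, f a = f c := by
    intro t
    induction t with
    | nil => simp
    | cons d t ih =>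
      intro c hc a ha
      rw [path, List.forall_mem_cons] at hc
      rcases List.mem_cons.1 ha with rfl | ha
      · rfl
      · exact (ih d hc.2 a ha).trans hc.1.symm
  cases l with
  | nil => simp
  | cons c t =>
    intro a ha b hb
    exact (key _ c h a (List.mem_append_left [c] ha)).trans
      (key _ c h b (List.mem_append_left [c] hb)).symm

theorem exists_label {l : List α} (hn : l.Nodup) (R : α → γ → Prop)
    (h : ∀ p ∈ steps l, ∃ c, R p.1 c ∧ R p.2 c) :
    ∃ l' : List (α × γ), l'.map Prod.fst = l ∧ ∀ p ∈ steps l', R p.1.1 p.1.2 ∧ R p.2.1 p.1.2 := by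
  rcases l.eq_nil_or_concat' with rfl | ⟨s, x0, e⟩
  · exact ⟨[], rfl, by simp [steps]⟩
  obtain ⟨y0, h0⟩ := exists_step_fst (l := l) (x := x0) (by simp [e])
  obtain ⟨c0, -⟩ := h _ h0
  have key : ∀ x, ∃ c, ∀ y, (x, y) ∈ steps l → R x c ∧ R y c := fun x => by
    by_cases hx : ∃ y, (x, y) ∈ steps l
    · obtain ⟨y, hy⟩ := hx
      obtain ⟨c, hc⟩ := h _ hy
      exact ⟨c, fun y' hy' => step_unique hn hy hy' ▸ hc⟩
    · exact ⟨c0, fun y hy => absurd ⟨y, hy⟩ hx⟩
  choose g hg using key
  refine ⟨l.map fun x => (x, g x), by simp [Function.comp_def], fun p hp => ?_⟩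
  rw [steps_map] at hp
  obtain ⟨q, hq, rfl⟩ := List.mem_map.1 hp
  exact hg q.1 q.2 hq

theorem exists_nodup_chain (R : α → α → Prop) {a b : α} (h : Relation.ReflTransGen R a b) :
    a = b ∨ ∃ c : List α, (a :: (c ++ [b])).Nodup ∧ ∀ p ∈ path (a :: (c ++ [b])), R p.1 p.2 := by
  have key : ∃ t, (a :: t).Nodup ∧ (a :: t).IsChain R ∧ (a :: t).getLast? = some b := by
    induction h using Relation.ReflTransGen.head_induction_on with
    | refl => exact ⟨[], by simp, by simp, rfl⟩
    | @head a c hac _ ih =>
      obtain ⟨t, h1, h2, h3⟩ := ih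
      by_cases ha : a ∈ c :: t
      · obtain ⟨s, u, e⟩ := List.append_of_mem ha
        rw [e] at h1 h2 h3
        exact ⟨u, h1.of_append_right, h2.right_of_append, by simpa using h3⟩
      · exact ⟨c :: t, List.nodup_cons.2 ⟨ha, h1⟩, List.isChain_cons_cons.2 ⟨hac, h2⟩,
          by simpa using h3⟩
  obtain ⟨t, h1, h2, h3⟩ := key
  rcases t.eq_nil_or_concat' with rfl | ⟨c, d, rfl⟩
  · exact Or.inl (by simpa using h3)
  · obtain rfl : d = b := by
      rw [← List.cons_append, List.getLast?_concat] at h3
      simpa using h3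
    exact Or.inr ⟨c, h1, (isChain_iff_path R _).1 h2⟩

end Pool.Agent.MP_1c0fc2_co.GR
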