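import Pool.Agent.MP_1c0fc2_co.GR.CycA

open Function

namespace Pool.Agent.MP_1c0fc2_co.GR

variable {α β : Type} {l l' : List α} {x y z u v : α}

theorem xcycb_split (h : l ~r l') : ∃ a b, l = a ++ b ∧ l' = b ++ a := by
  obtain ⟨n, hn, rfl⟩ := List.isRotated_iff_mod.1 h
  exact ⟨l.take n, l.drop n, (List.take_append_drop n l).symm, List.rotate_eq_drop_append_take hn⟩

theorem xcycb_mid {p s a1 a2 : List α} (hp : p ≠ []) (hs : s ≠ [])
    (h : u :: (p ++ v :: s) = a2 ++ a1) (b : List α) : NonCons (a2 ++ (b ++ a1)) u v := by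
  rcases List.cons_eq_append_iff.1 h with ⟨rfl, rfl⟩ | ⟨a, rfl, h1⟩
  · refine ⟨p, s ++ b, hp, by simp [hs], ?_⟩
    simpa using List.isRotated_append (l := b) (l' := u :: (p ++ v :: s))
  · rcases List.append_eq_append_iff.1 h1 with ⟨c, rfl, h2⟩ | ⟨c, rfl, rfl⟩
    · rcases List.cons_eq_append_iff.1 h2 with ⟨rfl, rfl⟩ | ⟨c', rfl, rfl⟩
      · exact ⟨p ++ b, s, by simp [hp], hs, by simpa using List.IsRotated.refl _⟩
      · refine ⟨p, c' ++ (b ++ a1), hp, fun e => hs ?_, by simpa using List.IsRotated.refl _⟩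
        simp only [List.append_eq_nil_iff] at e ⊢
        exact ⟨e.1, e.2.2⟩
    · refine ⟨a ++ (b ++ c), s, fun e => hp ?_, hs, by simpa using List.IsRotated.refl _⟩
      simp only [List.append_eq_nil_iff] at e ⊢
      exact ⟨e.1, e.2.2⟩

theorem xcycb_not_step (h : NonCons l x y) (hn : l.Nodup) : (x, y) ∉ steps l := by
  obtain ⟨a, b, ha, -, hr⟩ := h
  obtain ⟨c, a, rfl⟩ := List.exists_cons_of_ne_nil ha
  intro h1
  have h2 := hr.nodup_iff.1 hn
  obtain rfl := step_unique h2 ((steps_perm hr).mem_iff.1 h1)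
    (show (x, c) ∈ steps (x :: c :: (a ++ y :: b)) by rw [steps_two]; exact List.mem_cons_self)
  simp at h2

theorem xcycb_two (hx : x ∈ l) (hy : y ∈ l) (hxy : x ≠ y) :
    ∃ a b, l ~r (x :: (a ++ y :: b)) := by
  obtain ⟨s, t, rfl⟩ := List.append_of_mem hx
  have hr : (s ++ x :: t) ~r (x :: (t ++ s)) := List.isRotated_append
  obtain ⟨a, b, e⟩ := List.append_of_mem
    ((List.mem_cons.1 (hr.mem_iff.1 hy)).resolve_left hxy.symm)
  exact ⟨a, b, e ▸ hr⟩

theorem xcycb_or_step (hx : x ∈ l) (hy : y ∈ l) (hxy : x ≠ y) :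
    NonCons l x y ∨ (x, y) ∈ steps l ∨ (y, x) ∈ steps l := by
  obtain ⟨a, b, hr⟩ := xcycb_two hx hy hxy
  rw [(steps_perm hr).mem_iff, (steps_perm hr).mem_iff]
  by_cases ha : a = []
  · subst ha
    exact Or.inr (Or.inl (by rw [List.nil_append, steps_two]; exact List.mem_cons_self))
  by_cases hb : b = []
  · subst hb
    exact Or.inr (Or.inr (by rw [steps_close]; simp))
  exact Or.inl ⟨a, b, ha, hb, hr⟩

theorem xcycb_three {a b c : List α} (h4 : 4 ≤ l.length)
    (hr : l ~r (x :: (a ++ y :: (b ++ z :: c)))) :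
    NonCons l x y ∨ NonCons l y z ∨ NonCons l x z := by
  by_cases ha : a = []
  swap
  · exact Or.inl ⟨a, _, ha, by simp, hr⟩
  by_cases hc : c = []
  swap
  · exact Or.inr (Or.inr ⟨a ++ y :: b, c, by simp, hc, by simpa using hr⟩)
  subst ha hc
  refine Or.inr (Or.inl ⟨b, [x], ?_, by simp, hr.trans ?_⟩)
  · rintro rfl
    rw [hr.perm.length_eq] at h4
    simp at h4
  · simpa using List.isRotated_append (l := [x]) (l' := y :: (b ++ [z]))

theorem NonCons.symm (h : NonCons l x y) : NonCons l y x := by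
  obtain ⟨a, b, ha, hb, hr⟩ := h
  exact ⟨b, a, hb, ha, hr.trans (List.isRotated_append (l := x :: a) (l' := y :: b))⟩

theorem NonCons.rot (h : NonCons l x y) (hr : l ~r l') : NonCons l' x y := by
  obtain ⟨a, b, ha, hb, hr'⟩ := h
  exact ⟨a, b, ha, hb, hr.symm.trans hr'⟩

theorem NonCons.mem (h : NonCons l x y) : x ∈ l ∧ y ∈ l := by
  obtain ⟨a, b, -, -, hr⟩ := h
  exact ⟨hr.mem_iff.2 (by simp), hr.mem_iff.2 (by simp)⟩

theorem NonCons.ne (h : NonCons l x y) (hn : l.Nodup) : x ≠ y := by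
  obtain ⟨a, b, -, -, hr⟩ := h
  rintro rfl
  have h1 := hr.nodup_iff.1 hn
  simp at h1

theorem NonCons.four_le (h : NonCons l x y) : 4 ≤ l.length := by
  obtain ⟨a, b, ha, hb, hr⟩ := h
  have h1 := List.length_pos_iff.2 ha
  have h2 := List.length_pos_iff.2 hb
  rw [hr.perm.length_eq, List.length_cons, List.length_append, List.length_cons]
  omega

theorem NonCons.map (f : α → β) (h : NonCons l x y) : NonCons (l.map f) (f x) (f y) := by
  obtain ⟨a, b, ha, hb, hr⟩ := h
  exact ⟨a.map f, b.map f, by simpa using ha, by simpa using hb, by simpa using hr.map f⟩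

theorem NonCons.of_map {f : α → β} {a b : β} (h : NonCons (l.map f) a b) :
    ∃ x y, f x = a ∧ f y = b ∧ NonCons l x y := by
  obtain ⟨p, q, hp, hq, n, hr⟩ := h
  rw [← List.map_rotate] at hr
  obtain ⟨x, t, h1, rfl, h2⟩ := List.map_eq_cons_iff.1 hr
  obtain ⟨p', t', rfl, rfl, h3⟩ := List.map_eq_append_iff.1 h2
  obtain ⟨y, q', rfl, rfl, rfl⟩ := List.map_eq_cons_iff.1 h3
  exact ⟨x, y, rfl, rfl, p', q', by simpa using hp, by simpa using hq, n, h1⟩

theorem NonCons.append {a : List α} (h : NonCons a u v) (b : List α) : NonCons (a ++ b) u v := by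
  obtain ⟨p, s, hp, hs, hr⟩ := h
  obtain ⟨a1, a2, rfl, h1⟩ := xcycb_split hr
  refine NonCons.rot (xcycb_mid hp hs h1 b) ?_
  rw [← List.append_assoc, List.append_assoc a1]
  exact List.isRotated_append

theorem NonCons.arc {a : List α} (h : NonCons (x :: (a ++ [y])) u v) (b : List α) :
    NonCons (x :: (a ++ y :: b)) u v := by
  simpa using h.append b

theorem NonCons.ins {t : List α} (h : NonCons (x :: y :: t) u v) (z : α) :
    NonCons (x :: z :: y :: t) u v := by
  have h1 := (h.rot (List.isRotated_append (l := [x]) (l' := y :: t))).append [z]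
  rw [List.append_assoc] at h1
  exact h1.rot List.isRotated_append

theorem nonCons_ends {t : List α} (ht : t ≠ []) (x z y : α) : NonCons (x :: z :: y :: t) x y := by
  exact ⟨[z], t, List.cons_ne_nil _ _, ht, List.IsRotated.refl _⟩

theorem NonCons.del {t : List α} (h : NonCons (x :: z :: y :: t) u v)
    (hn : (x :: z :: y :: t).Nodup) (hu : u ≠ z) (hv : v ≠ z) :
    NonCons (x :: y :: t) u v ∨ (u = x ∧ v = y) ∨ (u = y ∧ v = x) := by
  have hm : ∀ w, w ∈ x :: z :: y :: t → w ≠ z → w ∈ x :: y :: t := fun w h1 h2 => by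
    simpa [h2] using h1
  have hs : ∀ a b, (a, b) ∈ steps (x :: y :: t) →
      (a = x ∧ b = y) ∨ (a, b) ∈ steps (x :: z :: y :: t) := fun a b h1 => by
    rw [steps_two, List.mem_cons] at h1
    rw [steps_three]
    exact h1.imp Prod.mk.inj fun h2 => List.mem_cons_of_mem _ (List.mem_cons_of_mem _ h2)
  rcases xcycb_or_step (hm u h.mem.1 hu) (hm v h.mem.2 hv) (h.ne hn) with h1 | h1 | h1
  · exact Or.inl h1
  · exact Or.inr (Or.inl ((hs _ _ h1).resolve_right (xcycb_not_step h hn)))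
  · exact Or.inr (Or.inr ((hs _ _ h1).resolve_right (xcycb_not_step h.symm hn)).symm)

theorem NonCons.not_step (h : NonCons l x y) (hn : l.Nodup) : (x, y) ∉ steps l := by
  exact xcycb_not_step h hn

theorem nonCons_or_step (hx : x ∈ l) (hy : y ∈ l) (hxy : x ≠ y) :
    NonCons l x y ∨ (x, y) ∈ steps l ∨ (y, x) ∈ steps l := by
  exact xcycb_or_step hx hy hxy

theorem nonCons_three (hn : l.Nodup) (h4 : 4 ≤ l.length) (hx : x ∈ l) (hy : y ∈ l) (hz : z ∈ l)
    (hxy : x ≠ y) (hyz : y ≠ z) (hxz : x ≠ z) :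
    NonCons l x y ∨ NonCons l y z ∨ NonCons l x z := by
  obtain ⟨a, b, hr⟩ := xcycb_two hx hy hxy
  have h1 := hr.mem_iff.1 hz
  rw [List.mem_cons, List.mem_append, List.mem_cons, or_iff_right hxz.symm,
    or_iff_right hyz.symm] at h1
  rcases h1 with h1 | h1
  · obtain ⟨p, q, rfl⟩ := List.append_of_mem h1
    rw [List.append_assoc] at hr
    rcases xcycb_three h4 hr with h2 | h2 | h2
    exacts [Or.inr (Or.inr h2), Or.inr (Or.inl h2.symm), Or.inl h2]
  · obtain ⟨p, q, rfl⟩ := List.append_of_mem h1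
    exact xcycb_three h4 hr

theorem nonCons_of_step (hn : l.Nodup) (h4 : 4 ≤ l.length) (h : (u, v) ∈ steps l) (hz : z ∈ l)
    (hu : z ≠ u) (hv : z ≠ v) : NonCons l z u ∨ NonCons l z v := by
  obtain ⟨h1, h2⟩ := mem_of_mem_steps h
  rcases nonCons_three hn h4 hz h1 h2 hu (step_ne hn (by omega) h) hv with h3 | h3 | h3
  exacts [Or.inl h3, absurd h (h3.not_step hn), Or.inr h3]

theorem exists_nonCons (h4 : 4 ≤ l.length) : ∃ x y, NonCons l x y := by
  match l, h4 with
  | a :: b :: c :: d :: t, _ => exact ⟨a, c, nonCons_ends (List.cons_ne_nil _ _) a b c⟩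

theorem mem_three (h3 : l.length = 3) (hx : x ∈ l) (hy : y ∈ l) (hz : z ∈ l)
    (hxy : x ≠ y) (hyz : y ≠ z) (hxz : x ≠ z) : ∀ a ∈ l, a = x ∨ a = y ∨ a = z := by
  obtain ⟨p, q, r, rfl⟩ := List.length_eq_three.1 h3
  simp only [List.mem_cons, List.not_mem_nil, or_false] at hx hy hz ⊢
  grind

end Pool.Agent.MP_1c0fc2_co.GR
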