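import Pool.Agent.MP_1c0fc2_co.GR.CycA

open Function

namespace Pool.Agent.MP_1c0fc2_co.GR

variable {α β α' β' : Type}

theorem one_le_wt (x y : α ⊕ β) : 1 ≤ wt x y := by
  cases x <;> cases y <;> simp [wt]

theorem wt_le_two (x y : α ⊕ β) : wt x y ≤ 2 := by
  cases x <;> cases y <;> simp [wt]

theorem xcycw_le (L : List ((α ⊕ β) × (α ⊕ β))) :
    L.length ≤ (L.map (fun p => wt p.1 p.2)).sum := by
  induction L with
  | nil => simp
  | cons p L ih =>
    have := one_le_wt p.1 p.2
    simp only [List.length_cons, List.map_cons, List.sum_cons]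
    omega

theorem xcycw_ge (L : List ((α ⊕ β) × (α ⊕ β))) :
    (L.map (fun p => wt p.1 p.2)).sum ≤ 2 * L.length := by
  induction L with
  | nil => simp
  | cons p L ih =>
    have := wt_le_two p.1 p.2
    simp only [List.length_cons, List.map_cons, List.sum_cons]
    omega

theorem xcycw_len_path {γ : Type} (t : List γ) : ∀ a : γ, (path (a :: t)).length = t.length := by
  induction t with
  | nil => intro a; rfl
  | cons b t ih =>
    intro a
    show (path (b :: t)).length + 1 = t.length + 1
    rw [ih b]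

theorem xcycw_wt_map (f : α → α') (g : β → β') (x y : α ⊕ β) :
    wt (Sum.map f g x) (Sum.map f g y) = wt x y := by
  cases x <;> cases y <;> rfl

theorem wsum_rot {l l' : List (α ⊕ β)} (h : l ~r l') : wsum l = wsum l' := by
  unfold wsum
  exact ((steps_perm h).map _).sum_eq

theorem length_le_wsum (l : List (α ⊕ β)) : l.length ≤ wsum l := by
  unfold wsum
  rw [← length_steps l]
  exact xcycw_le _

theorem wsum_le (l : List (α ⊕ β)) : wsum l ≤ 2 * l.length := by
  unfold wsum
  rw [← length_steps l]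
  exact xcycw_ge _

theorem wsum_arc (x y : α ⊕ β) (a : List (α ⊕ β)) {b : List (α ⊕ β)} (hb : b ≠ []) :
    wsum (x :: (a ++ [y])) ≤ wsum (x :: (a ++ y :: b)) := by
  unfold wsum
  rw [steps_close, steps_split]
  simp only [List.map_append, List.sum_append, List.map_cons, List.map_nil, List.sum_cons,
    List.sum_nil]
  have h1 := wt_le_two y x
  have h2 := xcycw_le (path (y :: (b ++ [x])))
  rw [xcycw_len_path, List.length_append] at h2
  have h3 : 0 < b.length := List.length_pos_iff.mpr hb
  simp only [List.length_cons, List.length_nil] at h2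
  omega

theorem wsum_del (x z y : α ⊕ β) (t : List (α ⊕ β)) :
    wsum (x :: y :: t) ≤ wsum (x :: z :: y :: t) := by
  unfold wsum
  rw [steps_two, steps_three]
  simp only [List.map_cons, List.sum_cons]
  have h1 := wt_le_two x y
  have h2 := one_le_wt x z
  have h3 := one_le_wt z y
  omega

theorem wsum_ins (u v : α) (c : β) (t : List (α ⊕ β)) :
    wsum (.inl u :: .inr c :: .inl v :: t) = wsum (.inl u :: .inl v :: t) := by
  unfold wsum
  rw [steps_three, steps_two]
  simp only [List.map_cons, List.sum_cons]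
  have h1 : wt (Sum.inl u : α ⊕ β) (.inr c) = 1 := rfl
  have h2 : wt (Sum.inr c : α ⊕ β) (.inl v) = 1 := rfl
  have h3 : wt (Sum.inl u : α ⊕ β) (.inl v) = 2 := rfl
  rw [h1, h2, h3]
  omega

theorem wsum_map (f : α → α') (g : β → β') (l : List (α ⊕ β)) :
    wsum (l.map (Sum.map f g)) = wsum l := by
  unfold wsum
  rw [steps_map, List.map_map]
  congr 1
  apply List.map_congr_left
  intro p _
  exact xcycw_wt_map f g p.1 p.2

theorem wsum_inl (l : List α) : wsum (l.map (Sum.inl : α → α ⊕ β)) = 2 * l.length := by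
  unfold wsum
  rw [steps_map, List.map_map, ← length_steps l]
  generalize steps l = L
  induction L with
  | nil => rfl
  | cons p L ih =>
    simp only [List.map_cons, List.sum_cons, List.length_cons]
    rw [ih]
    have h : ((fun p : (α ⊕ β) × (α ⊕ β) => wt p.1 p.2) ∘ Prod.map Sum.inl Sum.inl) p = 2 := rfl
    rw [h]
    omega

variable {R R' : α ⊕ β → α ⊕ β → Prop} {w n : ℕ}

theorem Cyc.rot {l l' : List (α ⊕ β)} (h : Cyc R w n l) (hr : l ~r l') : Cyc R w n l' := by
  have hl : l.length = l'.length := hr.perm.length_eq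
  refine ⟨hr.nodup_iff.mp h.nodup, hl ▸ h.three, hl ▸ h.len, wsum_rot hr ▸ h.wle, ?_⟩
  intro p hp
  exact h.step p ((steps_perm hr).mem_iff.mpr hp)

theorem Cyc.imp {l : List (α ⊕ β)} (h : Cyc R w n l)
    (hR : ∀ x ∈ l, ∀ y ∈ l, x ≠ y → R x y → R' x y) : Cyc R' w n l := by
  refine ⟨h.nodup, h.three, h.len, h.wle, ?_⟩
  intro p hp
  have hm := mem_of_mem_steps hp
  have h2 : 2 ≤ l.length := le_trans (by norm_num) h.three
  exact hR _ hm.1 _ hm.2 (step_ne h.nodup h2 (x := p.1) (y := p.2) hp) (h.step p hp)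

theorem Cyc.mono {l : List (α ⊕ β)} {w' n' : ℕ} (h : Cyc R w n l) (hw : w ≤ w') (hn : n ≤ n') :
    Cyc R w' n' l :=
  ⟨h.nodup, h.three, h.len.trans hn, h.wle.trans hw, h.step⟩

theorem Cyc.arc {x y : α ⊕ β} {a b : List (α ⊕ β)} (h : Cyc R w n (x :: (a ++ y :: b)))
    (ha : a ≠ []) (hb : b ≠ []) (hyx : R y x) : Cyc R w n (x :: (a ++ [y])) := by
  have hs : (x :: (a ++ [y])).Sublist (x :: (a ++ y :: b)) :=
    List.Sublist.cons_cons x (List.Sublist.append_left
      (List.Sublist.cons_cons y (List.nil_sublist b)) a)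
  have h3 : 0 < a.length := List.length_pos_iff.mpr ha
  refine ⟨h.nodup.sublist hs, ?_, hs.length_le.trans h.len, (wsum_arc x y a hb).trans h.wle, ?_⟩
  · simp only [List.length_cons, List.length_append, List.length_nil]
    omega
  · intro p hp
    rw [steps_close, List.mem_append] at hp
    rcases hp with hp | hp
    · apply h.step
      rw [steps_split]
      exact List.mem_append_left _ hp
    · rw [List.mem_singleton] at hp
      subst hp
      exact hyx

theorem Cyc.del {x z y : α ⊕ β} {t : List (α ⊕ β)} (h : Cyc R w (n + 1) (x :: z :: y :: t))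
    (ht : t ≠ []) (hxy : R x y) : Cyc R w n (x :: y :: t) := by
  have hs : (x :: y :: t).Sublist (x :: z :: y :: t) :=
    List.Sublist.cons_cons x (List.sublist_cons_self z (y :: t))
  have h3 : 0 < t.length := List.length_pos_iff.mpr ht
  have h4 := h.len
  refine ⟨h.nodup.sublist hs, ?_, ?_, (wsum_del x z y t).trans h.wle, ?_⟩
  · simp only [List.length_cons]
    omega
  · simp only [List.length_cons] at h4 ⊢
    omega
  · intro p hp
    rw [steps_two, List.mem_cons] at hp
    rcases hp with hp | hp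
    · subst hp
      exact hxy
    · apply h.step
      rw [steps_three]
      exact List.mem_cons_of_mem _ (List.mem_cons_of_mem _ hp)

theorem Cyc.of_map {S : α' ⊕ β' → α' ⊕ β' → Prop} {f : α → α'} {g : β → β'}
    {l : List (α ⊕ β)} (h : Cyc S w n (l.map (Sum.map f g)))
    (hR : ∀ x ∈ l, ∀ y ∈ l, x ≠ y → S (Sum.map f g x) (Sum.map f g y) → R x y) :
    Cyc R w n l := by
  have hn : l.Nodup := List.Nodup.of_map _ h.nodup
  have h3 : 3 ≤ l.length := by simpa using h.three
  refine ⟨hn, h3, by simpa using h.len, wsum_map f g l ▸ h.wle, ?_⟩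
  intro p hp
  have hm := mem_of_mem_steps hp
  have h2 : 2 ≤ l.length := le_trans (by norm_num) h3
  refine hR _ hm.1 _ hm.2 (step_ne hn h2 (x := p.1) (y := p.2) hp) ?_
  have hq : Prod.map (Sum.map f g) (Sum.map f g) p ∈ steps (l.map (Sum.map f g)) := by
    rw [steps_map]
    exact List.mem_map_of_mem hp
  exact h.step _ hq

end Pool.Agent.MP_1c0fc2_co.GR
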