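import Mathlib

/-! Definitions for the girth Ramsey theorem: cyclic lists, incidence geometries, labelled
hypergraphs, trains. -/

open Function

namespace Pool.Agent.MP_1c0fc2_co.GR

section Lists
variable {α β : Type}

/-- consecutive pairs of a list -/
def path : List α → List (α × α)
  | a :: b :: t => (a, b) :: path (b :: t)
  | _ => []

/-- cyclically consecutive pairs of a list -/
def steps : List α → List (α × α)
  | [] => []
  | a :: t => path (a :: (t ++ [a]))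

/-- `x` and `y` occupy cyclically non-consecutive positions of `l` -/
def NonCons (l : List α) (x y : α) : Prop :=
  ∃ a b : List α, a ≠ [] ∧ b ≠ [] ∧ l ~r (x :: (a ++ y :: b))

/-- weight of a step: 1 between a vertex and a centre, 2 otherwise -/
def wt : α ⊕ β → α ⊕ β → ℕ
  | .inl _, .inr _ => 1
  | .inr _, .inl _ => 1
  | _, _ => 2

/-- weight of a cyclic list of nodes -/
def wsum (l : List (α ⊕ β)) : ℕ := ((steps l).map (fun p => wt p.1 p.2)).sum

/-- cycles of weight at most `w` and length at most `n` for the relation `R` -/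
structure Cyc (R : α ⊕ β → α ⊕ β → Prop) (w n : ℕ) (l : List (α ⊕ β)) : Prop where
  nodup : l.Nodup
  three : 3 ≤ l.length
  len : l.length ≤ n
  wle : wsum l ≤ w
  step : ∀ p ∈ steps l, R p.1 p.2

end Lists

/-- incidence geometry: vertices, centres, incidence -/
structure Geo where
  V : Type
  C : Type
  M : V → C → Prop

namespace Geo

/-- nodes -/
abbrev N (A : Geo) : Type := A.V ⊕ A.C

/-- the bag of the centre `d` -/
def WB (A : Geo) (d : A.C) : A.N → Prop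
  | .inl v => A.M v d
  | .inr c => c = d

/-- two nodes in the bag of one centre -/
def WP (A : Geo) (x y : A.N) : Prop := ∃ d, A.WB d x ∧ A.WB d y

/-- linearity -/
def B3 (A : Geo) : Prop :=
  ∀ u v c d, u ≠ v → A.M u c → A.M v c → A.M u d → A.M v d → c = d

/-- weak cycle: distinct vertices, each centre contains its vertex and the next one -/
def WCyc (A : Geo) (l : List (A.V × A.C)) : Prop :=
  (l.map Prod.fst).Nodup ∧ ∀ p ∈ steps l, A.M p.1.1 p.1.2 ∧ A.M p.2.1 p.1.2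

/-- girth larger than `g` -/
def Gir (A : Geo) (g : ℕ) : Prop :=
  ∀ l, A.WCyc l → 2 ≤ l.length → l.length ≤ g → ∀ a ∈ l, ∀ b ∈ l, a.2 = b.2

/-- keep only the incidences with centres satisfying `P` -/
def res (A : Geo) (P : A.C → Prop) : Geo := ⟨A.V, A.C, fun v c => A.M v c ∧ P c⟩

end Geo

/-- injective homomorphism of geometries -/
@[ext] structure GHom (A B : Geo) where
  v : A.V → B.V
  c : A.C → B.C
  v_inj : Injective v
  c_inj : Injective c
  map : ∀ x y, A.M x y → B.M (v x) (c y)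

namespace GHom
variable {A B C : Geo}

/-- the map on nodes -/
def n (h : GHom A B) : A.N → B.N := Sum.map h.v h.c

/-- the bag of a copy -/
def Bag (h : GHom A B) (x : B.N) : Prop := ∃ y, h.n y = x

/-- induced -/
def Ind (h : GHom A B) : Prop := ∀ x y, B.M (h.v x) (h.c y) → A.M x y

/-- strongly induced -/
def Str (h : GHom A B) : Prop :=
  ∀ x y d, x ≠ y → B.M (h.v x) d → B.M (h.v y) d → ∃ c, h.c c = d

def id (A : Geo) : GHom A A := ⟨_root_.id, _root_.id, injective_id, injective_id, fun _ _ h => h⟩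

def comp (g : GHom B C) (h : GHom A B) : GHom A C :=
  ⟨g.v ∘ h.v, g.c ∘ h.c, g.v_inj.comp h.v_inj, g.c_inj.comp h.c_inj,
    fun _ _ hm => g.map _ _ (h.map _ _ hm)⟩

end GHom

section Sys
variable {A B : Geo} {P : Type}

/-- two nodes in a common bag -/
def Adj (φ : P → GHom A B) (x y : B.N) : Prop :=
  (∃ p, (φ p).Bag x ∧ (φ p).Bag y) ∨ B.WP x y

/-- all nodes in one bag -/
def InBag (φ : P → GHom A B) (l : List B.N) : Prop :=
  (∃ p, ∀ x ∈ l, (φ p).Bag x) ∨ ∃ d, ∀ x ∈ l, B.WB d x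

/-- clean intersections -/
def B2 (φ : P → GHom A B) : Prop :=
  ∀ p q x y, p ≠ q → x ≠ y → (φ p).Bag x → (φ p).Bag y → (φ q).Bag x → (φ q).Bag y → B.WP x y

structure Basic (φ : P → GHom A B) : Prop where
  ind : ∀ p, (φ p).Ind
  str : ∀ p, (φ p).Str
  b2 : B2 φ
  b3 : B.B3

/-- short cycles have a chord or lie in a bag -/
def AC (φ : P → GHom A B) (w n : ℕ) : Prop :=
  ∀ l, Cyc (Adj φ) w n l → (∃ x y, NonCons l x y ∧ Adj φ x y) ∨ InBag φ l

/-- outcome of the triangulation lemma -/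
def TLo (φ : P → GHom A B) (l : List B.N) : Prop :=
  (∃ x y, NonCons l x y ∧ B.WP x y) ∨ InBag φ l

end Sys

/-- `Z` is the amalgam of the copies `ι a` of `X` along the copies `q a` of `S` in `G` -/
structure GAmal {S X G Z : Geo} {Q : Type} (σ : GHom S X) (q : Q → GHom S G)
    (ι : Q → GHom X Z) (j : GHom G Z) : Prop where
  comm : ∀ a x, (ι a).n (σ.n x) = j.n ((q a).n x)
  cover : ∀ z, j.Bag z ∨ ∃ a, (ι a).Bag z
  shared : ∀ a x y, (ι a).n x = j.n y → σ.Bag x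
  sep : ∀ a b x y, (ι a).n x = (ι b).n y → a = b ∨ σ.Bag x
  inc : ∀ v c, Z.M v c → (∃ v' c', j.v v' = v ∧ j.c c' = c ∧ G.M v' c') ∨
    ∃ a v' c', (ι a).v v' = v ∧ (ι a).c c' = c ∧ X.M v' c'

/-- the composed system -/
def prodSys {F X Z : Geo} {P Q : Type} (ι : Q → GHom X Z) (φ : P → GHom F X) :
    Q × P → GHom F Z := fun a => (ι a.1).comp (φ a.2)

/-- two nodes coming from one wagon bag of `G` -/
def GW {G Z : Geo} (j : GHom G Z) (x y : Z.N) : Prop :=
  ∃ x' y', j.n x' = x ∧ j.n y' = y ∧ G.WP x' y'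

/-- local pair of nodes of an amalgam -/
def Loc {X G Z : Geo} {Q : Type} (ι : Q → GHom X Z) (j : GHom G Z) (x y : Z.N) : Prop :=
  (∃ a, (ι a).Bag x ∧ (ι a).Bag y) ∨ GW j x y

/-- outcome for local cycles -/
def OutL {X G Z : Geo} {Q : Type} (ι : Q → GHom X Z) (j : GHom G Z) (l : List Z.N) : Prop :=
  (∃ a, ∀ x ∈ l, (ι a).Bag x) ∨ (∃ x y, NonCons l x y ∧ GW j x y) ∨
    ∃ d, ∀ x ∈ l, ∃ x', j.n x' = x ∧ G.WB d x'

/-- the extra properties of level zero -/
structure Lev0 {F S X : Geo} {P : Type} (σ : GHom S X) (φ : P → GHom F X) : Prop where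
  ind : σ.Ind
  str : σ.Str
  full : ∀ v c, X.M v (σ.c c) → ∃ u, σ.v u = v
  meet : ∀ p x y, x ≠ y → (φ p).Bag x → (φ p).Bag y → σ.Bag x → σ.Bag y → X.WP x y

/-- labelled hypergraph with template `K` and vertex classes `I` -/
structure HG {K I : Type} (cl : K → I) where
  V : Type
  E : Type
  [finV : Finite V]
  [finE : Finite E]
  vc : V → I
  inc : E → K → V
  inc_inj : ∀ e, Injective (inc e)
  vc_inc : ∀ e k, vc (inc e k) = cl k

attribute [instance] HG.finV HG.finE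

section HGs
variable {K I : Type} {cl : K → I}

namespace HG

def On (F : HG cl) (v : F.V) (e : F.E) : Prop := ∃ k, F.inc e k = v

def Lin (F : HG cl) : Prop :=
  ∀ e e' u v, u ≠ v → F.On u e → F.On v e → F.On u e' → F.On v e' → e = e'

def Ord [LinearOrder K] (F : HG cl) : Prop :=
  ∃ ρ : F.V → ℕ, ∀ e, StrictMono (fun k => ρ (F.inc e k))

def NoIso (F : HG cl) : Prop := ∀ v, ∃ e, F.On v e

/-- a `K`-partite hypergraph seen with the classes `cl` -/
@[reducible] def up (S : HG (id : K → K)) (cl : K → I) : HG cl where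
  V := S.V
  E := S.E
  vc := fun v => cl (S.vc v)
  inc := S.inc
  inc_inj := S.inc_inj
  vc_inc := fun e k => congrArg cl (S.vc_inc e k)

end HG

structure Hom (F H : HG cl) where
  v : F.V → H.V
  e : F.E → H.E
  vc_v : ∀ x, H.vc (v x) = F.vc x
  inc_e : ∀ f k, H.inc (e f) k = v (F.inc f k)

structure Emb (F H : HG cl) extends Hom F H where
  v_inj : Injective v
  e_inj : Injective e

/-- strongly induced -/
def Emb.Str {F H : HG cl} (φ : Emb F H) : Prop :=
  ∀ x u w, u ≠ w → H.On (φ.v u) x → H.On (φ.v w) x → ∃ f, φ.e f = x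

def Emb.comp {F G H : HG cl} (ψ : Emb G H) (φ : Emb F G) : Emb F H where
  v := ψ.v ∘ φ.v
  e := ψ.e ∘ φ.e
  vc_v := fun x => (ψ.vc_v _).trans (φ.vc_v x)
  inc_e := fun f k => (ψ.inc_e _ k).trans (congrArg ψ.v (φ.inc_e f k))
  v_inj := ψ.v_inj.comp φ.v_inj
  e_inj := ψ.e_inj.comp φ.e_inj

def Emb.up {S G : HG (id : K → K)} (φ : Emb S G) (cl : K → I) : Emb (S.up cl) (G.up cl) where
  v := φ.v
  e := φ.e
  vc_v := fun x => congrArg cl (φ.vc_v x)
  inc_e := φ.inc_e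
  v_inj := φ.v_inj
  e_inj := φ.e_inj

/-- Ramsey property of a family of maps -/
def Ram {P A B : Type} (m : P → A → B) (κ : Type) : Prop :=
  ∀ χ : B → κ, ∃ p, ∀ f f', χ (m p f) = χ (m p f')

/-- the constituent of `X` over the edge `e` -/
def Con [Finite K] {X H : HG cl} (ψ : Hom X H) (e : H.E) : HG (id : K → K) where
  V := {p : K × X.V // ∃ f, ψ.e f = e ∧ X.inc f p.1 = p.2}
  E := {f : X.E // ψ.e f = e}
  vc := fun p => p.1.1
  inc := fun f k => ⟨(k, X.inc f.1 k), f.1, f.2, rfl⟩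
  inc_inj := fun _ _ _ h => congrArg (fun p => p.1.1) h
  vc_inc := fun _ _ => rfl

def conEmb [Finite K] {X H : HG cl} (ψ : Hom X H) (e : H.E) : Emb ((Con ψ e).up cl) X where
  v := fun p => p.1.2
  e := fun f => f.1
  vc_v := fun p => by
    obtain ⟨⟨k, v⟩, f, _, h⟩ := p
    exact (congrArg X.vc h.symm).trans (X.vc_inc f k)
  inc_e := fun _ _ => rfl
  v_inj := by
    rintro ⟨⟨k, v⟩, f, hf, h⟩ ⟨⟨k', v'⟩, f', hf', h'⟩ (hv : v = v')
    have h1 : H.inc e k = H.inc e k' := by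
      have a := ψ.inc_e f k
      have b := ψ.inc_e f' k'
      simp only at h h'
      rw [hf, h] at a
      rw [hf', h'] at b
      rw [a, b, hv]
    have h2 := H.inc_inj e h1
    subst h2; subst hv; rfl
  e_inj := fun _ _ h => Subtype.ext h

/-- partite amalgamation -/
structure Amal [Finite K] {X H : HG cl} (ψ : Hom X H) (e : H.E) {G : HG (id : K → K)} {Q : Type}
    (q : Q → Emb (Con ψ e) G) where
  Z : HG cl
  ψ' : Hom Z H
  ι : Q → Emb X Z
  j : Emb (G.up cl) Z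
  ι_v : ∀ a x, ψ'.v ((ι a).v x) = ψ.v x
  ι_e : ∀ a f, ψ'.e ((ι a).e f) = ψ.e f
  j_v : ∀ w : G.V, ψ'.v (j.v w) = H.inc e (G.vc w)
  j_e : ∀ y : G.E, ψ'.e (j.e y) = e
  comm_v : ∀ a x, (ι a).v ((conEmb ψ e).v x) = j.v ((q a).v x)
  comm_e : ∀ a f, (ι a).e ((conEmb ψ e).e f) = j.e ((q a).e f)
  cover_v : ∀ z, (∃ w, j.v w = z) ∨ ∃ a x, (ι a).v x = z
  cover_e : ∀ z, (∃ y, j.e y = z) ∨ ∃ a f, (ι a).e f = z
  shared_v : ∀ a x w, (ι a).v x = j.v w → ∃ u, (conEmb ψ e).v u = x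
  sep_v : ∀ a b x y, (ι a).v x = (ι b).v y → a = b ∨ ∃ u, (conEmb ψ e).v u = x
  sep_e : ∀ a b f f', (ι a).e f = (ι b).e f' → a = b ∨ ψ.e f = e

/-- picture over the system `h` -/
structure Pic {F H : HG cl} {R : Type} (h : R → Hom F H) where
  X : HG cl
  ψ : Hom X H
  P : Type
  [finP : Finite P]
  φ : P → Emb F X
  ov : P → R
  ov_v : ∀ p x, ψ.v ((φ p).v x) = (h (ov p)).v x
  ov_e : ∀ p f, ψ.e ((φ p).e f) = (h (ov p)).e f

attribute [instance] Pic.finP

/-- disjoint union of copies of `F` -/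
def HG.mul (R : Type) [Finite R] (F : HG cl) : HG cl where
  V := R × F.V
  E := R × F.E
  vc := fun x => F.vc x.2
  inc := fun f k => (f.1, F.inc f.2 k)
  inc_inj := fun f _ _ h => F.inc_inj f.2 (congrArg Prod.snd h)
  vc_inc := fun f k => F.vc_inc f.2 k

def mulEmb {R : Type} [Finite R] (F : HG cl) (r : R) : Emb F (F.mul R) where
  v := fun x => (r, x)
  e := fun f => (r, f)
  vc_v := fun _ => rfl
  inc_e := fun _ _ => rfl
  v_inj := fun _ _ h => congrArg Prod.snd h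
  e_inj := fun _ _ h => congrArg Prod.snd h

/-- picture zero -/
def pic0 {F H : HG cl} {R : Type} [Finite R] (h : R → Hom F H) : Pic h where
  X := F.mul R
  ψ := ⟨fun x => (h x.1).v x.2, fun f => (h f.1).e f.2, fun x => (h x.1).vc_v x.2,
    fun f k => (h f.1).inc_e f.2 k⟩
  P := R
  φ := mulEmb F
  ov := id
  ov_v := fun _ _ => rfl
  ov_e := fun _ _ => rfl

/-- the next picture -/
def Amal.pic [Finite K] {F H : HG cl} {R : Type} {h : R → Hom F H} (Y : Pic h) {e : H.E}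
    {G : HG (id : K → K)} {Q : Type} [Finite Q] {q : Q → Emb (Con Y.ψ e) G}
    (A : Amal Y.ψ e q) : Pic h where
  X := A.Z
  ψ := A.ψ'
  P := Q × Y.P
  φ := fun a => (A.ι a.1).comp (Y.φ a.2)
  ov := fun a => Y.ov a.2
  ov_v := fun a x => (A.ι_v a.1 _).trans (Y.ov_v a.2 x)
  ov_e := fun a f => (A.ι_e a.1 _).trans (Y.ov_e a.2 f)

/-- train of height `m` with parameter `A` -/
structure IsTrain (F : HG cl) (s : ℕ → Setoid F.E) (A : ℕ → Set I) (m : ℕ) : Prop where
  zero : ∀ e e', s 0 e e' → e = e'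
  mono : ∀ μ e e', s μ e e' → s (μ + 1) e e'
  top : ∀ μ, m ≤ μ → ∀ e e', s μ e e'
  cond : ∀ μ e e' v, F.On v e → F.On v e' → ¬ s μ e e' → s (μ + 1) e e' → F.vc v ∈ A μ

/-- the classes that may be shared by different wagons of level `μ` -/
def Hi (A : ℕ → Set I) (m μ : ℕ) : Set I := {i | ∃ ν, μ ≤ ν ∧ ν < m ∧ i ∈ A ν}

/-- geometry of the wagons, all vertices -/
def wg (F : HG cl) (r : Setoid F.E) : Geo :=
  ⟨F.V, Quotient r, fun v c => ∃ e, Quotient.mk r e = c ∧ F.On v e⟩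

/-- geometry of the wagons, vertices with class in `D` -/
def hg (F : HG cl) (r : Setoid F.E) (D : Set I) : Geo :=
  ⟨{v : F.V // F.vc v ∈ D}, Quotient r, fun v c => ∃ e, Quotient.mk r e = c ∧ F.On v.1 e⟩

/-- local geometry: only edges in `O` that are `r'`-equivalent to `z` -/
def lg (F : HG cl) (O : F.E → Prop) (r r' : Setoid F.E) (z : F.E) : Geo :=
  ⟨F.V, Quotient r, fun v c => ∃ e, Quotient.mk r e = c ∧ O e ∧ r' e z ∧ F.On v e⟩

def Compat {F H : HG cl} (φ : Emb F H) (r : Setoid F.E) (t : Setoid H.E) : Prop :=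
  ∀ f f', t (φ.e f) (φ.e f') ↔ r f f'

def Emb.hg {F H : HG cl} (φ : Emb F H) {r : Setoid F.E} {t : Setoid H.E} (hc : Compat φ r t)
    (D : Set I) : GHom (hg F r D) (hg H t D) where
  v := fun x => ⟨φ.v x.1, by rw [φ.vc_v]; exact x.2⟩
  c := Quotient.map φ.e (fun a b h => (hc a b).2 h)
  v_inj := fun _ _ h => Subtype.ext (φ.v_inj (congrArg Subtype.val h))
  c_inj := by
    intro a b
    induction a using Quotient.inductionOn
    induction b using Quotient.inductionOn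
    intro h
    exact Quotient.sound ((hc _ _).1 (Quotient.exact h))
  map := by
    rintro x _ ⟨e, rfl, k, hk⟩
    exact ⟨φ.e e, rfl, k, by rw [φ.inc_e, hk]⟩

/-- the system is good at one level -/
def GoodL {F H : HG cl} {P : Type} (φ : P → Emb F H) (r : Setoid F.E) (t : Setoid H.E)
    (D : Set I) (w n : ℕ) : Prop :=
  ∃ hc : ∀ p, Compat (φ p) r t,
    Basic (fun p => (φ p).hg (hc p) D) ∧ AC (fun p => (φ p).hg (hc p) D) w n

/-- restriction of the wagons to a constituent -/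
def conS [Finite K] {X H : HG cl} (ψ : Hom X H) (e : H.E) (r : Setoid X.E) :
    Setoid (Con ψ e).E := r.comap Subtype.val

theorem con_compat [Finite K] {X H : HG cl} (ψ : Hom X H) (e : H.E) (r : Setoid X.E) :
    Compat (conEmb ψ e) (conS ψ e r) r := fun _ _ => Iff.rfl

/-- the wagons of an amalgam -/
structure TRel [Finite K] {X H : HG cl} {ψ : Hom X H} {e : H.E} {G : HG (id : K → K)} {Q : Type}
    {q : Q → Emb (Con ψ e) G} (A : Amal ψ e q) (s : ℕ → Setoid X.E) (u : ℕ → Setoid G.E)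
    (t : ℕ → Setoid A.Z.E) (m : ℕ) : Prop where
  ι_c : ∀ a μ, Compat (A.ι a) (s μ) (t μ)
  j_c : ∀ μ, Compat A.j (u μ) (t μ)
  tie : ∀ μ, μ < m → ∀ a f y, t μ ((A.ι a).e f) (A.j.e y) → ∃ f0, ψ.e f0 = e ∧ s μ f f0
  sep : ∀ μ, μ < m → ∀ a b f f', t μ ((A.ι a).e f) ((A.ι b).e f') →
    a = b ∨ ∃ f0, ψ.e f0 = e ∧ s μ f f0
  zero : ∀ x x', t 0 x x' → x = x'
  mono : ∀ μ x x', t μ x x' → t (μ + 1) x x'
  top : ∀ μ, m ≤ μ → ∀ x x', t μ x x'

/-- hypotheses on the train -/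
structure Dom (F : HG cl) (s : ℕ → Setoid F.E) (A : ℕ → Set I) (m : ℕ) (γ : ℕ → ℕ) : Prop where
  tr : IsTrain F s A m
  lin : F.Lin
  gir : ∀ μ, 1 ≤ μ → μ < m → (wg F (s μ)).Gir (γ μ)

/-- conclusions for the levels above zero -/
structure Up {F H : HG cl} {P : Type} (φ : P → Emb F H) (s : ℕ → Setoid F.E)
    (t : ℕ → Setoid H.E) (A : ℕ → Set I) (m : ℕ) (γ : ℕ → ℕ) : Prop where
  tr : IsTrain H t A m
  lin : H.Lin
  cpt : ∀ p μ, Compat (φ p) (s μ) (t μ)
  good : ∀ μ, 1 ≤ μ → μ < m → GoodL φ (s μ) (t μ) (Hi A m μ) (2 * γ μ) (2 * γ μ)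

/-- a revision of the first level on the edges in `O` -/
structure IsRev (F : HG cl) (O : F.E → Prop) (s1 : Setoid F.E) (A0 : Set K) (g M : ℕ)
    (r : ℕ → Setoid F.E) (B : ℕ → Set K) : Prop where
  pos : 0 < M
  zero : ∀ e e', O e → O e' → r 0 e e' → e = e'
  mono : ∀ j, j < M → ∀ e e', O e → O e' → r j e e' → r (j + 1) e e'
  last : ∀ e e', O e → O e' → (r M e e' ↔ s1 e e')
  sing : ∀ j, j < M → (B j).Subsingleton
  sub : ∀ j, j < M → B j ⊆ A0
  cov : ∀ k ∈ A0, ∃ j, j < M ∧ k ∈ B j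
  cond : ∀ j, j < M → ∀ e e' k, O e → O e' → F.inc e k = F.inc e' k → ¬ r j e e' →
    r (j + 1) e e' → k ∈ B j
  gir : ∀ j, j < M → ∀ z, (lg F O (r j) (r (j + 1)) z).Gir g

def Rev (F : HG cl) (O : F.E → Prop) (s1 : Setoid F.E) (A0 : Set K) (g : ℕ) : Prop :=
  ∃ M r B, IsRev F O s1 A0 g M r B

end HGs

/-- the Ramsey statement for trains of height `m` -/
def St (m : ℕ) (γ : ℕ → ℕ) (w n : ℕ) : Prop :=
  ∀ (K I : Type) [Finite K] [Finite I] [LinearOrder K] (cl : K → I) (F : HG cl)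
    (s : ℕ → Setoid F.E) (A : ℕ → Set I), Dom F s A m γ → F.Ord →
    ∀ (κ : Type) [Finite κ] [Nonempty κ],
    ∃ (H : HG cl) (t : ℕ → Setoid H.E) (P : Type) (_ : Finite P) (φ : P → Emb F H),
      Ram (fun p => (φ p).e) κ ∧ Up φ s t A m γ ∧ GoodL φ (s 0) (t 0) (Hi A m 0) w n

/-- the partite lemma -/
def Hor (b : Prop) (m : ℕ) (γ : ℕ → ℕ) (w n g : ℕ) : Prop :=
  ∀ (K : Type) [Finite K] [LinearOrder K] (S : HG (id : K → K))
    (s : ℕ → Setoid S.E) (A : ℕ → Set K), Dom S s A m γ → S.NoIso →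
    (b → Rev S (fun _ => True) (s 1) (A 0) g) →
    ∀ (κ : Type) [Finite κ] [Nonempty κ],
    ∃ (G : HG (id : K → K)) (t : ℕ → Setoid G.E) (Q : Type) (_ : Finite Q) (q : Q → Emb S G),
      Ram (fun p => (q p).e) κ ∧ Up q s t A m γ ∧
      (b → GoodL q (s 0) (t 0) (Hi A m 0) w n ∧ (2 * (n + 1) ≤ w → (wg G (t 0)).Gir (n + 1)))

def T (m : ℕ) (γ : ℕ → ℕ) : Prop := St m γ (2 * γ 0) (2 * γ 0)

def rep (M g : ℕ) (γ : ℕ → ℕ) : ℕ → ℕ := fun μ => if μ < M then g else γ (μ - M)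

end Pool.Agent.MP_1c0fc2_co.GR
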