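import Pool.Agent.MP_1c0fc2_co.GR.GeoA

open Function

namespace Pool.Agent.MP_1c0fc2_co.GR

/-- disjoint copies with pendant vertices -/
theorem disj {A B : Geo} {L : Type} (h : L → GHom A B) (cp : B.N → L)
    (hM : ∀ v c, B.M v c → cp (.inl v) = cp (.inr c)) (hb : ∀ l x, cp ((h l).n x) = l)
    (hi : ∀ l, (h l).Ind) (hc : ∀ c, (h (cp (.inr c))).Bag (.inr c))
    (hv : ∀ v, (h (cp (.inl v))).Bag (.inl v) ∨ ∀ c c', B.M v c → B.M v c' → c = c')
    (b3 : A.B3) : Basic h ∧ ∀ w n, AC h w n := by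
  have bagcp : ∀ p x, (h p).Bag x → cp x = p := by
    rintro p _ ⟨y, rfl⟩
    exact hb p y
  have wbcp : ∀ d x, B.WB d x → cp x = cp (.inr d) := by
    rintro d (v | c) hx
    · exact hM v d hx
    · exact congrArg (fun c => cp (.inr c)) hx
  have adjcp : ∀ x y, Adj h x y → cp x = cp y := by
    rintro x y (⟨p, hx, hy⟩ | ⟨d, hx, hy⟩)
    · rw [bagcp p x hx, bagcp p y hy]
    · rw [wbcp d x hx, wbcp d y hy]
  refine ⟨⟨hi, fun p x y d _ hx _ => ?_, fun p q x y hpq _ hx _ hx' _ => ?_,
    fun u v c d huv h1 h2 h3 h4 => ?_⟩, fun w n l hl => ?_⟩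
  · have h1 := hc d
    rw [← hM _ _ hx, show cp (.inl ((h p).v x)) = p from hb p (.inl x)] at h1
    exact ((h p).bag_inr d).1 h1
  · exact absurd ((bagcp p x hx).symm.trans (bagcp q x hx')) hpq
  · by_contra hcd
    have hu := (hv u).resolve_right fun hh => hcd (hh c d h1 h3)
    have hv' := (hv v).resolve_right fun hh => hcd (hh c d h2 h4)
    have hd := hc d
    rw [← hM _ _ h3] at hd
    rw [hM _ _ h1] at hu hd
    rw [hM _ _ h2] at hv'
    have hc' := hc c
    generalize cp (.inr c) = p at hu hv' hd hc'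
    obtain ⟨u', rfl⟩ := ((h p).bag_inl u).1 hu
    obtain ⟨v', rfl⟩ := ((h p).bag_inl v).1 hv'
    obtain ⟨c', rfl⟩ := ((h p).bag_inr c).1 hc'
    obtain ⟨d', rfl⟩ := ((h p).bag_inr d).1 hd
    exact hcd (congrArg _ (b3 u' v' c' d' (fun e => huv (congrArg _ e)) (hi p _ _ h1)
      (hi p _ _ h2) (hi p _ _ h3) (hi p _ _ h4)))
  · have hconst := const_of_steps cp fun p hp => adjcp _ _ (hl.step p hp)
    by_cases hall : ∀ x ∈ l, (h (cp x)).Bag x
    · obtain ⟨a, ha⟩ := List.exists_mem_of_length_pos (l := l) (by have := hl.three; omega)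
      refine Or.inr (Or.inl ⟨cp a, fun x hx => ?_⟩)
      rw [hconst a ha x hx]
      exact hall x hx
    · push Not at hall
      obtain ⟨z, hz, hz'⟩ := hall
      obtain ⟨x, y, t, hr⟩ := mid_rot hl.three hz
      have hl' := hl.rot hr
      have hwp : ∀ a, Adj h a z → B.WP a z := by
        rintro a (⟨p, -, hp⟩ | hw)
        · rw [bagcp p z hp] at hz'
          exact absurd hp hz'
        · exact hw
      obtain ⟨d, hxd, hzd⟩ := hwp x (hl'.step (x, z) (by simp [steps_three]))
      obtain ⟨d', hyd, hzd'⟩ := hwp y (hl'.step (z, y) (by simp [steps_three])).symm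
      have hdd : d' = d := by
        rcases z with v | c
        · exact (hv v).resolve_left hz' d' d hzd' hzd
        · exact absurd (hc c) hz'
      subst hdd
      by_cases ht : t = []
      · subst ht
        refine Or.inr (Or.inr ⟨d', fun a ha => ?_⟩)
        have := hr.mem_iff.1 ha
        simp only [List.mem_cons, List.not_mem_nil, or_false] at this
        rcases this with rfl | rfl | rfl
        · exact hxd
        · exact hzd
        · exact hyd
      · exact Or.inl ⟨x, y, (nonCons_ends ht x z y).rot hr.symm, Or.inr ⟨d', hxd, hyd⟩⟩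

end Pool.Agent.MP_1c0fc2_co.GR
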