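import Pool.Agent.MP_1c0fc2_co.GR.TL

open Function

namespace Pool.Agent.MP_1c0fc2_co.GR

variable {K I : Type} {cl : K → I} {F H : HG cl} {s : ℕ → Setoid F.E} {A : ℕ → Set I}
  {m μ ν g : ℕ} {γ : ℕ → ℕ}

theorem Emb.on (φ : Emb F H) {v : F.V} {e : F.E} : H.On (φ.v v) (φ.e e) ↔ F.On v e := by
  constructor
  · rintro ⟨k, hk⟩
    exact ⟨k, φ.v_inj ((φ.inc_e e k).symm.trans hk)⟩
  · rintro ⟨k, hk⟩
    exact ⟨k, by rw [φ.inc_e, hk]⟩

theorem IsTrain.le (h : IsTrain F s A m) (hμ : μ ≤ ν) {e e' : F.E} (he : s μ e e') :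
    s ν e e' := by
  induction ν, hμ using Nat.le_induction with
  | base => exact he
  | succ n _ ih => exact h.mono n e e' ih

theorem xtraina_between (h : IsTrain F s A m) {v : F.V} {e e' : F.E} (he : F.On v e)
    (he' : F.On v e') (h1 : ¬ s μ e e') (h2 : s ν e e') :
    ∃ j, μ ≤ j ∧ j < ν ∧ ¬ s j e e' ∧ s (j + 1) e e' ∧ F.vc v ∈ A j := by
  induction ν with
  | zero => exact absurd (h.le (Nat.zero_le μ) h2) h1
  | succ n ih =>
    by_cases hn : s n e e'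
    · obtain ⟨j, a, b, c⟩ := ih hn
      exact ⟨j, a, Nat.lt_succ_of_lt b, c⟩
    · refine ⟨n, ?_, Nat.lt_succ_self n, hn, h2, h.cond n e e' v he he' hn h2⟩
      by_contra hc
      exact h1 (h.le (Nat.succ_le_of_lt (not_le.1 hc)) h2)

theorem IsTrain.low (h : IsTrain F s A m) {v : F.V} {e e' : F.E} (he : F.On v e)
    (he' : F.On v e') (hv : F.vc v ∉ Hi A m μ) : s μ e e' := by
  by_contra h1
  obtain ⟨j, a, b, -, -, c⟩ := xtraina_between h he he' h1 (h.top m le_rfl e e')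
  exact hv ⟨j, a, b, c⟩

theorem IsTrain.between (h : IsTrain F s A m) {v : F.V} {e e' : F.E} (he : F.On v e)
    (he' : F.On v e') (h1 : ¬ s μ e e') (h2 : s ν e e') :
    ∃ j, μ ≤ j ∧ j < ν ∧ ¬ s j e e' ∧ s (j + 1) e e' ∧ F.vc v ∈ A j := by
  exact xtraina_between h he he' h1 h2

/-- the inclusion of the restricted geometry -/
def xtraina_incl (F : HG cl) (r : Setoid F.E) (D : Set I) : GHom (hg F r D) (wg F r) :=
  ⟨Subtype.val, id, Subtype.val_injective, injective_id, fun _ _ h => h⟩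

theorem gir_hg_of_wg {r : Setoid F.E} (h : (wg F r).Gir g) (D : Set I) : (hg F r D).Gir g := by
  exact h.pull (xtraina_incl F r D)

theorem IsTrain.gir_wg (h : IsTrain F s A m) (hg' : (hg F (s μ) (Hi A m μ)).Gir g) :
    (wg F (s μ)).Gir g := by
  refine hg'.of_two (xtraina_incl F (s μ) (Hi A m μ)) (fun _ _ hm => hm) ?_
    (fun _ c _ => ⟨c, rfl⟩)
  rintro v _ _ hne ⟨e, rfl, he⟩ ⟨e', rfl, he'⟩
  by_contra hc
  exact hne (Quotient.sound (h.low he he' fun hv => hc ⟨⟨v, hv⟩, rfl⟩))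

theorem lin_iff_gir {r : Setoid F.E} (h0 : ∀ e e', r e e' → e = e') :
    F.Lin ↔ (wg F r).Gir 2 := by
  rw [gir_two]
  constructor
  · rintro h u v _ _ huv ⟨e₁, rfl, h₁⟩ ⟨e₂, q₂, h₂⟩ ⟨e₃, rfl, h₃⟩ ⟨e₄, q₄, h₄⟩
    obtain rfl := h0 _ _ (Quotient.exact q₂)
    obtain rfl := h0 _ _ (Quotient.exact q₄)
    exact congrArg _ (h _ _ u v huv h₁ h₂ h₃ h₄)
  · intro h e e' u v huv h₁ h₂ h₃ h₄
    exact h0 _ _ (Quotient.exact (h u v (Quotient.mk r e) (Quotient.mk r e') huv ⟨e, rfl, h₁⟩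
      ⟨e, rfl, h₂⟩ ⟨e', rfl, h₃⟩ ⟨e', rfl, h₄⟩))

theorem gir_wg_top {r : Setoid F.E} (h0 : ∀ e e', r e e') : (wg F r).Gir g := by
  refine gir_of_subsingleton fun c d => ?_
  induction c using Quotient.inductionOn
  induction d using Quotient.inductionOn
  exact Quotient.sound (h0 _ _)

/-- the map of wagon geometries -/
def xtraina_wg (φ : Emb F H) {r : Setoid F.E} {t : Setoid H.E} (hc : Compat φ r t) :
    GHom (wg F r) (wg H t) where
  v := φ.v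
  c := (φ.hg hc Set.univ).c
  v_inj := φ.v_inj
  c_inj := (φ.hg hc Set.univ).c_inj
  map := by
    rintro x _ ⟨e, rfl, he⟩
    exact ⟨φ.e e, rfl, φ.on.2 he⟩

theorem Emb.gir_wg (φ : Emb F H) {r : Setoid F.E} {t : Setoid H.E} (hc : Compat φ r t)
    (h : (wg H t).Gir g) : (wg F r).Gir g := by
  exact h.pull (xtraina_wg φ hc)

theorem Emb.lin (φ : Emb F H) (h : H.Lin) : F.Lin := by
  intro e e' u v huv h₁ h₂ h₃ h₄
  exact φ.e_inj (h _ _ _ _ (φ.v_inj.ne huv) (φ.on.2 h₁) (φ.on.2 h₂) (φ.on.2 h₃) (φ.on.2 h₄))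

theorem Emb.isTrain (φ : Emb F H) {t : ℕ → Setoid H.E} (hc : ∀ μ, Compat φ (s μ) (t μ))
    (h : IsTrain H t A m) : IsTrain F s A m := by
  refine ⟨fun e e' h0 => φ.e_inj (h.zero _ _ ((hc 0 e e').2 h0)),
    fun μ e e' h0 => (hc (μ + 1) e e').1 (h.mono μ _ _ ((hc μ e e').2 h0)),
    fun μ hμ e e' => (hc μ e e').1 (h.top μ hμ _ _), fun μ e e' v he he' h1 h2 => ?_⟩
  rw [← φ.vc_v]
  exact h.cond μ _ _ _ (φ.on.2 he) (φ.on.2 he') (fun h3 => h1 ((hc μ e e').1 h3))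
    ((hc (μ + 1) e e').2 h2)

theorem Compat.comp {G : HG cl} {ψ : Emb G H} {φ : Emb F G} {r : Setoid F.E} {u : Setoid G.E}
    {t : Setoid H.E} (h1 : Compat ψ u t) (h2 : Compat φ r u) : Compat (ψ.comp φ) r t := by
  exact fun f f' => (h1 _ _).trans (h2 f f')

theorem Emb.hg_comp {G : HG cl} (ψ : Emb G H) (φ : Emb F G) {r : Setoid F.E} {u : Setoid G.E}
    {t : Setoid H.E} (h1 : Compat ψ u t) (h2 : Compat φ r u) (h3 : Compat (ψ.comp φ) r t)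
    (D : Set I) : (ψ.comp φ).hg h3 D = (ψ.hg h1 D).comp (φ.hg h2 D) := by
  refine GHom.ext rfl (funext fun c => ?_)
  induction c using Quotient.inductionOn
  rfl

theorem GoodL.gir {P : Type} {φ : P → Emb F H} {r : Setoid F.E} {t : Setoid H.E} {D : Set I}
    {w n : ℕ} (h : GoodL φ r t D w n) (hw : 2 * g ≤ w) (hn : g ≤ n) (hF : (hg F r D).Gir g) :
    (hg H t D).Gir g := by
  obtain ⟨hc, h1, h2⟩ := h
  exact host_gir h1 h2 hw hn hF

theorem Up.dom {P : Type} {φ : P → Emb F H} {t : ℕ → Setoid H.E} (h : Up φ s t A m γ)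
    (hF : Dom F s A m γ) : Dom H t A m γ := by
  refine ⟨h.tr, h.lin, fun μ h1 h2 => h.tr.gir_wg ?_⟩
  exact (h.good μ h1 h2).gir le_rfl (by omega) (gir_hg_of_wg (hF.gir μ h1 h2) _)

theorem ord_partite [Finite K] [LinearOrder K] (S : HG (id : K → K)) : S.Ord := by
  refine ⟨fun v => (Set.Iio (S.vc v)).ncard, fun e k k' hk => ?_⟩
  simp only [S.vc_inc, id]
  exact Set.ncard_lt_ncard (Set.Iio_ssubset_Iio hk) (Set.toFinite _)

theorem con_noIso [Finite K] (ψ : Hom F H) (e : H.E) : (Con ψ e).NoIso := by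
  rintro ⟨⟨k, v⟩, f, hf, h⟩
  exact ⟨⟨f, hf⟩, k, Subtype.ext (Prod.ext rfl h)⟩

theorem hi_preimage (cl : K → I) (A : ℕ → Set I) (m μ : ℕ) :
    Hi (fun ν => cl ⁻¹' A ν) m μ = cl ⁻¹' Hi A m μ := by
  rfl

theorem hi_shift (A : ℕ → Set I) (m μ : ℕ) :
    Hi (fun ν => A (ν + 1)) m μ = Hi A (m + 1) (μ + 1) := by
  ext i
  constructor
  · rintro ⟨j, a, b, c⟩
    exact ⟨j + 1, by omega, by omega, c⟩
  · rintro ⟨j, a, b, c⟩
    obtain ⟨j, rfl⟩ : ∃ j', j = j' + 1 := ⟨j - 1, by omega⟩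
    exact ⟨j, by omega, by omega, c⟩

theorem hi_anti (A : ℕ → Set I) (m : ℕ) (h : μ ≤ ν) : Hi A m ν ⊆ Hi A m μ := by
  rintro i ⟨j, a, b, c⟩
  exact ⟨j, h.trans a, b, c⟩

theorem Dom.con [Finite K] (h : Dom F s A m γ) (ψ : Hom F H) (e : H.E) :
    Dom (Con ψ e) (fun μ => conS ψ e (s μ)) (fun μ => cl ⁻¹' A μ) m γ := by
  have h1 := (conEmb ψ e).isTrain (fun μ => con_compat ψ e (s μ)) h.tr
  have h2 := (conEmb ψ e).lin h.lin
  exact ⟨⟨h1.zero, h1.mono, h1.top, h1.cond⟩, h2, fun μ a b =>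
    (conEmb ψ e).gir_wg (con_compat ψ e (s μ)) (h.gir μ a b)⟩

theorem GoodL.up {S G : HG (id : K → K)} {P : Type} {φ : P → Emb S G} {r : Setoid S.E}
    {t : Setoid G.E} {D : Set I} {w n : ℕ} (h : GoodL φ r t (cl ⁻¹' D) w n) :
    GoodL (fun p => (φ p).up cl) r t D w n := by
  obtain ⟨hc, h1, h2⟩ := h
  exact ⟨hc, h1, h2⟩

end Pool.Agent.MP_1c0fc2_co.GR
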