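import Pool.Agent.MP_1c0fc2_co.GR.ExtD
import Pool.Agent.MP_1c0fc2_co.GR.TrainA

open Function

namespace Pool.Agent.MP_1c0fc2_co.GR

variable {K : Type} {F X : HG (id : K → K)} {D : Set K} {N : HG (clK X D)}

theorem xextc_pos (ε : N.E) (a : X.E) {k : K} (h : X.vc (X.inc a k) ∈ D) :
    (subst X D N).inc (ε, a) k = Sum.inl (N.inc ε ⟨X.inc a k, h⟩) := dif_pos h

theorem xextc_neg (ε : N.E) (a : X.E) {k : K} (h : X.vc (X.inc a k) ∉ D) :
    (subst X D N).inc (ε, a) k = Sum.inr (ε, ⟨X.inc a k, h⟩) := dif_neg h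

theorem xextc_inl {ε : N.E} {a : X.E} {k : K} {w : N.V}
    (h : (subst X D N).inc (ε, a) k = Sum.inl w) : ∃ h, N.inc ε ⟨X.inc a k, h⟩ = w := by
  by_cases h' : X.vc (X.inc a k) ∈ D
  · exact ⟨h', Sum.inl.inj ((xextc_pos ε a h').symm.trans h)⟩
  · cases (xextc_neg ε a h').symm.trans h

theorem xextc_inr {ε : N.E} {a : X.E} {k : K} {p : N.E × {x : X.V // X.vc x ∉ D}}
    (h : (subst X D N).inc (ε, a) k = Sum.inr p) : p.1 = ε ∧ p.2.1 = X.inc a k := by
  by_cases h' : X.vc (X.inc a k) ∈ D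
  · cases (xextc_pos ε a h').symm.trans h
  · cases (xextc_neg ε a h').symm.trans h
    exact ⟨rfl, rfl⟩

theorem xextc_k (G : HG (id : K → K)) {e e' : G.E} {k k' : K} (h : G.inc e k = G.inc e' k') :
    k = k' := (G.vc_inc e k).symm.trans ((congrArg G.vc h).trans (G.vc_inc e' k'))

theorem xextc_same {ε : N.E} {a a' : X.E} {k k' : K}
    (h : (subst X D N).inc (ε, a) k = (subst X D N).inc (ε, a') k') : X.inc a k = X.inc a' k' := by
  rcases hv : (subst X D N).inc (ε, a') k' with w | p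
  · obtain ⟨_, h1⟩ := xextc_inl (h.trans hv)
    obtain ⟨_, h2⟩ := xextc_inl hv
    exact congrArg Subtype.val (N.inc_inj ε (h1.trans h2.symm))
  · exact (xextc_inr (h.trans hv)).2.symm.trans (xextc_inr hv).2

theorem xextc_on {ε : N.E} {a : X.E} {w : N.V} (h : (subst X D N).On (Sum.inl w) (ε, a)) :
    N.On w ε :=
  let ⟨_, hk⟩ := h
  let ⟨_, h1⟩ := xextc_inl hk
  ⟨_, h1⟩

theorem xextc_on' {ε : N.E} {a : X.E} {p : N.E × {x : X.V // X.vc x ∉ D}}
    (h : (subst X D N).On (Sum.inr p) (ε, a)) : p.1 = ε :=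
  let ⟨_, hk⟩ := h
  (xextc_inr hk).1

theorem subst_train {u : ℕ → Setoid N.E} {A : ℕ → Set K} {m : ℕ}
    (hN : IsTrain N u (fun ν => A (ν + 1)) m)
    (hX : ∀ a a' k, a ≠ a' → X.inc a k = X.inc a' k → k ∈ A 0) :
    IsTrain (subst X D N) (substS u) A (m + 1) where
  zero _ _ h := h
  mono μ e e' h := by
    cases μ with
    | zero =>
      obtain rfl : e = e' := h
      exact Setoid.refl' _ _
    | succ μ => exact hN.mono μ _ _ h
  top μ hμ e e' := by
    cases μ with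
    | zero => omega
    | succ μ => exact hN.top μ (by omega) _ _
  cond := by
    rintro μ ⟨ε, a⟩ ⟨ε', a'⟩ v h h' hn hs
    cases μ with
    | zero =>
      obtain rfl : ε = ε' := hN.zero _ _ hs
      obtain ⟨k, rfl⟩ := h
      obtain ⟨k', hk⟩ := h'
      obtain rfl := xextc_k _ hk
      rw [(subst X D N).vc_inc]
      exact hX a a' k' (fun e => hn (by rw [e])) (xextc_same hk).symm
    | succ μ =>
      rcases v with w | p
      · exact hN.cond μ ε ε' w (xextc_on h) (xextc_on h') hn hs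
      · obtain rfl : ε = ε' := (xextc_on' h).symm.trans (xextc_on' h')
        exact absurd ((u μ).refl' ε) hn

theorem subst_lin (hN : N.Lin) (hX : X.Lin) : (subst X D N).Lin := by
  rintro ⟨ε, a⟩ ⟨ε', a'⟩ x y hxy h1 h2 h3 h4
  obtain rfl : ε = ε' := by
    rcases x with w | p
    · rcases y with w' | p'
      · exact hN ε ε' w w' (fun e => hxy (congrArg Sum.inl e)) (xextc_on h1) (xextc_on h2)
          (xextc_on h3) (xextc_on h4)
      · exact (xextc_on' h2).symm.trans (xextc_on' h4)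
    · exact (xextc_on' h1).symm.trans (xextc_on' h3)
  obtain ⟨k, rfl⟩ := h1
  obtain ⟨k', rfl⟩ := h2
  obtain ⟨l, hl⟩ := h3
  obtain ⟨l', hl'⟩ := h4
  obtain rfl : a = a' := hX a a' (X.inc a k) (X.inc a k')
    (fun e => hxy (by rw [X.inc_inj a e])) ⟨k, rfl⟩ ⟨k', rfl⟩ ⟨l, xextc_same hl⟩
    ⟨l', xextc_same hl'⟩
  rfl

theorem subst_j (hX : X.NoIso) [Nonempty X.E] (u : ℕ → Setoid N.E) (ν : ℕ) {D' : Set K}
    (hD : D' ⊆ D) :
    ∃ j : GHom (hg N (u ν) D') (hg (subst X D N) (substS u (ν + 1)) D'),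
      (∀ v, (j.v v).1 = Sum.inl v.1) ∧
      (∀ ε a, j.c (Quotient.mk _ ε) = Quotient.mk (substS u (ν + 1)) (ε, a)) ∧
      (∀ z, j.Bag z) ∧ j.Ind := by
  obtain ⟨a₀⟩ := ‹Nonempty X.E›
  refine ⟨⟨fun v => ⟨Sum.inl v.1, v.2⟩, Quotient.map (fun ε => (ε, a₀)) (fun _ _ h => h),
    fun _ _ h => Subtype.ext (Sum.inl.inj (congrArg Subtype.val h)), ?_, ?_⟩,
    fun _ => rfl, fun ε a => Quotient.sound ((u ν).refl' ε), ?_, ?_⟩
  · intro a b
    induction a using Quotient.inductionOn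
    induction b using Quotient.inductionOn
    intro h
    exact Quotient.sound (Quotient.exact h :)
  · rintro x _ ⟨ε, rfl, ⟨y, hy⟩, h⟩
    obtain ⟨a, k, rfl⟩ := hX y
    exact ⟨(ε, a), Quotient.sound ((u ν).refl' ε), k,
      (xextc_pos ε a hy).trans (congrArg Sum.inl h)⟩
  · rintro (⟨w | p, hv⟩ | c)
    · exact ⟨Sum.inl ⟨w, hv⟩, rfl⟩
    · exact absurd (hD hv) p.2.2
    · induction c using Quotient.inductionOn with
      | _ c => exact ⟨Sum.inr (Quotient.mk _ c.1),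
          congrArg Sum.inr (Quotient.sound ((u ν).refl' c.1))⟩
  · rintro x y ⟨⟨ε, a⟩, h, h'⟩
    induction y using Quotient.inductionOn with
    | _ y => exact ⟨ε, Quotient.sound (Quotient.exact h :), xextc_on h'⟩

theorem subst_emb {r : Setoid F.E} (hF : F.NoIso)
    (hlow : ∀ v e e', F.vc v ∉ D → F.On v e → F.On v e' → r e e') {Λ : Type} [Finite Λ]
    (L : Λ → Emb (wagY F r) X) (p : Emb (mst D L) N) (l : Λ) :
    ∃ φ : Emb F (subst X D N), (∀ f, φ.e f = (p.e (l, Quotient.mk r f), (L l).e f)) ∧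
      ∀ v, F.vc v ∈ D → φ.v v = Sum.inl (p.v (l, Sum.inl v)) := by
  classical
  choose g hg using hF
  let y : F.V → (wagY F r).V := fun v => ⟨(Quotient.mk r (g v), v), g v, rfl, hg v⟩
  have hy : ∀ v, X.vc ((L l).v (y v)) = F.vc v := fun v => (L l).vc_v (y v)
  let φv : F.V → (subst X D N).V := fun v =>
    if h : F.vc v ∈ D then Sum.inl (p.v (l, Sum.inl v))
    else Sum.inr (p.e (l, Quotient.mk r (g v)), ⟨(L l).v (y v), by rwa [hy]⟩)
  have h1 : ∀ v, F.vc v ∈ D → φv v = Sum.inl (p.v (l, Sum.inl v)) := fun v h => dif_pos h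
  have h2 : ∀ v (h : F.vc v ∉ D), φv v =
      Sum.inr (p.e (l, Quotient.mk r (g v)), ⟨(L l).v (y v), by rwa [hy]⟩) := fun v h => dif_neg h
  refine ⟨⟨⟨φv, fun f => (p.e (l, Quotient.mk r f), (L l).e f), fun v => ?_, fun f k => ?_⟩,
    fun v v' h => ?_, fun f f' h => (L l).e_inj (congrArg Prod.snd h)⟩, fun _ => rfl, h1⟩
  · by_cases h : F.vc v ∈ D
    · rw [h1 v h]
      exact p.vc_v (l, Sum.inl v)
    · rw [h2 v h]
      exact hy v
  · have e1 : X.vc (X.inc ((L l).e f) k) = F.vc (F.inc f k) :=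
      (X.vc_inc _ k).trans (F.vc_inc f k).symm
    by_cases h : F.vc (F.inc f k) ∈ D
    · have h' : X.vc (X.inc ((L l).e f) k) ∈ D := by rwa [e1]
      rw [h1 _ h]
      refine (xextc_pos _ _ h').trans (congrArg Sum.inl ((p.inc_e _ _).trans (congrArg p.v ?_)))
      exact Prod.ext rfl (mInc_eq_inl.2 ⟨(wagY F r).inc f k, rfl, ((L l).inc_e f k).symm⟩)
    · have h' : X.vc (X.inc ((L l).e f) k) ∉ D := by rwa [e1]
      have e2 : Quotient.mk r f = Quotient.mk r (g (F.inc f k)) :=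
        Quotient.sound (hlow _ _ _ h ⟨k, rfl⟩ (hg _))
      rw [h2 _ h]
      refine (xextc_neg _ _ h').trans (congrArg Sum.inr (Prod.ext ?_ (Subtype.ext ?_)))
      · exact congrArg (fun W => p.e (l, W)) e2
      · exact ((L l).inc_e f k).trans (congrArg (L l).v (Subtype.ext (Prod.ext e2 rfl)))
  · change φv v = φv v' at h
    by_cases hv : F.vc v ∈ D <;> by_cases hv' : F.vc v' ∈ D
    · rw [h1 v hv, h1 v' hv'] at h
      exact Sum.inl.inj (congrArg Prod.snd (p.v_inj (Sum.inl.inj h)))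
    · rw [h1 v hv, h2 v' hv'] at h
      cases h
    · rw [h2 v hv, h1 v' hv'] at h
      cases h
    · rw [h2 v hv, h2 v' hv'] at h
      exact congrArg (fun z => z.1.2)
        ((L l).v_inj (congrArg (fun z => z.2.1) (Sum.inr.inj h)))

end Pool.Agent.MP_1c0fc2_co.GR
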