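import Pool.Agent.MP_1c0fc2_co.GR.Defs

open Function

namespace Pool.Agent.MP_1c0fc2_co.GR

variable {K : Type}

/-- the Hales-Jewett power of a partite hypergraph -/
def xhjG [Finite K] (S : HG (id : K → K)) (ι : Type) [Finite ι] : HG (id : K → K) where
  V := {x : K × (ι → S.V) // ∀ i, S.vc (x.2 i) = x.1}
  E := ι → S.E
  vc := fun x => x.1.1
  inc := fun y k => ⟨(k, fun i => S.inc (y i) k), fun i => S.vc_inc (y i) k⟩
  inc_inj := fun _ _ _ h => congrArg (fun p => p.1.1) h
  vc_inc := fun _ _ => rfl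

/-- one coordinate of the image of a vertex -/
def xhjc (S : HG (id : K → K)) (o : Option S.E) (v : S.V) : S.V :=
  o.elim v fun f => S.inc f (S.vc v)

theorem xhjc_vc (S : HG (id : K → K)) (o : Option S.E) (v : S.V) :
    S.vc (xhjc S o v) = S.vc v := by
  cases o with
  | none => rfl
  | some f => exact S.vc_inc f _

theorem xhjc_inc (S : HG (id : K → K)) (o : Option S.E) (f : S.E) (k : K) :
    xhjc S o (S.inc f k) = S.inc (o.getD f) k := by
  cases o with
  | none => rfl
  | some g => exact congrArg (S.inc g) (S.vc_inc f k)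

/-- the copy given by a combinatorial line -/
def xhjq [Finite K] (S : HG (id : K → K)) {ι : Type} [Finite ι]
    (L : Combinatorics.Line S.E ι) : Emb S (xhjG S ι) where
  v := fun v => ⟨(S.vc v, fun i => xhjc S (L.idxFun i) v), fun _ => xhjc_vc S _ v⟩
  e := fun f i => (L.idxFun i).getD f
  vc_v := fun _ => rfl
  inc_e := fun f k => Subtype.ext (Prod.ext (S.vc_inc f k).symm
    (funext fun i => (xhjc_inc S (L.idxFun i) f k).symm))
  v_inj := fun u v h => by
    obtain ⟨i, hi⟩ := L.proper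
    have h1 : xhjc S (L.idxFun i) u = xhjc S (L.idxFun i) v := congrArg (fun p => p.1.2 i) h
    rw [hi] at h1
    exact h1
  e_inj := fun f g h => by
    obtain ⟨i, hi⟩ := L.proper
    have h1 : (L.idxFun i).getD f = (L.idxFun i).getD g := congrFun h i
    rw [hi] at h1
    exact h1

theorem xhj_on {S : HG (id : K → K)} {v : S.V} {e : S.E} (h : S.On v e) :
    S.inc e (S.vc v) = v := by
  obtain ⟨k, rfl⟩ := h
  exact congrArg (S.inc e) (S.vc_inc e k)

theorem xhj_lin {S : HG (id : K → K)} (hS : S.Lin) {f g : S.E} {k l : K} (hkl : k ≠ l)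
    (h1 : S.inc f k = S.inc g k) (h2 : S.inc f l = S.inc g l) : f = g :=
  hS f g (S.inc f k) (S.inc f l) (fun h => hkl (S.inc_inj f h)) ⟨k, rfl⟩ ⟨l, rfl⟩ ⟨k, h1.symm⟩
    ⟨l, h2.symm⟩

theorem xhj_vc_ne {S : HG (id : K → K)} {u v : S.V} {e : S.E} (huv : u ≠ v) (hu : S.On u e)
    (hv : S.On v e) : S.vc u ≠ S.vc v := fun h =>
  huv (by rw [← xhj_on hu, h, xhj_on hv])

/-- the Hales-Jewett partite lemma -/
theorem hj [Finite K] (S : HG (id : K → K)) (κ : Type) [Finite κ] :
    ∃ (G : HG (id : K → K)) (Q : Type) (_ : Finite Q) (q : Q → Emb S G),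
      Ram (fun a => (q a).e) κ ∧
      (S.Lin → G.Lin ∧ (∀ a, (q a).Str) ∧
        ∀ a b u v u' v', a ≠ b → S.vc u ≠ S.vc v → (q a).v u = (q b).v u' →
          (q a).v v = (q b).v v' → ∃ y, G.On ((q a).v u) y ∧ G.On ((q a).v v) y) ∧
      (∀ y y' k, y ≠ y' → G.inc y k = G.inc y' k → ∃ f f', f ≠ f' ∧ S.inc f k = S.inc f' k) ∧
      (S.NoIso → G.NoIso) ∧
      ∀ rk : S.V → ℕ, ∃ key : G.V → ℕ, ∀ a, ∃ (c₀ : ℕ) (c : K → ℕ), 0 < c₀ ∧
        ∀ v, key ((q a).v v) = c₀ * rk v + c (S.vc v) := by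
  classical
  obtain ⟨ι, _, hι⟩ := Combinatorics.Line.exists_mono_in_high_dimension S.E κ
  have hQ : Finite (Combinatorics.Line S.E ι) :=
    Finite.of_injective (fun L => L.idxFun) fun _ _ h => Combinatorics.Line.ext h
  refine ⟨xhjG S ι, Combinatorics.Line S.E ι, hQ, xhjq S, fun χ => ?_,
    fun hS => ⟨?_, fun L => ?_, ?_⟩, ?_, fun hS x => ?_, fun rk => ?_⟩
  · obtain ⟨L, c, hc⟩ := hι χ
    exact ⟨L, fun f f' => (hc f).trans (hc f').symm⟩
  · intro y y' u w huw h1 h2 h3 h4
    have hk := xhj_vc_ne huw h1 h2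
    have e1 := (xhj_on h1).trans (xhj_on h3).symm
    have e2 := (xhj_on h2).trans (xhj_on h4).symm
    exact funext fun i => xhj_lin hS hk (congrArg (fun p => p.1.2 i) e1)
      (congrArg (fun p => p.1.2 i) e2)
  · intro y u w huw h1 h2
    have hk : S.vc u ≠ S.vc w := xhj_vc_ne (S := xhjG S ι) (fun h => huw ((xhjq S L).v_inj h)) h1 h2
    have e1 : ∀ i, S.inc (y i) (S.vc u) = xhjc S (L.idxFun i) u := fun i =>
      congrArg (fun p => p.1.2 i) (xhj_on h1)
    have e2 : ∀ i, S.inc (y i) (S.vc w) = xhjc S (L.idxFun i) w := fun i =>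
      congrArg (fun p => p.1.2 i) (xhj_on h2)
    obtain ⟨i0, hi0⟩ := L.proper
    refine ⟨y i0, funext fun i => ?_⟩
    change (L.idxFun i).getD (y i0) = y i
    have a1 := e1 i0
    have a2 := e2 i0
    have b1 := e1 i
    have b2 := e2 i
    rw [hi0] at a1 a2
    cases hi : L.idxFun i with
    | none =>
      rw [hi] at b1 b2
      exact xhj_lin hS hk (a1.trans b1.symm) (a2.trans b2.symm)
    | some f =>
      rw [hi] at b1 b2
      exact xhj_lin hS hk b1.symm b2.symm
  · intro a b u v u' v' hab huv h1 h2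
    obtain ⟨i, hi⟩ : ∃ i, a.idxFun i ≠ b.idxFun i := by
      by_contra hn
      exact hab (Combinatorics.Line.ext (funext fun i => not_not.1 fun h => hn ⟨i, h⟩))
    have k1 : S.vc u = S.vc u' := congrArg (fun p => p.1.1) h1
    have k2 : S.vc v = S.vc v' := congrArg (fun p => p.1.1) h2
    have e1 : xhjc S (a.idxFun i) u = xhjc S (b.idxFun i) u' := congrArg (fun p => p.1.2 i) h1
    have e2 : xhjc S (a.idxFun i) v = xhjc S (b.idxFun i) v' := congrArg (fun p => p.1.2 i) h2
    cases ha : a.idxFun i with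
    | none =>
      cases hb : b.idxFun i with
      | none => exact absurd (ha.trans hb.symm) hi
      | some f =>
        rw [ha, hb] at e1 e2
        exact ⟨(xhjq S a).e f, ⟨_, ((xhjq S a).inc_e f _).trans (congrArg _ e1.symm)⟩,
          ⟨_, ((xhjq S a).inc_e f _).trans (congrArg _ e2.symm)⟩⟩
    | some f =>
      cases hb : b.idxFun i with
      | none =>
        rw [ha, hb] at e1 e2
        exact ⟨(xhjq S b).e f, ⟨_, ((xhjq S b).inc_e f _).trans ((congrArg _ e1).trans h1.symm)⟩,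
          ⟨_, ((xhjq S b).inc_e f _).trans ((congrArg _ e2).trans h2.symm)⟩⟩
      | some g =>
        rw [ha, hb] at e1 e2
        have f1 : S.inc f (S.vc u) = S.inc g (S.vc u) := e1.trans (congrArg (S.inc g) k1.symm)
        have f2 : S.inc f (S.vc v) = S.inc g (S.vc v) := e2.trans (congrArg (S.inc g) k2.symm)
        exact absurd (by rw [ha, hb, xhj_lin hS huv f1 f2]) hi
  · intro y y' k hy h
    obtain ⟨i, hi⟩ := Function.ne_iff.1 hy
    exact ⟨y i, y' i, hi, congrArg (fun p => p.1.2 i) h⟩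
  · choose y hy using fun i => hS (x.1.2 i)
    refine ⟨y, x.1.1, Subtype.ext (Prod.ext rfl (funext fun i => ?_))⟩
    have := xhj_on (hy i)
    rw [x.2 i] at this
    exact this
  · refine ⟨fun x => ∑ i, rk (x.1.2 i), fun L => ⟨∑ i, (L.idxFun i).elim 1 fun _ => 0,
      fun k => ∑ i, (L.idxFun i).elim 0 fun f => rk (S.inc f k), ?_, fun v => ?_⟩⟩
    · obtain ⟨i, hi⟩ := L.proper
      refine Finset.sum_pos' (fun _ _ => Nat.zero_le _) ⟨i, Finset.mem_univ _, ?_⟩
      rw [hi]
      exact Nat.one_pos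
    · change ∑ i, rk (xhjc S (L.idxFun i) v) = _
      rw [Finset.sum_mul, ← Finset.sum_add_distrib]
      refine Finset.sum_congr rfl fun i _ => ?_
      cases L.idxFun i <;> simp [xhjc]

end Pool.Agent.MP_1c0fc2_co.GR
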