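import Pool.Agent.MP_1c0fc2_co.GR.TrainA
import Pool.Agent.MP_1c0fc2_co.GR.Disj

open Function

namespace Pool.Agent.MP_1c0fc2_co.GR

variable {K I : Type} {cl : K → I}

/-- the wagons of a disjoint union -/
def xpic0S (F : HG cl) (R : Type) [Finite R] (b : Prop) (r : Setoid F.E) : Setoid (F.mul R).E where
  r a a' := b ∨ (a.1 = a'.1 ∧ r a.2 a'.2)
  iseqv :=
    { refl := fun _ => Or.inr ⟨rfl, r.refl _⟩
      symm := fun h => h.imp_right fun h => ⟨h.1.symm, r.symm h.2⟩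
      trans := fun h h' => h.elim Or.inl fun h => h'.imp_right fun h' =>
        ⟨h.1.trans h'.1, r.trans h.2 h'.2⟩ }

theorem xpic0_on {F : HG cl} {R : Type} [Finite R] {v : (F.mul R).V} {e : (F.mul R).E}
    (h : (F.mul R).On v e) : e.1 = v.1 ∧ F.On v.2 e.2 := by
  obtain ⟨k, rfl⟩ := h
  exact ⟨rfl, k, rfl⟩

theorem xpic0_good {F : HG cl} {R : Type} [Finite R] {b : Prop} (hb : ¬ b) {r : Setoid F.E}
    (D : Set I) (h : (wg F r).Gir 2) (w n : ℕ) :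
    GoodL (fun a : R => mulEmb F a) r (xpic0S F R b r) D w n := by
  have hc : ∀ a : R, Compat (mulEmb F a) r (xpic0S F R b r) := fun a f f' =>
    ⟨fun h => (h.resolve_left hb).2, fun h => Or.inr ⟨rfl, h⟩⟩
  have key := disj (fun a : R => (mulEmb F a).hg (hc a) D)
    (Sum.elim (fun v => v.1.1) (Quotient.lift Prod.fst fun _ _ h => (Or.resolve_left h hb).1))
    (by
      rintro v _ ⟨e, rfl, he⟩
      exact (xpic0_on he).1.symm)
    (by
      rintro a (x | ⟨⟨x⟩⟩) <;> rfl)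
    (by
      rintro a x ⟨y⟩ ⟨e, h1, he⟩
      exact ⟨e.2, Quotient.sound (Or.resolve_left (Quotient.exact h1) hb).2, (xpic0_on he).2⟩)
    (by
      rintro ⟨c⟩
      exact ⟨.inr (Quotient.mk r c.2), rfl⟩)
    (fun v => Or.inl ⟨.inl ⟨v.1.2, v.2⟩, rfl⟩)
    (gir_two.1 (gir_hg_of_wg h D))
  exact ⟨hc, key.1, key.2 w n⟩

theorem up_zero {F : HG cl} {s : ℕ → Setoid F.E} {A : ℕ → Set I} {m : ℕ} {γ : ℕ → ℕ}
    (h : Dom F s A m γ) (hm : 1 ≤ m) (hγ : ∀ μ, 2 ≤ γ μ) (R : Type) [Finite R] :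
    ∃ t : ℕ → Setoid (F.mul R).E, Up (fun r : R => mulEmb F r) s t A m γ ∧
      ∀ w n, GoodL (fun r : R => mulEmb F r) (s 0) (t 0) (Hi A m 0) w n := by
  refine ⟨fun μ => xpic0S F R (m ≤ μ) (s μ), ⟨⟨fun e e' h1 => ?_, fun μ e e' h1 => ?_,
    fun μ h1 e e' => Or.inl h1, fun μ e e' v h1 h2 h3 h4 => ?_⟩, fun e e' u v h1 h2 h3 h4 h5 => ?_,
    fun p μ f f' => ⟨fun h1 => h1.elim (fun h2 => h.tr.top μ h2 f f') And.right,
      fun h1 => Or.inr ⟨rfl, h1⟩⟩,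
    fun μ h1 h2 => xpic0_good (not_le.2 h2) _ ((h.gir μ h1 h2).mono (hγ μ)) _ _⟩,
    xpic0_good (by omega) _ ((lin_iff_gir h.tr.zero).1 h.lin)⟩
  · have h2 := Or.resolve_left h1 (by omega)
    exact Prod.ext h2.1 (h.tr.zero _ _ h2.2)
  · exact Or.imp Nat.le_succ_of_le (And.imp_right (h.tr.mono μ _ _)) h1
  · refine h.tr.cond μ e.2 e'.2 v.2 (xpic0_on h1).2 (xpic0_on h2).2
      (fun h5 => h3 (Or.inr ⟨(xpic0_on h1).1.trans (xpic0_on h2).1.symm, h5⟩)) ?_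
    exact Or.elim h4 (fun h5 => h.tr.top _ h5 _ _) And.right
  · refine Prod.ext ((xpic0_on h2).1.trans (xpic0_on h4).1.symm)
      (h.lin e.2 e'.2 u.2 v.2 (fun h6 => h1 (Prod.ext ?_ h6)) (xpic0_on h2).2 (xpic0_on h3).2
        (xpic0_on h4).2 (xpic0_on h5).2)
    exact (xpic0_on h2).1.symm.trans (xpic0_on h3).1

end Pool.Agent.MP_1c0fc2_co.GR
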