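import Pool.Agent.MP_1c0fc2_co.GR.ExtB
import Pool.Agent.MP_1c0fc2_co.GR.ExtC
import Pool.Agent.MP_1c0fc2_co.GR.HJ
import Pool.Agent.MP_1c0fc2_co.GR.Pic0
import Pool.Agent.MP_1c0fc2_co.GR.CloseC

open Function

namespace Pool.Agent.MP_1c0fc2_co.GR

/-- the train of height one -/
def xextS (E : Type) : ℕ → Setoid E
  | 0 => ⊥
  | _ + 1 => ⊤

theorem ext_zero (γ : ℕ → ℕ) (w n g : ℕ) : Hor False 1 γ w n g := by
  intro K _ _ S s A hD _ _ κ _ _
  obtain ⟨G, Q, hQ, q, hram, hlin, hsh, -, -⟩ := hj S κ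
  refine ⟨G, xextS G.E, Q, hQ, q, hram, ⟨⟨fun _ _ h => h, ?_, ?_, ?_⟩, (hlin hD.lin).1, ?_, ?_⟩,
    False.elim⟩
  · intro μ e e' _
    trivial
  · intro μ hμ e e'
    obtain ⟨ν, rfl⟩ : ∃ ν, μ = ν + 1 := ⟨μ - 1, by omega⟩
    trivial
  · rintro (_ | μ) e e' v ⟨k, hk⟩ ⟨k', hk'⟩ h1 -
    · have h2 : G.vc v = k := hk ▸ G.vc_inc e k
      have h3 : G.vc v = k' := hk' ▸ G.vc_inc e' k'
      obtain rfl : k = k' := h2.symm.trans h3
      obtain ⟨f, f', hf, hff⟩ := hsh e e' k h1 (hk.trans hk'.symm)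
      have h4 := hD.tr.cond 0 f f' (S.inc f k) ⟨k, rfl⟩ ⟨k, hff.symm⟩
        (fun h => hf (hD.tr.zero _ _ h)) (hD.tr.top 1 le_rfl f f')
      rw [S.vc_inc] at h4
      rw [h2]
      exact h4
    · exact absurd trivial h1
  · rintro p (_ | μ) f f'
    · exact ⟨fun h => (q p).e_inj h ▸ (s 0).refl f, fun h => congrArg _ (hD.tr.zero _ _ h)⟩
    · exact ⟨fun _ => hD.tr.top _ (by omega) f f', fun _ => trivial⟩
  · intro μ h1 h2
    omega

theorem xext_rep (g : ℕ) (γ : ℕ → ℕ) (ν : ℕ) : rep 1 g γ (ν + 1) = γ ν := by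
  simp [rep]

theorem xext_mstS {K : Type} {F : HG (id : K → K)} {s : ℕ → Setoid F.E} {A : ℕ → Set K} {m : ℕ}
    (h : IsTrain F s A (m + 1)) {Λ : Type} (l : Λ) (ν : ℕ) (f f' : F.E) :
    mstS s Λ m ν (l, Quotient.mk _ f) (l, Quotient.mk _ f') ↔ s (ν + 1) f f' := by
  have h1 : ∀ f, s (ν + 1) (Quotient.mk (s 1) f).out f := fun f =>
    h.le (by omega) (Quotient.mk_out (s := s 1) f)
  constructor
  · rintro (h2 | ⟨-, h2⟩)
    · exact h.top _ (by omega) f f'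
    · exact (s (ν + 1)).trans ((s (ν + 1)).symm (h1 f)) ((s (ν + 1)).trans h2 (h1 f'))
  · intro h2
    exact Or.inr ⟨rfl, (s (ν + 1)).trans (h1 f) ((s (ν + 1)).trans h2 ((s (ν + 1)).symm (h1 f')))⟩

theorem ext_succ {m : ℕ} {γ : ℕ → ℕ} (hm : 1 ≤ m) (hγ : ∀ μ, 2 ≤ γ μ) (h : T m γ) {g₀ : ℕ}
    (hg : 2 ≤ g₀) (w n g : ℕ) : Hor False (m + 1) (rep 1 g₀ γ) w n g := by
  intro K _ _ S s A hD hS _ κ _ _
  have hγ' : ∀ μ, 2 ≤ rep 1 g₀ γ μ := by
    rintro (_ | μ)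
    · exact hg
    · rw [xext_rep]
      exact hγ μ
  rcases isEmpty_or_nonempty S.E with hE | ⟨⟨f0⟩⟩
  · obtain ⟨t, ht, -⟩ := up_zero hD (by omega) hγ' Unit
    exact ⟨_, t, Unit, inferInstance, _, fun _ => ⟨(), fun f => hE.elim f⟩, ht, False.elim⟩
  obtain ⟨X, Λ, hΛ, L, hram, hlin, hsh, hni, hkey⟩ := hj (wagY S (s 1)) κ
  obtain ⟨l0, -⟩ := hram fun _ => Classical.arbitrary κ
  have hXE : Nonempty X.E := ⟨(L l0).e f0⟩
  let rk : S.V → ℕ := fun v => (Finite.equivFin S.V v : ℕ)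
  have hrk : Injective rk := fun a b e => (Finite.equivFin S.V).injective (Fin.ext e)
  obtain ⟨key, hkey⟩ := hkey fun y => rk y.1.2
  obtain ⟨o, ho⟩ := mst_ord (Hi A (m + 1) 1) L rk hrk key hkey
  obtain ⟨N, u, P, hP, p, hram', hup, hgood⟩ :=
    @h (KK X (Hi A (m + 1) 1)) K inferInstance inferInstance o _ (mst (Hi A (m + 1) 1) L)
      (mstS s Λ m) (fun ν => A (ν + 1)) (mst_dom hD hm hγ L) ho (X.E → κ) inferInstance
      inferInstance
  have hq : ∀ a : P × Λ, ∃ φ : Emb S (subst X (Hi A (m + 1) 1) N),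
      (∀ f, φ.e f = ((p a.1).e (a.2, Quotient.mk (s 1) f), (L a.2).e f)) ∧
      ∀ v, S.vc v ∈ Hi A (m + 1) 1 → φ.v v = Sum.inl ((p a.1).v (a.2, Sum.inl v)) := fun a =>
    subst_emb hS (fun v e e' hv he he' => hD.tr.low he he' hv) L (p a.1) a.2
  choose q hqe hqv using hq
  have hc : ∀ a μ, Compat (q a) (s μ) (substS u μ) := by
    rintro a (_ | ν) f f'
    · exact ⟨fun h => (q a).e_inj h ▸ (s 0).refl f, fun h => congrArg _ (hD.tr.zero _ _ h)⟩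
    · rw [hqe, hqe, ← xext_mstS hD.tr a.2 ν]
      exact hup.cpt a.1 ν _ _
  refine ⟨subst X (Hi A (m + 1) 1) N, substS u, P × Λ, inferInstance, q, fun χ => ?_,
    ⟨subst_train hup.tr fun a a' k ha hk => ?_,
      subst_lin hup.lin (hlin (wagY_lin _ hD.lin)).1, hc, ?_⟩, False.elim⟩
  · obtain ⟨p0, hp0⟩ := hram' fun ε a => χ (ε, a)
    obtain ⟨l, hl⟩ := hram fun a => χ ((p p0).e (l0, Quotient.mk (s 1) f0), a)
    refine ⟨(p0, l), fun f f' => ?_⟩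
    have e : ∀ f, χ ((q (p0, l)).e f) =
        χ ((p p0).e (l0, Quotient.mk (s 1) f0), (L l).e f) := fun f => by
      rw [hqe]
      exact congrFun (hp0 (l, Quotient.mk (s 1) f) (l0, Quotient.mk (s 1) f0)) ((L l).e f)
    exact (e f).trans ((hl f f').trans (e f').symm)
  · obtain ⟨f, f', hf, hff⟩ := hsh a a' k ha hk
    exact wagY_share hD.tr hf hff
  · intro μ h1 h2
    obtain ⟨ν, rfl⟩ : ∃ ν, μ = ν + 1 := ⟨μ - 1, by omega⟩
    have hν : ν < m := by omega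
    have hsub : Hi A (m + 1) (ν + 1) ⊆ Hi A (m + 1) 1 := hi_anti A (m + 1) h1
    have hG : GoodL p (mstS s Λ m ν) (u ν) (Hi A (m + 1) (ν + 1)) (2 * γ ν) (2 * γ ν) := by
      refine Eq.subst (motive := fun D => GoodL p (mstS s Λ m ν) (u ν) D (2 * γ ν) (2 * γ ν))
        (hi_shift A m ν) ?_
      rcases Nat.eq_zero_or_pos ν with rfl | h0
      · exact hgood
      · exact hup.good ν h0 hν
    obtain ⟨hcp, hb, hac⟩ := hG
    have b3 : (GR.hg S (s (ν + 1)) (Hi A (m + 1) (ν + 1))).B3 :=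
      gir_two.1 ((gir_hg_of_wg (hD.gir _ h1 h2) _).mono (hγ' _))
    obtain ⟨θ, hθv, hθc, hθb, hθa⟩ := mst_good hD.tr hsub L hν b3
    obtain ⟨j, hjv, hjc, hjb, hji⟩ := subst_j (hni (wagY_noIso _)) u ν hsub
    have h3 := comp_good j hjb hji hb hac (by have := hγ ν; omega) hθb (hθa _ _)
    have e : (fun a => (q a).hg (hc a (ν + 1)) (Hi A (m + 1) (ν + 1))) =
        prodSys (fun a => j.comp ((p a).hg (hcp a) (Hi A (m + 1) (ν + 1)))) θ := by
      funext a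
      refine GHom.ext (funext fun v => Subtype.ext ?_) (funext fun c => ?_)
      · refine (hqv a v.1 (hsub v.2)).trans (Eq.trans ?_ (hjv _).symm)
        exact congrArg (fun z => Sum.inl ((p a.1).v z)) (hθv a.2 v).symm
      · induction c using Quotient.inductionOn with
        | h f =>
          change Quotient.mk _ ((q a).e f) =
            j.c (((p a.1).hg (hcp a.1) _).c ((θ a.2).c (Quotient.mk _ f)))
          rw [hθc, hqe]
          exact (hjc _ _).symm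
    rw [xext_rep]
    exact ⟨fun a => hc a (ν + 1), e ▸ h3.1, e ▸ h3.2⟩

end Pool.Agent.MP_1c0fc2_co.GR
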