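import Pool.Agent.MP_1c0fc2_co.GR.Defs

open Function

namespace Pool.Agent.MP_1c0fc2_co.GR

theorem xordk_rank {V L : Type} [Finite V] [Preorder L] (f : V → L) :
    ∃ ρ : V → ℕ, ∀ u v, f u < f v → ρ u < ρ v :=
  ⟨fun v => {u | f u < f v}.ncard, fun u _ h => Set.ncard_lt_ncard
    ⟨fun _ hw => lt_trans hw h, fun h' => lt_irrefl (f u) (h' h)⟩⟩

theorem ord_of_key {K I : Type} [Finite K] [LinearOrder K] {cl : K → I} (M : HG cl) {R : Type}
    [LinearOrder R] (κ : K → R) (hκ : Monotone κ) (sh : M.V → Prop) (κV : M.V → R)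
    (h1 : ∀ e x, sh (M.inc e x) → κV (M.inc e x) = κ x)
    (h2 : ∀ e x y, sh (M.inc e x) → sh (M.inc e y) → κ x = κ y → x = y)
    (h3 : ∀ e e' x x', ¬ sh (M.inc e x) → M.inc e x = M.inc e' x' → e = e') : M.Ord := by
  classical
  obtain ⟨tb, htb⟩ := xordk_rank (id : K → K)
  let off : M.E → R → ℤ := fun e r =>
    if h : ∃ x, sh (M.inc e x) ∧ κ x = r then tb h.choose else 0
  have hoff : ∀ e x, sh (M.inc e x) → off e (κ x) = tb x := fun e x h => by
    have h4 : ∃ y, sh (M.inc e y) ∧ κ y = κ x := ⟨x, h, rfl⟩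
    simp only [off, dif_pos h4, h2 e _ x h4.choose_spec.1 h h4.choose_spec.2]
  let g : M.E × K → WithBot (R ×ₗ ℤ) := fun p =>
    WithBot.some (toLex (κ p.2, tb p.2 - off p.1 (κ p.2)))
  have hg : g.FactorsThrough fun p => M.inc p.1 p.2 := by
    rintro ⟨e, x⟩ ⟨e', x'⟩ (h : M.inc e x = M.inc e' x')
    by_cases hs : sh (M.inc e x)
    · have hs' := h ▸ hs
      simp only [g, hoff e x hs, hoff e' x' hs', sub_self]
      rw [← h1 e x hs, ← h1 e' x' hs', h]
    · obtain rfl := h3 e e' x x' hs h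
      rw [M.inc_inj e h]
  obtain ⟨ρ, hρ⟩ := xordk_rank (extend (fun p : M.E × K => M.inc p.1 p.2) g ⊥)
  refine ⟨ρ, fun e x y hxy => hρ _ _ ?_⟩
  rw [hg.extend_apply _ (e, x), hg.extend_apply _ (e, y)]
  refine WithBot.coe_lt_coe.2 (Prod.Lex.toLex_lt_toLex.2 ((hκ hxy.le).lt_or_eq.imp_right
    fun h => ⟨h, ?_⟩))
  have := htb x y hxy
  simp only [show κ x = κ y from h]
  omega

theorem exists_order_mono (K : Type) [Finite K] {R : Type} [LinearOrder R] (κ : K → R) :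
    ∃ o : LinearOrder K, @Monotone K R o.toPartialOrder.toPreorder _ κ :=
  ⟨LinearOrder.lift' (fun x => toLex (κ x, Finite.equivFin K x)) fun _ _ h =>
    (Finite.equivFin K).injective (congrArg Prod.snd (toLex.injective h)),
    fun _ _ h => (Prod.Lex.toLex_le_toLex.1 h).elim le_of_lt fun h => h.1.le⟩

end Pool.Agent.MP_1c0fc2_co.GR
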