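import Pool.Agent.MP_1c0fc2_co.GR.ExtD
import Pool.Agent.MP_1c0fc2_co.GR.TrainA
import Pool.Agent.MP_1c0fc2_co.GR.OrdK

open Function

namespace Pool.Agent.MP_1c0fc2_co.GR

variable {K : Type} {F X : HG (id : K → K)}

theorem wagY_lin (r : Setoid F.E) (h : F.Lin) : (wagY F r).Lin := by
  rintro e e' u v huv ⟨k, hk⟩ ⟨j, hj⟩ ⟨k', hk'⟩ ⟨j', hj'⟩
  have a1 : Quotient.mk r e = u.1.1 := congrArg (fun p => p.1.1) hk
  have a2 : Quotient.mk r e = v.1.1 := congrArg (fun p => p.1.1) hj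
  refine h e e' u.1.2 v.1.2 (fun h0 => huv (Subtype.ext (Prod.ext (a1.symm.trans a2) h0)))
    ⟨k, congrArg (fun p => p.1.2) hk⟩ ⟨j, congrArg (fun p => p.1.2) hj⟩
    ⟨k', congrArg (fun p => p.1.2) hk'⟩ ⟨j', congrArg (fun p => p.1.2) hj'⟩

theorem wagY_noIso (r : Setoid F.E) : (wagY F r).NoIso := by
  rintro ⟨⟨W, a⟩, e, he, k, hk⟩
  exact ⟨e, k, Subtype.ext (Prod.ext he hk)⟩

theorem wagY_share {s : ℕ → Setoid F.E} {A : ℕ → Set K} {m : ℕ} (h : IsTrain F s A m)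
    {f f' : F.E} {k : K} (hf : f ≠ f') (hk : (wagY F (s 1)).inc f k = (wagY F (s 1)).inc f' k) :
    k ∈ A 0 := by
  have a1 : Quotient.mk (s 1) f = Quotient.mk (s 1) f' := congrArg (fun p => p.1.1) hk
  have a2 : F.inc f k = F.inc f' k := congrArg (fun p => p.1.2) hk
  have := h.cond 0 f f' (F.inc f k) ⟨k, rfl⟩ ⟨k, a2.symm⟩ (fun h0 => hf (h.zero _ _ h0))
    (Quotient.exact a1)
  rwa [F.vc_inc] at this

theorem mst_ord [LinearOrder K] {r : Setoid F.E} (D : Set K) {Λ : Type} [Finite Λ]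
    (L : Λ → Emb (wagY F r) X) (rk : F.V → ℕ) (hrk : Injective rk) (key : X.V → ℕ)
    (hkey : ∀ l, ∃ (c₀ : ℕ) (c : K → ℕ), 0 < c₀ ∧
      ∀ y : (wagY F r).V, key ((L l).v y) = c₀ * rk y.1.2 + c ((wagY F r).vc y)) :
    ∃ o : LinearOrder (KK X D), @HG.Ord _ _ _ o (mst D L) := by
  choose c₀ c hc₀ hc using hkey
  let κ : KK X D → K ×ₗ ℕ := fun x => toLex (X.vc x.1, key x.1)
  obtain ⟨o, ho⟩ := exists_order_mono (KK X D) κ
  refine ⟨o, ?_⟩
  let κV : (mst D L).V → K ×ₗ ℕ := fun p =>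
    Sum.elim (fun v => toLex (F.vc v, c₀ p.1 * rk v + c p.1 (F.vc v))) (fun z => κ z.2) p.2
  have key1 : ∀ l W (x : KK X D) v, mInc D (L l) W x = .inl v →
      κ x = toLex (F.vc v, c₀ l * rk v + c l (F.vc v)) := by
    intro l W x v hv
    obtain ⟨y, hy, hL⟩ := mInc_eq_inl.1 hv
    have h1 : (wagY F r).vc y = F.vc v := by
      show F.vc y.1.2 = F.vc v
      rw [hy]
    show toLex (X.vc x.1, key x.1) = _
    rw [← hL, (L l).vc_v, hc, h1, hy]
  refine ord_of_key (mst D L) κ ho (fun p => ∃ v, p.2 = .inl v) κV ?_ ?_ ?_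
  · rintro ⟨l, W⟩ x ⟨v, hv⟩
    have hv' : mInc D (L l) W x = .inl v := hv
    show Sum.elim _ _ (mInc D (L l) W x) = _
    rw [hv', key1 l W x v hv']
    rfl
  · rintro ⟨l, W⟩ x x' ⟨v, hv⟩ ⟨v', hv'⟩ hκ
    have h1 : mInc D (L l) W x = .inl v := hv
    have h2 : mInc D (L l) W x' = .inl v' := hv'
    rw [key1 l W x v h1, key1 l W x' v' h2] at hκ
    obtain ⟨e1, e2⟩ := Prod.mk.inj (toLex.injective hκ)
    rw [e1] at e2
    have e3 : v = v' := hrk (Nat.eq_of_mul_eq_mul_left (hc₀ l) (Nat.add_right_cancel e2))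
    refine (mst D L).inc_inj (l, W) (Prod.ext rfl ?_)
    show mInc D (L l) W x = mInc D (L l) W x'
    rw [h1, h2, e3]
  · rintro ⟨l, W⟩ ⟨l', W'⟩ x x' hn he
    have e1 : l = l' := congrArg Prod.fst he
    subst e1
    have e2 : mInc D (L l) W x = mInc D (L l) W' x' := congrArg Prod.snd he
    rcases hx : mInc D (L l) W x with v | p
    · exact absurd ⟨v, hx⟩ hn
    · have a := mInc_eq_inr hx
      have b := mInc_eq_inr (e2.symm.trans hx)
      exact Prod.ext rfl (Prod.mk.inj (a.symm.trans b)).1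

theorem mst_train {s : ℕ → Setoid F.E} {A : ℕ → Set K} {m : ℕ} (h : IsTrain F s A (m + 1))
    (hm : 1 ≤ m) (D : Set K) {Λ : Type} [Finite Λ] (L : Λ → Emb (wagY F (s 1)) X) :
    IsTrain (mst D L) (mstS s Λ m) (fun ν => A (ν + 1)) m := by
  refine ⟨?_, ?_, fun μ hμ _ _ => Or.inl hμ, ?_⟩
  · rintro ⟨l, W⟩ ⟨l', W'⟩ (h0 | ⟨h1, h2⟩)
    · omega
    · exact Prod.ext h1 (Quotient.out_equiv_out.1 h2)
  · rintro μ e e' (h0 | ⟨h1, h2⟩)
    · exact Or.inl (by omega)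
    · exact Or.inr ⟨h1, h.mono _ _ _ h2⟩
  · rintro μ ⟨l, W⟩ ⟨l', W'⟩ v ⟨x, rfl⟩ ⟨x', he⟩ hn hp
    have e1 : l' = l := congrArg Prod.fst he
    subst e1
    have e2 : mInc D (L l') W' x' = mInc D (L l') W x := congrArg Prod.snd he
    have hn' : ¬ s (μ + 1) W.out W'.out := fun h0 => hn (Or.inr ⟨rfl, h0⟩)
    show Sum.elim F.vc (fun z => clK X D z.2) (mInc D (L l') W x) ∈ A (μ + 1)
    rcases hx : mInc D (L l') W x with a | p
    · obtain ⟨⟨_, f, hf, hfa⟩, rfl, -⟩ := mInc_eq_inl.1 hx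
      obtain ⟨⟨_, f', hf', hfa'⟩, rfl, -⟩ := mInc_eq_inl.1 (e2.trans hx)
      have o1 : s 1 f W.out := Quotient.exact (hf.trans W.out_eq.symm)
      have o2 : s 1 f' W'.out := Quotient.exact (hf'.trans W'.out_eq.symm)
      refine h.cond (μ + 1) f f' a hfa hfa' (fun h0 => hn' ?_) ?_
      · exact (s (μ + 1)).trans ((s (μ + 1)).symm (h.le (by omega) o1))
          ((s (μ + 1)).trans h0 (h.le (by omega) o2))
      · rcases hp with h0 | ⟨-, h2⟩
        · exact h.top _ (by omega) _ _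
        · exact (s (μ + 1 + 1)).trans (h.le (by omega) o1)
            ((s (μ + 1 + 1)).trans h2 ((s (μ + 1 + 1)).symm (h.le (by omega) o2)))
    · have a := mInc_eq_inr hx
      have b := mInc_eq_inr (e2.trans hx)
      have e3 : W = W' := (Prod.mk.inj (a.symm.trans b)).1
      subst e3
      exact absurd ((s (μ + 1)).refl _) hn'

end Pool.Agent.MP_1c0fc2_co.GR
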