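import Pool.Agent.MP_1c0fc2_co.GR.ExtA
import Pool.Agent.MP_1c0fc2_co.GR.Disj

open Function

namespace Pool.Agent.MP_1c0fc2_co.GR

variable {K : Type} {F X : HG (id : K → K)} {s : ℕ → Setoid F.E} {A : ℕ → Set K} {m : ℕ}

theorem xextb_rel (h : IsTrain F s A (m + 1)) {Λ : Type} {ν : ℕ} (hν : ν < m) {l l' : Λ}
    {f f' : F.E} : mstS s Λ m ν (l, Quotient.mk _ f) (l', Quotient.mk _ f') ↔
      l = l' ∧ s (ν + 1) f f' := by
  have a : ∀ e : F.E, s (ν + 1) (Quotient.mk (s 1) e).out e := fun e =>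
    h.le (Nat.le_add_left 1 ν) (Quotient.exact (Quotient.out_eq (Quotient.mk (s 1) e)))
  constructor
  · rintro (h1 | ⟨h1, h2⟩)
    · omega
    · exact ⟨h1, (s (ν + 1)).trans ((s (ν + 1)).symm (a f)) ((s (ν + 1)).trans h2 (a f'))⟩
  · rintro ⟨h1, h2⟩
    exact Or.inr ⟨h1, (s (ν + 1)).trans (a f) ((s (ν + 1)).trans h2 ((s (ν + 1)).symm (a f')))⟩

theorem xextb_fst {r : Setoid F.E} {D : Set K} {Λ : Type} [Finite Λ] {L : Λ → Emb (wagY F r) X}
    {v : (mst D L).V} {e : (mst D L).E} (h : (mst D L).On v e) : v.1 = e.1 := by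
  obtain ⟨k, rfl⟩ := h
  rfl

theorem xextb_inl {r : Setoid F.E} {D : Set K} {Λ : Type} [Finite Λ] {L : Λ → Emb (wagY F r) X}
    {l : Λ} {v : F.V} {e : (mst D L).E} (h : (mst D L).On (l, Sum.inl v) e) :
    ∃ f, e = (l, Quotient.mk r f) ∧ F.On v f := by
  have h1 := xextb_fst h
  obtain ⟨k, hk⟩ := h
  obtain ⟨⟨y, f, h2, h3⟩, rfl, -⟩ := mInc_eq_inl.1 (congrArg Prod.snd hk)
  exact ⟨f, Prod.ext h1.symm h2.symm, h3⟩

theorem xextb_on {r : Setoid F.E} {D : Set K} {Λ : Type} [Finite Λ] (L : Λ → Emb (wagY F r) X)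
    (l : Λ) {v : F.V} {f : F.E} (hv : F.vc v ∈ D) (h : F.On v f) :
    (mst D L).On (l, Sum.inl v) (l, Quotient.mk r f) := by
  let y : (wagY F r).V := ⟨(Quotient.mk r f, v), f, rfl, h⟩
  exact ⟨⟨(L l).v y, by rw [(L l).vc_v]; exact hv⟩, Prod.ext rfl (mInc_eq_inl.2 ⟨y, rfl, rfl⟩)⟩

theorem xextb_inr {r : Setoid F.E} {D : Set K} {Λ : Type} [Finite Λ] {L : Λ → Emb (wagY F r) X}
    {l : Λ} {p : Quotient r × KK X D} {e : (mst D L).E} (h : (mst D L).On (l, Sum.inr p) e) :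
    e = (l, p.1) := by
  have h1 := xextb_fst h
  obtain ⟨k, hk⟩ := h
  have h2 := mInc_eq_inr (congrArg Prod.snd hk)
  exact Prod.ext h1.symm (congrArg Prod.fst h2).symm

/-- the copy of the wagon geometry in one component -/
noncomputable def xextb_hom (h : IsTrain F s A (m + 1)) {D D' : Set K} (hD : D' ⊆ D) {Λ : Type}
    [Finite Λ] (L : Λ → Emb (wagY F (s 1)) X) {ν : ℕ} (hν : ν < m) (l : Λ) :
    GHom (hg F (s (ν + 1)) D') (hg (mst D L) (mstS s Λ m ν) D') where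
  v := fun v => ⟨(l, Sum.inl v.1), v.2⟩
  c := Quotient.map (fun f => (l, Quotient.mk _ f)) fun _ _ hab => (xextb_rel h hν).2 ⟨rfl, hab⟩
  v_inj := fun _ _ e => Subtype.ext (Sum.inl.inj (congrArg (fun z => z.1.2) e))
  c_inj := by
    intro a b
    induction a using Quotient.inductionOn
    induction b using Quotient.inductionOn
    intro e
    exact Quotient.sound ((xextb_rel h hν).1 (Quotient.exact e)).2
  map := by
    rintro x _ ⟨f, rfl, hf⟩
    exact ⟨(l, Quotient.mk _ f), rfl, xextb_on L l (hD x.2) hf⟩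

theorem mst_good (h : IsTrain F s A (m + 1)) {D D' : Set K} (hD : D' ⊆ D) {Λ : Type} [Finite Λ]
    (L : Λ → Emb (wagY F (s 1)) X) {ν : ℕ} (hν : ν < m) (b3 : (hg F (s (ν + 1)) D').B3) :
    ∃ θ : Λ → GHom (hg F (s (ν + 1)) D') (hg (mst D L) (mstS s Λ m ν) D'),
      (∀ l v, ((θ l).v v).1 = (l, Sum.inl v.1)) ∧
      (∀ l f, (θ l).c (Quotient.mk _ f) = Quotient.mk (mstS s Λ m ν) (l, Quotient.mk _ f)) ∧
      Basic θ ∧ ∀ w n, AC θ w n := by
  refine ⟨xextb_hom h hD L hν, fun _ _ => rfl, fun _ _ => rfl, ?_⟩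
  refine disj (xextb_hom h hD L hν) (Sum.elim (fun p => p.1.1) (Quotient.lift Prod.fst
    fun a b hab => (hab.resolve_left (by omega)).1)) ?_ ?_ ?_ ?_ ?_ b3
  · rintro v _ ⟨e, rfl, he⟩
    exact xextb_fst he
  · rintro l (x | c)
    · rfl
    · induction c using Quotient.inductionOn
      rfl
  · intro l x y
    induction y using Quotient.inductionOn with
    | h f =>
      rintro ⟨e, h1, h2⟩
      obtain ⟨f', rfl, h3⟩ := xextb_inl h2
      exact ⟨f', Quotient.sound ((xextb_rel h hν).1 (Quotient.exact h1)).2, h3⟩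
  · intro c
    induction c using Quotient.inductionOn with
    | h e =>
      obtain ⟨l, W⟩ := e
      induction W using Quotient.inductionOn with
      | h f => exact ⟨Sum.inr (Quotient.mk _ f), rfl⟩
  · rintro ⟨⟨l, u | p⟩, hu⟩
    · exact Or.inl ⟨Sum.inl ⟨u, hu⟩, rfl⟩
    · refine Or.inr ?_
      rintro _ _ ⟨e, rfl, he⟩ ⟨e', rfl, he'⟩
      rw [xextb_inr he, xextb_inr he']

theorem mst_dom {γ : ℕ → ℕ} {g : ℕ} (h : Dom F s A (m + 1) (rep 1 g γ)) (hm : 1 ≤ m)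
    (hγ : ∀ μ, 2 ≤ γ μ) {Λ : Type} [Finite Λ] (L : Λ → Emb (wagY F (s 1)) X) :
    Dom (mst (Hi A (m + 1) 1) L) (mstS s Λ m) (fun ν => A (ν + 1)) m γ := by
  have tr := mst_train h.tr hm (Hi A (m + 1) 1) L
  have key : ∀ ν, ν < m → (wg (mst (Hi A (m + 1) 1) L) (mstS s Λ m ν)).Gir (γ ν) := by
    intro ν hν
    have h1 := h.gir (ν + 1) (by omega) (by omega)
    rw [show rep 1 g γ (ν + 1) = γ ν by simp [rep]] at h1
    have h2 := gir_hg_of_wg h1 (Hi A (m + 1) (ν + 1))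
    obtain ⟨θ, -, -, hb, hc⟩ := mst_good h.tr (hi_anti A (m + 1) (Nat.le_add_left 1 ν)) L hν
      (gir_two.1 (h2.mono (hγ ν)))
    refine tr.gir_wg ?_
    rw [hi_shift]
    exact host_gir hb (hc _ _) le_rfl le_rfl h2
  exact ⟨tr, (lin_iff_gir tr.zero).2 ((key 0 hm).mono (hγ 0)), fun μ _ hμ => key μ hμ⟩

end Pool.Agent.MP_1c0fc2_co.GR
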