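import Pool.Agent.MP_1c0fc2_co.GR.Defs

/-! Definitions for the extension step. -/

open Function

namespace Pool.Agent.MP_1c0fc2_co.GR

variable {K : Type}

/-- disjoint union of the wagons -/
def wagY (F : HG (id : K → K)) (r : Setoid F.E) : HG (id : K → K) where
  V := {p : Quotient r × F.V // ∃ e, Quotient.mk r e = p.1 ∧ F.On p.2 e}
  E := F.E
  vc := fun p => F.vc p.1.2
  inc := fun e k => ⟨(Quotient.mk r e, F.inc e k), e, rfl, k, rfl⟩
  inc_inj := fun e _ _ h => F.inc_inj e (congrArg (fun p => p.1.2) h)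
  vc_inc := fun e k => F.vc_inc e k

/-- the template of the extended wagons -/
abbrev KK (X : HG (id : K → K)) (D : Set K) : Type := {x : X.V // X.vc x ∈ D}

/-- classes of the template of the extended wagons -/
def clK (X : HG (id : K → K)) (D : Set K) : KK X D → K := fun x => X.vc x.1

open Classical in
/-- vertex of the extended wagon `W` at position `x` -/
noncomputable def mInc {F X : HG (id : K → K)} {r : Setoid F.E} (D : Set K)
    (L : Emb (wagY F r) X) (W : Quotient r) (x : KK X D) : F.V ⊕ Quotient r × KK X D :=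
  if h : ∃ y : (wagY F r).V, y.1.1 = W ∧ L.v y = x.1 then .inl h.choose.1.2 else .inr (W, x)

theorem mInc_eq_inl {F X : HG (id : K → K)} {r : Setoid F.E} {D : Set K}
    {L : Emb (wagY F r) X} {W : Quotient r} {x : KK X D} {v : F.V} :
    mInc D L W x = .inl v ↔ ∃ y : (wagY F r).V, y.1 = (W, v) ∧ L.v y = x.1 := by
  unfold mInc
  split_ifs with h
  · have hs := h.choose_spec
    constructor
    · intro hv
      exact ⟨h.choose, Prod.ext hs.1 (Sum.inl.inj hv), hs.2⟩
    · rintro ⟨y, hy, hL⟩
      have : h.choose = y := L.v_inj (hs.2.trans hL.symm)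
      rw [this, hy]
  · constructor
    · intro hv; cases hv
    · rintro ⟨y, hy, hL⟩
      exact absurd ⟨y, by rw [hy], hL⟩ h

theorem mInc_eq_inr {F X : HG (id : K → K)} {r : Setoid F.E} {D : Set K}
    {L : Emb (wagY F r) X} {W : Quotient r} {x : KK X D} {p : Quotient r × KK X D}
    (h : mInc D L W x = .inr p) : p = (W, x) := by
  unfold mInc at h
  split_ifs at h
  exact (Sum.inr.inj h).symm

/-- the hypergraph of extended wagons, one component for every copy `L l` -/
noncomputable def mst {F X : HG (id : K → K)} {r : Setoid F.E} (D : Set K) {Λ : Type} [Finite Λ]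
    (L : Λ → Emb (wagY F r) X) : HG (clK X D) where
  V := Λ × (F.V ⊕ Quotient r × KK X D)
  E := Λ × Quotient r
  vc := fun p => Sum.elim F.vc (fun z => clK X D z.2) p.2
  inc := fun W x => (W.1, mInc D (L W.1) W.2 x)
  inc_inj := by
    intro W x x' h
    have h2 : mInc D (L W.1) W.2 x = mInc D (L W.1) W.2 x' := congrArg Prod.snd h
    rcases hx : mInc D (L W.1) W.2 x with v | p
    · obtain ⟨y, hy, hL⟩ := mInc_eq_inl.1 hx
      obtain ⟨y', hy', hL'⟩ := mInc_eq_inl.1 (h2.symm.trans hx)
      have : y = y' := Subtype.ext (hy.trans hy'.symm)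
      subst this
      exact Subtype.ext (hL.symm.trans hL')
    · have a := mInc_eq_inr hx
      have b := mInc_eq_inr (h2.symm.trans hx)
      exact (Prod.mk.inj (a.symm.trans b)).2
  vc_inc := by
    intro W x
    rcases hx : mInc D (L W.1) W.2 x with v | p
    · obtain ⟨y, hy, hL⟩ := mInc_eq_inl.1 hx
      have h1 := (L W.1).vc_v y
      simp only [Sum.elim_inl, clK]
      rw [← hL, h1]
      show F.vc v = F.vc y.1.2
      rw [hy]
    · rw [mInc_eq_inr hx]; rfl

/-- wagons of the hypergraph of extended wagons -/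
def mstS {F : HG (id : K → K)} (s : ℕ → Setoid F.E) (Λ : Type) (m ν : ℕ) :
    Setoid (Λ × Quotient (s 1)) where
  r := fun a b => m ≤ ν ∨ (a.1 = b.1 ∧ s (ν + 1) a.2.out b.2.out)
  iseqv := ⟨fun _ => Or.inr ⟨rfl, (s (ν + 1)).refl _⟩,
    fun h => h.imp id fun h => ⟨h.1.symm, (s (ν + 1)).symm h.2⟩,
    fun h h' => h.elim Or.inl fun h => h'.imp id fun h' =>
      ⟨h.1.trans h'.1, (s (ν + 1)).trans h.2 h'.2⟩⟩

open Classical in
/-- substitute `X` into every edge of `N` -/
noncomputable def subst (X : HG (id : K → K)) (D : Set K) (N : HG (clK X D)) :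
    HG (id : K → K) where
  V := N.V ⊕ N.E × {x : X.V // X.vc x ∉ D}
  E := N.E × X.E
  vc := Sum.elim N.vc (fun z => X.vc z.2.1)
  inc := fun a k => if h : X.vc (X.inc a.2 k) ∈ D then .inl (N.inc a.1 ⟨_, h⟩)
    else .inr (a.1, ⟨_, h⟩)
  inc_inj := by
    intro a k k' h
    simp only at h
    split_ifs at h with h1 h2 h2
    · exact X.inc_inj _ (congrArg Subtype.val (N.inc_inj _ (Sum.inl.inj h)))
    · exact X.inc_inj _ (congrArg Subtype.val (Prod.mk.inj (Sum.inr.inj h)).2)
  vc_inc := by
    intro a k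
    split_ifs with h
    · exact (N.vc_inc _ _).trans (X.vc_inc _ _)
    · exact X.vc_inc _ _

/-- wagons after substitution -/
def substS {A B : Type} (u : ℕ → Setoid A) : ℕ → Setoid (A × B)
  | 0 => ⊥
  | μ + 1 => (u μ).comap Prod.fst

end Pool.Agent.MP_1c0fc2_co.GR
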