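import Pool.Agent.MP_1c0fc2_co.GR.CycW
import Pool.Agent.MP_1c0fc2_co.GR.CycB

open Function

namespace Pool.Agent.MP_1c0fc2_co.GR

variable {A B C : Geo} {P : Type}

theorem GHom.n_inj (h : GHom A B) : Injective h.n := by
  exact Function.Injective.sumMap h.v_inj h.c_inj

theorem GHom.n_comp (g : GHom B C) (h : GHom A B) (x : A.N) : (g.comp h).n x = g.n (h.n x) := by
  cases x <;> rfl

theorem GHom.bag_comp (g : GHom B C) (h : GHom A B) (z : C.N) :
    (g.comp h).Bag z ↔ ∃ y, h.Bag y ∧ g.n y = z := by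
  constructor
  · rintro ⟨x, rfl⟩
    exact ⟨h.n x, ⟨x, rfl⟩, (GHom.n_comp g h x).symm⟩
  · rintro ⟨y, ⟨x, rfl⟩, rfl⟩
    exact ⟨x, GHom.n_comp g h x⟩

theorem GHom.bag_inl (h : GHom A B) (v : B.V) : h.Bag (.inl v) ↔ ∃ u, h.v u = v := by
  constructor
  · rintro ⟨x, hx⟩
    cases x with
    | inl u => exact ⟨u, Sum.inl.inj hx⟩
    | inr c => exact absurd hx Sum.inr_ne_inl
  · rintro ⟨u, rfl⟩
    exact ⟨.inl u, rfl⟩

theorem GHom.bag_inr (h : GHom A B) (c : B.C) : h.Bag (.inr c) ↔ ∃ d, h.c d = c := by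
  constructor
  · rintro ⟨x, hx⟩
    cases x with
    | inl u => exact absurd hx Sum.inl_ne_inr
    | inr d => exact ⟨d, Sum.inr.inj hx⟩
  · rintro ⟨u, rfl⟩
    exact ⟨.inr u, rfl⟩

theorem GHom.wb (h : GHom A B) {d : A.C} {x : A.N} (hx : A.WB d x) : B.WB (h.c d) (h.n x) := by
  cases x with
  | inl u => exact h.map u d hx
  | inr c =>
    have hc : c = d := hx
    exact congrArg h.c hc

theorem GHom.wp (h : GHom A B) {x y : A.N} (hx : A.WP x y) : B.WP (h.n x) (h.n y) := by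
  obtain ⟨d, h1, h2⟩ := hx
  exact ⟨h.c d, h.wb h1, h.wb h2⟩

theorem GHom.wb_pull {h : GHom A B} (hi : h.Ind) {d : A.C} {x : A.N}
    (hx : B.WB (h.c d) (h.n x)) : A.WB d x := by
  cases x with
  | inl u => exact hi u d hx
  | inr c =>
    have hc : h.c c = h.c d := hx
    exact h.c_inj hc

theorem GHom.wp_pull {h : GHom A B} (hi : h.Ind) (hs : h.Str) {x y : A.N} (hxy : x ≠ y)
    (hx : B.WP (h.n x) (h.n y)) : A.WP x y := by
  obtain ⟨d, h1, h2⟩ := hx
  have key : ∃ c, h.c c = d := by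
    cases x with
    | inr c => exact ⟨c, h1⟩
    | inl u =>
      cases y with
      | inr c => exact ⟨c, h2⟩
      | inl w => exact hs u w d (fun e => hxy (congrArg Sum.inl e)) h1 h2
  obtain ⟨c, rfl⟩ := key
  exact ⟨c, GHom.wb_pull hi h1, GHom.wb_pull hi h2⟩

theorem GHom.Ind.comp {g : GHom B C} {h : GHom A B} (hg : g.Ind) (hh : h.Ind) :
    (g.comp h).Ind := by
  intro x y hm
  exact hh x y (hg _ _ hm)

theorem GHom.Str.comp {g : GHom B C} {h : GHom A B} (hg : g.Str) (hi : g.Ind) (hh : h.Str) :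
    (g.comp h).Str := by
  intro x y d hxy h1 h2
  obtain ⟨c, rfl⟩ := hg (h.v x) (h.v y) d (fun e => hxy (h.v_inj e)) h1 h2
  obtain ⟨c', rfl⟩ := hh x y c hxy (hi _ _ h1) (hi _ _ h2)
  exact ⟨c', rfl⟩

theorem Geo.WP.symm {x y : A.N} (h : A.WP x y) : A.WP y x := by
  obtain ⟨d, h1, h2⟩ := h
  exact ⟨d, h2, h1⟩

theorem Geo.not_wp_inr {c d : A.C} (h : c ≠ d) : ¬ A.WP (.inr c) (.inr d) := by
  rintro ⟨e, h1, h2⟩
  have a : c = e := h1
  have b : d = e := h2
  exact h (a.trans b.symm)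

theorem Geo.wp_inl_inr {v : A.V} {d : A.C} : A.WP (.inl v) (.inr d) ↔ A.M v d := by
  constructor
  · rintro ⟨e, h1, h2⟩
    have b : d = e := h2
    subst b
    exact h1
  · intro hm
    exact ⟨d, hm, rfl⟩

theorem Adj.symm {φ : P → GHom A B} {x y : B.N} (h : Adj φ x y) : Adj φ y x := by
  rcases h with ⟨p, h1, h2⟩ | h
  · exact Or.inl ⟨p, h2, h1⟩
  · exact Or.inr h.symm

theorem InBag.adj {φ : P → GHom A B} {l : List B.N} (h : InBag φ l) {x y : B.N} (hx : x ∈ l)
    (hy : y ∈ l) : Adj φ x y := by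
  rcases h with ⟨p, h⟩ | ⟨d, h⟩
  · exact Or.inl ⟨p, h x hx, h y hy⟩
  · exact Or.inr ⟨d, h x hx, h y hy⟩

theorem InBag.sub {φ : P → GHom A B} {l l' : List B.N} (h : InBag φ l) (hs : ∀ x ∈ l', x ∈ l) :
    InBag φ l' := by
  rcases h with ⟨p, h⟩ | ⟨d, h⟩
  · exact Or.inl ⟨p, fun x hx => h x (hs x hx)⟩
  · exact Or.inr ⟨d, fun x hx => h x (hs x hx)⟩

theorem AC.mono {φ : P → GHom A B} {w n w' n' : ℕ} (h : AC φ w n) (hw : w' ≤ w) (hn : n' ≤ n) :
    AC φ w' n' := by
  intro l hl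
  exact h l ⟨hl.nodup, hl.three, hl.len.trans hn, hl.wle.trans hw, hl.step⟩

theorem AC.of_len {φ : P → GHom A B} {g : ℕ} (h : AC φ (2 * g) g) (w : ℕ) : AC φ w g := by
  intro l hl
  refine h l ⟨hl.nodup, hl.three, hl.len, ?_, hl.step⟩
  have h1 := wsum_le l
  have h2 := hl.len
  omega

theorem AC.all {φ : P → GHom A B} {w : ℕ} (h : AC φ w w) (n : ℕ) : AC φ w n := by
  intro l hl
  exact h l ⟨hl.nodup, hl.three, (length_le_wsum l).trans hl.wle, hl.wle, hl.step⟩

theorem AC.two (φ : P → GHom A B) (w : ℕ) {n : ℕ} (h : n ≤ 2) : AC φ w n := by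
  intro l hl
  have h1 := hl.three
  have h2 := hl.len
  omega

theorem AC.tri {φ : P → GHom A B} {w n : ℕ} (h : AC φ w n) (hn : 3 ≤ n) {x y z : B.N}
    (hxy : x ≠ y) (hyz : y ≠ z) (hxz : x ≠ z) (hw : wt x y + wt y z + wt z x ≤ w)
    (h1 : Adj φ x y) (h2 : Adj φ y z) (h3 : Adj φ z x) : InBag φ [x, y, z] := by
  have hs : steps [x, y, z] = [(x, y), (y, z), (z, x)] := rfl
  have hc : Cyc (Adj φ) w n [x, y, z] := by
    refine ⟨?_, le_refl _, hn, ?_, ?_⟩
    · simp [hxy, hyz, hxz]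
    · unfold wsum
      rw [hs]
      simp only [List.map_cons, List.map_nil, List.sum_cons, List.sum_nil]
      omega
    · intro p hp
      rw [hs] at hp
      simp only [List.mem_cons, List.not_mem_nil, or_false] at hp
      rcases hp with rfl | rfl | rfl
      · exact h1
      · exact h2
      · exact h3
  rcases h _ hc with ⟨a, b, hab, _⟩ | hb
  · have := hab.four_le
    simp at this
  · exact hb

theorem AC.quad {φ : P → GHom A B} {w n : ℕ} (h : AC φ w n) (hn : 4 ≤ n) {x y z t : B.N}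
    (hd : [x, y, z, t].Nodup) (hw : wt x y + wt y z + wt z t + wt t x ≤ w)
    (h1 : Adj φ x y) (h2 : Adj φ y z) (h3 : Adj φ z t) (h4 : Adj φ t x) :
    Adj φ x z ∨ Adj φ y t := by
  have hs : steps [x, y, z, t] = [(x, y), (y, z), (z, t), (t, x)] := rfl
  have hc : Cyc (Adj φ) w n [x, y, z, t] := by
    refine ⟨hd, by simp, hn, ?_, ?_⟩
    · unfold wsum
      rw [hs]
      simp only [List.map_cons, List.map_nil, List.sum_cons, List.sum_nil]
      omega
    · intro p hp
      rw [hs] at hp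
      simp only [List.mem_cons, List.not_mem_nil, or_false] at hp
      rcases hp with rfl | rfl | rfl | rfl
      · exact h1
      · exact h2
      · exact h3
      · exact h4
  rcases h _ hc with ⟨a, b, hab, hadj⟩ | hb
  · have hm := hab.mem
    have hne := hab.ne hd
    have n1 := hab.not_step hd
    have n2 := hab.symm.not_step hd
    rw [hs] at n1 n2
    obtain ⟨ha, hb⟩ := hm
    simp only [List.mem_cons, List.not_mem_nil, or_false] at ha hb
    rcases ha with rfl | rfl | rfl | rfl <;> rcases hb with rfl | rfl | rfl | rfl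
    all_goals first
      | exact absurd rfl hne
      | exact Or.inl hadj
      | exact Or.inr hadj
      | exact Or.inl hadj.symm
      | exact Or.inr hadj.symm
      | (exfalso; apply n1; simp; done)
      | (exfalso; apply n2; simp; done)
  · exact Or.inl (hb.adj (by simp) (by simp))

end Pool.Agent.MP_1c0fc2_co.GR
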