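import Pool.Agent.MP_1c0fc2_co.GR.Main
import Pool.Agent.MP_1c0fc2_co.GR.Atom

open Function

namespace Pool.Agent.MP_1c0fc2_co.GR

/-- two vertices in a common copy -/
def Tog {α V P : Type} (φ : P → α → V) (x y : V) : Prop :=
  ∃ p, x ∈ Set.range (φ p) ∧ y ∈ Set.range (φ p)

/-- a graph as a hypergraph -/
def xgraphHG {α : Type} [Finite α] (F : SimpleGraph α) (ρ : α → ℕ) : HG (fun _ : Fin 2 => ()) where
  V := α
  E := {e : α × α // F.Adj e.1 e.2 ∧ ρ e.1 < ρ e.2}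
  vc := fun _ => ()
  inc := fun e => ![e.1.1, e.1.2]
  inc_inj := fun e k k' h => by
    have := e.2.1.ne
    fin_cases k <;> fin_cases k' <;> simp_all
  vc_inc := fun _ _ => rfl

theorem xgraph_on {α : Type} [Finite α] {F : SimpleGraph α} {ρ : α → ℕ} {a : α}
    {f : (xgraphHG F ρ).E} : (xgraphHG F ρ).On a f ↔ f.1.1 = a ∨ f.1.2 = a :=
  Fin.exists_fin_two

theorem xgraph_adj {α : Type} [Finite α] {F : SimpleGraph α} {ρ : α → ℕ} {a b : α}
    {f : (xgraphHG F ρ).E} (ha : (xgraphHG F ρ).On a f) (hb : (xgraphHG F ρ).On b f)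
    (h : a ≠ b) : F.Adj a b := by
  rcases xgraph_on.1 ha with rfl | rfl <;> rcases xgraph_on.1 hb with rfl | rfl
  exacts [(h rfl).elim, f.2.1, f.2.1.symm, (h rfl).elim]

theorem xgraph_edge {α : Type} [Finite α] {F : SimpleGraph α} {ρ : α → ℕ} (hρ : Injective ρ)
    {a b : α} (h : F.Adj a b) : ∃ f : (xgraphHG F ρ).E, s(f.1.1, f.1.2) = s(a, b) ∧
      (xgraphHG F ρ).On a f ∧ (xgraphHG F ρ).On b f := by
  rcases lt_or_gt_of_ne (hρ.ne h.ne) with h1 | h1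
  · exact ⟨⟨(a, b), h, h1⟩, rfl, xgraph_on.2 (.inl rfl), xgraph_on.2 (.inr rfl)⟩
  · exact ⟨⟨(b, a), h.symm, h1⟩, Sym2.eq_swap, xgraph_on.2 (.inr rfl), xgraph_on.2 (.inl rfl)⟩

theorem xgraph_lin {α : Type} [Finite α] (F : SimpleGraph α) (ρ : α → ℕ) :
    (xgraphHG F ρ).Lin := by
  rintro ⟨⟨a, b⟩, h1, h2⟩ ⟨⟨c, d⟩, h3, h4⟩ u v huv a1 a2 a3 a4
  rw [xgraph_on] at a1 a2 a3 a4
  refine Subtype.ext ?_
  dsimp only at *
  rcases a1 with rfl | rfl <;> rcases a2 with rfl | rfl <;> rcases a3 with rfl | rfl <;>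
    rcases a4 with h | h <;> first | exact (huv rfl).elim | exact (huv h).elim | skip
  · rw [h]
  · subst h; exact (lt_asymm h2 h4).elim
  · subst h; exact (lt_asymm h2 h4).elim
  · rw [h]

theorem xgraph_ord {α : Type} [Finite α] (F : SimpleGraph α) (ρ : α → ℕ) :
    (xgraphHG F ρ).Ord :=
  ⟨ρ, fun e => Fin.strictMono_iff_lt_succ.2 fun k => by
    fin_cases k
    exact e.2.2⟩

/-- the girth Ramsey theorem for graphs, attachment form -/
theorem girth_ramsey_atom {α : Type} [Finite α] (F : SimpleGraph α) (κ : Type) [Finite κ]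
    [Nonempty κ] (g : ℕ) :
    ∃ (V : Type) (_ : Finite V) (G : SimpleGraph V) (P : Type) (_ : Finite P) (φ : P → F ↪g G),
      (∀ χ : Sym2 V → κ, ∃ p c, ∀ x y, F.Adj x y → χ s(φ p x, φ p y) = c) ∧
      (∀ x y, G.Adj x y → ∃ p a b, φ p a = x ∧ φ p b = y) ∧
      ∀ (C : Finset V) (p : P), C.card ≤ g → (∀ a ∈ C, a ∉ Set.range (φ p)) →
        (∀ a ∈ C, ∀ b ∈ C, Relation.ReflTransGen
          (fun u v => u ∈ C ∧ v ∈ C ∧ Tog (fun p => φ p) u v) a b) →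
        (∀ x y : α, x ≠ y → (∃ a ∈ C, Tog (fun p => φ p) (φ p x) a) →
          (∃ a ∈ C, Tog (fun p => φ p) (φ p y) a) → F.Adj x y ∧ ∃ a ∈ C, ∃ p',
            φ p x ∈ Set.range (φ p') ∧ φ p y ∈ Set.range (φ p') ∧ a ∈ Set.range (φ p')) ∧
        ∀ x y z : α, (∃ a ∈ C, Tog (fun p => φ p) (φ p x) a) →
          (∃ a ∈ C, Tog (fun p => φ p) (φ p y) a) → (∃ a ∈ C, Tog (fun p => φ p) (φ p z) a) →
          x = y ∨ x = z ∨ y = z := by
  let ρ : α → ℕ := fun x => Finite.equivFin α x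
  have hρ : Injective ρ := Fin.val_injective.comp (Finite.equivFin α).injective
  obtain ⟨H, P, _, φ, hR, -, hc, hB, hAC⟩ :=
    gr_hyper (xgraphHG F ρ) (xgraph_ord F ρ) (xgraph_lin F ρ) κ (2 * g + 4)
  let ψ := fun p => (φ p).hg (hc p) Set.univ
  let up : H.V ↪ (hg H ⊥ Set.univ).V :=
    ⟨fun v => ⟨v, trivial⟩, fun _ _ h => congrArg Subtype.val h⟩
  have hM : ∀ {u : (hg H ⊥ Set.univ).V} {e : H.E},
      (hg H ⊥ Set.univ).M u (Quotient.mk ⊥ e) → H.On u.1 e := by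
    rintro u e ⟨e', h1, h2⟩
    obtain rfl : e' = e := Quotient.exact h1
    exact h2
  have hadj : ∀ p (x y : α) d, x ≠ y → (hg H ⊥ Set.univ).M (up ((φ p).v x)) d →
      (hg H ⊥ Set.univ).M (up ((φ p).v y)) d → (∃ c, (ψ p).c c = d) → F.Adj x y := by
    rintro p x y _ hxy hx hy ⟨c, rfl⟩
    induction c using Quotient.inductionOn with | _ f
    obtain ⟨k, hk⟩ := hM (e := (φ p).e f) hx
    obtain ⟨k', hk'⟩ := hM (e := (φ p).e f) hy
    exact xgraph_adj (f := f) ⟨k, (φ p).v_inj (((φ p).inc_e f k).symm.trans hk)⟩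
      ⟨k', (φ p).v_inj (((φ p).inc_e f k').symm.trans hk')⟩ hxy
  let G : SimpleGraph H.V :=
    { Adj := fun x y => ∃ p, ∃ a b : α, F.Adj a b ∧ (φ p).v a = x ∧ (φ p).v b = y
      symm := ⟨fun _ _ ⟨p, a, b, h, h1, h2⟩ => ⟨p, b, a, h.symm, h2, h1⟩⟩
      loopless := ⟨fun _ ⟨p, _, _, h, h1, h2⟩ => h.ne ((φ p).v_inj (h1.trans h2.symm))⟩ }
  have hind : ∀ p (a b : α), G.Adj ((φ p).v a) ((φ p).v b) → F.Adj a b := by
    intro p a b h
    have hab : a ≠ b := fun e => h.ne (by rw [e])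
    obtain ⟨p', a', b', h, h1, h2⟩ := h
    obtain ⟨f, -, ⟨k, hk⟩, ⟨k', hk'⟩⟩ := xgraph_edge hρ h
    have m1 : (hg H ⊥ Set.univ).M (up ((φ p).v a)) (Quotient.mk ⊥ ((φ p').e f)) :=
      ⟨_, rfl, k, ((φ p').inc_e f k).trans ((congrArg _ hk).trans h1)⟩
    have m2 : (hg H ⊥ Set.univ).M (up ((φ p).v b)) (Quotient.mk ⊥ ((φ p').e f)) :=
      ⟨_, rfl, k', ((φ p').inc_e f k').trans ((congrArg _ hk').trans h2)⟩
    exact hadj p a b _ hab m1 m2 (hB.str p ⟨a, trivial⟩ ⟨b, trivial⟩ _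
      (fun e => hab (congrArg Subtype.val e)) m1 m2)
  let Φ : P → F ↪g G := fun p => ⟨⟨(φ p).v, (φ p).v_inj⟩, fun {a b} =>
    ⟨hind p a b, fun h => ⟨p, a, b, h, rfl, rfl⟩⟩⟩
  have hbag : ∀ p x, (ψ p).Bag (.inl (up x)) ↔ x ∈ Set.range (Φ p) := by
    refine fun p x => ⟨?_, ?_⟩
    · rintro ⟨y | y, h⟩
      · exact ⟨y.1, congrArg Subtype.val (Sum.inl_injective h)⟩
      · exact (Sum.inr_ne_inl h).elim
    · rintro ⟨a, rfl⟩
      exact ⟨.inl ⟨a, trivial⟩, rfl⟩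
  have htog : ∀ u v, Tog (fun p => Φ p) u v → Adj ψ (.inl (up u)) (.inl (up v)) :=
    fun u v ⟨p, h1, h2⟩ => .inl ⟨p, (hbag _ _).2 h1, (hbag _ _).2 h2⟩
  refine ⟨H.V, inferInstance, G, P, inferInstance, Φ, fun χ => ?_,
    fun x y ⟨p, a, b, _, h1, h2⟩ => ⟨p, a, b, h1, h2⟩, fun C p hC hp hconn => ?_⟩
  · obtain ⟨p, hp⟩ := hR fun e => χ s(H.inc e 0, H.inc e 1)
    have key : ∀ x y, F.Adj x y → ∃ f, χ s(Φ p x, Φ p y) =
        χ s(H.inc ((φ p).e f) 0, H.inc ((φ p).e f) 1) := fun x y h => by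
      obtain ⟨f, hf, -⟩ := xgraph_edge hρ h
      refine ⟨f, congrArg χ ?_⟩
      rw [(φ p).inc_e, (φ p).inc_e]
      exact (congrArg (Sym2.map (φ p).v) hf).symm
    by_cases h0 : Nonempty (xgraphHG F ρ).E
    · obtain ⟨f0⟩ := h0
      refine ⟨p, χ s(H.inc ((φ p).e f0) 0, H.inc ((φ p).e f0) 1), fun x y h => ?_⟩
      obtain ⟨f, hf⟩ := key x y h
      exact hf.trans (hp f f0)
    · exact ⟨p, Classical.arbitrary κ, fun x y h => (h0 ⟨(key x y h).choose⟩).elim⟩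
  · have h2 : ∀ d u v x, (hg H ⊥ Set.univ).M u d → (hg H ⊥ Set.univ).M v d →
        (hg H ⊥ Set.univ).M x d → u = v ∨ u = x ∨ v = x := by
      intro d u v x hu hv hx
      induction d using Quotient.inductionOn with | _ e
      obtain ⟨k1, e1⟩ := hM hu
      obtain ⟨k2, e2⟩ := hM hv
      obtain ⟨k3, e3⟩ := hM hx
      have : k1 = k2 ∨ k1 = k3 ∨ k2 = k3 := by omega
      rcases this with rfl | rfl | rfl
      exacts [.inl (Subtype.ext (e1.symm.trans e2)), .inr (.inl (Subtype.ext (e1.symm.trans e3))),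
        .inr (.inr (Subtype.ext (e2.symm.trans e3)))]
    have c1 : (C.map up).card ≤ g := by rwa [Finset.card_map]
    have c2 : ∀ a ∈ C.map up, ∀ b ∈ C.map up, Relation.ReflTransGen
        (fun u v => u ∈ C.map up ∧ v ∈ C.map up ∧ Adj ψ (.inl u) (.inl v)) a b := by
      intro a ha b hb
      obtain ⟨a, ha', rfl⟩ := Finset.mem_map.1 ha
      obtain ⟨b, hb', rfl⟩ := Finset.mem_map.1 hb
      exact (hconn a ha' b hb').lift up fun u v h => ⟨Finset.mem_map_of_mem _ h.1,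
        Finset.mem_map_of_mem _ h.2.1, htog _ _ h.2.2⟩
    have c3 : ∀ a ∈ C.map up, ¬ (ψ p).Bag (.inl a) := by
      intro a ha
      obtain ⟨a, ha', rfl⟩ := Finset.mem_map.1 ha
      exact fun h => hp a ha' ((hbag _ _).1 h)
    have c4 : ∀ x, (ψ p).Bag (.inl (up (Φ p x))) := fun x => (hbag _ _).2 ⟨x, rfl⟩
    have c5 : ∀ x, (∃ a ∈ C, Tog (fun p => Φ p) (Φ p x) a) →
        ∃ a ∈ C.map up, Adj ψ (.inl (up (Φ p x))) (.inl a) :=
      fun x ⟨a, ha, h⟩ => ⟨up a, Finset.mem_map_of_mem _ ha, htog _ _ h⟩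
    have c6 : ∀ x y, up (Φ p x) = up (Φ p y) → x = y :=
      fun x y h => (Φ p).injective (up.injective h)
    refine ⟨fun x y hxy hx hy => ?_, fun x y z hx hy hz => ?_⟩
    · obtain ⟨d, d1, d2, ⟨c, hc'⟩, a, ha, p', b1, b2, b3, -⟩ := atom_edge hB hAC h2 _ c1 c2 p c3
        (fun h => hxy (c6 x y h)) (c4 x) (c4 y) (c5 x hx) (c5 y hy)
      obtain ⟨a, ha', rfl⟩ := Finset.mem_map.1 ha
      refine ⟨hadj p x y d hxy d1 d2 ?_, a, ha', p', (hbag _ _).1 b1, (hbag _ _).1 b2,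
        (hbag _ _).1 b3⟩
      rcases c with c | c
      · exact (Sum.inl_ne_inr hc').elim
      · exact ⟨c, Sum.inr_injective hc'⟩
    · exact (atom_three hB hAC h2 _ c1 c2 p c3 (c4 x) (c4 y) (c4 z) (c5 x hx) (c5 y hy)
        (c5 z hz)).imp (c6 _ _) (Or.imp (c6 _ _) (c6 _ _))

end Pool.Agent.MP_1c0fc2_co.GR
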