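import Pool.Agent.MP_1c0fc2_co.GR.Graph

open Function

namespace Pool.Agent.MP_1c0fc2_co.GR

theorem xgraphsep_main {V P : Type} [Finite V] [Finite P] (G : SimpleGraph V) (R : P → Set V)
    (T : V → V → Prop) (hT : ∀ u v, T u v ↔ ∃ p, u ∈ R p ∧ v ∈ R p) (g : ℕ)
    (H : ∀ (C : Finset V) (p : P), C.card ≤ g → (∀ a ∈ C, a ∉ R p) →
      (∀ a ∈ C, ∀ b ∈ C, Relation.ReflTransGen (fun u v => u ∈ C ∧ v ∈ C ∧ T u v) a b) →
      (∀ x ∈ R p, ∀ y ∈ R p, x ≠ y → (∃ a ∈ C, T x a) → (∃ a ∈ C, T y a) →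
        G.Adj x y ∧ ∃ a ∈ C, ∃ p', x ∈ R p' ∧ y ∈ R p' ∧ a ∈ R p') ∧
      ∀ x ∈ R p, ∀ y ∈ R p, ∀ z ∈ R p, (∃ a ∈ C, T x a) → (∃ a ∈ C, T y a) → (∃ a ∈ C, T z a) →
        x = y ∨ x = z ∨ y = z)
    (Z : Set V) (hZ : Z.ncard ≤ g) : Z.Subsingleton ∨ (∃ p, Z ⊆ R p) ∨
      ∃ Z₁ Z₂ : Set V, Z₁ ∪ Z₂ = Z ∧ ¬ Z ⊆ Z₁ ∧ ¬ Z ⊆ Z₂ ∧
        ((Z₁ ∩ Z₂).Subsingleton ∨ ∃ x y, G.Adj x y ∧ Z₁ ∩ Z₂ = {x, y}) ∧
        ∀ a ∈ Z₁ \ Z₂, ∀ b ∈ Z₂ \ Z₁, ¬ T a b := by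
  have hsym : ∀ u v, T u v → T v u := fun u v h => by
    obtain ⟨p, h1, h2⟩ := (hT _ _).1 h
    exact (hT _ _).2 ⟨p, h2, h1⟩
  by_cases hs : Z.Subsingleton
  · exact Or.inl hs
  by_cases hp : ∃ p, Z ⊆ R p
  · exact Or.inr (Or.inl hp)
  refine Or.inr (Or.inr ?_)
  by_cases ht : ∃ u ∈ Z, ∃ v ∈ Z, u ≠ v ∧ T u v
  swap
  · obtain ⟨u, hu, v, hv, huv⟩ := Set.not_subsingleton_iff.1 hs
    refine ⟨{u}, Z \ {u}, ?_, fun h => huv (h hv).symm, fun h => (h hu).2 rfl, Or.inl ?_, ?_⟩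
    · exact Set.union_sdiff_cancel (Set.singleton_subset_iff.2 hu)
    · exact Set.subsingleton_singleton.anti Set.inter_subset_left
    · rintro a ⟨rfl, -⟩ b ⟨hb, -⟩ hab
      exact ht ⟨a, hu, b, hb.1, fun e => hb.2 e.symm, hab⟩
  obtain ⟨u, hu, v, hv, huv, hT0⟩ := ht
  obtain ⟨p0, hu0, hv0⟩ := (hT _ _).1 hT0
  have : Nonempty P := ⟨p0⟩
  obtain ⟨p, hmax⟩ := Finite.exists_max fun p => (Z ∩ R p).ncard
  have h2 : 1 < (Z ∩ R p).ncard :=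
    lt_of_lt_of_le ((Set.one_lt_ncard (Set.toFinite (Z ∩ R p0))).2
      ⟨u, ⟨hu, hu0⟩, v, ⟨hv, hv0⟩, huv⟩) (hmax p0)
  obtain ⟨a0, ha0, ha0'⟩ := Set.not_subset.1 fun h => hp ⟨p, h⟩
  let r : V → V → Prop := fun u v => v ∈ Z ∧ v ∉ R p ∧ T u v
  let Cs : Set V := {a | Relation.ReflTransGen r a0 a}
  have hC : ∀ a ∈ Cs, a ∈ Z ∧ a ∉ R p := by
    intro a ha
    induction ha with
    | refl => exact ⟨ha0, ha0'⟩
    | tail _ h _ => exact ⟨h.1, h.2.1⟩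
  let C : Finset V := (Set.toFinite Cs).toFinset
  have hmem : ∀ a, a ∈ C ↔ a ∈ Cs := fun a => Set.Finite.mem_toFinset _
  have hcard : C.card ≤ g := by
    rw [← Set.ncard_eq_toFinset_card Cs (Set.toFinite Cs)]
    exact (Set.ncard_le_ncard (fun a ha => (hC a ha).1) (Set.toFinite _)).trans hZ
  have hcon : ∀ a ∈ Cs, Relation.ReflTransGen (fun u v => u ∈ C ∧ v ∈ C ∧ T u v) a0 a ∧
      Relation.ReflTransGen (fun u v => u ∈ C ∧ v ∈ C ∧ T u v) a a0 := by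
    intro a ha
    induction ha with
    | refl => exact ⟨.refl, .refl⟩
    | tail h1 h ih =>
      have m1 := (hmem _).2 h1
      have m2 := (hmem _).2 (h1.tail h)
      exact ⟨ih.1.tail ⟨m1, m2, h.2.2⟩, ih.2.head ⟨m2, m1, hsym _ _ h.2.2⟩⟩
  obtain ⟨H1, H2⟩ := H C p hcard (fun a ha => (hC a ((hmem a).1 ha)).2) fun a ha b hb =>
    (hcon a ((hmem a).1 ha)).2.trans (hcon b ((hmem b).1 hb)).1
  let S : Set V := {x | x ∈ Z ∧ x ∈ R p ∧ ∃ a ∈ C, T x a}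
  have hint : (Cs ∪ S) ∩ (Z \ Cs) = S := by
    ext x
    constructor
    · rintro ⟨h | h, h'⟩
      · exact absurd h h'.2
      · exact h
    · exact fun h => ⟨Or.inr h, h.1, fun h' => (hC x h').2 h.2.1⟩
  have htwo : ∀ x ∈ S, ∀ y ∈ S, x ≠ y → ∀ z ∈ S, z = x ∨ z = y := by
    intro x hx y hy hxy z hz
    rcases H2 x hx.2.1 y hy.2.1 z hz.2.1 hx.2.2 hy.2.2 hz.2.2 with e | e | e
    · exact absurd e hxy
    · exact Or.inl e.symm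
    · exact Or.inr e.symm
  refine ⟨Cs ∪ S, Z \ Cs, ?_, fun h => ?_, fun h => (h ha0).2 .refl, ?_, ?_⟩
  · ext x
    constructor
    · rintro ((h | h) | h)
      · exact (hC x h).1
      · exact h.1
      · exact h.1
    · intro h
      by_cases h' : x ∈ Cs
      · exact Or.inl (Or.inl h')
      · exact Or.inr ⟨h, h'⟩
  · have hS : ∀ x ∈ Z ∩ R p, x ∈ S := fun x hx =>
      (h hx.1).elim (fun h' => absurd hx.2 (hC x h').2) id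
    obtain ⟨x, hx, y, hy, hxy⟩ := (Set.one_lt_ncard (Set.toFinite _)).1 h2
    obtain ⟨-, a, ha, p', hx', hy', ha'⟩ :=
      H1 x hx.2 y hy.2 hxy (hS x hx).2.2 (hS y hy).2.2
    have haC := hC a ((hmem a).1 ha)
    have hsub : insert a (Z ∩ R p) ⊆ Z ∩ R p' := by
      rintro z (rfl | hz)
      · exact ⟨haC.1, ha'⟩
      · rcases htwo x (hS x hx) y (hS y hy) hxy z (hS z hz) with rfl | rfl
        · exact ⟨hz.1, hx'⟩
        · exact ⟨hz.1, hy'⟩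
    have h3 := Set.ncard_le_ncard hsub (Set.toFinite _)
    rw [Set.ncard_insert_of_notMem (fun h' => haC.2 h'.2) (Set.toFinite _)] at h3
    have h4 := hmax p'
    omega
  · rw [hint]
    by_cases hS : S.Subsingleton
    · exact Or.inl hS
    · obtain ⟨x, hx, y, hy, hxy⟩ := Set.not_subsingleton_iff.1 hS
      refine Or.inr ⟨x, y, (H1 x hx.2.1 y hy.2.1 hxy hx.2.2 hy.2.2).1, ?_⟩
      ext z
      constructor
      · exact htwo x hx y hy hxy z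
      · rintro (rfl | rfl)
        · exact hx
        · exact hy
  · rintro a ⟨ha, ha'⟩ b ⟨hb, hb'⟩ hab
    have haC : a ∈ Cs := by
      by_contra h'
      exact ha' ⟨(ha.elim (fun h => (hC a h).1) fun h => h.1), h'⟩
    by_cases hbp : b ∈ R p
    · exact hb' (Or.inr ⟨hb.1, hbp, a, (hmem a).2 haC, hsym _ _ hab⟩)
    · exact hb.2 (Relation.ReflTransGen.tail haC ⟨hb.1, hbp, hab⟩)

/-- the girth Ramsey theorem for graphs, separation form -/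
theorem girth_ramsey {α : Type} [Finite α] (F : SimpleGraph α) (κ : Type) [Finite κ]
    [Nonempty κ] (g : ℕ) :
    ∃ (V : Type) (_ : Finite V) (G : SimpleGraph V) (P : Type) (_ : Finite P) (φ : P → F ↪g G),
      (∀ χ : Sym2 V → κ, ∃ p c, ∀ x y, F.Adj x y → χ s(φ p x, φ p y) = c) ∧
      (∀ x y, G.Adj x y → ∃ p a b, φ p a = x ∧ φ p b = y) ∧
      ∀ Z : Set V, Z.ncard ≤ g → Z.Subsingleton ∨ (∃ p, Z ⊆ Set.range (φ p)) ∨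
        ∃ Z₁ Z₂ : Set V, Z₁ ∪ Z₂ = Z ∧ ¬ Z ⊆ Z₁ ∧ ¬ Z ⊆ Z₂ ∧
          ((Z₁ ∩ Z₂).Subsingleton ∨ ∃ x y, G.Adj x y ∧ Z₁ ∩ Z₂ = {x, y}) ∧
          ∀ a ∈ Z₁ \ Z₂, ∀ b ∈ Z₂ \ Z₁, ¬ Tog (fun p => φ p) a b := by
  obtain ⟨V, iV, G, P, iP, φ, h1, h2, h3⟩ := girth_ramsey_atom F κ g
  refine ⟨V, iV, G, P, iP, φ, h1, h2, xgraphsep_main G (fun p => Set.range (φ p))
    (Tog fun p => φ p) (fun _ _ => Iff.rfl) g fun C p hc hp hcon => ?_⟩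
  obtain ⟨h4, h5⟩ := h3 C p hc hp hcon
  constructor
  · rintro _ ⟨x, rfl⟩ _ ⟨y, rfl⟩ hxy hx hy
    obtain ⟨h6, h7⟩ := h4 x y (fun e => hxy (congrArg _ e)) hx hy
    exact ⟨(φ p).map_rel_iff.2 h6, h7⟩
  · rintro _ ⟨x, rfl⟩ _ ⟨y, rfl⟩ _ ⟨z, rfl⟩ hx hy hz
    rcases h5 x y z hx hy hz with e | e | e
    · exact Or.inl (congrArg _ e)
    · exact Or.inr (Or.inl (congrArg _ e))
    · exact Or.inr (Or.inr (congrArg _ e))

end Pool.Agent.MP_1c0fc2_co.GR
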