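import Pool.Agent.MP_1c0fc2_co.GR.HRevA

open Function

namespace Pool.Agent.MP_1c0fc2_co.GR

theorem xhrev_lt {M g j : ℕ} (γ : ℕ → ℕ) (h : j < M) : rep M g γ j = g := if_pos h

theorem xhrev_add (M g ν : ℕ) (γ : ℕ → ℕ) : rep M g γ (M + ν) = γ ν := by
  unfold rep
  rw [if_neg (by omega), Nat.add_sub_cancel_left]

theorem xhrev_hi {K : Type} {A B : ℕ → Set K} {M : ℕ} (h : ∀ ν, B (M + ν) = A (ν + 1))
    (m ν : ℕ) : Hi B (M + m) (M + ν) = Hi A (m + 1) (ν + 1) := by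
  ext k
  constructor
  · rintro ⟨j, h1, h2, h3⟩
    obtain ⟨j, rfl⟩ : ∃ i, j = M + i := ⟨j - M, by omega⟩
    exact ⟨j + 1, by omega, by omega, h j ▸ h3⟩
  · rintro ⟨j, h1, h2, h3⟩
    obtain ⟨j, rfl⟩ : ∃ i, j = i + 1 := ⟨j - 1, by omega⟩
    exact ⟨M + j, by omega, by omega, (h j).symm ▸ h3⟩

theorem xhrev_hi0 {K : Type} {A B : ℕ → Set K} {M : ℕ} (h : ∀ ν, B (M + ν) = A (ν + 1))
    (h1 : ∀ j, j < M → B j ⊆ A 0) (h2 : ∀ k ∈ A 0, ∃ j, j < M ∧ k ∈ B j) (m : ℕ) :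
    Hi B (M + m) 0 = Hi A (m + 1) 0 := by
  ext k
  constructor
  · rintro ⟨j, -, h3, h4⟩
    by_cases hj : j < M
    · exact ⟨0, le_rfl, by omega, h1 j hj h4⟩
    · obtain ⟨j, rfl⟩ : ∃ i, j = M + i := ⟨j - M, by omega⟩
      exact ⟨j + 1, by omega, by omega, h j ▸ h4⟩
  · rintro ⟨j, -, h3, h4⟩
    cases j with
    | zero =>
      obtain ⟨i, h5, h6⟩ := h2 k h4
      exact ⟨i, by omega, by omega, h6⟩
    | succ j => exact ⟨M + j, by omega, by omega, (h j).symm ▸ h4⟩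

theorem hrev {m g : ℕ} {γ : ℕ → ℕ} (hγ : ∀ μ, g + 1 ≤ γ μ)
    (h : ∀ M, 0 < M → T (M + m) (rep M g γ)) :
    Hor True (m + 1) (rep 1 (g + 1) γ) (2 * (g + 1)) g g := by
  intro K _ _ S s A hD _ hrev κ _ _
  obtain ⟨M, r, B, hr⟩ := hrev trivial
  obtain ⟨r', B', hD', hg0, e0, e1, e2, e3⟩ :=
    revised hD (fun μ => (Nat.le_succ g).trans (hγ μ)) hr
  obtain ⟨G, t', Q, _, q, hR, hU, h0⟩ := h M hr.pos K K id S r' B' hD' (ord_partite S) κ
  rw [xhrev_lt γ hr.pos] at h0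
  have hsub : ∀ j, j < M → B' j ⊆ A 0 := fun j hj => (e2 j hj).symm ▸ hr.sub j hj
  have hi0 : Hi B' (M + m) 0 = Hi A (m + 1) 0 :=
    xhrev_hi0 e3 hsub (fun k hk => by
      obtain ⟨j, hj, hk'⟩ := hr.cov k hk
      exact ⟨j, hj, (e2 j hj).symm ▸ hk'⟩) m
  have hG := hU.dom hD'
  refine ⟨G, fun μ => Nat.casesOn μ (t' 0) fun ν => t' (M + ν), Q, ‹_›, q, hR,
    ⟨⟨hU.tr.zero, fun μ => ?_, fun μ hμ => ?_, fun μ => ?_⟩, hU.lin, fun p μ => ?_,
      fun μ h1 h2 => ?_⟩, fun _ => ⟨?_, fun _ => ?_⟩⟩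
  · cases μ with
    | zero => exact fun e e' he => hU.tr.le (Nat.zero_le (M + 0)) he
    | succ ν => exact hU.tr.mono (M + ν)
  · cases μ with
    | zero => omega
    | succ ν => exact hU.tr.top (M + ν) (by omega)
  · cases μ with
    | zero =>
      intro e e' v he he' h1 h2
      obtain ⟨j, -, hj, -, -, hv⟩ := hU.tr.between (μ := 0) (ν := M) he he' h1 h2
      exact hsub j hj hv
    | succ ν =>
      intro e e' v he he' h1 h2
      exact e3 ν ▸ hU.tr.cond (M + ν) e e' v he he' h1 h2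
  · cases μ with
    | zero => exact e0 ▸ hU.cpt p 0
    | succ ν => exact e1 ν ▸ hU.cpt p (M + ν)
  · cases μ with
    | zero => omega
    | succ ν =>
      have h3 := hU.good (M + ν) (by have := hr.pos; omega) (by omega)
      have h4 : rep 1 (g + 1) γ (ν + 1) = γ ν := by rw [add_comm ν 1, xhrev_add]
      rw [xhrev_add, xhrev_hi e3, e1] at h3
      rw [h4]
      exact h3
  · rw [hi0, e0] at h0
    obtain ⟨hc, h1, h2⟩ := h0
    exact ⟨hc, h1, (h2.mono le_rfl (by omega)).of_len _⟩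
  · show (wg G (t' 0)).Gir (g + 1)
    refine gir_succ hU.tr (M := M) (fun j hj => (e2 j hj).symm ▸ hr.sing j hj) (fun j hj => ?_) ?_
    · rcases Nat.eq_zero_or_pos j with rfl | hj0
      · exact hU.tr.gir_wg (h0.gir le_rfl (by omega) (gir_hg_of_wg hg0 _))
      · have h1 := hG.gir j hj0 (by omega)
        rwa [xhrev_lt γ hj] at h1
    · rcases Nat.eq_zero_or_pos m with rfl | hm
      · exact gir_wg_top (hU.tr.top M le_rfl)
      · have h1 := hG.gir (M + 0) hr.pos (by omega)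
        rw [xhrev_add] at h1
        exact h1.mono (hγ 0)

end Pool.Agent.MP_1c0fc2_co.GR
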