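import Pool.Agent.MP_1c0fc2_co.GR.TrainA

open Function

namespace Pool.Agent.MP_1c0fc2_co.GR

variable {K : Type} {S : HG (id : K → K)}

theorem xhreva_on {v : S.V} {e : S.E} (h : S.On v e) : S.inc e (S.vc v) = v := by
  obtain ⟨k, rfl⟩ := h
  rw [S.vc_inc]
  rfl

/-- the revised train -/
theorem revised {s : ℕ → Setoid S.E} {A : ℕ → Set K} {m g M : ℕ} {γ : ℕ → ℕ} {g' : ℕ}
    (h : Dom S s A (m + 1) (rep 1 g' γ)) (hγ : ∀ μ, g ≤ γ μ) {r : ℕ → Setoid S.E}
    {B : ℕ → Set K} (hr : IsRev S (fun _ => True) (s 1) (A 0) g M r B) :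
    ∃ (r' : ℕ → Setoid S.E) (B' : ℕ → Set K), Dom S r' B' (M + m) (rep M g γ) ∧
      (wg S (r' 0)).Gir g ∧ r' 0 = s 0 ∧ (∀ ν, r' (M + ν) = s (ν + 1)) ∧
      (∀ j, j < M → B' j = B j) ∧ ∀ ν, B' (M + ν) = A (ν + 1) := by
  have hM : r M = s 1 := Setoid.ext fun e e' => hr.last e e' trivial trivial
  have h0 : r 0 = s 0 := Setoid.ext fun e e' =>
    ⟨fun he => hr.zero e e' trivial trivial he ▸ (s 0).refl e,
      fun he => h.tr.zero e e' he ▸ (r 0).refl e⟩
  have hg : ∀ j, j ≤ M → (wg S (r j)).Gir g := by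
    intro j hj
    induction hj using Nat.decreasingInduction with
    | self =>
      rw [hM]
      rcases Nat.eq_zero_or_pos m with rfl | hm
      · exact gir_wg_top (h.tr.top 1 le_rfl)
      · exact (h.gir 1 le_rfl (by omega)).mono (hγ 0)
    | of_succ j hj ih =>
      refine gir_run (wg S (r j)).M (wg S (r (j + 1))).M
        (Quotient.map id fun e e' => hr.mono j hj e e' trivial trivial) ?_ ih fun z => ?_
      · rintro v _ ⟨e, rfl, he⟩
        exact ⟨e, rfl, he⟩
      · induction z using Quotient.inductionOn with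
        | h z =>
          refine (hr.gir j hj z).pull ⟨id, id, injective_id, injective_id, ?_⟩
          rintro v _ ⟨⟨e, rfl, he⟩, hz⟩
          exact ⟨e, rfl, trivial, Quotient.exact hz, he⟩
  obtain ⟨r', hlo, hhi⟩ : ∃ r' : ℕ → Setoid S.E, (∀ j, j ≤ M → r' j = r j) ∧
      ∀ ν, r' (M + ν) = s (ν + 1) := by
    refine ⟨fun j => if j < M then r j else s (j - M + 1), fun j hj => ?_, fun ν => by simp⟩
    rcases hj.lt_or_eq with hj | rfl
    · exact if_pos hj
    · simp [hM]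
  obtain ⟨B', hlo', hhi'⟩ : ∃ B' : ℕ → Set K, (∀ j, j < M → B' j = B j) ∧
      ∀ ν, B' (M + ν) = A (ν + 1) :=
    ⟨fun j => if j < M then B j else A (j - M + 1), fun j hj => if_pos hj, fun ν => by simp⟩
  refine ⟨r', B', ⟨⟨?_, fun μ e e' => ?_, fun μ hμ => ?_, fun μ e e' v he he' => ?_⟩, h.lin,
    fun μ _ hμ => ?_⟩, ?_, (hlo 0 M.zero_le).trans h0, hhi, hlo', hhi'⟩
  · rw [hlo 0 M.zero_le, h0]
    exact h.tr.zero
  · rcases lt_or_ge μ M with hμ | hμ
    · rw [hlo μ hμ.le, hlo (μ + 1) hμ]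
      exact hr.mono μ hμ e e' trivial trivial
    · obtain ⟨ν, rfl⟩ := Nat.exists_eq_add_of_le hμ
      rw [add_assoc, hhi, hhi]
      exact h.tr.mono _ e e'
  · obtain ⟨ν, rfl⟩ := Nat.exists_eq_add_of_le (le_of_add_le_left hμ)
    rw [hhi]
    exact h.tr.top _ (by omega)
  · rcases lt_or_ge μ M with hμ | hμ
    · rw [hlo μ hμ.le, hlo (μ + 1) hμ, hlo' μ hμ]
      exact hr.cond μ hμ e e' _ trivial trivial ((xhreva_on he).trans (xhreva_on he').symm)
    · obtain ⟨ν, rfl⟩ := Nat.exists_eq_add_of_le hμ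
      rw [add_assoc, hhi, hhi, hhi']
      exact h.tr.cond _ e e' v he he'
  · rcases lt_or_ge μ M with hμ' | hμ'
    · rw [hlo μ hμ'.le, rep, if_pos hμ']
      exact hg μ hμ'.le
    · obtain ⟨ν, rfl⟩ := Nat.exists_eq_add_of_le hμ'
      have := h.gir (ν + 1) (by omega) (by omega)
      rw [hhi]
      simpa [rep] using this
  · rw [hlo 0 M.zero_le]
    exact hg 0 M.zero_le

/-- one more unit of girth in a partite train whose low parameters are single lines -/
theorem gir_succ {t : ℕ → Setoid S.E} {B : ℕ → Set K} {m M g : ℕ} (h : IsTrain S t B m)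
    (hB : ∀ j, j < M → (B j).Subsingleton) (hg : ∀ j, j < M → (wg S (t j)).Gir g)
    (hM : (wg S (t M)).Gir (g + 1)) : (wg S (t 0)).Gir (g + 1) := by
  intro (l : List (S.V × Quotient (t 0))) hl h2 hlen
  let π : ∀ j, Quotient (t 0) → Quotient (t j) := fun j =>
    Quotient.map id fun e e' he => h.le j.zero_le he
  have hw : ∀ j, (wg S (t j)).WCyc (l.map (Prod.map id (π j))) := fun j => by
    refine ⟨(List.map_map ..).symm ▸ hl.1, fun p hp => ?_⟩
    rw [steps_map] at hp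
    obtain ⟨⟨⟨u, c⟩, ⟨v, d⟩⟩, hq, rfl⟩ := List.mem_map.1 hp
    obtain ⟨⟨e, h1, h3⟩, ⟨e', h4, h5⟩⟩ := hl.2 _ hq
    exact ⟨⟨e, congrArg (π j) h1, h3⟩, ⟨e', congrArg (π j) h4, h5⟩⟩
  have hL : ∀ j, l.length = (l.map (Prod.map id (π j))).length := fun j =>
    (List.length_map _).symm
  have key : ∀ j, j ≤ M → ∀ a ∈ l, ∀ b ∈ l, π j a.2 = π j b.2 := by
    intro j hj
    induction hj using Nat.decreasingInduction with
    | self =>
      exact fun a ha b hb => hM _ (hw M) (h2.trans_eq (hL _)) ((hL _).symm.trans_le hlen) _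
        (List.mem_map_of_mem ha) _ (List.mem_map_of_mem hb)
    | of_succ j hj ih =>
      obtain ⟨x, hx, hxB⟩ : ∃ x ∈ l, S.vc x.1 ∉ B j := by
        obtain ⟨a, ha⟩ := List.exists_mem_of_length_pos (l := l) (zero_lt_two.trans_le h2)
        obtain ⟨b, hab⟩ := exists_step_fst ha
        by_contra hn
        push Not at hn
        obtain ⟨⟨e, h1, h3⟩, ⟨e', h4, h5⟩⟩ := hl.2 _ hab
        obtain rfl := h.zero e e' (Quotient.exact (h1.trans h4.symm))
        refine hl.step_ne h2 hab ((xhreva_on h3).symm.trans (Eq.trans ?_ (xhreva_on h5)))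
        exact congrArg _ (hB j hj (hn a ha) (hn b (mem_of_mem_steps hab).2))
      obtain ⟨y, hy⟩ := exists_step_snd hx
      obtain ⟨e, h1, h3⟩ := (hl.2 _ hy).2
      obtain ⟨e', h4, h5⟩ := hl.self hx
      have h6 : t (j + 1) e e' := Quotient.exact (((congrArg (π (j + 1)) h1).trans
        (ih y (mem_of_mem_steps hy).1 x hx)).trans (congrArg (π (j + 1)) h4).symm)
      have h7 : t j e e' := by_contra fun hn => hxB (h.cond j e e' x.1 h3 h5 hn h6)
      refine fun a ha b hb => (hg j hj).del (hw j) (h2.trans_eq (hL _))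
        ((hL _).symm.trans_le hlen)
        ⟨Prod.map (Prod.map id (π j)) (Prod.map id (π j)) (y, x), ?_, ?_⟩ _
        (List.mem_map_of_mem ha) _ (List.mem_map_of_mem hb)
      · rw [steps_map]
        exact List.mem_map_of_mem hy
      · exact ((congrArg (π j) h1).symm.trans (Quotient.sound h7)).trans (congrArg (π j) h4)
  have h0 : ∀ c, π 0 c = c := fun c => Quotient.inductionOn c fun _ => rfl
  exact fun a ha b hb => ((h0 _).symm.trans (key 0 M.zero_le a ha b hb)).trans (h0 _)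

end Pool.Agent.MP_1c0fc2_co.GR
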