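import Pool.Agent.MP_1c0fc2_co.GR.TrainA

open Function

namespace Pool.Agent.MP_1c0fc2_co.GR

variable {K I : Type} [Finite K] {cl : K → I} {F H : HG cl} {R : Type} {h : R → Emb F H}

omit [Finite K] in
theorem xlevz_on (ψ : Hom F H) {v : F.V} {f : F.E} (hv : F.On v f) : H.On (ψ.v v) (ψ.e f) := by
  obtain ⟨k, rfl⟩ := hv
  exact ⟨k, ψ.inc_e f k⟩

omit [Finite K] in
theorem xlevz_ne (ψ : Hom F H) {v w : F.V} {f : F.E} (hv : F.On v f) (hw : F.On w f)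
    (hne : v ≠ w) : ψ.v v ≠ ψ.v w := by
  obtain ⟨k, rfl⟩ := hv
  obtain ⟨k', rfl⟩ := hw
  rw [← ψ.inc_e, ← ψ.inc_e]
  exact fun e => hne (congrArg _ (H.inc_inj _ e))

theorem xlevz_over (ψ : Hom F H) (e : H.E) (u : (Con ψ e).V) :
    H.On (ψ.v ((conEmb ψ e).v u)) e := by
  obtain ⟨⟨k, v⟩, f, rfl, hv⟩ := u
  exact xlevz_on ψ ⟨k, hv⟩

omit [Finite K] in
theorem xlevz_two {r : Setoid F.E} (h0 : ∀ f f', r f f' → f = f') {D : Set I}
    {u v : (hg F r D).V} {d : (hg F r D).C} (hu : (hg F r D).M u d) (hv : (hg F r D).M v d) :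
    ∃ f, Quotient.mk r f = d ∧ F.On u.1 f ∧ F.On v.1 f := by
  obtain ⟨f, rfl, hf⟩ := hu
  obtain ⟨f', e, hf'⟩ := hv
  obtain rfl := h0 _ _ (Quotient.exact e)
  exact ⟨f', rfl, hf, hf'⟩

omit [Finite K] in
theorem xlevz_ind (φ : Emb F H) {r₀ : Setoid F.E} {r : Setoid H.E}
    (h0 : ∀ f f', r f f' → f = f') (hc : Compat φ r₀ r) (D : Set I) : (φ.hg hc D).Ind := by
  intro x y
  induction y using Quotient.inductionOn with
  | h f =>
    rintro ⟨g, e, hg⟩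
    obtain rfl := h0 _ _ (Quotient.exact e)
    exact ⟨f, rfl, φ.on.1 hg⟩

theorem lev_zero (hH : H.Lin) (hs : ∀ r, (h r).Str) (Y : Pic (fun r => (h r).toHom)) (e : H.E)
    {r₀ : Setoid F.E} {r : Setoid Y.X.E} (h0 : ∀ f f', r f f' → f = f')
    (hc : ∀ p, Compat (Y.φ p) r₀ r) (D : Set I) :
    Lev0 ((conEmb Y.ψ e).hg (con_compat Y.ψ e r) D) (fun p => (Y.φ p).hg (hc p) D) := by
  refine ⟨xlevz_ind _ h0 _ D, fun x y d hxy hx hy => ?_, fun v c => ?_, ?_⟩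
  · obtain ⟨f, rfl, h1, h2⟩ := xlevz_two h0 hx hy
    have h3 := hH _ _ _ _ (xlevz_ne Y.ψ h1 h2 fun e' => hxy
      (Subtype.ext ((conEmb Y.ψ e).v_inj e'))) (xlevz_on Y.ψ h1) (xlevz_on Y.ψ h2)
      (xlevz_over Y.ψ e x.1) (xlevz_over Y.ψ e y.1)
    exact ⟨Quotient.mk _ ⟨f, h3⟩, rfl⟩
  · induction c using Quotient.inductionOn with
    | h f =>
      rintro ⟨g, e', k, hk⟩
      obtain rfl := h0 _ _ (Quotient.exact e')
      refine ⟨⟨(Con Y.ψ e).inc f k, ?_⟩, Subtype.ext hk⟩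
      have h1 := v.2
      rw [← hk, HG.vc_inc] at h1
      exact h1
  · have hv : ∀ p u, GHom.Bag ((conEmb Y.ψ e).hg (con_compat Y.ψ e r) D)
        (Sum.inl (((Y.φ p).hg (hc p) D).v u)) → H.On ((h (Y.ov p)).v u.1) e := by
      rintro p u ⟨u' | _, hu⟩
      · have h1 : (conEmb Y.ψ e).v u'.1 = (Y.φ p).v u.1 := congrArg Subtype.val (Sum.inl.inj hu)
        rw [← Y.ov_v, ← h1]
        exact xlevz_over Y.ψ e _
      · cases hu
    have he : ∀ p f, GHom.Bag ((conEmb Y.ψ e).hg (con_compat Y.ψ e r) D)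
        (Sum.inr (Quotient.mk r ((Y.φ p).e f))) → (h (Y.ov p)).e f = e := by
      rintro p f ⟨_ | c, hu⟩
      · cases hu
      · induction c using Quotient.inductionOn with
        | h g =>
          rw [← Y.ov_e, ← h0 _ _ (Quotient.exact (Sum.inr.inj hu))]
          exact g.2
    rintro p _ _ hxy ⟨u | c, rfl⟩ ⟨w | c', rfl⟩ hx hy
    · have h1 := hv p u hx
      have h2 := hv p w hy
      obtain ⟨f, rfl⟩ := hs _ e u.1 w.1 (fun e => hxy (by rw [Subtype.ext e])) h1 h2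
      exact ⟨Quotient.mk r ((Y.φ p).e f), ⟨_, rfl, (Y.φ p).on.2 ((h _).on.1 h1)⟩,
        ⟨_, rfl, (Y.φ p).on.2 ((h _).on.1 h2)⟩⟩
    · induction c' using Quotient.inductionOn with
      | h f =>
        have h1 := hv p u hx
        rw [← he p f hy] at h1
        exact ⟨Quotient.mk r ((Y.φ p).e f), ⟨_, rfl, (Y.φ p).on.2 ((h _).on.1 h1)⟩, rfl⟩
    · induction c using Quotient.inductionOn with
      | h f =>
        have h1 := hv p w hy
        rw [← he p f hx] at h1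
        exact ⟨Quotient.mk r ((Y.φ p).e f), rfl, ⟨_, rfl, (Y.φ p).on.2 ((h _).on.1 h1)⟩⟩
    · induction c using Quotient.inductionOn with
      | h f =>
        induction c' using Quotient.inductionOn with
        | h f' =>
          obtain rfl := (h (Y.ov p)).e_inj ((he p f hx).trans (he p f' hy).symm)
          exact absurd rfl hxy

omit [Finite K] in
theorem basic_zero (hs : ∀ r, (h r).Str) (Y : Pic (fun r => (h r).toHom)) (hY : Y.X.Lin)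
    {r₀ : Setoid F.E} {r : Setoid Y.X.E} (h0 : ∀ f f', r f f' → f = f')
    (hc : ∀ p, Compat (Y.φ p) r₀ r) (D : Set I) (h2 : B2 (fun p => (Y.φ p).hg (hc p) D)) :
    Basic (fun p => (Y.φ p).hg (hc p) D) := by
  refine ⟨fun p => xlevz_ind _ h0 _ D, fun p x y d hxy hx hy => ?_, h2,
    fun u v c d huv h1 h2 h3 h4 => ?_⟩
  · obtain ⟨g, rfl, h1, h2⟩ := xlevz_two h0 hx hy
    have h3 : H.On ((h (Y.ov p)).v x.1) (Y.ψ.e g) := Y.ov_v p x.1 ▸ xlevz_on Y.ψ h1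
    have h4 : H.On ((h (Y.ov p)).v y.1) (Y.ψ.e g) := Y.ov_v p y.1 ▸ xlevz_on Y.ψ h2
    have h5 : x.1 ≠ y.1 := fun e => hxy (Subtype.ext e)
    obtain ⟨f, hf⟩ := hs _ _ _ _ h5 h3 h4
    rw [← hf] at h3 h4
    obtain rfl := hY _ _ _ _ ((Y.φ p).v_inj.ne h5) h1 h2 ((Y.φ p).on.2 ((h _).on.1 h3))
      ((Y.φ p).on.2 ((h _).on.1 h4))
    exact ⟨Quotient.mk r₀ f, rfl⟩
  · obtain ⟨g, rfl, a1, a2⟩ := xlevz_two h0 h1 h2
    obtain ⟨g', rfl, a3, a4⟩ := xlevz_two h0 h3 h4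
    rw [hY _ _ _ _ (fun e => huv (Subtype.ext e)) a1 a2 a3 a4]

end Pool.Agent.MP_1c0fc2_co.GR
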