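import Pool.Agent.MP_1c0fc2_co.GR.PCT
import Pool.Agent.MP_1c0fc2_co.GR.Ext
import Pool.Agent.MP_1c0fc2_co.GR.HRev

open Function

namespace Pool.Agent.MP_1c0fc2_co.GR

theorem xmain_rep {M g k : ℕ} {γ : ℕ → ℕ} (h : k ≤ g) (h' : ∀ μ, k ≤ γ μ) (μ : ℕ) :
    k ≤ rep M g γ μ := by
  unfold rep
  split_ifs
  · exact h
  · exact h' _

theorem boot {m : ℕ} {γ : ℕ → ℕ} {w n : ℕ} (h : St m γ w n) (hw : w < 2 * (n + 1)) :
    Hor True m γ w n 0 := by
  intro K _ _ S s A hD _ _ κ _ _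
  obtain ⟨H, t, P, _, φ, h1, h2, h3⟩ := h K K id S s A hD (ord_partite S) κ
  exact ⟨H, t, P, inferInstance, φ, h1, h2, fun _ => ⟨h3, fun h' => absurd h' (by omega)⟩⟩

theorem st_all {m : ℕ} {γ : ℕ → ℕ} {w n : ℕ} (hm : 1 ≤ m) (hγ : ∀ μ, 2 ≤ γ μ) (h : St m γ w n)
    (hw : w < 2 * (n + 1)) (k : ℕ) : St m γ w (n + k) := by
  induction k with
  | zero => exact h
  | succ k ih =>
    exact pc_train (n := n + k) hm hγ (Nat.zero_le _) (by omega) (Or.inl trivial)
      (boot ih (by omega))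

theorem main_step (g : ℕ) (hg : 2 ≤ g) : ∀ (m : ℕ) (γ : ℕ → ℕ), (∀ μ, g ≤ γ μ) →
    (m = 0 ∨ T m γ) → T (m + 1) (rep 1 g γ) := by
  induction g, hg using Nat.le_induction with
  | base =>
    intro m γ hγ h
    have h1 : Hor False (m + 1) (rep 1 2 γ) 4 1 0 := by
      rcases Nat.eq_zero_or_pos m with rfl | hm
      · exact ext_zero _ _ _ _
      · exact ext_succ hm hγ (h.resolve_left hm.ne') le_rfl _ _ _
    have h2 := xmain_rep (M := 1) le_rfl hγ
    exact st_all (by omega) h2 (pc_train (by omega) h2 (by omega) (by omega) (Or.inr le_rfl) h1)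
      (by omega) 2
  | succ g hg ih =>
    intro m γ hγ h
    have h0 : ∀ μ, g ≤ γ μ := fun μ => Nat.le_of_succ_le (hγ μ)
    have h1 : ∀ M, 0 < M → T (M + m) (rep M g γ) := by
      intro M hM
      induction M, hM using Nat.le_induction with
      | base =>
        rw [Nat.add_comm]
        exact ih m γ h0 h
      | succ M _ ih' =>
        have := ih (M + m) (rep M g γ) (xmain_rep le_rfl h0) (Or.inr ih')
        have e : rep 1 g (rep M g γ) = rep (M + 1) g γ := by
          funext μ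
          simp only [rep]
          split_ifs <;> first | rfl | omega | exact congrArg γ (by omega)
        rwa [e, Nat.add_right_comm] at this
    have h2 := xmain_rep (M := 1) (g := g + 1) (by omega : 2 ≤ g + 1)
      fun μ => hg.trans (h0 μ)
    have h3 := st_all (by omega) h2
      (pc_train (by omega) h2 le_rfl (by omega) (Or.inl trivial) (hrev hγ h1)) (by omega) (g + 1)
    rwa [← two_mul] at h3

/-- the girth Ramsey theorem for linear ordered hypergraphs -/
theorem gr_hyper {K : Type} [Finite K] [LinearOrder K] (F : HG (fun _ : K => ())) (hO : F.Ord)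
    (hL : F.Lin) (κ : Type) [Finite κ] [Nonempty κ] (w : ℕ) :
    ∃ (H : HG (fun _ : K => ())) (P : Type) (_ : Finite P) (φ : P → Emb F H),
      Ram (fun p => (φ p).e) κ ∧ H.Lin ∧ GoodL φ ⊥ ⊥ Set.univ w w := by
  let s : ℕ → Setoid F.E := fun μ => Nat.casesOn μ ⊥ fun _ => ⊤
  obtain ⟨H, t, P, _, φ, h1, h2, h3⟩ := main_step (max w 2) (le_max_right _ _) 0
    (fun _ => max w 2) (fun _ => le_rfl) (Or.inl rfl) K Unit _ F s (fun _ => Set.univ)
    ⟨⟨fun _ _ h => h, fun _ _ _ _ => trivial, fun μ h => by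
      obtain ⟨ν, rfl⟩ := Nat.exists_eq_add_of_le' h
      exact fun _ _ => trivial, fun _ _ _ _ _ _ _ _ => trivial⟩, hL,
      fun μ h h' => absurd h' (by omega)⟩ hO κ
  have e1 : t 0 = ⊥ := Setoid.ext fun x y => ⟨h2.tr.zero x y, fun h => h ▸ (t 0).refl x⟩
  have e2 : Hi (fun _ => (Set.univ : Set Unit)) (0 + 1) 0 = Set.univ :=
    Set.eq_univ_of_forall fun _ => ⟨0, le_rfl, Nat.one_pos, trivial⟩
  rw [e1, e2] at h3
  obtain ⟨hc, h4, h5⟩ := h3
  have hw : w ≤ 2 * max w 2 := by omega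
  exact ⟨H, P, inferInstance, φ, h1, h2.lin, hc, h4, h5.mono hw hw⟩

end Pool.Agent.MP_1c0fc2_co.GR
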