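import Pool.Agent.MP_1c0fc2_co.GR.AmalE

open Function

namespace Pool.Agent.MP_1c0fc2_co.GR

variable {K I : Type} {cl : K → I}

theorem xpc_mono {P A B κ : Type} [Nonempty κ] {m : P → A → B} (h : Ram m κ) (χ : B → κ) :
    ∃ p c, ∀ f, χ (m p f) = c := by
  obtain ⟨p, hp⟩ := h χ
  rcases isEmpty_or_nonempty A with hA | ⟨⟨f₀⟩⟩
  · exact ⟨p, Classical.arbitrary κ, fun f => hA.elim f⟩
  · exact ⟨p, _, fun f => hp f f₀⟩

/-- the partite construction -/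
theorem pc [Finite K] {F H : HG cl} {R : Type} [Finite R] (h : R → Hom F H) (κ : Type)
    [Nonempty κ] (hR : Ram (fun r => (h r).e) κ) (Inv : Set H.E → Pic h → Prop)
    (h0 : Inv ∅ (pic0 h))
    (hs : ∀ (D : Set H.E) (e : H.E) (Y : Pic h), e ∉ D → Inv D Y →
      ∃ (G : HG (id : K → K)) (Q : Type) (_ : Finite Q) (q : Q → Emb (Con Y.ψ e) G),
        Ram (fun a => (q a).e) κ ∧ ∀ A : Amal Y.ψ e q, Inv (insert e D) (A.pic Y)) :
    ∃ Y : Pic h, Inv Set.univ Y ∧ Ram (fun p => (Y.φ p).e) κ := by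
  classical
  have key : ∀ D : Set H.E, D.Finite → ∃ Y : Pic h, Inv D Y ∧ ∀ χ : Y.X.E → κ, ∃ γ : H.E → κ,
      ∀ r, ∃ p, Y.ov p = r ∧ ∀ f, (h r).e f ∈ D → χ ((Y.φ p).e f) = γ ((h r).e f) := by
    intro D hD
    induction D, hD using Set.Finite.induction_on with
    | empty =>
      exact ⟨pic0 h, h0, fun _ => ⟨fun _ => Classical.arbitrary κ, fun r =>
        ⟨r, rfl, fun _ hf => hf.elim⟩⟩⟩
    | @insert e D he _ ih =>
      obtain ⟨Y, hY, hχ⟩ := ih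
      obtain ⟨G, Q, _, q, hq, hA⟩ := hs D e Y he hY
      obtain ⟨A⟩ := amal_exists Y.ψ e q
      refine ⟨A.pic Y, hA A, fun χ => ?_⟩
      obtain ⟨a, c, hc⟩ := xpc_mono hq fun y => χ (A.j.e y)
      obtain ⟨γ, hγ⟩ := hχ fun x => χ ((A.ι a).e x)
      refine ⟨Function.update γ e c, fun r => ?_⟩
      obtain ⟨p, hp, hf⟩ := hγ r
      refine ⟨(a, p), hp, fun f hfD => ?_⟩
      change χ ((A.ι a).e ((Y.φ p).e f)) = _
      by_cases hfe : (h r).e f = e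
      · have h1 : Y.ψ.e ((Y.φ p).e f) = e := by rw [Y.ov_e, hp, hfe]
        rw [hfe, Function.update_self]
        exact (congrArg χ (A.comm_e a ⟨_, h1⟩)).trans (hc _)
      · rw [Function.update_of_ne hfe]
        exact hf f (hfD.resolve_left hfe)
  obtain ⟨Y, hY, hχ⟩ := key Set.univ Set.finite_univ
  refine ⟨Y, hY, fun χ => ?_⟩
  obtain ⟨γ, hγ⟩ := hχ χ
  obtain ⟨r, hr⟩ := hR γ
  obtain ⟨p, -, hp⟩ := hγ r
  exact ⟨p, fun f f' => (hp f trivial).trans ((hr f f').trans (hp f' trivial).symm)⟩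

end Pool.Agent.MP_1c0fc2_co.GR
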