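import Pool.Agent.MP_1c0fc2_co.GR.Defs
import Pool.Agent.MP_1c0fc2_co.ESuper

open Function

namespace Pool.Agent.MP_1c0fc2_co.GR

variable {K I : Type} {cl : K → I}

/-- Ramsey's theorem as a system of homomorphisms -/
theorem vert [Finite K] [Finite I] [LinearOrder K] (F : HG cl) (hF : F.Ord) (κ : Type)
    [Finite κ] : ∃ (H : HG cl) (R : Type) (_ : Finite R) (h : R → Hom F H),
      Ram (fun r => (h r).e) κ := by
  classical
  obtain ⟨ρ, hρ⟩ := hF
  obtain ⟨N, hN⟩ : ∃ N, ∀ v, ρ v < N := by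
    obtain ⟨N, hN⟩ := (Set.finite_range ρ).bddAbove
    exact ⟨N + 1, fun v => Nat.lt_succ_of_le (hN ⟨v, rfl⟩)⟩
  let _ : Fintype κ := Fintype.ofFinite κ
  let _ : Fintype K := Fintype.ofFinite K
  obtain ⟨M, hM⟩ := su_ramsey (Option κ) (Fintype.card K) N
  let H : HG cl :=
    { V := Fin M × I
      E := {s : K → Fin M // StrictMono s}
      vc := Prod.snd
      inc := fun s k => (s.1 k, cl k)
      inc_inj := fun s _ _ h => s.2.injective (congrArg Prod.fst h)
      vc_inc := fun _ _ => rfl }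
  let h : {θ : Fin N → Fin M // StrictMono θ} → Hom F H := fun θ =>
    { v := fun x => (θ.1 ⟨ρ x, hN x⟩, F.vc x)
      e := fun f => ⟨fun k => θ.1 ⟨ρ (F.inc f k), hN _⟩, fun _ _ hk => θ.2 (hρ f hk)⟩
      vc_v := fun _ => rfl
      inc_e := fun f k => Prod.ext rfl (F.vc_inc f k).symm }
  refine ⟨H, _, inferInstance, h, fun χ => ?_⟩
  let χ' : Finset (Fin M) → Option κ := fun T =>
    if hT : ∃ s : H.E, Finset.univ.image s.1 = T then some (χ hT.choose) else none
  have key : ∀ s : H.E, χ' (Finset.univ.image s.1) = some (χ s) := fun s => by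
    have hT : ∃ s' : H.E, Finset.univ.image s'.1 = Finset.univ.image s.1 := ⟨s, rfl⟩
    have h1 : hT.choose = s := Subtype.ext ((hT.choose.2.range_inj s.2).1 (by
      have h2 := congrArg (fun T : Finset (Fin M) => (T : Set (Fin M))) hT.choose_spec
      simpa only [Finset.coe_image, Finset.coe_univ, Set.image_univ] using h2))
    simp only [χ', dif_pos hT, h1]
  obtain ⟨B, -, hB, c, hc⟩ := hM (Fin M) χ' Finset.univ (by simp)
  let θ : {θ : Fin N → Fin M // StrictMono θ} :=
    ⟨B.orderEmbOfFin hB, (B.orderEmbOfFin hB).strictMono⟩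
  have h2 : ∀ f, some (χ ((h θ).e f)) = c := fun f => by
    rw [← key]
    refine hc _ (Finset.image_subset_iff.2 fun k _ => B.orderEmbOfFin_mem hB _) ?_
    rw [Finset.card_image_of_injective _ ((h θ).e f).2.injective, Finset.card_univ]
  exact ⟨θ, fun f f' => Option.some_injective _ ((h2 f).trans (h2 f').symm)⟩

end Pool.Agent.MP_1c0fc2_co.GR
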