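import Pool.Agent.MP_1c0fc2_co.GR.PC
import Pool.Agent.MP_1c0fc2_co.GR.HJ
import Pool.Agent.MP_1c0fc2_co.GR.Vert

open Function

namespace Pool.Agent.MP_1c0fc2_co.GR

variable {K I : Type} {cl : K → I}

theorem xphi_on {F H : HG cl} (φ : Emb F H) {u : F.V} {f : F.E} (h : F.On u f) :
    H.On (φ.v u) (φ.e f) := by
  obtain ⟨k, hk⟩ := h
  exact ⟨k, by rw [φ.inc_e, hk]⟩

theorem xphi_pull {F H : HG cl} (φ : Emb F H) {z : H.V} {f : F.E} (h : H.On z (φ.e f)) :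
    ∃ u, φ.v u = z ∧ F.On u f := by
  obtain ⟨k, hk⟩ := h
  exact ⟨F.inc f k, by rw [← φ.inc_e, hk], k, rfl⟩

theorem xphi_back {F H : HG cl} (φ : Emb F H) {u : F.V} {f : F.E} (h : H.On (φ.v u) (φ.e f)) :
    F.On u f := by
  obtain ⟨u', h1, h2⟩ := xphi_pull φ h
  rwa [φ.v_inj h1] at h2

theorem xphi_lin {F H : HG cl} (φ : Emb F H) (h : H.Lin) : F.Lin :=
  fun _ _ _ _ huv h1 h2 h3 h4 => φ.e_inj (h _ _ _ _ (φ.v_inj.ne huv) (xphi_on φ h1)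
    (xphi_on φ h2) (xphi_on φ h3) (xphi_on φ h4))

theorem xphi_same {F H : HG cl} (φ : Emb F H) (hF : F.Lin) {f f' : F.E} {u v : H.V} (huv : u ≠ v)
    (h1 : H.On u (φ.e f)) (h2 : H.On v (φ.e f)) (h3 : H.On u (φ.e f')) (h4 : H.On v (φ.e f')) :
    φ.e f = φ.e f' := by
  obtain ⟨u', rfl, h5⟩ := xphi_pull φ h1
  obtain ⟨v', rfl, h6⟩ := xphi_pull φ h2
  rw [hF f f' u' v' (fun h => huv (congrArg φ.v h)) h5 h6 (xphi_back φ h3) (xphi_back φ h4)]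

theorem xphi_str {F H : HG cl} (φ : Emb F H) (hφ : φ.Str) (hF : F.Lin) {f : F.E} {x : H.E}
    {u v : H.V} (huv : u ≠ v) (h1 : H.On u (φ.e f)) (h2 : H.On v (φ.e f)) (h3 : H.On u x)
    (h4 : H.On v x) : φ.e f = x := by
  obtain ⟨u', hu, -⟩ := xphi_pull φ h1
  obtain ⟨v', hv, -⟩ := xphi_pull φ h2
  obtain ⟨f', rfl⟩ := hφ x u' v' (fun h => huv (by rw [← hu, ← hv, h])) (hu ▸ h3) (hv ▸ h4)
  exact xphi_same φ hF huv h1 h2 h3 h4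

theorem Emb.Str.comp {F G H : HG cl} {ψ : Emb G H} {φ : Emb F G} (hψ : ψ.Str) (hφ : φ.Str) :
    (ψ.comp φ).Str := by
  intro x u w huw h1 h2
  obtain ⟨g, rfl⟩ := hψ x (φ.v u) (φ.v w) (φ.v_inj.ne huw) h1 h2
  obtain ⟨f, rfl⟩ := hφ g u w huw (xphi_back ψ h1) (xphi_back ψ h2)
  exact ⟨f, rfl⟩

theorem con_lin [Finite K] {X H : HG cl} (ψ : Hom X H) (e : H.E) (hX : X.Lin) :
    (Con ψ e).Lin :=
  xphi_lin (F := (Con ψ e).up cl) (conEmb ψ e) hX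

theorem xphi_j [Finite K] {X H : HG cl} {ψ : Hom X H} {e : H.E} {G : HG (id : K → K)}
    {Q : Type} {q : Q → Emb (Con ψ e) G} (A : Amal ψ e q) (hs : ∀ a, (q a).Str) (a : Q)
    (y : G.E) {u w : X.V} (huw : u ≠ w) (h1 : A.Z.On ((A.ι a).v u) (A.j.e y))
    (h2 : A.Z.On ((A.ι a).v w) (A.j.e y)) : ∃ f, (A.ι a).e f = A.j.e y := by
  obtain ⟨g1, hg1, -⟩ := xphi_pull A.j h1
  obtain ⟨g2, hg2, -⟩ := xphi_pull A.j h2
  obtain ⟨u0, rfl⟩ := A.shared_v a u g1 hg1.symm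
  obtain ⟨w0, rfl⟩ := A.shared_v a w g2 hg2.symm
  rw [A.comm_v] at h1 h2
  obtain ⟨f0, rfl⟩ := hs a y u0 w0 (fun h => huw (congrArg _ h)) (xphi_back A.j h1)
    (xphi_back A.j h2)
  exact ⟨_, A.comm_e a f0⟩

theorem Amal.str_lin [Finite K] {X H : HG cl} {ψ : Hom X H} {e : H.E} {G : HG (id : K → K)}
    {Q : Type} {q : Q → Emb (Con ψ e) G} (A : Amal ψ e q) (hX : X.Lin) (hG : G.Lin)
    (hs : ∀ a, (q a).Str)
    (h2 : ∀ a b u v u' v', a ≠ b → (Con ψ e).vc u ≠ (Con ψ e).vc v → (q a).v u = (q b).v u' →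
      (q a).v v = (q b).v v' → ∃ y, G.On ((q a).v u) y ∧ G.On ((q a).v v) y) :
    (∀ a, (A.ι a).Str) ∧ A.Z.Lin := by
  have str : ∀ a, (A.ι a).Str := by
    intro a x u w huw hu hw
    rcases A.cover_e x with ⟨y, rfl⟩ | ⟨b, f', rfl⟩
    · exact xphi_j A hs a y huw hu hw
    by_cases hab : a = b
    · exact ⟨f', by rw [hab]⟩
    by_cases he : ψ.e f' = e
    · obtain ⟨y, hy⟩ := A.over_e ((A.ι_e b f').trans he)
      rw [← hy] at hu hw ⊢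
      exact xphi_j A hs a y huw hu hw
    exfalso
    obtain ⟨u', hu1, hu2⟩ := xphi_pull (A.ι b) hu
    obtain ⟨w', hw1, hw2⟩ := xphi_pull (A.ι b) hw
    obtain ⟨u0, rfl⟩ := (A.sep_v a b u u' hu1.symm).resolve_left hab
    obtain ⟨w0, rfl⟩ := (A.sep_v a b w w' hw1.symm).resolve_left hab
    obtain ⟨u1, rfl⟩ := (A.sep_v b a u' _ hu1).resolve_left (Ne.symm hab)
    obtain ⟨w1, rfl⟩ := (A.sep_v b a w' _ hw1).resolve_left (Ne.symm hab)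
    have hne : (A.ι a).v ((conEmb ψ e).v u0) ≠ (A.ι a).v ((conEmb ψ e).v w0) :=
      (A.ι a).v_inj.ne huw
    have e1 : (q a).v u0 = (q b).v u1 :=
      A.j.v_inj ((A.comm_v a u0).symm.trans (hu1.symm.trans (A.comm_v b u1)))
    have e2 : (q a).v w0 = (q b).v w1 :=
      A.j.v_inj ((A.comm_v a w0).symm.trans (hw1.symm.trans (A.comm_v b w1)))
    have hvc : (Con ψ e).vc u0 ≠ (Con ψ e).vc w0 := by
      intro h
      obtain ⟨k, hk⟩ := hu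
      obtain ⟨k', hk'⟩ := hw
      have h3 : H.inc (A.ψ'.e ((A.ι b).e f')) k = H.inc (A.ψ'.e ((A.ι b).e f')) k' := by
        rw [A.ψ'.inc_e, A.ψ'.inc_e, hk, hk', A.comm_v, A.comm_v, A.j_v, A.j_v, (q a).vc_v,
          (q a).vc_v, h]
      exact hne (by rw [← hk, ← hk', H.inc_inj _ h3])
    obtain ⟨y, hy1, hy2⟩ := h2 a b u0 w0 u1 w1 hab hvc e1 e2
    rw [e1] at hy1
    rw [e2] at hy2
    have hn1 : u1 ≠ w1 := fun h => hne (by rw [← hu1, ← hw1, h])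
    obtain ⟨f0, rfl⟩ := hs b y u1 w1 hn1 hy1 hy2
    have h4 := hX f' ((conEmb ψ e).e f0) _ _ ((conEmb ψ e).v_inj.ne hn1) hu2 hw2
      (xphi_on (conEmb ψ e) (xphi_back (q b) hy1)) (xphi_on (conEmb ψ e) (xphi_back (q b) hy2))
    exact he (h4 ▸ f0.2)
  refine ⟨str, fun x x' u v huv h1 h3 h4 h5 => ?_⟩
  rcases A.cover_e x with ⟨y, rfl⟩ | ⟨a, f, rfl⟩
  · rcases A.cover_e x' with ⟨y', rfl⟩ | ⟨a, f, rfl⟩
    · exact xphi_same A.j hG huv h1 h3 h4 h5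
    · exact (xphi_str (A.ι a) (str a) hX huv h4 h5 h1 h3).symm
  · exact xphi_str (A.ι a) (str a) hX huv h1 h3 h4 h5

theorem xphi_mul_str {R : Type} [Finite R] (F : HG cl) (r : R) : (mulEmb F r).Str := by
  rintro ⟨r', f⟩ u w - ⟨k, hk⟩ -
  exact ⟨f, Prod.ext (congrArg Prod.fst hk).symm rfl⟩

theorem xphi_mul_lin {R : Type} [Finite R] {F : HG cl} (hL : F.Lin) : (F.mul R).Lin :=
  fun x _ _ _ huv h1 h2 h3 h4 =>
    xphi_str (mulEmb F x.1) (xphi_mul_str F x.1) hL (f := x.2) huv h1 h2 h3 h4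

/-- linear host with strongly induced copies -/
theorem phi [Finite K] [Finite I] [LinearOrder K] (F : HG cl) (hF : F.Ord) (hL : F.Lin)
    (κ : Type) [Finite κ] [Nonempty κ] :
    ∃ (H : HG cl) (R : Type) (_ : Finite R) (h : R → Emb F H),
      Ram (fun r => (h r).e) κ ∧ H.Lin ∧ ∀ r, (h r).Str := by
  obtain ⟨H, R, _, h, hR⟩ := vert F hF κ
  obtain ⟨Y, ⟨h1, h2⟩, h3⟩ := pc h κ hR (fun _ Y => Y.X.Lin ∧ ∀ p, (Y.φ p).Str)
    ⟨xphi_mul_lin hL, xphi_mul_str F⟩ (fun _ e Y _ hY => by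
      obtain ⟨G, Q, _, q, g1, g2, -⟩ := hj (Con Y.ψ e) κ
      obtain ⟨g3, g4, g5⟩ := g2 (con_lin Y.ψ e hY.1)
      refine ⟨G, Q, ‹_›, q, g1, fun A => ?_⟩
      obtain ⟨g6, g7⟩ := A.str_lin hY.1 g3 g4 g5
      exact ⟨g7, fun p => (g6 p.1).comp (hY.2 p.2)⟩)
  exact ⟨Y.X, Y.P, inferInstance, Y.φ, h3, h1, h2⟩

end Pool.Agent.MP_1c0fc2_co.GR
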