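import Pool.Agent.MP_1c0fc2_co.GR.AmalE
import Pool.Agent.MP_1c0fc2_co.GR.TrainA

open Function

namespace Pool.Agent.MP_1c0fc2_co.GR

variable {K I : Type} [Finite K] {cl : K → I} {X H : HG cl} {ψ : Hom X H} {e : H.E}
  {G : HG (id : K → K)} {Q : Type} {q : Q → Emb (Con ψ e) G} {A : Amal ψ e q}
  {s : ℕ → Setoid X.E} {u : ℕ → Setoid G.E} {t : ℕ → Setoid A.Z.E} {m : ℕ}

omit [Finite K] in
theorem xtrelg_on {F F' : HG cl} (φ : Emb F F') {v : F'.V} {f : F.E} (h : F'.On v (φ.e f)) :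
    ∃ w, φ.v w = v ∧ F.On w f := by
  obtain ⟨k, hk⟩ := h
  exact ⟨F.inc f k, (φ.inc_e f k).symm.trans hk, k, rfl⟩

theorem TRel.gamal (h : TRel A s u t m) {μ : ℕ} (hμ : μ < m)
    (hq : ∀ a, Compat ((q a).up cl) (conS ψ e (s μ)) (u μ)) (D : Set I) :
    GAmal ((conEmb ψ e).hg (con_compat ψ e (s μ)) D) (fun a => ((q a).up cl).hg (hq a) D)
      (fun a => (A.ι a).hg (h.ι_c a μ) D) (A.j.hg (h.j_c μ) D) := by
  have bagv : ∀ (x : (hg X (s μ) D).V) (w : (Con ψ e).V), (conEmb ψ e).v w = x.1 →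
      ((conEmb ψ e).hg (con_compat ψ e (s μ)) D).Bag (.inl x) := fun x w hw =>
    ⟨.inl ⟨w, by rw [← (conEmb ψ e).vc_v w, hw]; exact x.2⟩, congrArg Sum.inl (Subtype.ext hw)⟩
  have bage : ∀ f f0 : X.E, ψ.e f0 = e → s μ f f0 →
      ((conEmb ψ e).hg (con_compat ψ e (s μ)) D).Bag (.inr (Quotient.mk (s μ) f)) :=
    fun f f0 h0 h1 => ⟨.inr (Quotient.mk _ ⟨f0, h0⟩),
      congrArg Sum.inr (Quotient.sound ((s μ).symm h1))⟩
  refine ⟨?_, ?_, ?_, ?_, ?_⟩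
  · rintro a (x | c)
    · exact congrArg Sum.inl (Subtype.ext (A.comm_v a x.1))
    · induction c using Quotient.inductionOn with
      | h f => exact congrArg Sum.inr (congrArg (Quotient.mk _) (A.comm_e a f))
  · rintro (z | c)
    · rcases A.cover_v z.1 with ⟨w, hw⟩ | ⟨a, x, hx⟩
      · exact .inl ⟨.inl ⟨w, by rw [← A.j.vc_v w, hw]; exact z.2⟩,
          congrArg Sum.inl (Subtype.ext hw)⟩
      · exact .inr ⟨a, .inl ⟨x, by rw [← (A.ι a).vc_v x, hx]; exact z.2⟩,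
          congrArg Sum.inl (Subtype.ext hx)⟩
    · induction c using Quotient.inductionOn with
      | h z =>
        rcases A.cover_e z with ⟨y, hy⟩ | ⟨a, f, hf⟩
        · exact .inl ⟨.inr (Quotient.mk _ y), congrArg Sum.inr (congrArg (Quotient.mk _) hy)⟩
        · exact .inr ⟨a, .inr (Quotient.mk _ f), congrArg Sum.inr (congrArg (Quotient.mk _) hf)⟩
  · rintro a (x | c) (y | d) hxy
    · obtain ⟨w, hw⟩ := A.shared_v a x.1 y.1 (congrArg Subtype.val (Sum.inl.inj hxy))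
      exact bagv x w hw
    · exact absurd hxy Sum.inl_ne_inr
    · exact absurd hxy Sum.inr_ne_inl
    · induction c using Quotient.inductionOn with
      | h f =>
        induction d using Quotient.inductionOn with
        | h y =>
          obtain ⟨f0, h0, h1⟩ := h.tie μ hμ a f y (Quotient.exact (Sum.inr.inj hxy))
          exact bage f f0 h0 h1
  · rintro a b (x | c) (y | d) hxy
    · refine (A.sep_v a b x.1 y.1 (congrArg Subtype.val (Sum.inl.inj hxy))).imp id ?_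
      rintro ⟨w, hw⟩
      exact bagv x w hw
    · exact absurd hxy Sum.inl_ne_inr
    · exact absurd hxy Sum.inr_ne_inl
    · induction c using Quotient.inductionOn with
      | h f =>
        induction d using Quotient.inductionOn with
        | h f' =>
          refine (h.sep μ hμ a b f f' (Quotient.exact (Sum.inr.inj hxy))).imp id ?_
          rintro ⟨f0, h0, h1⟩
          exact bage f f0 h0 h1
  · rintro v _ ⟨z, rfl, hz⟩
    rcases A.cover_e z with ⟨y, rfl⟩ | ⟨a, f, rfl⟩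
    · obtain ⟨w, hw, hwy⟩ := xtrelg_on A.j hz
      exact .inl ⟨⟨w, by rw [← A.j.vc_v w, hw]; exact v.2⟩, Quotient.mk _ y, Subtype.ext hw, rfl,
        y, rfl, hwy⟩
    · obtain ⟨w, hw, hwy⟩ := xtrelg_on (A.ι a) hz
      exact .inr ⟨a, ⟨w, by rw [← (A.ι a).vc_v w, hw]; exact v.2⟩, Quotient.mk _ f,
        Subtype.ext hw, rfl, f, rfl, hwy⟩

theorem xtrelg_i (h : TRel A s u t m) {B : ℕ → Set I} (hX : IsTrain X s B m) {μ : ℕ} {a : Q}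
    {f f' : X.E} {v : A.Z.V} (h1 : A.Z.On v ((A.ι a).e f)) (h2 : A.Z.On v ((A.ι a).e f'))
    (h3 : ¬ t μ ((A.ι a).e f) ((A.ι a).e f')) (h4 : t (μ + 1) ((A.ι a).e f) ((A.ι a).e f')) :
    A.Z.vc v ∈ B μ := by
  obtain ⟨w, rfl, hw⟩ := xtrelg_on (A.ι a) h1
  rw [(A.ι a).vc_v]
  exact hX.cond μ f f' w hw ((A.ι a).on.1 h2) (fun h5 => h3 ((h.ι_c a μ f f').2 h5))
    ((h.ι_c a _ f f').1 h4)

theorem xtrelg_j (h : TRel A s u t m) {B : ℕ → Set I}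
    (hG : IsTrain G u (fun μ => cl ⁻¹' B μ) m) {μ : ℕ}
    {y y' : G.E} {v : A.Z.V} (h1 : A.Z.On v (A.j.e y)) (h2 : A.Z.On v (A.j.e y'))
    (h3 : ¬ t μ (A.j.e y) (A.j.e y')) (h4 : t (μ + 1) (A.j.e y) (A.j.e y')) :
    A.Z.vc v ∈ B μ := by
  obtain ⟨w, rfl, hw⟩ := xtrelg_on A.j h1
  rw [A.j.vc_v]
  exact hG.cond μ y y' w hw (A.j.on.1 h2) (fun h5 => h3 ((h.j_c μ y y').2 h5))
    ((h.j_c _ y y').1 h4)

theorem xtrelg_z (h : TRel A s u t m) {B : ℕ → Set I} (hX : IsTrain X s B m)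
    (hq : ∀ μ, 1 ≤ μ → μ < m →
      ∃ w n, GoodL q (conS ψ e (s μ)) (u μ) (Hi (fun μ => cl ⁻¹' B μ) m μ) w n)
    {μ : ℕ} {a : Q} {f : X.E} {v : A.Z.V} {x' : A.Z.E} (h1 : A.Z.On v ((A.ι a).e f))
    (h2 : A.Z.On v x') (h4 : t (μ + 1) ((A.ι a).e f) x')
    (hx' : (∃ y, A.j.e y = x') ∨ ∃ b f', a ≠ b ∧ (A.ι b).e f' = x') :
    ∃ f2 : (Con ψ e).E, A.Z.On v ((A.ι a).e f2.1) ∧ s (μ + 1) f f2.1 := by
  obtain ⟨v0, rfl, hv0⟩ := xtrelg_on (A.ι a) h1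
  obtain ⟨v1, rfl⟩ : ∃ v1, (conEmb ψ e).v v1 = v0 := by
    rcases hx' with ⟨y, rfl⟩ | ⟨b, f', hab, rfl⟩
    · obtain ⟨w, hw, -⟩ := xtrelg_on A.j h2
      exact A.shared_v a v0 w hw.symm
    · obtain ⟨w, hw, -⟩ := xtrelg_on (A.ι b) h2
      exact (A.sep_v a b v0 w hw.symm).resolve_left hab
  have hon : ∀ f2 : (Con ψ e).E, (Con ψ e).On v1 f2 → X.On ((conEmb ψ e).v v1) f2.1 :=
    fun f2 h2 => ((conEmb ψ e).on (e := f2)).2 h2
  obtain ⟨f1, hf1⟩ := con_noIso ψ e v1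
  by_cases hm : m ≤ μ + 1
  · exact ⟨f1, (A.ι a).on.2 (hon f1 hf1), hX.top _ hm _ _⟩
  by_cases hv : X.vc ((conEmb ψ e).v v1) ∈ Hi B m (μ + 1)
  swap
  · exact ⟨f1, (A.ι a).on.2 (hon f1 hf1), hX.low hv0 (hon f1 hf1) hv⟩
  have hm' : μ + 1 < m := not_le.1 hm
  obtain ⟨_, _, hc, hb, -⟩ := hq (μ + 1) (Nat.le_add_left 1 μ) hm'
  have hD : ∀ w : (Con ψ e).V, X.vc ((conEmb ψ e).v w) ∈ Hi B m (μ + 1) →
      (Con ψ e).vc w ∈ Hi (fun μ => cl ⁻¹' B μ) m (μ + 1) := fun w hw => by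
    rw [hi_preimage]
    rw [(conEmb ψ e).vc_v w] at hw
    exact hw
  obtain ⟨f0, h0, hf0⟩ : ∃ f0, ψ.e f0 = e ∧ s (μ + 1) f f0 := by
    rcases hx' with ⟨y, rfl⟩ | ⟨b, f', hab, rfl⟩
    · exact h.tie _ hm' a f y h4
    · exact (h.sep _ hm' a b f f' h4).resolve_left hab
  have ht0 : t (μ + 1) x' (A.j.e ((q a).e ⟨f0, h0⟩)) := by
    rw [← A.comm_e a ⟨f0, h0⟩]
    exact (t _).trans ((t _).symm h4) ((h.ι_c a _ f f0).2 hf0)
  have hM : (hg G (u (μ + 1)) (Hi (fun μ => cl ⁻¹' B μ) m (μ + 1))).M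
      (((q a).hg (hc a) _).v ⟨v1, hD v1 hv⟩) (((q a).hg (hc a) _).c (Quotient.mk _ ⟨f0, h0⟩)) := by
    rcases hx' with ⟨y, rfl⟩ | ⟨b, f', hab, rfl⟩
    · rw [A.comm_v a v1] at h2
      exact ⟨y, Quotient.sound ((h.j_c _ _ _).1 ht0), A.j.on.1 h2⟩
    · obtain ⟨w, hw, -⟩ := xtrelg_on (A.ι b) h2
      obtain ⟨w1, rfl⟩ := (A.sep_v b a w _ hw).resolve_left hab.symm
      obtain ⟨g0, k0, hg0⟩ := (h.sep _ hm' b a f' f ((t _).symm h4)).resolve_left hab.symm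
      have e1 : (q b).v w1 = (q a).v v1 :=
        A.j.v_inj ((A.comm_v b w1).symm.trans (hw.trans (A.comm_v a v1)))
      have e2 : u (μ + 1) ((q b).e ⟨g0, k0⟩) ((q a).e ⟨f0, h0⟩) := by
        refine (h.j_c _ _ _).1 ((t _).trans ?_ ht0)
        rw [← A.comm_e b ⟨g0, k0⟩]
        exact (h.ι_c b _ g0 f').2 ((s _).symm hg0)
      have e3 : X.vc ((conEmb ψ e).v w1) ∈ Hi B m (μ + 1) := by
        rw [← (A.ι b).vc_v, hw, (A.ι a).vc_v]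
        exact hv
      obtain ⟨d, hd1, hd2⟩ := hb.b2 a b
        (.inl (((q a).hg (hc a) _).v ⟨v1, hD v1 hv⟩))
        (.inr (((q a).hg (hc a) _).c (Quotient.mk _ ⟨f0, h0⟩))) hab Sum.inl_ne_inr
        ⟨.inl ⟨v1, hD v1 hv⟩, rfl⟩ ⟨.inr (Quotient.mk _ ⟨f0, h0⟩), rfl⟩
        ⟨.inl ⟨w1, hD w1 e3⟩, congrArg Sum.inl (Subtype.ext e1)⟩
        ⟨.inr (Quotient.mk _ ⟨g0, k0⟩), congrArg Sum.inr (Quotient.sound e2)⟩
      obtain rfl : _ = d := hd2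
      exact hd1
  obtain ⟨f2, e2, hf2⟩ := hb.ind a _ _ hM
  have e3 : conS ψ e (s (μ + 1)) f2 ⟨f0, h0⟩ := Quotient.exact e2
  exact ⟨f2, (A.ι a).on.2 (hon f2 hf2), (s _).trans hf0 ((s _).symm e3)⟩

theorem TRel.isTrain (h : TRel A s u t m) {B : ℕ → Set I} (hX : IsTrain X s B m)
    (hG : IsTrain G u (fun μ => cl ⁻¹' B μ) m)
    (hq : ∀ μ, 1 ≤ μ → μ < m →
      ∃ w n, GoodL q (conS ψ e (s μ)) (u μ) (Hi (fun μ => cl ⁻¹' B μ) m μ) w n) :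
    IsTrain A.Z t B m := by
  refine ⟨h.zero, h.mono, h.top, fun μ x x' v h1 h2 h3 h4 => ?_⟩
  have mixed : ∀ a f y, A.Z.On v ((A.ι a).e f) → A.Z.On v (A.j.e y) →
      ¬ t μ ((A.ι a).e f) (A.j.e y) → t (μ + 1) ((A.ι a).e f) (A.j.e y) → A.Z.vc v ∈ B μ := by
    intro a f y h1 h2 h3 h4
    obtain ⟨f2, h5, h6⟩ := xtrelg_z h hX hq h1 h2 h4 (.inl ⟨y, rfl⟩)
    have h7 := (h.ι_c a _ f f2.1).2 h6
    by_cases h8 : t μ ((A.ι a).e f) ((A.ι a).e f2.1)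
    · have e : (A.ι a).e f2.1 = A.j.e ((q a).e f2) := A.comm_e a f2
      rw [e] at h5 h7 h8
      exact xtrelg_j h hG h5 h2 (fun h9 => h3 ((t _).trans h8 h9))
        ((t _).trans ((t _).symm h7) h4)
    · exact xtrelg_i h hX h1 h5 h8 h7
  rcases A.cover_e x with ⟨y, rfl⟩ | ⟨a, f, rfl⟩
  · rcases A.cover_e x' with ⟨y', rfl⟩ | ⟨b, f', rfl⟩
    · exact xtrelg_j h hG h1 h2 h3 h4
    · exact mixed b f' y h2 h1 (fun h5 => h3 ((t _).symm h5)) ((t _).symm h4)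
  · rcases A.cover_e x' with ⟨y', rfl⟩ | ⟨b, f', rfl⟩
    · exact mixed a f y' h1 h2 h3 h4
    · by_cases hab : a = b
      · subst hab
        exact xtrelg_i h hX h1 h2 h3 h4
      · obtain ⟨f2, h5, h6⟩ := xtrelg_z h hX hq h1 h2 h4 (.inr ⟨b, f', hab, rfl⟩)
        have h7 := (h.ι_c a _ f f2.1).2 h6
        by_cases h8 : t μ ((A.ι a).e f) ((A.ι a).e f2.1)
        · have e : (A.ι a).e f2.1 = A.j.e ((q a).e f2) := A.comm_e a f2
          rw [e] at h5 h7 h8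
          exact mixed b f' _ h2 h5 (fun h9 => h3 ((t _).trans h8 ((t _).symm h9)))
            ((t _).trans ((t _).symm h4) h7)
        · exact xtrelg_i h hX h1 h5 h8 h7

end Pool.Agent.MP_1c0fc2_co.GR
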