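import Pool.Agent.MP_1c0fc2_co.GR.RevA
import Pool.Agent.MP_1c0fc2_co.GR.TRelG

open Function

namespace Pool.Agent.MP_1c0fc2_co.GR

variable {K I : Type} [Finite K] {cl : K → I} {X H : HG cl} {ψ : Hom X H} {e : H.E}
  {G : HG (id : K → K)} {Q : Type} {q : Q → Emb (Con ψ e) G} {A : Amal ψ e q}
  {s : ℕ → Setoid X.E} {u : ℕ → Setoid G.E} {t : ℕ → Setoid A.Z.E} {m : ℕ}

theorem xrevb_cov (A : Amal ψ e q) {ε : H.E} (hε : ε ≠ e) {x : A.Z.E} (hx : A.ψ'.e x = ε) :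
    ∃ a f, (A.ι a).e f = x ∧ ψ.e f = ε := by
  rcases A.cover_e x with ⟨y, rfl⟩ | ⟨a, f, rfl⟩
  · exact absurd (hx.symm.trans (A.j_e y)) hε
  · exact ⟨a, f, rfl, (A.ι_e a f).symm.trans hx⟩

theorem xrevb_uniq (A : Amal ψ e q) {ε : H.E} (hε : ε ≠ e) {a b : Q} {f f' : X.E}
    (hf : ψ.e f = ε) (h : (A.ι a).e f = (A.ι b).e f') : a = b ∧ f = f' := by
  rcases A.sep_e a b f f' h with rfl | h'
  · exact ⟨rfl, (A.ι a).e_inj h⟩
  · exact absurd (hf.symm.trans h') hε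

/-- the relation `r` inside every copy, on the edges over `ε` -/
def xrevbS (A : Amal ψ e q) {ε : H.E} (hε : ε ≠ e) (r : Setoid X.E) : Setoid A.Z.E where
  r x x' := x = x' ∨ ∃ a f f', (A.ι a).e f = x ∧ (A.ι a).e f' = x' ∧ ψ.e f = ε ∧ ψ.e f' = ε ∧
    r f f'
  iseqv := by
    refine ⟨fun _ => Or.inl rfl, ?_, ?_⟩
    · rintro x x' (rfl | ⟨a, f, f', h1, h2, h3, h4, h5⟩)
      · exact Or.inl rfl
      · exact Or.inr ⟨a, f', f, h2, h1, h4, h3, r.symm h5⟩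
    · rintro x y z (rfl | ⟨a, f, f', h1, h2, h3, h4, h5⟩) h
      · exact h
      · rcases h with rfl | ⟨b, g, g', k1, k2, k3, k4, k5⟩
        · exact Or.inr ⟨a, f, f', h1, h2, h3, h4, h5⟩
        · obtain ⟨rfl, rfl⟩ := xrevb_uniq A hε h4 (h2.trans k1.symm)
          exact Or.inr ⟨a, f, g', h1, k2, h3, k4, r.trans h5 k5⟩

theorem xrevb_of (A : Amal ψ e q) {ε : H.E} (hε : ε ≠ e) {r : Setoid X.E} (a : Q) {f f' : X.E}
    (hf : ψ.e f = ε) (hf' : ψ.e f' = ε) (h : r f f') :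
    xrevbS A hε r ((A.ι a).e f) ((A.ι a).e f') :=
  Or.inr ⟨a, f, f', rfl, rfl, hf, hf', h⟩

theorem xrevb_to (A : Amal ψ e q) {ε : H.E} (hε : ε ≠ e) {r : Setoid X.E} {a : Q} {f : X.E}
    {x : A.Z.E} (hf : ψ.e f = ε) (h : xrevbS A hε r x ((A.ι a).e f)) :
    ∃ f', (A.ι a).e f' = x ∧ ψ.e f' = ε ∧ r f' f := by
  rcases h with rfl | ⟨b, g, g', k1, k2, k3, k4, k5⟩
  · exact ⟨f, rfl, hf, r.refl f⟩
  · obtain ⟨rfl, rfl⟩ := xrevb_uniq A hε hf k2.symm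
    exact ⟨g, k1, k3, k5⟩

theorem xrevb_low (A : Amal ψ e q) {ε : H.E} (hε : ε ≠ e) {r r' : Setoid X.E} {g : ℕ}
    (h : ∀ z, (lg X (fun f => ψ.e f = ε) r r' z).Gir g) (z : A.Z.E) :
    (lg A.Z (fun x => A.ψ'.e x = ε) (xrevbS A hε r) (xrevbS A hε r') z).Gir g := by
  by_cases hz : A.ψ'.e z = ε
  · obtain ⟨a, z0, rfl, hz0⟩ := xrevb_cov A hε hz
    refine lg_gir (A.ι a) (fun x _ hx => xrevb_to A hε hz0 hx)
      (fun f f' hf hf' hr => xrevb_of A hε a hf hf' hr) (fun f f' _ hf' hr => ?_) (h z0)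
    obtain ⟨f1, h1, -, h3⟩ := xrevb_to A hε hf' hr
    rwa [(A.ι a).e_inj h1] at h3
  · intro l hl _ _ a ha
    obtain ⟨x, -, hx, hxz, -⟩ := hl.self ha
    refine absurd ?_ hz
    rcases hxz with rfl | ⟨b, g, g', -, k2, -, k4, -⟩
    · exact hx
    · rw [← k2, A.ι_e, k4]

omit [Finite K] in
theorem xrevb_same (hH : H.Lin) {ε : H.E} (hε : ε ≠ e) {k k' : K} (hk : H.On (H.inc ε k) e)
    (hk' : H.On (H.inc ε k') e) : k = k' := by
  by_contra hne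
  exact hε (hH ε e _ _ (fun h => hne (H.inc_inj ε h)) ⟨k, rfl⟩ ⟨k', rfl⟩ hk hk')

theorem xrevb_over (A : Amal ψ e q) {a b : Q} (hab : a ≠ b) {x y : X.V}
    (h : (A.ι a).v x = (A.ι b).v y) : ∃ w, A.j.v w = (A.ι a).v x := by
  rcases A.sep_v a b x y h with h' | ⟨v, rfl⟩
  · exact absurd h' hab
  · exact ⟨_, (A.comm_v a v).symm⟩

theorem xrevb_bag (A : Amal ψ e q) {a : Q} {x : X.V} {w : G.V} (h : (A.ι a).v x = A.j.v w) :
    ∃ v, (q a).v v = w := by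
  obtain ⟨v, rfl⟩ := A.shared_v a x w h
  exact ⟨v, A.j.v_inj ((A.comm_v a v).symm.trans h)⟩

theorem xrevb_top (h : TRel A s u t m) (hm : 1 ≤ m) {B : ℕ → Set I} (hZ : IsTrain A.Z t B m)
    (hG : ∀ y y', u 0 y y' → y = y') (hH : H.Lin) {w n g : ℕ}
    (hq : GoodL q (conS ψ e (s 0)) (u 0) (Hi (fun μ => cl ⁻¹' B μ) m 0) w n) (hn : g ≤ n)
    (hw : 2 * g ≤ w) {ε : H.E} (hε : ε ≠ e) {r : Setoid X.E}
    (hr : ∀ f f', ψ.e f = ε → ψ.e f' = ε → s 1 f f' → r f f') (z : A.Z.E) :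
    (lg A.Z (fun x => A.ψ'.e x = ε) (xrevbS A hε r) (t 1) z).Gir g := by
  classical
  obtain ⟨hc, hb, hac⟩ := hq
  refine gir_of_strict fun l hl l2 lg' hst => ?_
  let Pz : Quotient (xrevbS A hε r) → Q → Prop := fun c a =>
    ∃ f, ψ.e f = ε ∧ Quotient.mk _ ((A.ι a).e f) = c ∧ t 1 ((A.ι a).e f) z
  have hP1 : ∀ c c' a, Pz c a → Pz c' a → c = c' := by
    rintro _ _ a ⟨f, hf, rfl, h1⟩ ⟨f', hf', rfl, h2⟩
    exact Quotient.sound (xrevb_of A hε a hf hf'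
      (hr f f' hf hf' ((h.ι_c a 1 f f').1 ((t 1).trans h1 ((t 1).symm h2)))))
  have hM : ∀ v c, (lg A.Z (fun x => A.ψ'.e x = ε) (xrevbS A hε r) (t 1) z).M v c →
      ∃ a f k, ψ.e f = ε ∧ Quotient.mk _ ((A.ι a).e f) = c ∧ t 1 ((A.ι a).e f) z ∧
        (A.ι a).v (X.inc f k) = v := by
    rintro v c ⟨x, h1, h2, h3, k, h4⟩
    obtain ⟨a, f, rfl, hf⟩ := xrevb_cov A hε h2
    exact ⟨a, f, k, hf, h1, h3, ((A.ι a).inc_e f k).symm.trans h4⟩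
  have hM' : ∀ v c a, (lg A.Z (fun x => A.ψ'.e x = ε) (xrevbS A hε r) (t 1) z).M v c →
      Pz c a → ∃ x, (A.ι a).v x = v := by
    rintro v c a hv ⟨f', hf', h1, -⟩
    obtain ⟨b, f, k, hf, h2, -, h4⟩ := hM v c hv
    obtain ⟨f1, k1, k2, -⟩ := xrevb_to A hε hf' (Quotient.exact (h2.trans h1.symm))
    obtain ⟨rfl, -⟩ := xrevb_uniq A hε k2 k1
    exact ⟨_, h4⟩
  have hex : ∀ p ∈ l, ∃ y : (hg G (u 0) (Hi (fun μ => cl ⁻¹' B μ) m 0)).V × Q,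
      A.j.v y.1.1 = p.1 ∧ Pz p.2 y.2 ∧ H.On (H.inc e (G.vc y.1.1)) ε := by
    intro p hp
    obtain ⟨p', hp'⟩ := exists_step_snd hp
    obtain ⟨a, f, k, hf, h1, h2, h3⟩ := hM _ _ (hl.self hp)
    obtain ⟨b, f', k', hf', h1', h2', h3'⟩ := hM _ _ (hl.2 _ hp').2
    have hne : p'.2 ≠ p.2 := hst _ hp'
    have hab : a ≠ b := by
      rintro rfl
      exact hne (hP1 _ _ a ⟨f', hf', h1', h2'⟩ ⟨f, hf, h1, h2⟩)
    obtain ⟨y, hy⟩ := xrevb_over A hab (h3.trans h3'.symm)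
    have hcl : A.Z.vc p.1 ∈ B 0 := by
      refine hZ.cond 0 ((A.ι a).e f) ((A.ι b).e f') p.1 ⟨k, ((A.ι a).inc_e f k).trans h3⟩
        ⟨k', ((A.ι b).inc_e f' k').trans h3'⟩ (fun h0 => ?_) ((t 1).trans h2 ((t 1).symm h2'))
      exact hab (xrevb_uniq A hε hf (hZ.zero _ _ h0)).1
    have hy' : cl (G.vc y) ∈ B 0 := by
      have : A.Z.vc (A.j.v y) = cl (G.vc y) := A.j.vc_v y
      rwa [← this, hy, h3]
    refine ⟨(⟨y, 0, le_rfl, hm, hy'⟩, a), hy.trans h3, ⟨f, hf, h1, h2⟩, k, ?_⟩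
    rw [← hf, ψ.inc_e, ← A.ι_v a, ← hy]
    exact A.j_v y
  have hl0 : ∃ p, p ∈ l := by
    cases l with
    | nil => simp at l2
    | cons p _ => exact ⟨p, List.mem_cons_self⟩
  obtain ⟨p0, hp0⟩ := hl0
  have : Nonempty ((hg G (u 0) (Hi (fun μ => cl ⁻¹' B μ) m 0)).V × Q) := ⟨(hex p0 hp0).choose⟩
  choose! F hF1 hF2 hF3 using hex
  have hbag : ∀ p ∈ l, ∀ p' ∈ l,
      (lg A.Z (fun x => A.ψ'.e x = ε) (xrevbS A hε r) (t 1) z).M p'.1 p.2 →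
      ((q (F p).2).hg (hc _) (Hi (fun μ => cl ⁻¹' B μ) m 0)).Bag (.inl (F p').1) := by
    intro p hp p' hp' hpp
    obtain ⟨x, hx⟩ := hM' _ _ _ hpp (hF2 p hp)
    obtain ⟨v, hv⟩ := xrevb_bag A (hx.trans (hF1 p' hp').symm)
    refine (GHom.bag_inl _ _).2 ⟨⟨v, ?_⟩, Subtype.ext hv⟩
    rw [← (q (F p).2).vc_v v, hv]
    exact (F p').1.2
  have key := qc hb.b2 hac (l.map F) ?_ ?_ ?_ (by simpa using l2) (by simpa using lg'.trans hn)
    (by rw [List.length_map]; omega)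
  · obtain ⟨p1, hp1⟩ := exists_step_fst hp0
    have hm1 := (mem_of_mem_steps hp1).2
    have e1 := key _ (List.mem_map_of_mem hp0) _ (List.mem_map_of_mem hm1)
    exact hst _ hp1 (hP1 _ _ _ (hF2 p0 hp0) (e1 ▸ hF2 p1 hm1))
  · refine List.Nodup.of_map (fun y => A.j.v y.1) ?_
    rw [List.map_map, List.map_map]
    have := hl.1
    rwa [← List.map_congr_left (f := _) (g := Prod.fst) hF1] at this
  · intro p hp
    rw [steps_map] at hp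
    obtain ⟨p', hp', rfl⟩ := List.mem_map.1 hp
    obtain ⟨m1, m2⟩ := mem_of_mem_steps hp'
    exact ⟨hbag _ m1 _ m1 (hl.2 _ hp').1, hbag _ m1 _ m2 (hl.2 _ hp').2⟩
  · intro a ha b hb' hab
    obtain ⟨p, hp, rfl⟩ := List.mem_map.1 ha
    obtain ⟨p', hp', rfl⟩ := List.mem_map.1 hb'
    rintro ⟨d, ⟨y, h1, k, hk⟩, y', h1', k', hk'⟩
    obtain rfl := hG y y' (Quotient.exact (h1.trans h1'.symm))
    have e1 : G.vc (F p).1.1 = k := by rw [← hk]; exact G.vc_inc y k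
    have e2 : G.vc (F p').1.1 = k' := by rw [← hk']; exact G.vc_inc y k'
    have e3 := xrevb_same hH hε.symm (hF3 p hp) (hF3 p' hp')
    refine hab (Subtype.ext ?_)
    rw [← hk, ← hk', ← e1, ← e2, e3]

theorem rev_step (h : TRel A s u t m) (hm : 1 ≤ m) {B : ℕ → Set I} (hZ : IsTrain A.Z t B m)
    (hG : ∀ y y', u 0 y y' → y = y') (hH : H.Lin) {w n g : ℕ}
    (hq : GoodL q (conS ψ e (s 0)) (u 0) (Hi (fun μ => cl ⁻¹' B μ) m 0) w n) (hn : g ≤ n)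
    (hw : 2 * g ≤ w) {ε : H.E} (hε : ε ≠ e)
    (hr : Rev X (fun f => ψ.e f = ε) (s 1) (cl ⁻¹' B 0) g) :
    Rev A.Z (fun x => A.ψ'.e x = ε) (t 1) (cl ⁻¹' B 0) g := by
  obtain ⟨M, r, B0, hr⟩ := hr
  obtain ⟨r', h1, h2⟩ : ∃ r' : ℕ → Setoid A.Z.E, (∀ j, j ≤ M → r' j = xrevbS A hε (r j)) ∧
      r' (M + 1) = t 1 :=
    ⟨fun j => if j ≤ M then xrevbS A hε (r j) else t 1, fun j hj => if_pos hj,
      if_neg (by omega)⟩
  obtain ⟨B', h3, h4⟩ : ∃ B' : ℕ → Set K, (∀ j, j < M → B' j = B0 j) ∧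
      B' M = {k | cl k ∈ B 0 ∧ H.On (H.inc ε k) e} :=
    ⟨fun j => if j < M then B0 j else {k | cl k ∈ B 0 ∧ H.On (H.inc ε k) e},
      fun j hj => if_pos hj, if_neg (by omega)⟩
  refine ⟨M + 1, r', B', by omega, ?_, ?_, ?_, ?_, ?_, ?_, ?_, ?_⟩
  · rw [h1 0 (by omega)]
    rintro x x' - - (h0 | ⟨a, f, f', rfl, rfl, k3, k4, k5⟩)
    · exact h0
    · rw [hr.zero f f' k3 k4 k5]
  · intro j hj x x' _ _
    rw [h1 j (by omega)]
    rcases Nat.lt_succ_iff_lt_or_eq.1 hj with hj | rfl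
    · rw [h1 (j + 1) hj]
      rintro (h0 | ⟨a, f, f', rfl, rfl, k3, k4, k5⟩)
      · exact Or.inl h0
      · exact xrevb_of A hε a k3 k4 (hr.mono j hj f f' k3 k4 k5)
    · rw [h2]
      rintro (rfl | ⟨a, f, f', rfl, rfl, k3, k4, k5⟩)
      · exact (t 1).refl _
      · exact (h.ι_c a 1 f f').2 ((hr.last f f' k3 k4).1 k5)
  · intro x x' _ _
    rw [h2]
  · intro j hj
    rcases Nat.lt_succ_iff_lt_or_eq.1 hj with hj | rfl
    · rw [h3 j hj]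
      exact hr.sing j hj
    · rw [h4]
      exact fun k hk k' hk' => xrevb_same hH hε hk.2 hk'.2
  · intro j hj
    rcases Nat.lt_succ_iff_lt_or_eq.1 hj with hj | rfl
    · rw [h3 j hj]
      exact hr.sub j hj
    · rw [h4]
      exact fun k hk => hk.1
  · intro k hk
    obtain ⟨j, hj, hk'⟩ := hr.cov k hk
    exact ⟨j, by omega, by rwa [h3 j hj]⟩
  · intro j hj x x' k hx hx' hk
    rw [h1 j (by omega)]
    rcases Nat.lt_succ_iff_lt_or_eq.1 hj with hj | rfl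
    · rw [h1 (j + 1) hj, h3 j hj]
      rintro hn' (h0 | ⟨a, f, f', rfl, rfl, k3, k4, k5⟩)
      · exact absurd (Or.inl h0) hn'
      · refine hr.cond j hj f f' k k3 k4 ((A.ι a).v_inj ?_)
          (fun h0 => hn' (xrevb_of A hε a k3 k4 h0)) k5
        rw [← (A.ι a).inc_e, ← (A.ι a).inc_e, hk]
    · rw [h2, h4]
      intro hn' ht
      obtain ⟨a, f, rfl, hf⟩ := xrevb_cov A hε hx
      obtain ⟨b, f', rfl, hf'⟩ := xrevb_cov A hε hx'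
      have hab : a ≠ b := by
        rintro rfl
        exact hn' (xrevb_of A hε a hf hf' ((hr.last f f' hf hf').2 ((h.ι_c a 1 f f').1 ht)))
      refine ⟨?_, ?_⟩
      · rw [← A.Z.vc_inc ((A.ι a).e f) k]
        exact hZ.cond 0 _ _ _ ⟨k, rfl⟩ ⟨k, hk.symm⟩
          (fun h0 => hab (xrevb_uniq A hε hf (hZ.zero _ _ h0)).1) ht
      · rw [(A.ι a).inc_e, (A.ι b).inc_e] at hk
        obtain ⟨y, hy⟩ := xrevb_over A hab hk
        refine ⟨G.vc y, ?_⟩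
        rw [← hf, ψ.inc_e, ← A.ι_v a, ← hy]
        exact (A.j_v y).symm
  · intro j hj z
    rw [h1 j (by omega)]
    rcases Nat.lt_succ_iff_lt_or_eq.1 hj with hj | rfl
    · rw [h1 (j + 1) hj]
      exact xrevb_low A hε (hr.gir j hj) z
    · rw [h2]
      exact xrevb_top h hm hZ hG hH hq hn hw hε (fun f f' hf hf' => (hr.last f f' hf hf').2) z

end Pool.Agent.MP_1c0fc2_co.GR
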