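import Pool.Agent.MP_1c0fc2_co.GR.PStep
import Pool.Agent.MP_1c0fc2_co.GR.Close0
import Pool.Agent.MP_1c0fc2_co.GR.LevZ
import Pool.Agent.MP_1c0fc2_co.GR.RevB
import Pool.Agent.MP_1c0fc2_co.GR.Pic0
import Pool.Agent.MP_1c0fc2_co.GR.Phi

open Function

namespace Pool.Agent.MP_1c0fc2_co.GR

/-- level zero in one step of the partite construction -/
theorem xpct_zero {K I : Type} [Finite K] {cl : K → I} {F H : HG cl} {R : Type}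
    {h : R → Emb F H} (hH : H.Lin) (hs : ∀ r, (h r).Str) (Y : Pic (fun r => (h r).toHom))
    {e : H.E} {G : HG (id : K → K)} {Q : Type} [Finite Q] {q : Q → Emb (Con Y.ψ e) G}
    (A : Amal Y.ψ e q) {s : ℕ → Setoid F.E} {s' : ℕ → Setoid Y.X.E} {u : ℕ → Setoid G.E}
    {t : ℕ → Setoid A.Z.E} {B : ℕ → Set I} {m : ℕ} {γ : ℕ → ℕ} {b : Prop} {w n : ℕ}
    (hm : 1 ≤ m) (hb : b ∨ n + 1 ≤ 2) (hY : Up Y.φ s s' B m γ)
    (hq : Up q (fun μ => conS Y.ψ e (s' μ)) u (fun μ => cl ⁻¹' B μ) m γ)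
    (ht : TRel A s' u t m) (hZ : Up (A.pic Y).φ s t B m γ)
    (h0 : GoodL Y.φ (s 0) (s' 0) (Hi B m 0) w (n + 1))
    (hg : b → GoodL q (conS Y.ψ e (s' 0)) (u 0) (Hi (fun μ => cl ⁻¹' B μ) m 0) w n ∧
      (2 * (n + 1) ≤ w → (wg G (u 0)).Gir (n + 1))) :
    GoodL (A.pic Y).φ (s 0) (t 0) (Hi B m 0) w (n + 1) := by
  obtain ⟨hc, hbas, hac⟩ := h0
  have hq0 : ∀ a, Compat ((q a).up cl) (conS Y.ψ e (s' 0)) (u 0) := fun a => hq.cpt a 0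
  have hG := ht.gamal (μ := 0) hm hq0 (Hi B m 0)
  have hL := lev_zero hH hs Y e hY.tr.zero hc (Hi B m 0)
  have hc' : ∀ p, Compat ((A.pic Y).φ p) (s 0) (t 0) := fun p => hZ.cpt p 0
  have he : (fun p => ((A.pic Y).φ p).hg (hc' p) (Hi B m 0)) =
      prodSys (fun a => (A.ι a).hg (ht.ι_c a 0) (Hi B m 0))
        (fun p => (Y.φ p).hg (hc p) (Hi B m 0)) :=
    funext fun p => Emb.hg_comp (A.ι p.1) (Y.φ p.2) (ht.ι_c p.1 0) (hc p.2) (hc' p) _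
  refine ⟨hc', basic_zero hs (A.pic Y) hZ.lin hZ.tr.zero hc' _ ?_, ?_⟩
  · rw [he]
    exact hG.b2_zero hL hbas.b2
  · rcases hb with hb | hb
    · obtain ⟨h1, h2⟩ := hg hb
      rw [hi_preimage] at h1
      obtain ⟨_, h3, h4⟩ := h1.up
      rw [he]
      exact hG.ac_zero hL h3 h4 hac fun hw => gir_hg_of_wg (F := G.up cl) (h2 hw) _
    · exact AC.two _ w hb

/-- the partite construction for trains -/
theorem pc_train {b : Prop} {m : ℕ} {γ : ℕ → ℕ} {w n g : ℕ} (hm : 1 ≤ m) (hγ : ∀ μ, 2 ≤ γ μ)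
    (hn : g ≤ n) (hw : 2 * g ≤ w) (hb : b ∨ n + 1 ≤ 2) (h : Hor b m γ w n g) :
    St m γ w (n + 1) := by
  intro K I _ _ _ cl F s A hF hO κ _ _
  obtain ⟨H, R, _, φ, hR, hH, hs⟩ := phi F hO hF.lin κ
  obtain ⟨Y, ⟨t, h1, h2, -⟩, hY⟩ := pc (fun r => (φ r).toHom) κ hR
    (fun D Y => ∃ s' : ℕ → Setoid Y.X.E, Up Y.φ s s' A m γ ∧
      GoodL Y.φ (s 0) (s' 0) (Hi A m 0) w (n + 1) ∧
      (b → ∀ ε, ε ∉ D → Rev Y.X (fun f => Y.ψ.e f = ε) (s' 1) (cl ⁻¹' A 0) g))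
    (by
      obtain ⟨t, h1, h2⟩ := up_zero hF hm hγ R
      exact ⟨t, h1, h2 w (n + 1), fun _ ε _ => rev_zero φ ε (t 1) _ g⟩)
    (by
      rintro D e Y he ⟨s', h1, h2, h3⟩
      obtain ⟨G, u, Q, _, q, hr, hq, hg⟩ := h K (Con Y.ψ e) (fun μ => conS Y.ψ e (s' μ))
        (fun μ => cl ⁻¹' A μ) ((h1.dom hF).con Y.ψ e) (con_noIso Y.ψ e)
        (fun hb => (h3 hb e he).con) κ
      refine ⟨G, Q, ‹_›, q, hr, fun B => ?_⟩
      obtain ⟨t, ht, hZ⟩ := up_step hH Y B hm hγ h1 hq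
      refine ⟨t, hZ, xpct_zero hH hs Y B hm hb h1 hq ht hZ h2 hg, fun hb ε hε => ?_⟩
      exact rev_step ht hm hZ.tr hq.tr.zero hH (hg hb).1 hn hw
        (fun e' => hε (e' ▸ Set.mem_insert _ _)) (h3 hb ε fun h' => hε (Set.mem_insert_of_mem _ h')))
  exact ⟨Y.X, t, Y.P, inferInstance, Y.φ, hY, h1, h2⟩

end Pool.Agent.MP_1c0fc2_co.GR
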