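import Pool.Agent.MP_1c0fc2_co.GR.TRelE
import Pool.Agent.MP_1c0fc2_co.GR.TRelG
import Pool.Agent.MP_1c0fc2_co.GR.CloseC

open Function

namespace Pool.Agent.MP_1c0fc2_co.GR

variable {K I : Type} [Finite K] {cl : K → I} {F H : HG cl} {R : Type} {h : R → Hom F H}

/-- the levels above zero in one step of the partite construction -/
theorem up_step (hH : H.Lin) (Y : Pic h) {e : H.E} {G : HG (id : K → K)} {Q : Type} [Finite Q]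
    {q : Q → Emb (Con Y.ψ e) G} (A : Amal Y.ψ e q) {s : ℕ → Setoid F.E}
    {s' : ℕ → Setoid Y.X.E} {u : ℕ → Setoid G.E} {B : ℕ → Set I} {m : ℕ} {γ : ℕ → ℕ}
    (hm : 1 ≤ m) (hγ : ∀ μ, 2 ≤ γ μ) (hY : Up Y.φ s s' B m γ)
    (hq : Up q (fun μ => conS Y.ψ e (s' μ)) u (fun μ => cl ⁻¹' B μ) m γ) :
    ∃ t : ℕ → Setoid A.Z.E, TRel A s' u t m ∧ Up (A.pic Y).φ s t B m γ := by
  obtain ⟨t, ht⟩ := trel_exists A hm hY.tr hq.tr hq.cpt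
  have hc : ∀ (p : Q × Y.P) μ, Compat ((A.pic Y).φ p) (s μ) (t μ) :=
    fun p μ => Compat.comp (ht.ι_c p.1 μ) (hY.cpt p.2 μ)
  refine ⟨t, ht, ht.isTrain hY.tr hq.tr fun μ h1 h2 => ⟨_, _, hq.good μ h1 h2⟩,
    A.lin hH hY.lin hq.lin, hc, fun μ h1 h2 => ⟨fun p => hc p μ, ?_⟩⟩
  have hg := hq.good μ h1 h2
  rw [hi_preimage] at hg
  obtain ⟨c1, b1, a1⟩ := hg.up
  obtain ⟨c2, b2, a2⟩ := hY.good μ h1 h2
  have ga := ht.gamal h2 c1 (Hi B m μ)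
  have hw : 4 ≤ 2 * γ μ := by have := hγ μ; omega
  have e : (fun p : Q × Y.P => ((A.pic Y).φ p).hg (hc p μ) (Hi B m μ)) =
      prodSys (fun a => (A.ι a).hg (ht.ι_c a μ) (Hi B m μ))
        fun p => (Y.φ p).hg (c2 p) (Hi B m μ) :=
    funext fun p => Emb.hg_comp (A.ι p.1) (Y.φ p.2) (ht.ι_c p.1 μ) (c2 p.2) _ _
  exact e ▸ ⟨ga.basic b1 (a1.mono hw hw) b2, ga.ac b1 a1 hw b2 a2⟩

end Pool.Agent.MP_1c0fc2_co.GR
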