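import Pool.Agent.MP_1c0fc2_co.GR.TrainA

open Function

namespace Pool.Agent.MP_1c0fc2_co.GR

variable {K I : Type} [Finite K] {cl : K → I}

omit [Finite K] in
/-- local girth can be moved along an embedding that covers the relevant edges -/
theorem lg_gir {F H : HG cl} (φ : Emb F H) {O : F.E → Prop} {O' : H.E → Prop}
    {r r' : Setoid F.E} {t t' : Setoid H.E} {z : F.E} {z' : H.E} {g : ℕ}
    (hcov : ∀ x, O' x → t' x z' → ∃ f, φ.e f = x ∧ O f ∧ r' f z)
    (hr : ∀ f f', O f → O f' → r f f' → t (φ.e f) (φ.e f'))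
    (hr' : ∀ f f', O f → O f' → t (φ.e f) (φ.e f') → r f f')
    (h : (lg F O r r' z).Gir g) : (lg H O' t t' z').Gir g := by
  intro l hl h2 hg a₀ ha₀
  have h1 : ∀ a ∈ l, ∃ p : F.V × F.E, φ.v p.1 = a.1 ∧ Quotient.mk t (φ.e p.2) = a.2 ∧ O p.2 ∧
      r' p.2 z ∧ F.On p.1 p.2 := by
    intro a ha
    obtain ⟨x, e1, e2, e3, k, e4⟩ := hl.self ha
    obtain ⟨f, rfl, e5, e6⟩ := hcov x e2 e3
    exact ⟨(F.inc f k, f), (φ.inc_e f k).symm.trans e4, e1, e5, e6, k, rfl⟩
  have : Nonempty (F.V × F.E) := ⟨(h1 a₀ ha₀).choose⟩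
  choose! c c1 c2 c3 c4 c5 using h1
  let m : H.V × Quotient t → F.V × Quotient r := fun a => ((c a).1, Quotient.mk r (c a).2)
  have hw : (lg F O r r' z).WCyc (List.map m l) := by
    refine ⟨List.Nodup.of_map φ.v ?_, fun p' hp' => ?_⟩
    · have e : List.map φ.v (List.map Prod.fst (List.map m l)) = List.map Prod.fst l := by
        rw [List.map_map, List.map_map]
        exact List.map_congr_left c1
      exact e ▸ hl.1
    · have hp'' : p' ∈ (steps l).map (Prod.map m m) := steps_map m l ▸ hp'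
      obtain ⟨p, hp, rfl⟩ := List.mem_map.1 hp''
      obtain ⟨m1, m2⟩ := mem_of_mem_steps hp
      refine ⟨⟨(c p.1).2, rfl, c3 _ m1, c4 _ m1, c5 _ m1⟩, ?_⟩
      obtain ⟨x, e1, e2, e3, e4⟩ := (hl.2 p hp).2
      obtain ⟨f, rfl, e5, e6⟩ := hcov x e2 e3
      refine ⟨f, Quotient.sound (hr' _ _ e5 (c3 _ m1)
        (Quotient.exact (e1.trans (c2 _ m1).symm))), e5, e6, φ.on.1 ?_⟩
      exact (c1 _ m2).symm ▸ e4
  intro b hb
  have h3 := h _ hw (h2.trans (List.length_map m).ge) ((List.length_map m).le.trans hg) _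
    (List.mem_map_of_mem ha₀) _
    (List.mem_map_of_mem hb)
  exact (c2 _ ha₀).symm.trans ((Quotient.sound
    (hr _ _ (c3 _ ha₀) (c3 _ hb) (Quotient.exact h3))).trans (c2 _ hb))

/-- pairwise disjoint edges have a revision -/
theorem rev_of_disjoint (X : HG cl) (O : X.E → Prop)
    (hO : ∀ f f' v, O f → O f' → X.On v f → X.On v f' → f = f') (s1 : Setoid X.E) (A0 : Set K)
    (g : ℕ) : Rev X O s1 A0 g := by
  refine ⟨Nat.card K + 1, fun j => if j < Nat.card K + 1 then ⊥ else s1,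
    fun j => {k | (Finite.equivFin K k : ℕ) = j} ∩ A0, Nat.succ_pos _, ?_, ?_, ?_, ?_, ?_, ?_,
    ?_, ?_⟩
  · intro e e' _ _ h
    rw [if_pos (Nat.succ_pos _)] at h
    exact h
  · intro j hj e e' _ _ h
    rw [if_pos hj] at h
    obtain rfl : e = e' := h
    exact Setoid.refl' _ _
  · intro e e' _ _
    rw [if_neg (lt_irrefl _)]
  · intro j _ k hk k' hk'
    exact (Finite.equivFin K).injective (Fin.ext (hk.1.trans hk'.1.symm))
  · exact fun j _ => Set.inter_subset_right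
  · exact fun k hk => ⟨_, Nat.lt_succ_of_lt (Finite.equivFin K k).2, rfl, hk⟩
  · intro j _ e e' k he he' h hn _
    obtain rfl := hO e e' _ he he' ⟨k, rfl⟩ ⟨k, h.symm⟩
    exact absurd (Setoid.refl' _ _) hn
  · intro j _ z l hl _ _
    refine const_of_steps Prod.snd fun p hp => ?_
    obtain ⟨x, e1, e2, -, e4⟩ := (hl.2 p hp).2
    obtain ⟨y, f1, f2, -, f4⟩ := hl.self (mem_of_mem_steps hp).2
    obtain rfl := hO x y _ e2 f2 e4 f4
    exact e1.symm.trans f1

theorem rev_zero {F H : HG cl} {R : Type} [Finite R] (h : R → Emb F H) (ε : H.E)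
    (s1 : Setoid (F.mul R).E) (A0 : Set K) (g : ℕ) :
    Rev (F.mul R) (fun f => (pic0 (fun r => (h r).toHom)).ψ.e f = ε) s1 A0 g := by
  refine rev_of_disjoint _ _ ?_ s1 A0 g
  rintro ⟨a, f⟩ ⟨b, f'⟩ v h1 h2 ⟨k, e1⟩ ⟨k', e2⟩
  obtain rfl : a = b := congrArg Prod.fst (e1.trans e2.symm)
  obtain rfl : f = f' := (h a).e_inj (h1.trans h2.symm)
  rfl

theorem Rev.con {X H : HG cl} {ψ : Hom X H} {e : H.E} {s1 : Setoid X.E} {A0 : Set K} {g : ℕ}
    (h : Rev X (fun f => ψ.e f = e) s1 A0 g) :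
    Rev (Con ψ e) (fun _ => True) (conS ψ e s1) A0 g := by
  obtain ⟨M, r, B, h⟩ := h
  refine ⟨M, fun j => conS ψ e (r j), B, h.pos,
    fun x y _ _ hr => Subtype.ext (h.zero _ _ x.2 y.2 hr),
    fun j hj x y _ _ hr => h.mono j hj _ _ x.2 y.2 hr, fun x y _ _ => h.last _ _ x.2 y.2,
    h.sing, h.sub, h.cov, fun j hj x y k _ _ hk => h.cond j hj _ _ k x.2 y.2
      (congrArg (fun p => p.1.2) hk), fun j hj z => ?_⟩
  refine (h.gir j hj z.1).pull ⟨(conEmb ψ e).v, Quotient.map Subtype.val fun _ _ hab => hab,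
    (conEmb ψ e).v_inj, fun a b => ?_, ?_⟩
  · induction a using Quotient.inductionOn
    induction b using Quotient.inductionOn
    intro hab
    exact Quotient.sound (Quotient.exact hab :)
  · rintro x _ ⟨f, rfl, -, hf, k, rfl⟩
    exact ⟨f.1, rfl, f.2, hf, k, rfl⟩

end Pool.Agent.MP_1c0fc2_co.GR
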