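import Pool.Agent.MP_1c0fc2_co.GR.AmalE
import Pool.Agent.MP_1c0fc2_co.GR.TrainA

open Function

namespace Pool.Agent.MP_1c0fc2_co.GR

variable {K I : Type} [Finite K] {cl : K → I} {X H : HG cl} {ψ : Hom X H} {e : H.E}
  {G : HG (id : K → K)} {Q : Type} {q : Q → Emb (Con ψ e) G}

/-- an edge of the amalgam tied to an edge of `G` -/
def xtreleTie (A : Amal ψ e q) (r : Setoid X.E) (x : A.Z.E) (y : G.E) : Prop :=
  x = A.j.e y ∨ ∃ a f, ∃ f0 : (Con ψ e).E, x = (A.ι a).e f ∧ r f f0.1 ∧ y = (q a).e f0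

/-- the generated relation -/
def xtreleRel (A : Amal ψ e q) (r : Setoid X.E) (w : Setoid G.E) (x x' : A.Z.E) : Prop :=
  (∃ y y', xtreleTie A r x y ∧ xtreleTie A r x' y' ∧ w y y') ∨
    ∃ a f f', x = (A.ι a).e f ∧ x' = (A.ι a).e f' ∧ r f f'

section
variable {A : Amal ψ e q} {r : Setoid X.E} {w : Setoid G.E}

theorem xtrele_comm (A : Amal ψ e q) (a : Q) {f : X.E} (h : ψ.e f = e) :
    (A.ι a).e f = A.j.e ((q a).e ⟨f, h⟩) := A.comm_e a ⟨f, h⟩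

theorem xtrele_a {a : Q} {f : X.E} {y : G.E} (h : (A.ι a).e f = A.j.e y) :
    ∃ h0 : ψ.e f = e, y = (q a).e ⟨f, h0⟩ := by
  have h0 : ψ.e f = e := by rw [← A.ι_e a, h, A.j_e]
  exact ⟨h0, A.j.e_inj (h.symm.trans (xtrele_comm A a h0))⟩

theorem xtrele_b (hq : ∀ a f f', w ((q a).e f) ((q a).e f') ↔ r f.1 f'.1) {a : Q} {f : X.E}
    {y : G.E} (h : xtreleTie A r ((A.ι a).e f) y) :
    ∃ f0 : (Con ψ e).E, r f f0.1 ∧ w y ((q a).e f0) := by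
  rcases h with h | ⟨b, f', f0, h, h1, rfl⟩
  · obtain ⟨h0, rfl⟩ := xtrele_a h
    exact ⟨⟨f, h0⟩, r.refl _, w.refl _⟩
  · rcases A.sep_e _ _ _ _ h with rfl | h0
    · obtain rfl := (A.ι a).e_inj h
      exact ⟨f0, h1, w.refl _⟩
    · obtain ⟨h2, h3⟩ := xtrele_a (h.symm.trans (xtrele_comm A a h0))
      refine ⟨⟨f, h0⟩, r.refl _, ?_⟩
      rw [h3]
      exact (hq _ _ _).2 (r.symm h1)

theorem xtrele_c (hq : ∀ a f f', w ((q a).e f) ((q a).e f') ↔ r f.1 f'.1) {x : A.Z.E}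
    {y y' : G.E} (h : xtreleTie A r x y) (h' : xtreleTie A r x y') : w y y' := by
  rcases h with rfl | ⟨a, f, f0, rfl, h1, rfl⟩
  · rcases h' with h' | ⟨a, f, f0, h', h1, rfl⟩
    · obtain rfl := A.j.e_inj h'
      exact w.refl _
    · obtain ⟨h0, rfl⟩ := xtrele_a h'.symm
      exact (hq _ _ _).2 h1
  · obtain ⟨f1, h2, h3⟩ := xtrele_b hq h'
    exact w.trans ((hq _ _ _).2 (r.trans (r.symm h1) h2)) (w.symm h3)

theorem xtrele_d (hq : ∀ a f f', w ((q a).e f) ((q a).e f') ↔ r f.1 f'.1) {a : Q} {f f' : X.E}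
    {y : G.E} (h : xtreleTie A r ((A.ι a).e f) y) (h' : r f f') :
    ∃ y', xtreleTie A r ((A.ι a).e f') y' ∧ w y y' := by
  obtain ⟨f0, h1, h2⟩ := xtrele_b hq h
  exact ⟨_, Or.inr ⟨a, f', f0, rfl, r.trans (r.symm h') h1, rfl⟩, h2⟩

theorem xtrele_refl (x : A.Z.E) : xtreleRel A r w x x := by
  rcases A.cover_e x with ⟨y, rfl⟩ | ⟨a, f, rfl⟩
  · exact Or.inl ⟨y, y, Or.inl rfl, Or.inl rfl, w.refl _⟩
  · exact Or.inr ⟨a, f, f, rfl, rfl, r.refl _⟩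

theorem xtrele_symm {x x' : A.Z.E} (h : xtreleRel A r w x x') : xtreleRel A r w x' x := by
  rcases h with ⟨y, y', h1, h2, h3⟩ | ⟨a, f, f', h1, h2, h3⟩
  · exact Or.inl ⟨y', y, h2, h1, w.symm h3⟩
  · exact Or.inr ⟨a, f', f, h2, h1, r.symm h3⟩

theorem xtrele_trans (hq : ∀ a f f', w ((q a).e f) ((q a).e f') ↔ r f.1 f'.1)
    {x x' x'' : A.Z.E} (h : xtreleRel A r w x x') (h' : xtreleRel A r w x' x'') :
    xtreleRel A r w x x'' := by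
  rcases h with ⟨y, y', h1, h2, h3⟩ | ⟨a, f, f', rfl, rfl, h3⟩
  · rcases h' with ⟨z, z', k1, k2, k3⟩ | ⟨b, g, g', rfl, rfl, k3⟩
    · exact Or.inl ⟨y, z', h1, k2, w.trans h3 (w.trans (xtrele_c hq h2 k1) k3)⟩
    · obtain ⟨z, k1, k2⟩ := xtrele_d hq h2 k3
      exact Or.inl ⟨y, z, h1, k1, w.trans h3 k2⟩
  · rcases h' with ⟨z, z', k1, k2, k3⟩ | ⟨b, g, g', k1, rfl, k3⟩
    · obtain ⟨y, h1, h2⟩ := xtrele_d hq k1 (r.symm h3)
      exact Or.inl ⟨y, z', h1, k2, w.trans (w.symm h2) k3⟩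
    · rcases A.sep_e _ _ _ _ k1 with rfl | h0
      · obtain rfl := (A.ι a).e_inj k1
        exact Or.inr ⟨a, f, g', rfl, rfl, r.trans h3 k3⟩
      · obtain ⟨z, k4, k5⟩ := xtrele_d (A := A) hq
          (Or.inl (k1.symm.trans (xtrele_comm A a h0))) k3
        exact Or.inl ⟨_, z, Or.inr ⟨a, f, ⟨f', h0⟩, rfl, h3, rfl⟩, k4, k5⟩

theorem xtrele_ι (hq : ∀ a f f', w ((q a).e f) ((q a).e f') ↔ r f.1 f'.1) {a : Q} {f f' : X.E}
    (h : xtreleRel A r w ((A.ι a).e f) ((A.ι a).e f')) : r f f' := by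
  rcases h with ⟨y, y', h1, h2, h3⟩ | ⟨b, g, g', h1, h2, h3⟩
  · obtain ⟨f0, k1, k2⟩ := xtrele_b hq h1
    obtain ⟨f1, k3, k4⟩ := xtrele_b hq h2
    exact r.trans k1 (r.trans ((hq _ _ _).1 (w.trans (w.symm k2) (w.trans h3 k4))) (r.symm k3))
  · by_cases hab : a = b
    · subst hab
      obtain rfl := (A.ι a).e_inj h1
      obtain rfl := (A.ι a).e_inj h2
      exact h3
    · have h4 := (A.sep_e _ _ _ _ h1).resolve_left hab
      have h5 := (A.sep_e _ _ _ _ h2).resolve_left hab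
      obtain ⟨k1, k2⟩ := xtrele_a (h1.symm.trans (xtrele_comm A a h4))
      obtain ⟨k3, k4⟩ := xtrele_a (h2.symm.trans (xtrele_comm A a h5))
      refine (hq a ⟨f, h4⟩ ⟨f', h5⟩).1 ?_
      rw [k2, k4]
      exact (hq _ _ _).2 h3

theorem xtrele_j (hq : ∀ a f f', w ((q a).e f) ((q a).e f') ↔ r f.1 f'.1) {y y' : G.E}
    (h : xtreleRel A r w (A.j.e y) (A.j.e y')) : w y y' := by
  rcases h with ⟨z, z', h1, h2, h3⟩ | ⟨b, g, g', h1, h2, h3⟩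
  · exact w.trans (xtrele_c hq (Or.inl rfl) h1) (w.trans h3 (xtrele_c hq h2 (Or.inl rfl)))
  · obtain ⟨k1, rfl⟩ := xtrele_a h1.symm
    obtain ⟨k2, rfl⟩ := xtrele_a h2.symm
    exact (hq _ _ _).2 h3

theorem xtrele_mono {r' : Setoid X.E} {w' : Setoid G.E} (hr : ∀ f f', r f f' → r' f f')
    (hw : ∀ f f', w f f' → w' f f') {x x' : A.Z.E} (h : xtreleRel A r w x x') :
    xtreleRel A r' w' x x' := by
  have key : ∀ x y, xtreleTie A r x y → xtreleTie A r' x y := by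
    rintro x y (h | ⟨a, f, f0, h1, h2, h3⟩)
    · exact Or.inl h
    · exact Or.inr ⟨a, f, f0, h1, hr _ _ h2, h3⟩
  rcases h with ⟨y, y', h1, h2, h3⟩ | ⟨a, f, f', h1, h2, h3⟩
  · exact Or.inl ⟨y, y', key _ _ h1, key _ _ h2, hw _ _ h3⟩
  · exact Or.inr ⟨a, f, f', h1, h2, hr _ _ h3⟩

theorem xtrele_zero (hr : ∀ f f', r f f' → f = f') (hw : ∀ f f', w f f' → f = f')
    {x x' : A.Z.E} (h : xtreleRel A r w x x') : x = x' := by
  have key : ∀ x y, xtreleTie A r x y → x = A.j.e y := by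
    rintro x y (h | ⟨a, f, f0, rfl, h2, rfl⟩)
    · exact h
    · rw [hr _ _ h2]
      exact A.comm_e a f0
  rcases h with ⟨y, y', h1, h2, h3⟩ | ⟨a, f, f', rfl, rfl, h3⟩
  · rw [key _ _ h1, key _ _ h2, hw _ _ h3]
  · rw [hr _ _ h3]

end

theorem trel_exists (A : Amal ψ e q) {s : ℕ → Setoid X.E} {u : ℕ → Setoid G.E} {B : ℕ → Set I}
    {B' : ℕ → Set K} {m : ℕ} (hm : 1 ≤ m) (hX : IsTrain X s B m) (hG : IsTrain G u B' m)
    (hq : ∀ a μ, Compat (q a) (conS ψ e (s μ)) (u μ)) : ∃ t, TRel A s u t m := by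
  have hq' : ∀ μ a f f', u μ ((q a).e f) ((q a).e f') ↔ s μ f.1 f'.1 := fun μ a => hq a μ
  refine ⟨fun μ => ⟨fun x x' => m ≤ μ ∨ xtreleRel A (s μ) (u μ) x x',
    fun x => Or.inr (xtrele_refl x), fun h => h.imp_right xtrele_symm, fun h h' => h.elim Or.inl
      fun h1 => h'.imp_right (xtrele_trans (hq' μ) h1)⟩, fun a μ f f' => ⟨fun h => ?_, fun h => ?_⟩,
    fun μ y y' => ⟨fun h => ?_, fun h => ?_⟩, fun μ hμ a f y h => ?_, fun μ hμ a b f f' h => ?_,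
    fun x x' h => ?_, fun μ x x' h => ?_, fun μ hμ x x' => Or.inl hμ⟩
  · exact h.elim (fun h => hX.top μ h _ _) (xtrele_ι (hq' μ))
  · exact Or.inr (Or.inr ⟨a, f, f', rfl, rfl, h⟩)
  · exact h.elim (fun h => hG.top μ h _ _) (xtrele_j (hq' μ))
  · exact Or.inr (Or.inl ⟨y, y', Or.inl rfl, Or.inl rfl, h⟩)
  · rcases h with h | ⟨z, -, h1, -⟩ | ⟨b, g, g', h1, h2, h3⟩
    · omega
    · obtain ⟨f0, k1, -⟩ := xtrele_b (hq' μ) h1
      exact ⟨f0.1, f0.2, k1⟩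
    · rcases A.sep_e _ _ _ _ h1 with rfl | h0
      · obtain rfl := (A.ι a).e_inj h1
        exact ⟨g', (xtrele_a h2.symm).1, h3⟩
      · exact ⟨f, h0, (s μ).refl _⟩
  · rcases h with h | ⟨z, -, h1, -⟩ | ⟨c, g, g', h1, h2, h3⟩
    · omega
    · obtain ⟨f0, k1, -⟩ := xtrele_b (hq' μ) h1
      exact Or.inr ⟨f0.1, f0.2, k1⟩
    · rcases A.sep_e _ _ _ _ h1 with rfl | h0
      · obtain rfl := (A.ι a).e_inj h1
        exact (A.sep_e _ _ _ _ h2.symm).imp_right fun h0 => ⟨g', h0, h3⟩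
      · exact Or.inr ⟨f, h0, (s μ).refl _⟩
  · rcases h with h | h
    · omega
    · exact xtrele_zero hX.zero hG.zero h
  · exact h.imp (fun h => by omega) (xtrele_mono (hX.mono μ) (hG.mono μ))

end Pool.Agent.MP_1c0fc2_co.GR
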